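import Pool.Agent.P.MP_c3da96_co.Iface

namespace Pool.Agent.P.MP_c3da96_co

open Matrix

section basic
variable {ι : Type*} {deg : ι → ℤ}

theorem hl_homV_zero (d : ℤ) : HomV deg d (0 : ι → ℝ) := fun _ h => (h rfl).elim

theorem hl_homV_add {d : ℤ} {v w : ι → ℝ} (hv : HomV deg d v) (hw : HomV deg d w) :
    HomV deg d (v + w) := by
  intro i hi
  by_cases h : v i = 0
  · apply hw i
    intro h'
    apply hi
    simp [h, h']
  · exact hv i h

theorem hl_homV_smul {d : ℤ} {v : ι → ℝ} (c : ℝ) (hv : HomV deg d v) : HomV deg d (c • v) := by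
  intro i hi
  apply hv i
  intro h
  apply hi
  simp [h]

theorem hl_homV_neg {d : ℤ} {v : ι → ℝ} (hv : HomV deg d v) : HomV deg d (-v) := by
  intro i hi
  apply hv i
  intro h
  apply hi
  simp [h]

theorem hl_homV_sub {d : ℤ} {v w : ι → ℝ} (hv : HomV deg d v) (hw : HomV deg d w) :
    HomV deg d (v - w) := by
  rw [sub_eq_add_neg]
  exact hl_homV_add hv (hl_homV_neg hw)

/-- the homogeneous vectors of a given degree -/
def hlW (deg : ι → ℤ) (d : ℤ) : Submodule ℝ (ι → ℝ) where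
  carrier := {v | HomV deg d v}
  add_mem' := fun hv hw => hl_homV_add hv hw
  zero_mem' := hl_homV_zero d
  smul_mem' := fun c _ hv => hl_homV_smul c hv

theorem hl_mem_W {d : ℤ} {v : ι → ℝ} : v ∈ hlW deg d ↔ HomV deg d v := Iff.rfl

variable [Fintype ι]

theorem hl_homM_mulVec {κ : Type*} {deg' : κ → ℤ} {e d : ℤ} {T : Matrix κ ι ℝ}
    (hT : HomM deg deg' e T) {v : ι → ℝ} (hv : HomV deg d v) : HomV deg' (d + e) (T *ᵥ v) := by
  intro j hj
  have : ∃ i, T j i * v i ≠ 0 := by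
    by_contra hc
    push Not at hc
    apply hj
    simp only [Matrix.mulVec, dotProduct]
    exact Finset.sum_eq_zero (fun i _ => hc i)
  obtain ⟨i, hi⟩ := this
  have h1 := hT j i (left_ne_zero_of_mul hi)
  have h2 := hv i (right_ne_zero_of_mul hi)
  rw [h1, h2]

variable [DecidableEq ι] {G L : Matrix ι ι ℝ} {n : ℤ}

theorem Lef.hl_G (hLef : Lef deg G L) {d : ℤ} {v : ι → ℝ} (hv : HomV deg d v) :
    HomV deg (-d) (G *ᵥ v) := by
  intro j hj
  have := hl_homM_mulVec hLef.homG hv j hj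
  simp only [add_zero] at this
  omega

theorem Lef.hl_L (hLef : Lef deg G L) {d : ℤ} {v : ι → ℝ} (hv : HomV deg d v) :
    HomV deg (d + 2) (L *ᵥ v) := hl_homM_mulVec hLef.homL hv

theorem Lef.hl_Lpow (hLef : Lef deg G L) {d : ℤ} {v : ι → ℝ} (hv : HomV deg d v) (k : ℕ) :
    HomV deg (d + 2 * k) ((L ^ k) *ᵥ v) := by
  induction k with
  | zero => simpa using hv
  | succ k ih =>
    rw [pow_succ', ← Matrix.mulVec_mulVec]
    have := hLef.hl_L ih
    have e : d + 2 * (k : ℤ) + 2 = d + 2 * ((k + 1 : ℕ) : ℤ) := by push_cast; ring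
    rwa [e] at this

theorem Lef.hl_G_inj (hLef : Lef deg G L) {v : ι → ℝ} (hv : G *ᵥ v = 0) : v = 0 := by
  have := Matrix.mulVec_injective_iff_isUnit.2 hLef.unit
  apply this
  simpa using hv

/-- symmetry of the form -/
theorem Lef.hl_symm (hLef : Lef deg G L) (v w : ι → ℝ) : v ⬝ᵥ G *ᵥ w = w ⬝ᵥ G *ᵥ v := by
  rw [Matrix.dotProduct_mulVec, ← Matrix.mulVec_transpose, hLef.symm, dotProduct_comm]

/-- self-adjointness of `L` -/
theorem Lef.hl_adj (hLef : Lef deg G L) (v w : ι → ℝ) :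
    (L *ᵥ v) ⬝ᵥ G *ᵥ w = v ⬝ᵥ G *ᵥ (L *ᵥ w) := by
  rw [Matrix.mulVec_mulVec, ← hLef.adj, ← Matrix.mulVec_mulVec,
    Matrix.dotProduct_mulVec v Lᵀ, Matrix.vecMul_transpose]

theorem Lef.hl_adj_pow (hLef : Lef deg G L) (k : ℕ) (v w : ι → ℝ) :
    ((L ^ k) *ᵥ v) ⬝ᵥ G *ᵥ w = v ⬝ᵥ G *ᵥ ((L ^ k) *ᵥ w) := by
  induction k generalizing w with
  | zero => simp
  | succ k ih =>
    conv_lhs => rw [pow_succ', ← Matrix.mulVec_mulVec]
    rw [hLef.hl_adj, ih, Matrix.mulVec_mulVec w (L ^ k) L, ← pow_succ]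

theorem hl_pow_succ (k : ℕ) (v : ι → ℝ) : (L ^ (k + 1)) *ᵥ v = L *ᵥ ((L ^ k) *ᵥ v) := by
  rw [pow_succ', ← Matrix.mulVec_mulVec]

theorem hl_pow_succ' (k : ℕ) (v : ι → ℝ) : (L ^ (k + 1)) *ᵥ v = (L ^ k) *ᵥ (L *ᵥ v) := by
  rw [pow_succ, ← Matrix.mulVec_mulVec]

theorem HR.hl (h : HR n deg G L) : HL deg L := by
  intro i v hv h0
  by_contra hne
  have h1 : (L ^ (i + 1)) *ᵥ v = 0 := by rw [hl_pow_succ, h0, Matrix.mulVec_zero]
  have := h.2 i v hv hne h1
  rw [← Matrix.mulVec_mulVec, h0] at this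
  simp at this

theorem Lef.hl_finrank_le (hLef : Lef deg G L) (d : ℤ) :
    Module.finrank ℝ (hlW deg d) ≤ Module.finrank ℝ (hlW deg (-d)) := by
  let f : hlW deg d →ₗ[ℝ] hlW deg (-d) :=
    (Matrix.toLin' G).restrict (fun v hv => hLef.hl_G hv)
  have hf : Function.Injective f := by
    rw [injective_iff_map_eq_zero]
    intro v hv
    apply Subtype.ext
    apply hLef.hl_G_inj
    exact congrArg Subtype.val hv
  exact LinearMap.finrank_le_finrank_of_injective hf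

theorem HL.surj (hLef : Lef deg G L) (h : HL deg L) (i : ℕ) (w : ι → ℝ) (hw : HomV deg i w) :
    ∃ v, HomV deg (-(i : ℤ)) v ∧ (L ^ i) *ᵥ v = w := by
  have hmap : ∀ v ∈ hlW deg (-(i : ℤ)), Matrix.toLin' (L ^ i) v ∈ hlW deg (i : ℤ) := by
    intro v hv
    have := hLef.hl_Lpow hv i
    have e : -(i : ℤ) + 2 * i = i := by ring
    rw [e] at this
    exact this
  let f : hlW deg (-(i : ℤ)) →ₗ[ℝ] hlW deg (i : ℤ) := (Matrix.toLin' (L ^ i)).restrict hmap
  have hf : Function.Injective f := by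
    rw [injective_iff_map_eq_zero]
    intro v hv
    apply Subtype.ext
    exact h i v.1 v.2 (congrArg Subtype.val hv)
  have hdim : Module.finrank ℝ (hlW deg (-(i : ℤ))) = Module.finrank ℝ (hlW deg (i : ℤ)) := by
    apply le_antisymm
    · exact LinearMap.finrank_le_finrank_of_injective hf
    · exact hLef.hl_finrank_le i
  have hs := (LinearMap.injective_iff_surjective_of_finrank_eq_finrank hdim).1 hf
  obtain ⟨v, hv⟩ := hs ⟨w, hw⟩
  exact ⟨v.1, v.2, congrArg Subtype.val hv⟩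

theorem hl_sg_sub_two {m : ℤ} (hm : Even m) : sg (m - 2) = -sg m := by
  obtain ⟨k, rfl⟩ := hm
  unfold sg
  by_cases h : (k + k) % 4 = 0
  · have h' : ¬ (k + k - 2) % 4 = 0 := by omega
    simp [h, h']
  · have h' : (k + k - 2) % 4 = 0 := by omega
    simp [h, h']

theorem hl_sg_ne (m : ℤ) : sg m ≠ 0 := by
  unfold sg
  split_ifs <;> norm_num

theorem HR.hl_nonneg (h : HR n deg G L) (i : ℕ) (v : ι → ℝ) (hv : HomV deg (-(i : ℤ)) v)
    (h0 : (L ^ (i + 1)) *ᵥ v = 0) : 0 ≤ sg (n - i) * (v ⬝ᵥ G *ᵥ ((L ^ i) *ᵥ v)) := by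
  by_cases hz : v = 0
  · simp [hz]
  · have := h.2 i v hv hz h0
    rw [← Matrix.mulVec_mulVec] at this
    exact this.le

theorem HR.hl_pos (h : HR n deg G L) (i : ℕ) (v : ι → ℝ) (hv : HomV deg (-(i : ℤ)) v)
    (hz : v ≠ 0) (h0 : (L ^ (i + 1)) *ᵥ v = 0) :
    0 < sg (n - i) * (v ⬝ᵥ G *ᵥ ((L ^ i) *ᵥ v)) := by
  have := h.2 i v hv hz h0
  rwa [← Matrix.mulVec_mulVec] at this

theorem HR.hl_even (h : HR n deg G L) {d : ℤ} {v : ι → ℝ} (hv : HomV deg d v) (hz : v ≠ 0) :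
    Even (d - n) := by
  obtain ⟨j, hj⟩ := Function.ne_iff.1 hz
  rw [← hv j hj]
  exact h.1 j

/-! ### the tensor step -/

omit [Fintype ι] [DecidableEq ι] in
theorem hl_homV_inl {d : ℤ} {v : ι ⊕ ι → ℝ} (hv : HomV (deg2 deg) d v) :
    HomV deg (d + 1) (v ∘ Sum.inl) := by
  intro i hi
  have := hv (Sum.inl i) hi
  simp only [deg2, Sum.elim_inl] at this
  omega

omit [Fintype ι] [DecidableEq ι] in
theorem hl_homV_inr {d : ℤ} {v : ι ⊕ ι → ℝ} (hv : HomV (deg2 deg) d v) :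
    HomV deg (d - 1) (v ∘ Sum.inr) := by
  intro i hi
  have := hv (Sum.inr i) hi
  simp only [deg2, Sum.elim_inr] at this
  omega

theorem hl_pow_block (ζ : ℝ) (k : ℕ) (a b : ι → ℝ) :
    ((fromBlocks L 0 (ζ • 1) L) ^ (k + 1)) *ᵥ (Sum.elim a b) =
      Sum.elim ((L ^ (k + 1)) *ᵥ a)
        ((L ^ (k + 1)) *ᵥ b + (((k : ℝ) + 1) * ζ) • ((L ^ k) *ᵥ a)) := by
  induction k with
  | zero =>
    simp only [zero_add, pow_one, pow_zero, Matrix.fromBlocks_mulVec, Matrix.zero_mulVec,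
      add_zero, Matrix.smul_mulVec, Matrix.one_mulVec, Nat.cast_zero, one_mul,
      Sum.elim_comp_inl, Sum.elim_comp_inr]
    rw [add_comm]
  | succ k ih =>
    rw [hl_pow_succ, ih]
    rw [Matrix.fromBlocks_mulVec, Matrix.zero_mulVec, add_zero]
    simp only [Matrix.smul_mulVec,
      Matrix.one_mulVec, Sum.elim_comp_inl, Sum.elim_comp_inr, Matrix.mulVec_add,
      Matrix.mulVec_smul, ← hl_pow_succ]
    congr 1
    push_cast
    module

omit [DecidableEq ι] in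
theorem hl_form_block (X : Matrix ι ι ℝ) (a b c d : ι → ℝ) :
    (Sum.elim a b) ⬝ᵥ (fromBlocks X G G 0) *ᵥ (Sum.elim c d) =
      a ⬝ᵥ X *ᵥ c + a ⬝ᵥ G *ᵥ d + b ⬝ᵥ G *ᵥ c := by
  simp only [Matrix.fromBlocks_mulVec, Sum.elim_comp_inl, Sum.elim_comp_inr, Matrix.zero_mulVec,
    add_zero, sumElim_dotProduct_sumElim, dotProduct_add]

theorem hl_even2 (h : HR n deg G L) (i : ι ⊕ ι) : Even (deg2 deg i - (n + 1)) := by
  rcases i with i | i
  · obtain ⟨k, hk⟩ := h.1 i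
    refine ⟨k - 1, ?_⟩
    simp only [deg2, Sum.elim_inl]
    omega
  · obtain ⟨k, hk⟩ := h.1 i
    refine ⟨k, ?_⟩
    simp only [deg2, Sum.elim_inr]
    omega

theorem HR_tensor (hLef : Lef deg G L) (h : HR n deg G L) {ζ : ℝ} (hζ : 0 < ζ) :
    HR (n + 1) (deg2 deg) (fromBlocks 0 G G 0) (fromBlocks L 0 (ζ • 1) L) := by
  refine ⟨hl_even2 h, ?_⟩
  intro i v hv hz h0
  have ha := hl_homV_inl hv
  have hb := hl_homV_inr hv
  have hab : v = Sum.elim (v ∘ Sum.inl) (v ∘ Sum.inr) := (Sum.elim_comp_inl_inr v).symm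
  generalize v ∘ Sum.inl = a at ha hab
  generalize v ∘ Sum.inr = b at hb hab
  subst hab
  rw [hl_pow_block] at h0
  have h1 : (L ^ (i + 1)) *ᵥ a = 0 := by
    funext j
    exact congrFun h0 (Sum.inl j)
  have h2 : (L ^ (i + 1)) *ᵥ b + (((i : ℝ) + 1) * ζ) • ((L ^ i) *ᵥ a) = 0 := by
    funext j
    exact congrFun h0 (Sum.inr j)
  rw [← Matrix.mulVec_mulVec]
  have hc : (0 : ℝ) < ((i : ℝ) + 1) * ζ := by positivity
  -- `b = -c p'`
  obtain ⟨p', hp'⟩ : ∃ p' : ι → ℝ, b = -((((i : ℝ) + 1) * ζ) • p') :=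
    ⟨-((((i : ℝ) + 1) * ζ)⁻¹ • b), by
      rw [smul_neg, neg_neg, smul_smul, mul_inv_cancel₀ hc.ne', one_smul]⟩
  have hp'd : HomV deg (-((i + 1 : ℕ) : ℤ)) p' := by
    intro j hj
    have : b j ≠ 0 := by
      rw [hp']
      simpa [hc.ne'] using hj
    have := hb j this
    push_cast
    omega
  have h3 : (L ^ (i + 1)) *ᵥ p' = (L ^ i) *ᵥ a := by
    rw [hp', Matrix.mulVec_neg, Matrix.mulVec_smul, neg_add_eq_zero] at h2
    exact smul_right_injective _ hc.ne' h2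
  have h4 : (L ^ (i + 1 + 1)) *ᵥ p' = 0 := by
    rw [hl_pow_succ, h3, ← hl_pow_succ, h1]
  rcases i with _ | j
  · -- degree zero
    simp only [pow_zero, Matrix.one_mulVec, zero_add, pow_one, Nat.cast_zero, one_mul] at h3 hp' ⊢
    rw [hl_form_block]
    have hpz : p' ≠ 0 := by
      rintro rfl
      apply hz
      rw [hp', ← h3]
      ext x
      rcases x with x | x <;> simp
    have hev := h.hl_even hp'd hpz
    have hpos := h.hl_pos 1 p' hp'd hpz h4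
    have hs : sg (n + 1 - 0) = -sg (n - ((1 : ℕ) : ℤ)) := by
      have hev' : Even (n + 1 - 0) := by
        obtain ⟨k, hk⟩ := hev
        refine ⟨-k, ?_⟩
        push_cast at hk
        omega
      have := hl_sg_sub_two hev'
      have e : n + 1 - 0 - 2 = n - ((1 : ℕ) : ℤ) := by push_cast; ring
      rw [e] at this
      rw [this, neg_neg]
    rw [hs, hp', ← h3, hLef.hl_symm (L *ᵥ p')]
    rw [pow_one] at hpos
    simp only [Matrix.zero_mulVec, dotProduct_zero, zero_add, neg_dotProduct, smul_dotProduct,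
      smul_eq_mul]
    nlinarith [mul_pos hζ hpos]
  · rw [hl_pow_block, hl_form_block]
    set p : ι → ℝ := a - L *ᵥ p' with hp
    have hpd : HomV deg (-(j : ℤ)) p := by
      apply hl_homV_sub
      · have e : -((j + 1 : ℕ) : ℤ) + 1 = -(j : ℤ) := by push_cast; ring
        rwa [e] at ha
      · have := hLef.hl_L hp'd
        have e : -((j + 1 + 1 : ℕ) : ℤ) + 2 = -(j : ℤ) := by push_cast; ring
        rwa [e] at this
    have h5 : (L ^ (j + 1)) *ᵥ p = 0 := by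
      rw [hp, Matrix.mulVec_sub, ← hl_pow_succ', h3, sub_self]
    have hap : a = p + L *ᵥ p' := by rw [hp]; abel
    have hne : p ≠ 0 ∨ p' ≠ 0 := by
      by_contra hcon
      push Not at hcon
      apply hz
      rw [hap, hp', hcon.1, hcon.2]
      ext x
      rcases x with x | x <;> simp
    have hev : Even (n - j) := by
      rcases hne with hne | hne
      · obtain ⟨k, hk⟩ := h.hl_even hpd hne
        exact ⟨-k - j, by omega⟩
      · obtain ⟨k, hk⟩ := h.hl_even hp'd hne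
        push_cast at hk
        exact ⟨-k - j - 1, by omega⟩
    have hs1 : sg (n + 1 - ((j + 1 : ℕ) : ℤ)) = sg (n - j) := by
      congr 1
      push_cast
      ring
    have hs2 : sg (n - ((j + 1 + 1 : ℕ) : ℤ)) = -sg (n - j) := by
      rw [← hl_sg_sub_two hev]
      congr 1
      push_cast
      ring
    set A := p ⬝ᵥ G *ᵥ ((L ^ j) *ᵥ p) with hA
    set B := p' ⬝ᵥ G *ᵥ ((L ^ (j + 1 + 1)) *ᵥ p') with hB
    have e1 : a ⬝ᵥ G *ᵥ ((L ^ (j + 1)) *ᵥ p') = B := by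
      rw [← hLef.hl_adj_pow, ← h3, hLef.hl_symm]
    have e2 : p' ⬝ᵥ G *ᵥ ((L ^ (j + 1)) *ᵥ a) = B := by rw [← h3]
    have e3 : a ⬝ᵥ G *ᵥ ((L ^ j) *ᵥ a) = A + B := by
      have f1 : p ⬝ᵥ G *ᵥ ((L ^ j) *ᵥ (L *ᵥ p')) = 0 := by
        rw [← hl_pow_succ', ← hLef.hl_adj_pow, h5, zero_dotProduct]
      have f2 : (L *ᵥ p') ⬝ᵥ G *ᵥ ((L ^ j) *ᵥ p) = 0 := by
        rw [hLef.hl_adj, ← hl_pow_succ, h5, Matrix.mulVec_zero, dotProduct_zero]
      have f3 : (L *ᵥ p') ⬝ᵥ G *ᵥ ((L ^ j) *ᵥ (L *ᵥ p')) = B := by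
        rw [hLef.hl_adj, ← hl_pow_succ', ← hl_pow_succ]
      rw [hap]
      simp only [Matrix.mulVec_add, dotProduct_add, add_dotProduct, f1, f2, f3]
      ring
    rw [hs1, hp']
    simp only [Matrix.zero_mulVec, dotProduct_zero, zero_add, neg_dotProduct, smul_dotProduct,
      smul_eq_mul, Matrix.mulVec_add, Matrix.mulVec_neg, Matrix.mulVec_smul, dotProduct_add,
      dotProduct_neg, dotProduct_smul, e1, e2, e3]
    have hA0 := h.hl_nonneg j p hpd h5
    have hB0 := h.hl_nonneg (j + 1 + 1) p' hp'd h4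
    rw [hs2, ← hB] at hB0
    rw [← hA] at hA0
    have hj : (0 : ℝ) ≤ j := Nat.cast_nonneg j
    have key : sg (n - j) * (-((((j + 1 : ℕ) : ℝ) + 1) * ζ * B) + ((j : ℝ) + 1) * ζ * (A + B) +
        -((((j + 1 : ℕ) : ℝ) + 1) * ζ * B)) =
        ζ * (((j : ℝ) + 1) * (sg (n - j) * A) + ((j : ℝ) + 3) * (-sg (n - j) * B)) := by
      push_cast
      ring
    rw [key]
    apply mul_pos hζ
    rcases hne with hne | hne
    · have := h.hl_pos j p hpd hne h5
      rw [← hA] at this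
      have t1 : 0 < ((j : ℝ) + 1) * (sg (n - j) * A) := by positivity
      have t2 : 0 ≤ ((j : ℝ) + 3) * (-sg (n - j) * B) := by positivity
      linarith
    · have := h.hl_pos (j + 1 + 1) p' hp'd hne h4
      rw [hs2, ← hB] at this
      have t1 : 0 ≤ ((j : ℝ) + 1) * (sg (n - j) * A) := by positivity
      have t2 : 0 < ((j : ℝ) + 3) * (-sg (n - j) * B) := by positivity
      linarith

/-! ### deformation of the Hodge-Riemann relations -/

/-- projection onto a degree -/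
noncomputable def hlPr (deg : ι → ℤ) (d : ℤ) : Matrix ι ι ℝ :=
  diagonal (fun j => if deg j = d then 1 else 0)

theorem hl_pr_of {d : ℤ} {v : ι → ℝ} (hv : HomV deg d v) : hlPr deg d *ᵥ v = v := by
  funext j
  rw [hlPr, Matrix.mulVec_diagonal]
  by_cases h : v j = 0
  · simp [h]
  · simp [hv j h]

theorem hl_pr_hom (d : ℤ) (v : ι → ℝ) : HomV deg d (hlPr deg d *ᵥ v) := by
  intro j hj
  rw [hlPr, Matrix.mulVec_diagonal] at hj
  by_contra h
  simp [h] at hj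

/-- the square matrix that encodes the Lefschetz form in degree `-k` -/
noncomputable def hlM (deg : ι → ℤ) (G L : Matrix ι ι ℝ) (k : ℕ) : Matrix ι ι ℝ :=
  G * L ^ k * hlPr deg (-(k : ℤ)) + (1 - hlPr deg (-(k : ℤ)))

theorem Lef.hl_GL (hLef : Lef deg G L) (k : ℕ) {v : ι → ℝ} (hv : HomV deg (-(k : ℤ)) v) :
    HomV deg (-(k : ℤ)) (G *ᵥ ((L ^ k) *ᵥ v)) := by
  have := hLef.hl_G (hLef.hl_Lpow hv k)
  have e : -(-(k : ℤ) + 2 * k) = -(k : ℤ) := by ring
  rwa [e] at this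

theorem Lef.hl_M_hom (hLef : Lef deg G L) (k : ℕ) {b : ι → ℝ}
    (hb : HomV deg (-(k : ℤ)) (hlM deg G L k *ᵥ b)) :
    HomV deg (-(k : ℤ)) b ∧ hlM deg G L k *ᵥ b = G *ᵥ ((L ^ k) *ᵥ b) := by
  have e : hlM deg G L k *ᵥ b =
      G *ᵥ ((L ^ k) *ᵥ (hlPr deg (-(k : ℤ)) *ᵥ b)) + (b - hlPr deg (-(k : ℤ)) *ᵥ b) := by
    simp only [hlM, Matrix.add_mulVec, Matrix.sub_mulVec, Matrix.one_mulVec,
      Matrix.mulVec_mulVec, Matrix.mul_assoc]
  have h1 : HomV deg (-(k : ℤ)) b := by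
    have h2 := hLef.hl_GL k (hl_pr_hom (deg := deg) (-(k : ℤ)) b)
    have h3 := hl_homV_add (hl_homV_sub hb h2) (hl_pr_hom (deg := deg) (-(k : ℤ)) b)
    rw [e] at h3
    have e2 : G *ᵥ ((L ^ k) *ᵥ (hlPr deg (-(k : ℤ)) *ᵥ b)) + (b - hlPr deg (-(k : ℤ)) *ᵥ b) -
        G *ᵥ ((L ^ k) *ᵥ (hlPr deg (-(k : ℤ)) *ᵥ b)) + hlPr deg (-(k : ℤ)) *ᵥ b = b := by abel
    rwa [e2] at h3
  refine ⟨h1, ?_⟩
  rw [e, hl_pr_of h1, sub_self, add_zero]

theorem Lef.hl_M_det (hLef : Lef deg G L) (h : HL deg L) (k : ℕ) : (hlM deg G L k).det ≠ 0 := by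
  intro h0
  obtain ⟨b, hb, hb0⟩ := Matrix.exists_mulVec_eq_zero_iff.2 h0
  have hh : HomV deg (-(k : ℤ)) (hlM deg G L k *ᵥ b) := by
    rw [hb0]
    exact hl_homV_zero _
  obtain ⟨h1, h2⟩ := hLef.hl_M_hom k hh
  rw [hb0] at h2
  exact hb (h k b h1 (hLef.hl_G_inj h2.symm))

/-- a polynomial substitute for the projection onto primitive vectors -/
noncomputable def hlPi (deg : ι → ℤ) (G L : Matrix ι ι ℝ) (i : ℕ) (a : ι → ℝ) : ι → ℝ :=
  (hlM deg G L (i + 1 + 1)).det • a -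
    L *ᵥ ((hlM deg G L (i + 1 + 1)).adjugate *ᵥ (G *ᵥ ((L ^ (i + 1)) *ᵥ a)))

theorem Lef.hl_Pi (hLef : Lef deg G L) (i : ℕ) {a : ι → ℝ} (ha : HomV deg (-(i : ℤ)) a) :
    HomV deg (-(i : ℤ)) (hlPi deg G L i a) ∧ (L ^ (i + 1)) *ᵥ (hlPi deg G L i a) = 0 := by
  set c := G *ᵥ ((L ^ (i + 1)) *ᵥ a) with hc
  set b := (hlM deg G L (i + 1 + 1)).adjugate *ᵥ c with hb
  have hcd : HomV deg (-((i + 1 + 1 : ℕ) : ℤ)) c := by
    have := hLef.hl_G (hLef.hl_Lpow ha (i + 1))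
    have e : -(-(i : ℤ) + 2 * ((i + 1 : ℕ) : ℤ)) = -((i + 1 + 1 : ℕ) : ℤ) := by push_cast; ring
    rwa [e] at this
  have hMb : hlM deg G L (i + 1 + 1) *ᵥ b = (hlM deg G L (i + 1 + 1)).det • c := by
    rw [hb, Matrix.mulVec_mulVec, Matrix.mul_adjugate, Matrix.smul_mulVec, Matrix.one_mulVec]
  have hh : HomV deg (-((i + 1 + 1 : ℕ) : ℤ)) (hlM deg G L (i + 1 + 1) *ᵥ b) := by
    rw [hMb]
    exact hl_homV_smul _ hcd
  obtain ⟨h1, h2⟩ := hLef.hl_M_hom (i + 1 + 1) hh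
  constructor
  · apply hl_homV_sub (hl_homV_smul _ ha)
    have := hLef.hl_L h1
    have e : -((i + 1 + 1 : ℕ) : ℤ) + 2 = -(i : ℤ) := by push_cast; ring
    rwa [e] at this
  · apply hLef.hl_G_inj
    rw [hlPi, Matrix.mulVec_sub, Matrix.mulVec_sub, Matrix.mulVec_smul, Matrix.mulVec_smul,
      ← hl_pow_succ', ← hc, ← hb, ← h2, hMb, sub_self]

theorem Lef.hl_neg (hLef : Lef deg G L) (h : HL deg L) (i : ℕ) (s : ℝ) (hs : s ≠ 0) {a : ι → ℝ}
    (ha : HomV deg (-(i : ℤ)) a) (hz : a ≠ 0) (h0 : (L ^ (i + 1)) *ᵥ a = 0)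
    (hle : s * (a ⬝ᵥ G *ᵥ ((L ^ i) *ᵥ a)) ≤ 0) :
    ∃ a', HomV deg (-(i : ℤ)) a' ∧ (L ^ (i + 1)) *ᵥ a' = 0 ∧
      s * (a' ⬝ᵥ G *ᵥ ((L ^ i) *ᵥ a')) < 0 := by
  rcases hle.lt_or_eq with hlt | heq
  · exact ⟨a, ha, h0, hlt⟩
  have hq : a ⬝ᵥ G *ᵥ ((L ^ i) *ᵥ a) = 0 := (mul_eq_zero.1 heq).resolve_left hs
  set u := G *ᵥ ((L ^ i) *ᵥ a) with hu
  have hud : HomV deg (-(i : ℤ)) u := hLef.hl_GL i ha
  have huz : u ≠ 0 := fun hh => hz (h i a ha (hLef.hl_G_inj hh))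
  have huu : u ⬝ᵥ u ≠ 0 := fun hh => huz (dotProduct_self_eq_zero.1 hh)
  obtain ⟨hp1, hp2⟩ := hLef.hl_Pi i hud
  have hdet := hLef.hl_M_det h (i + 1 + 1)
  have hpu : hlPi deg G L i u ⬝ᵥ u ≠ 0 := by
    rw [hlPi, sub_dotProduct, smul_dotProduct]
    conv_lhs =>
      congr
      · skip
      · rw [hu, hLef.hl_adj, ← hl_pow_succ, h0, Matrix.mulVec_zero, dotProduct_zero]
    rw [sub_zero, smul_eq_mul]
    exact mul_ne_zero hdet huu
  generalize hlPi deg G L i u = p at hp1 hp2 hpu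
  have hsym : a ⬝ᵥ G *ᵥ ((L ^ i) *ᵥ p) = p ⬝ᵥ u := by
    rw [← hLef.hl_adj_pow, hLef.hl_symm]
  set c := p ⬝ᵥ G *ᵥ ((L ^ i) *ᵥ p) with hc
  refine ⟨(-(s * c + 1) / (2 * s * (p ⬝ᵥ u))) • a + p, hl_homV_add (hl_homV_smul _ ha) hp1, ?_, ?_⟩
  · rw [Matrix.mulVec_add, Matrix.mulVec_smul, h0, hp2, smul_zero, add_zero]
  · simp only [Matrix.mulVec_add, Matrix.mulVec_smul, dotProduct_add, add_dotProduct,
      dotProduct_smul, smul_dotProduct, smul_eq_mul, ← hu, hq, hsym, ← hc]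
    have : s * (-(s * c + 1) / (2 * s * (p ⬝ᵥ u)) * (-(s * c + 1) / (2 * s * (p ⬝ᵥ u)) * 0 +
        p ⬝ᵥ u) + (-(s * c + 1) / (2 * s * (p ⬝ᵥ u)) * (p ⬝ᵥ u) + c)) = -1 := by
      field_simp
      ring
    linarith

theorem hl_clopen {T : Type*} [TopologicalSpace T] [PreconnectedSpace T]
    (Gt Lt : T → Matrix ι ι ℝ) (hG : Continuous Gt) (hL : Continuous Lt)
    (hLef : ∀ t, Lef deg (Gt t) (Lt t)) (hHL : ∀ t, HL deg (Lt t)) (t0 t1 : T)
    (h0 : HR n deg (Gt t0) (Lt t0)) : HR n deg (Gt t1) (Lt t1) := by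
  refine ⟨h0.1, fun i => ?_⟩
  let S : Set T := {t | ∃ v : ι → ℝ, HomV deg (-(i : ℤ)) v ∧ v ≠ 0 ∧ (Lt t ^ (i + 1)) *ᵥ v = 0 ∧
    sg (n - i) * (v ⬝ᵥ Gt t *ᵥ ((Lt t ^ i) *ᵥ v)) ≤ 0}
  have hclosed : IsClosed S := by
    let Z : Set (T × Metric.sphere (0 : ι → ℝ) 1) :=
      {x | hlPr deg (-(i : ℤ)) *ᵥ x.2.1 = x.2.1 ∧ (Lt x.1 ^ (i + 1)) *ᵥ x.2.1 = 0 ∧
        sg (n - i) * (x.2.1 ⬝ᵥ Gt x.1 *ᵥ ((Lt x.1 ^ i) *ᵥ x.2.1)) ≤ 0}
    have hv : Continuous (fun x : T × Metric.sphere (0 : ι → ℝ) 1 => x.2.1) :=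
      continuous_subtype_val.comp continuous_snd
    have hG' : Continuous (fun x : T × Metric.sphere (0 : ι → ℝ) 1 => Gt x.1) :=
      hG.comp continuous_fst
    have hL' : Continuous (fun x : T × Metric.sphere (0 : ι → ℝ) 1 => Lt x.1) :=
      hL.comp continuous_fst
    have hZ : IsClosed Z := by
      have c3 : Continuous (fun x : T × Metric.sphere (0 : ι → ℝ) 1 =>
          sg (n - i) * (x.2.1 ⬝ᵥ Gt x.1 *ᵥ ((Lt x.1 ^ i) *ᵥ x.2.1))) :=
        continuous_const.mul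
          (hv.dotProduct (hG'.matrix_mulVec ((hL'.pow _).matrix_mulVec hv)))
      have z3 := isClosed_le c3 (continuous_const (y := (0 : ℝ)))
      exact IsClosed.inter (isClosed_eq (continuous_const.matrix_mulVec hv) hv)
        (IsClosed.inter (isClosed_eq ((hL'.pow _).matrix_mulVec hv) continuous_const) z3)
    have himg : S = Prod.fst '' Z := by
      ext t
      constructor
      · rintro ⟨v, hv1, hv2, hv3, hv4⟩
        have hn : ‖v‖ ≠ 0 := norm_ne_zero_iff.2 hv2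
        refine ⟨(t, ⟨‖v‖⁻¹ • v, ?_⟩), ⟨?_, ?_, ?_⟩, rfl⟩
        · rw [mem_sphere_zero_iff_norm, norm_smul, norm_inv, norm_norm, inv_mul_cancel₀ hn]
        · exact hl_pr_of (hl_homV_smul _ hv1)
        · change (Lt t ^ (i + 1)) *ᵥ (‖v‖⁻¹ • v) = 0
          rw [Matrix.mulVec_smul, hv3, smul_zero]
        · change sg (n - i) * ((‖v‖⁻¹ • v) ⬝ᵥ Gt t *ᵥ ((Lt t ^ i) *ᵥ (‖v‖⁻¹ • v))) ≤ 0
          simp only [Matrix.mulVec_smul, dotProduct_smul, smul_dotProduct, smul_eq_mul]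
          have := mul_nonpos_of_nonneg_of_nonpos (mul_self_nonneg ‖v‖⁻¹) hv4
          linarith
      · rintro ⟨⟨t', v, hv0⟩, ⟨hv1, hv3, hv4⟩, rfl⟩
        refine ⟨v, ?_, ?_, hv3, hv4⟩
        · have := hl_pr_hom (deg := deg) (-(i : ℤ)) v
          change hlPr deg (-(i : ℤ)) *ᵥ v = v at hv1
          rwa [hv1] at this
        · rintro rfl
          simp at hv0
    rw [himg]
    exact isClosedMap_fst_of_compactSpace Z hZ
  have hopen : IsOpen S := by
    rw [isOpen_iff_mem_nhds]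
    rintro t ⟨v, hv1, hv2, hv3, hv4⟩
    obtain ⟨a, ha1, ha2, ha3⟩ := (hLef t).hl_neg (hHL t) i _ (hl_sg_ne _) hv1 hv2 hv3 hv4
    have hM : Continuous (fun t => hlM deg (Gt t) (Lt t) (i + 1 + 1)) :=
      ((hG.matrix_mul (hL.pow _)).matrix_mul continuous_const).add continuous_const
    have hP : Continuous (fun t => hlPi deg (Gt t) (Lt t) i a) :=
      (hM.matrix_det.smul continuous_const).sub (hL.matrix_mulVec (hM.matrix_adjugate.matrix_mulVec
        (hG.matrix_mulVec ((hL.pow _).matrix_mulVec continuous_const))))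
    have hφ : Continuous (fun t => sg (n - i) * (hlPi deg (Gt t) (Lt t) i a ⬝ᵥ
        Gt t *ᵥ ((Lt t ^ i) *ᵥ hlPi deg (Gt t) (Lt t) i a))) :=
      continuous_const.mul (hP.dotProduct (hG.matrix_mulVec ((hL.pow _).matrix_mulVec hP)))
    have hneg : sg (n - i) * (hlPi deg (Gt t) (Lt t) i a ⬝ᵥ
        Gt t *ᵥ ((Lt t ^ i) *ᵥ hlPi deg (Gt t) (Lt t) i a)) < 0 := by
      have hdet := (hLef t).hl_M_det (hHL t) (i + 1 + 1)
      have e : hlPi deg (Gt t) (Lt t) i a = (hlM deg (Gt t) (Lt t) (i + 1 + 1)).det • a := by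
        rw [hlPi, ha2]
        simp
      rw [e]
      simp only [Matrix.mulVec_smul, dotProduct_smul, smul_dotProduct, smul_eq_mul]
      have := mul_neg_of_pos_of_neg (mul_self_pos.2 hdet) ha3
      linarith
    have hev := (isOpen_lt hφ continuous_const).mem_nhds hneg
    refine Filter.mem_of_superset hev ?_
    intro t' ht'
    obtain ⟨q1, q2⟩ := (hLef t').hl_Pi i ha1
    refine ⟨_, q1, ?_, q2, le_of_lt ht'⟩
    intro hz
    simp only [Set.mem_ofPred_eq, hz] at ht'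
    simp at ht'
  have hS : S = ∅ := by
    rcases isClopen_iff.1 ⟨hclosed, hopen⟩ with h | h
    · exact h
    · exfalso
      have : t0 ∈ S := by rw [h]; trivial
      obtain ⟨v, hv1, hv2, hv3, hv4⟩ := this
      exact absurd (h0.hl_pos i v hv1 hv2 hv3) (not_lt.2 hv4)
  intro v hv1 hv2 hv3
  by_contra hcon
  have : t1 ∈ S := ⟨v, hv1, hv2, hv3, by
    rw [← Matrix.mulVec_mulVec] at hcon
    exact not_lt.1 hcon⟩
  rw [hS] at this
  exact this

theorem hl_lef_family (hLef : Lef deg G L) (E1 E2 : Matrix ι ι ℝ)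
    (h0 : Lef (deg2 deg) (fromBlocks E2 G G 0) (fromBlocks L 0 E1 L)) (a b : ℝ) :
    Lef (deg2 deg) (fromBlocks (a • E2) G G 0) (fromBlocks L 0 (a • E1 + b • 1) L) := by
  have hs := h0.symm
  have hadj := h0.adj
  simp only [Matrix.fromBlocks_transpose, Matrix.fromBlocks_multiply, Matrix.fromBlocks_inj,
    Matrix.transpose_zero, Matrix.zero_mul, Matrix.mul_zero, add_zero, zero_add] at hs hadj
  refine ⟨?_, ?_, ?_, ?_, ?_⟩
  · simp only [Matrix.fromBlocks_transpose, Matrix.transpose_smul, hs.1, hLef.symm,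
      Matrix.transpose_zero]
  · obtain ⟨u, hu⟩ := hLef.unit
    have h1 : G * (↑u⁻¹ : Matrix ι ι ℝ) = 1 := by rw [← hu]; exact u.mul_inv
    refine IsUnit.of_mul_eq_one (fromBlocks 0 (↑u⁻¹ : Matrix ι ι ℝ) (↑u⁻¹ : Matrix ι ι ℝ)
      (-((↑u⁻¹ : Matrix ι ι ℝ) * ((a • E2) * (↑u⁻¹ : Matrix ι ι ℝ))))) ?_
    rw [Matrix.fromBlocks_multiply, ← Matrix.fromBlocks_one]
    simp only [Matrix.mul_zero, Matrix.zero_mul, zero_add, add_zero, h1, Matrix.mul_neg,
      ← Matrix.mul_assoc G, Matrix.one_mul, add_neg_cancel, neg_zero]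
  · intro j i hji
    apply h0.homG j i
    rcases j with j | j <;> rcases i with i | i
    · intro hh
      apply hji
      simp only [Matrix.fromBlocks_apply₁₁] at hh
      simp [hh]
    · exact hji
    · exact hji
    · exact hji
  · intro j i hji
    rcases j with j | j <;> rcases i with i | i
    · exact h0.homL _ _ hji
    · exact h0.homL _ _ hji
    · by_cases hij : j = i
      · subst hij
        simp only [deg2, Sum.elim_inl, Sum.elim_inr]
        ring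
      · apply h0.homL
        intro hh
        apply hji
        simp only [Matrix.fromBlocks_apply₂₁] at hh
        simp [hh, Matrix.one_apply_ne hij]
    · exact h0.homL _ _ hji
  · simp only [Matrix.fromBlocks_transpose, Matrix.fromBlocks_multiply, Matrix.fromBlocks_inj,
      Matrix.transpose_zero, Matrix.zero_mul, Matrix.mul_zero, add_zero, zero_add, hLef.adj,
      smul_zero, and_self, and_true, Matrix.transpose_add, Matrix.transpose_smul, Matrix.transpose_one,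
      Matrix.add_mul, Matrix.mul_add, Matrix.mul_smul, Matrix.smul_mul, Matrix.one_mul,
      Matrix.mul_one]
    rw [← add_assoc, ← add_assoc, ← smul_add, ← smul_add, hadj.1]

theorem hl_hl_scale (F : Matrix ι ι ℝ) (h : HL (deg2 deg) (fromBlocks L 0 F L)) {a : ℝ}
    (ha : a ≠ 0) : HL (deg2 deg) (fromBlocks L 0 (a • F) L) := by
  let D : Matrix (ι ⊕ ι) (ι ⊕ ι) ℝ := diagonal (Sum.elim (fun _ => 1) (fun _ => a⁻¹))
  have hD : D = fromBlocks 1 0 0 (a⁻¹ • 1) := by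
    rw [Matrix.smul_one_eq_diagonal, ← Matrix.diagonal_one, Matrix.fromBlocks_diagonal]
  have hc : fromBlocks L 0 F L * D = D * fromBlocks L 0 (a • F) L := by
    rw [hD]
    simp only [Matrix.fromBlocks_multiply, Matrix.mul_one, Matrix.one_mul, Matrix.mul_zero,
      Matrix.zero_mul, add_zero, zero_add, Matrix.mul_smul, Matrix.smul_mul, smul_smul,
      smul_zero, mul_inv_cancel₀ ha, one_smul]
  have hne : ∀ j : ι ⊕ ι, (Sum.elim (fun _ => (1 : ℝ)) (fun _ => a⁻¹) j) ≠ 0 := by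
    rintro (j | j)
    · simp
    · simpa using ha
  intro i v hv h0
  have hp : (fromBlocks L 0 F L) ^ i * D = D * (fromBlocks L 0 (a • F) L) ^ i :=
    (SemiconjBy.pow_right (a := D) hc.symm i).symm
  have h1 : ((fromBlocks L 0 F L) ^ i) *ᵥ (D *ᵥ v) = 0 := by
    rw [Matrix.mulVec_mulVec, hp, ← Matrix.mulVec_mulVec, h0, Matrix.mulVec_zero]
  have h2 : HomV (deg2 deg) (-(i : ℤ)) (D *ᵥ v) := by
    intro j hj
    apply hv j
    intro hh
    apply hj
    rw [Matrix.mulVec_diagonal, hh, mul_zero]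
  have h3 := h i _ h2 h1
  funext j
  have := congrFun h3 j
  rw [Matrix.mulVec_diagonal] at this
  exact (mul_eq_zero.1 this).resolve_left (hne j)

theorem HR_family (hLef : Lef deg G L) (h : HR n deg G L) (E1 E2 : Matrix ι ι ℝ)
    (hfam : ∀ ζ : ℝ, 0 ≤ ζ →
      Lef (deg2 deg) (fromBlocks E2 G G 0) (fromBlocks L 0 (E1 + ζ • 1) L) ∧
      HL (deg2 deg) (fromBlocks L 0 (E1 + ζ • 1) L)) (ζ : ℝ) (hζ : 0 ≤ ζ) :
    HR (n + 1) (deg2 deg) (fromBlocks E2 G G 0) (fromBlocks L 0 (E1 + ζ • 1) L) := by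
  have h0 : Lef (deg2 deg) (fromBlocks E2 G G 0) (fromBlocks L 0 E1 L) := by
    have := (hfam 0 le_rfl).1
    rwa [zero_smul, add_zero] at this
  have hT := HR_tensor hLef h (ζ := 1) one_pos
  have : PreconnectedSpace (Set.Icc (0 : ℝ) 1) := Subtype.preconnectedSpace isPreconnected_Icc
  have key := hl_clopen (deg := deg2 deg) (n := n + 1) (T := Set.Icc (0 : ℝ) 1)
    (fun t => fromBlocks (t.1 • E2) G G 0)
    (fun t => fromBlocks L 0 (t.1 • E1 + (1 - t.1 + t.1 * ζ) • 1) L)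
    ((continuous_subtype_val.smul continuous_const).matrix_fromBlocks continuous_const
      continuous_const continuous_const)
    (continuous_const.matrix_fromBlocks continuous_const
      ((continuous_subtype_val.smul continuous_const).add
        (((continuous_const.sub continuous_subtype_val).add
          (continuous_subtype_val.mul continuous_const)).smul continuous_const))
      continuous_const)
    (fun t => hl_lef_family hLef E1 E2 h0 _ _) ?_ ⟨0, by simp⟩ ⟨1, by simp⟩ ?_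
  · simpa using key
  · rintro ⟨t, ht0, ht1⟩
    rcases ht0.eq_or_lt with rfl | hpos
    · simpa using hT.hl
    · have hb : 0 ≤ (1 - t + t * ζ) / t := by
        apply div_nonneg _ ht0
        nlinarith [mul_nonneg ht0 hζ]
      have := hl_hl_scale _ (hfam _ hb).2 hpos.ne'
      rwa [smul_add, smul_smul, mul_div_cancel₀ _ hpos.ne'] at this
  · simpa using hT

end basic

end Pool.Agent.P.MP_c3da96_co
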