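import Pool.Agent.P.MP_c3da96_co.Perm

namespace Pool.Agent.P.MP_c3da96_co

open Equiv LaurentPolynomial

variable {n : ℕ}

/-! ### Laurent polynomials -/

theorem kl_coeff_T_mul (d e : ℤ) (p : LP) : (T d * p).coeff e = p.coeff (e - d) := by
  unfold T
  rw [AddMonoidAlgebra.coeff_single_mul_apply, one_mul, neg_add_eq_sub]

theorem kl_coeff_C_mul (c : ℤ) (e : ℤ) (p : LP) : (C c * p).coeff e = c * p.coeff e := by
  rw [← smul_eq_C_mul, AddMonoidAlgebra.coeff_smul_apply, smul_eq_mul]

theorem kl_coeff_one (e : ℤ) : (1 : LP).coeff e = if e = 0 then 1 else 0 := by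
  rw [← map_one C, C_apply]

/-- evaluation at `v = 1` -/
noncomputable def klE1 : LP →+* ℤ := eval₂ (RingHom.id ℤ) 1
/-- the substitution `v ↦ -v` -/
noncomputable def klPsi : LP →+* LP := eval₂ C (-(unitOfInvertible (T 1 : LP)))
/-- the substitution `q = v ^ (-2)` -/
noncomputable def klQ : Polynomial ℤ →+* LP := Polynomial.eval₂RingHom C (T (-2))

theorem kl_at1 (p : LP) : at1 p = klE1 p := by
  induction p using LaurentPolynomial.induction_on' with
  | add p q hp hq =>
    rw [map_add, ← hp, ← hq]
    unfold at1
    rw [AddMonoidAlgebra.coeff_add, Finsupp.sum_add_index' (fun _ => rfl) (fun _ _ _ => rfl)]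
  | C_mul_T d c =>
    unfold at1 klE1
    rw [← single_eq_C_mul_T, AddMonoidAlgebra.coeff_single, Finsupp.sum_single_index rfl,
      single_eq_C_mul_T]
    simp

theorem klE1_T (d : ℤ) : klE1 (T d) = 1 := by simp [klE1]
theorem klE1_C (c : ℤ) : klE1 (C c) = c := by simp [klE1]
theorem klPsi_C (c : ℤ) : klPsi (C c) = C c := by simp [klPsi]

theorem klPsi_T1 : klPsi (T 1) = -T 1 := by simp [klPsi]

theorem klPsi_Tm1 : klPsi (T (-1)) = -T (-1) := by
  have e1 : (T 1 : LP) * T (-1) = 1 := by rw [← T_add]; rfl
  have e2 := congrArg klPsi e1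
  rw [map_mul, klPsi_T1, map_one] at e2
  linear_combination (-T (-1)) * e2 - klPsi (T (-1)) * e1

theorem klPsi_T (d : ℤ) : klPsi (T d) = C ((d.negOnePow : ℤˣ) : ℤ) * T d := by
  induction d using Int.induction_on with
  | zero => simp
  | succ k ih =>
    rw [T_add, map_mul, ih, klPsi_T1, Int.negOnePow_succ, Units.val_neg, map_neg]
    ring
  | pred k ih =>
    rw [T_sub, map_mul, ih, klPsi_Tm1, Int.negOnePow_sub, Int.negOnePow_one, mul_neg_one,
      Units.val_neg, map_neg]
    ring

theorem klPsi_coeff (p : LP) (e : ℤ) :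
    (klPsi p).coeff e = ((e.negOnePow : ℤˣ) : ℤ) * p.coeff e := by
  induction p using LaurentPolynomial.induction_on' with
  | add p q hp hq =>
    rw [map_add, AddMonoidAlgebra.coeff_add, AddMonoidAlgebra.coeff_add, Finsupp.add_apply,
      Finsupp.add_apply, hp, hq, mul_add]
  | C_mul_T d c =>
    rw [map_mul, klPsi_C, klPsi_T, kl_coeff_C_mul, kl_coeff_C_mul, kl_coeff_C_mul, T_apply]
    split_ifs with h
    · rw [h]
      ring
    · simp

theorem klQ_C (c : ℤ) : klQ (Polynomial.C c) = C c := by simp [klQ]
theorem klQ_X : klQ Polynomial.X = T (-2) := by simp [klQ]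

theorem klE1_klQ (P : Polynomial ℤ) : klE1 (klQ P) = P.eval 1 := by
  induction P using Polynomial.induction_on' with
  | add p q hp hq => rw [map_add, map_add, hp, hq, Polynomial.eval_add]
  | monomial k c =>
    rw [← Polynomial.C_mul_X_pow_eq_monomial, map_mul, map_pow, klQ_C, klQ_X, map_mul, map_pow,
      klE1_C, klE1_T]
    simp

theorem klPsi_klQ (P : Polynomial ℤ) : klPsi (klQ P) = klQ P := by
  induction P using Polynomial.induction_on' with
  | add p q hp hq => rw [map_add, map_add, hp, hq]
  | monomial k c =>
    rw [← Polynomial.C_mul_X_pow_eq_monomial, map_mul, map_pow, klQ_C, klQ_X, map_mul, map_pow,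
      klPsi_C, klPsi_T, Int.negOnePow_even _ (by decide)]
    simp

theorem klQ_coeff (P : Polynomial ℤ) (e : ℤ) :
    (klQ P).coeff e = if e ≤ 0 ∧ Even e then P.coeff ((-e).toNat / 2) else 0 := by
  induction P using Polynomial.induction_on' with
  | add p q hp hq =>
    rw [map_add, AddMonoidAlgebra.coeff_add, Finsupp.add_apply, hp, hq, Polynomial.coeff_add]
    split_ifs <;> simp
  | monomial k c =>
    rw [← Polynomial.C_mul_X_pow_eq_monomial, map_mul, map_pow, klQ_C, klQ_X, T_pow,
      kl_coeff_C_mul, T_apply, Polynomial.coeff_C_mul_X_pow]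
    simp only [Int.even_iff]
    split_ifs <;> first | (exfalso; omega) | simp

theorem InV.inP {p : LP} (h : InV p) : InP p := fun e he => h e he.le

theorem kl_inP_one : InP (1 : LP) := fun e he => by rw [kl_coeff_one, if_neg he.ne]

theorem InV.psi {p : LP} (h : InV p) : InV (klPsi p) := fun e he => by
  rw [klPsi_coeff, h e he, mul_zero]

theorem InP.psi {p : LP} (h : InP p) : InP (klPsi p) := fun e he => by
  rw [klPsi_coeff, h e he, mul_zero]

theorem kl_coeff_zero_mul {p q : LP} (hp : InV p) (hq : InP q) : (p * q).coeff 0 = 0 := by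
  rw [AddMonoidAlgebra.coeff_mul_apply_left]
  apply Finset.sum_eq_zero
  intro e _
  change p.coeff e * q.coeff (-e + 0) = 0
  by_cases he : e ≤ 0
  · rw [hp e he, zero_mul]
  · rw [hq _ (by omega), mul_zero]

/-! ### the recursion -/

theorem kl_step_congr {P P' : Perm (Fin n) → Perm (Fin n) → Polynomial ℤ} {w : Perm (Fin n)}
    (h : ∀ x z, len z < len w → P x z = P' x z) (x : Perm (Fin n)) :
    klStep P x w = klStep P' x w := by
  unfold klStep
  split_ifs with h1 h2 h3
  all_goals first
    | rfl
    | (have h4 := h1.choose_spec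
       rw [h _ _ h4, h _ _ h4]
       congr 1
       apply Finset.sum_congr rfl
       intro z _
       unfold muCoef
       rw [h _ _ h4]
       split_ifs with h5
       · rw [h x z (h5.1.trans h4)]
       · simp)

theorem kl_iter (w : Perm (Fin n)) : ∀ (m m' : ℕ), len w ≤ m → len w ≤ m' → ∀ x,
    klStep^[m] (fun x w => if x = w then 1 else 0) x w =
      klStep^[m'] (fun x w => if x = w then 1 else 0) x w := by
  induction hl : len w using Nat.strong_induction_on generalizing w with
  | _ k ih =>
    have h0 : len w = 0 → ∀ m x, klStep^[m] (fun x w => if x = w then 1 else 0) x w =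
        if x = w then 1 else 0 := by
      intro h0 m x
      rcases m with _ | m
      · rfl
      · rw [Function.iterate_succ_apply']
        unfold klStep
        rw [dif_neg (by rintro ⟨a, ha⟩; omega)]
    intro m m' hm hm' x
    by_cases hk : k = 0
    · rw [h0 (by omega), h0 (by omega)]
    · obtain ⟨m, rfl⟩ : ∃ j, m = j + 1 := ⟨m - 1, by omega⟩
      obtain ⟨m', rfl⟩ : ∃ j, m' = j + 1 := ⟨m' - 1, by omega⟩
      rw [Function.iterate_succ_apply', Function.iterate_succ_apply']
      exact kl_step_congr (fun y z hz => ih (len z) (by omega) z rfl m m' (by omega) (by omega) y) x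

theorem kl_rec (x w : Perm (Fin n)) : KL x w = klStep KL x w := by
  unfold KL
  rw [kl_iter w (len w) (len w + 1) le_rfl (by omega), Function.iterate_succ_apply']
  exact kl_step_congr (fun y z hz => kl_iter z _ _ hz.le le_rfl y) x

/-! ### the Hecke module -/

theorem mulC_sub (a : Adj n) (h h' : Hk n) : mulC a (h - h') = mulC a h - mulC a h' := by
  funext x
  simp only [mulC, Pi.sub_apply]
  ring

theorem mulC_sum (a : Adj n) (s : Finset (Perm (Fin n))) (c : Perm (Fin n) → ℤ)
    (h : Perm (Fin n) → Hk n) : mulC a (∑ z ∈ s, c z • h z) = ∑ z ∈ s, c z • mulC a (h z) := by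
  funext x
  simp only [mulC, Finset.sum_apply, Pi.smul_apply, Finset.mul_sum, ← Finset.sum_add_distrib]
  exact Finset.sum_congr rfl fun z _ => by rw [smul_add, mul_smul_comm]

theorem mulC_mulC (a : Adj n) (h : Hk n) :
    mulC a (mulC a h) = (T 1 + T (-1) : LP) • mulC a h := by
  funext x
  have e1 : (T 1 : LP) * T (-1) = 1 := by rw [← T_add]; rfl
  simp only [mulC, mul_sr_sr, Pi.smul_apply, smul_eq_mul]
  rcases kl_len_cases x a with h1 | h1
  · rw [if_pos (show len x < len (x * sr a) by omega),
      if_neg (show ¬ len (x * sr a) < len x by omega)]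
    linear_combination (-(h x)) * e1
  · rw [if_neg (show ¬ len x < len (x * sr a) by omega),
      if_pos (show len (x * sr a) < len x by omega)]
    linear_combination (-(h x)) * e1

theorem pair_mulC (a : Adj n) (h h' : Hk n) : pair (mulC a h) h' = pair h (mulC a h') := by
  unfold pair mulC
  simp only [add_mul, mul_add, Finset.sum_add_distrib]
  congr 1
  · rw [← Equiv.sum_comp (Equiv.mulRight (sr a))]
    simp
  · exact Finset.sum_congr rfl fun x _ => by ring

namespace IsKLB

variable {C : Perm (Fin n) → Hk n}

theorem inP (h : IsKLB C) (w x : Perm (Fin n)) : InP (C w x) := by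
  by_cases hx : x = w
  · rw [hx, h.diag]
    exact kl_inP_one
  · exact (h.low w x hx).inP

theorem one (h : IsKLB C) (x : Perm (Fin n)) : C 1 x = if x = 1 then 1 else 0 := by
  split_ifs with hx
  · rw [hx, h.diag]
  · exact h.zero 1 x hx (by rw [kl_len_one]; omega)

/-- the constant terms that appear in the recursion -/
theorem const (h : IsKLB C) {w z : Perm (Fin n)} {a : Adj n} (hw : len w < len (w * sr a))
    (hz : len z ≤ len w) : (mulC a (C w) z).coeff 0 =
      if len (z * sr a) < len z then (C w z).coeff 1 else 0 := by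
  have h1 : z * sr a ≠ w := by
    intro he
    rw [← he, mul_sr_sr] at hw
    rw [← he] at hz
    omega
  unfold mulC
  rw [AddMonoidAlgebra.coeff_add, Finsupp.add_apply, h.low w _ h1 0 le_rfl, zero_add]
  rcases kl_len_cases z a with h2 | h2
  · rw [if_pos (by omega), if_neg (by omega), kl_coeff_T_mul]
    exact h.inP w z _ (by norm_num)
  · rw [if_neg (by omega), if_pos (by omega), kl_coeff_T_mul]
    norm_num

theorem mulC_desc (h : IsKLB C) (a : Adj n) (y : Perm (Fin n)) :
    len (y * sr a) < len y → mulC a (C y) = (T 1 + T (-1) : LP) • C y := by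
  induction hl : len y using Nat.strong_induction_on generalizing y with
  | _ k ih =>
    intro hy
    have h1 : len (y * sr a) < len (y * sr a * sr a) := by rw [mul_sr_sr]; omega
    have h2 := h.step (y * sr a) a h1
    rw [mul_sr_sr] at h2
    rw [h2, mulC_sub, mulC_sum, mulC_mulC, smul_sub, Finset.smul_sum]
    congr 1
    apply Finset.sum_congr rfl
    intro z hz
    have hz' := (Finset.mem_filter.1 hz).2
    rw [h.const h1 hz']
    split_ifs with h3
    · rw [ih (len z) (by omega) z rfl h3, smul_comm]
    · simp

theorem eq_KL (h : IsKLB C) (w : Perm (Fin n)) :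
    ∀ x, C w x = T ((len w : ℤ) - len x) * klQ (KL x w) := by
  induction hl : len w using Nat.strong_induction_on generalizing w with
  | _ k ih =>
    subst hl
    intro x
    rw [kl_rec]
    unfold klStep
    split_ifs with h1 h2 h3
    rotate_left 2
    · rw [h3, h.diag]
      simp
    · have : w = 1 := by
        by_contra hc
        exact h1 (exists_desc hc)
      rw [this, h.one, if_neg (this ▸ h3)]
      simp
    all_goals
      have h4 := h1.choose_spec
      set a := h1.choose with ha
      have h5 : len (w * sr a) + 1 = len w := by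
        rcases kl_len_cases w a with h5 | h5 <;> omega
      have h6 : len (w * sr a) < len (w * sr a * sr a) := by rw [mul_sr_sr]; omega
      have h7 := h.step (w * sr a) a h6
      rw [mul_sr_sr] at h7
      have ih1 := ih _ h4 (w * sr a) rfl
      have hsum : (∑ z with len z ≤ len (w * sr a),
          (mulC a (C (w * sr a)) z).coeff 0 • C z) x = T ((len w : ℤ) - len x) *
          klQ (∑ z : Perm (Fin n) with len (z * sr a) < len z,
            Polynomial.C (muCoef KL z (w * sr a)) * Polynomial.X ^ ((len w - len z) / 2) *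
              KL x z) := by
        rw [Finset.sum_apply, map_sum, Finset.mul_sum, Finset.sum_filter, Finset.sum_filter]
        apply Finset.sum_congr rfl
        intro z _
        unfold muCoef
        by_cases hz : len z ≤ len (w * sr a)
        · rw [if_pos hz, h.const h6 hz]
          by_cases hz2 : len (z * sr a) < len z
          · rw [if_pos hz2, if_pos hz2, ih1 z, kl_coeff_T_mul, klQ_coeff]
            by_cases hz3 : len z < len (w * sr a) ∧ Odd (len (w * sr a) - len z)
            · obtain ⟨hz4, r, hr⟩ := hz3
              rw [if_pos ⟨by omega, ⟨-(r : ℤ), by omega⟩⟩, if_pos ⟨hz4, r, hr⟩, Pi.smul_apply,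
                ih (len z) (by omega) z rfl x, map_mul, map_mul, map_pow, klQ_C, klQ_X, T_pow,
                smul_eq_C_mul]
              have e1 : (-(1 - ((len (w * sr a) : ℤ) - len z))).toNat / 2 =
                  (len (w * sr a) - len z - 1) / 2 := by omega
              have e2 : (T ((len z : ℤ) - len x) : LP) = T ((len w : ℤ) - len x) *
                  T ((((len w - len z) / 2 : ℕ) : ℤ) * (-2)) := by
                rw [← T_add]
                congr 1
                omega
              rw [e1, e2]
              ring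
            · rw [if_neg hz3, if_neg]
              · simp
              · rintro ⟨hz4, r, hr⟩
                exact hz3 ⟨by omega, ⟨(-r).toNat, by omega⟩⟩
          · rw [if_neg hz2, if_neg hz2]
            simp
        · rw [if_neg hz, if_neg (show ¬ (len z < len (w * sr a) ∧ _) from fun hh => hz hh.1.le)]
          simp
      rw [congrFun h7 x, Pi.sub_apply, hsum, map_sub, mul_sub]
      congr 1
      unfold mulC
      rw [ih1, ih1, map_add, map_mul, klQ_X]
    · have h8 : len (x * sr a) + 1 = len x := by
        rcases kl_len_cases x a with h8 | h8 <;> omega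
      rw [if_neg (by omega), mul_add, ← mul_assoc, ← mul_assoc, ← T_add, ← T_add]
      congr 3 <;> omega
    · have h8 : len (x * sr a) = len x + 1 := by
        rcases kl_len_cases x a with h8 | h8 <;> omega
      rw [if_pos (by omega), mul_add, ← mul_assoc, ← mul_assoc, ← T_add, ← T_add]
      congr 3 <;> omega

theorem at1_eq (h : IsKLB C) (x w : Perm (Fin n)) : at1 (C w x) = (KL x w).eval 1 := by
  rw [kl_at1, h.eq_KL, map_mul, klE1_T, one_mul, klE1_klQ]

theorem support (h : IsKLB C) (y : Perm (Fin n)) : ∀ z, C y z ≠ 0 → bruhatLE z y := by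
  induction y using kl_induction with
  | h1 =>
    intro z hz
    rw [h.one] at hz
    have : z = 1 := by
      by_contra hc
      exact hz (if_neg hc)
    rw [this]
    exact Relation.ReflTransGen.refl
  | hs w a hw ih =>
    intro z hz
    have hw' : len w < len (w * sr a) := by omega
    have hle := kl_bruhat_sr hw'
    by_cases h1 : C w z = 0
    · by_cases h2 : C w (z * sr a) = 0
      · rw [h.step w a hw', Pi.sub_apply, Finset.sum_apply] at hz
        have h3 : mulC a (C w) z = 0 := by
          unfold mulC
          rw [h1, h2]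
          simp
        rw [h3, zero_sub, neg_ne_zero] at hz
        obtain ⟨z', hz1, hz2⟩ := Finset.exists_ne_zero_of_sum_ne_zero hz
        have hz' := (Finset.mem_filter.1 hz1).2
        rw [h.const hw' hz', Pi.smul_apply] at hz2
        have h4 : C w z' ≠ 0 := by
          intro h5
          rw [h5] at hz2
          simp at hz2
        exact ((ih z' hz' z (right_ne_zero_of_smul hz2)).trans (ih w le_rfl z' h4)).trans hle
      · have h3 := kl_lift a (ih w le_rfl _ h2)
        have e1 : klMax a w = w * sr a := if_pos hw'
        rw [e1] at h3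
        refine Relation.ReflTransGen.trans ?_ h3
        unfold klMax
        rw [mul_sr_sr]
        split_ifs with h4
        · exact Relation.ReflTransGen.refl
        · exact kl_bruhat_sr (by rcases kl_len_cases z a with h5 | h5 <;> omega)
    · exact (ih w le_rfl z h1).trans hle

end IsKLB

/-- the twisted reversal of the Hecke module -/
noncomputable def klTw (h : Hk n) : Hk n := fun x => klPsi (h (Fin.revPerm * x))

theorem mulC_klTw (a : Adj n) (h : Hk n) :
    mulC a (klTw h) = klTw (mulC a h) + (T 1 + T (-1) : LP) • klTw h := by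
  funext x
  have h1 := klPsi_T1
  have h2 := klPsi_Tm1
  have h3 := kl_len_rev x
  have h4 := kl_len_rev (x * sr a)
  simp only [mulC, klTw, Pi.add_apply, Pi.smul_apply, smul_eq_mul, map_add, map_mul, mul_assoc]
  rcases kl_len_cases x a with h5 | h5
  · rw [if_pos (by omega), if_neg (by omega), h2]
    ring
  · rw [if_neg (by omega), if_pos (by omega), h1]
    ring

theorem kl_pair_left (g g' : Hk n) (s : Finset (Perm (Fin n))) (c : Perm (Fin n) → ℤ)
    (f : Perm (Fin n) → Hk n) : pair (g - ∑ z ∈ s, c z • f z) g' =
      pair g g' - ∑ z ∈ s, (c z : LP) * pair (f z) g' := by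
  unfold pair
  simp only [Pi.sub_apply, Finset.sum_apply, Pi.smul_apply, sub_mul,
    Finset.sum_sub_distrib, Finset.sum_mul, Finset.mul_sum]
  rw [Finset.sum_comm]
  simp only [zsmul_eq_mul, mul_assoc]

theorem kl_pair_right (k : Hk n) (f : Perm (Fin n) → Hk n) (s : Finset (Perm (Fin n)))
    (m : Perm (Fin n) → ℤ) (g g' : Hk n) :
    pair k (klTw (g + ∑ z ∈ s, m z • f z) + (T 1 + T (-1) : LP) • klTw g') =
      pair k (klTw g) + ∑ z ∈ s, (m z : LP) * pair k (klTw (f z)) +
        (T 1 + T (-1) : LP) * pair k (klTw g') := by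
  generalize (T 1 + T (-1) : LP) = t
  have e1 : ∀ y, klTw (g + ∑ z ∈ s, m z • f z) y =
      klTw g y + ∑ z ∈ s, (m z : LP) * klTw (f z) y := by
    intro y
    unfold klTw
    rw [Pi.add_apply, map_add, Finset.sum_apply, map_sum]
    congr 1
    exact Finset.sum_congr rfl fun z _ => by rw [Pi.smul_apply, map_zsmul, zsmul_eq_mul]
  unfold pair
  simp only [Pi.add_apply, e1, Pi.smul_apply, smul_eq_mul, mul_add, Finset.sum_add_distrib,
    Finset.mul_sum]
  rw [Finset.sum_comm (s := s)]
  simp only [mul_left_comm]

namespace IsKLB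

variable {C : Perm (Fin n) → Hk n}

theorem pair_coeff (h : IsKLB C) (u w : Perm (Fin n)) :
    (pair (C u) (klTw (C (Fin.revPerm * w)))).coeff 0 = if u = w then 1 else 0 := by
  unfold pair klTw
  rw [AddMonoidAlgebra.coeff_sum, Finsupp.finsetSum_apply, Finset.sum_eq_single u]
  · rw [h.diag, one_mul]
    split_ifs with h1
    · rw [h1, h.diag, map_one, kl_coeff_one, if_pos rfl]
    · exact (h.low _ _ (fun he => h1 (mul_left_cancel he))).psi 0 le_rfl
  · intro x _ hx
    exact kl_coeff_zero_mul (h.low u x hx) (h.inP _ _).psi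
  · intro hu
    exact absurd (Finset.mem_univ u) hu

theorem pair_eq (h : IsKLB C) (u : Perm (Fin n)) :
    ∀ w, pair (C u) (klTw (C (Fin.revPerm * w))) = if u = w then 1 else 0 := by
  induction u using kl_induction with
  | h1 =>
    intro w
    unfold pair klTw
    simp only [h.one, ite_mul, one_mul, zero_mul, Finset.sum_ite_eq', Finset.mem_univ, if_true]
    split_ifs with h1
    · rw [← h1, h.diag, map_one]
    · rw [h.zero _ _ (fun he => h1 (mul_left_cancel he)), map_zero]
      have h2 := kl_len_rev w
      rw [mul_one]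
      omega
  | hs x a hx ih =>
    intro w
    have hx' : len x < len (x * sr a) := by omega
    have hint : ∀ (p : Prop) [Decidable p], ∃ c : ℤ, (if p then 1 else 0 : LP) = c := by
      intro p _
      split_ifs
      · exact ⟨1, by simp⟩
      · exact ⟨0, by simp⟩
    have key : ∃ c : ℤ, pair (C x) (mulC a (klTw (C (Fin.revPerm * w)))) = c := by
      have h3 := kl_len_rev w
      have h4 := kl_len_rev (w * sr a)
      have h1 := klPsi_T1
      have h2 := klPsi_Tm1
      rw [mulC_klTw]
      rcases kl_len_cases w a with h5 | h5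
      · refine ⟨0, ?_⟩
        rw [h.mulC_desc a _ (by rw [mul_assoc]; omega)]
        unfold pair klTw
        simp only [Pi.add_apply, Pi.smul_apply, smul_eq_mul, map_mul, map_add, h1, h2]
        rw [Int.cast_zero]
        exact Finset.sum_eq_zero fun y _ => by ring
      · have h6 := h.step (Fin.revPerm * w) a (by rw [mul_assoc]; omega)
        rw [eq_sub_iff_add_eq] at h6
        have h7 := ih x le_rfl w
        rw [if_neg (by rintro rfl; omega)] at h7
        obtain ⟨c1, hc1⟩ := hint (x = w * sr a)
        choose c2 hc2 using fun z => hint (x = Fin.revPerm * z)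
        refine ⟨c1 + ∑ z with len z ≤ len (Fin.revPerm * w),
          (mulC a (C (Fin.revPerm * w)) z).coeff 0 * c2 z, ?_⟩
        have h8 := ih x le_rfl (w * sr a)
        have h9 : ∀ z, pair (C x) (klTw (C z)) = c2 z := fun z => by
          rw [← hc2, ← ih x le_rfl, kl_rev_rev]
        rw [hc1, ← mul_assoc] at h8
        have h11 := kl_pair_right (C x) C
          (Finset.univ.filter fun z => len z ≤ len (Fin.revPerm * w))
          (fun z => (mulC a (C (Fin.revPerm * w)) z).coeff 0) (C (Fin.revPerm * w * sr a))
          (C (Fin.revPerm * w))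
        rw [h6, h7, h8, mul_zero, add_zero] at h11
        rw [h11, Int.cast_add, Int.cast_sum, add_right_inj]
        exact Finset.sum_congr rfl fun z _ => by rw [h9, Int.cast_mul]
    obtain ⟨c, hc⟩ := key
    have key2 : ∃ c : ℤ, pair (C (x * sr a)) (klTw (C (Fin.revPerm * w))) = c := by
      choose c2 hc2 using fun z => hint (z = w)
      refine ⟨c - ∑ z with len z ≤ len x, (mulC a (C x) z).coeff 0 * c2 z, ?_⟩
      rw [h.step x a hx', kl_pair_left, pair_mulC, hc]
      rw [Int.cast_sub, Int.cast_sum, sub_right_inj]
      apply Finset.sum_congr rfl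
      intro z hz
      rw [ih z (Finset.mem_filter.1 hz).2, hc2, Int.cast_mul]
    obtain ⟨c', hc'⟩ := key2
    have h9 := h.pair_coeff (x * sr a) w
    rw [hc', ← eq_intCast LaurentPolynomial.C, C_apply, if_pos rfl] at h9
    rw [hc', h9]
    split_ifs <;> simp

open Classical in
theorem inversion (h : IsKLB C) (u w : Perm (Fin n)) :
    ∑ v : Perm (Fin n) with bruhatLE w v, (-1) ^ (len v - len w) *
      (KL (Fin.revPerm * v) (Fin.revPerm * w)).eval 1 * (KL v u).eval 1 =
      if u = w then 1 else 0 := by
  have h1 := congrArg klE1 (h.pair_eq u w)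
  have h2 : klE1 (if u = w then 1 else 0) = if u = w then 1 else 0 := by
    split_ifs <;> simp
  rw [h2] at h1
  rw [← h1]
  unfold pair klTw
  rw [map_sum, Finset.sum_filter]
  apply Finset.sum_congr rfl
  intro v _
  split_ifs with hv
  · have h3 := kl_len_rev w
    have h4 := kl_len_rev v
    have h5 := kl_bruhat_len hv
    have e1 : (len (Fin.revPerm * w) : ℤ) - len (Fin.revPerm * v) = ((len v - len w : ℕ) : ℤ) := by
      omega
    rw [map_mul, ← kl_at1, h.at1_eq, h.eq_KL, map_mul, klPsi_klQ, klPsi_T, map_mul, map_mul,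
      klE1_C, klE1_T, klE1_klQ, e1, Int.coe_negOnePow_natCast]
    ring
  · have h3 : C (Fin.revPerm * w) (Fin.revPerm * v) = 0 := by
      by_contra hc
      have := kl_bruhat_rev (h.support _ _ hc)
      rw [kl_rev_rev, kl_rev_rev] at this
      exact hv this
    rw [h3]
    simp

end IsKLB

end Pool.Agent.P.MP_c3da96_co
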