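import Pool.Agent.P.MP_c3da96_co.Flag
import Pool.Agent.P.MP_c3da96_co.Hodge
import Pool.Agent.P.MP_c3da96_co.KL

namespace Pool.Agent.P.MP_c3da96_co

open Equiv Matrix

variable {n : ℕ}

/-! ### reduction to real matrices -/

/-- reduction modulo the variables -/
noncomputable def bar {ι κ : Type*} (T : Matrix κ ι (R n)) : Matrix κ ι ℝ :=
  T.map MvPolynomial.constantCoeff

section bar
variable {ι κ μ : Type*}

lemma bar_apply (T : Matrix κ ι (R n)) (j : κ) (i : ι) :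
    bar T j i = MvPolynomial.constantCoeff (T j i) := rfl
lemma bar_mul [Fintype κ] (U : Matrix μ κ (R n)) (T : Matrix κ ι (R n)) :
    bar (U * T) = bar U * bar T := Matrix.map_mul
lemma bar_add (U T : Matrix κ ι (R n)) : bar (U + T) = bar U + bar T := by
  ext; simp [bar]
lemma bar_sub (U T : Matrix κ ι (R n)) : bar (U - T) = bar U - bar T := by
  ext; simp [bar]
@[simp] lemma bar_zero : bar (0 : Matrix κ ι (R n)) = 0 := by ext; simp [bar]
@[simp] lemma bar_one [DecidableEq ι] : bar (1 : Matrix ι ι (R n)) = 1 :=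
  Matrix.map_one _ (map_zero _) (map_one _)
lemma bar_smul (c : ℝ) (T : Matrix κ ι (R n)) : bar (c • T) = c • bar T := by
  ext; simp [bar]
lemma bar_smulR (c : R n) (T : Matrix κ ι (R n)) :
    bar (c • T) = MvPolynomial.constantCoeff c • bar T := by
  ext; simp [bar]
lemma bar_transpose (T : Matrix κ ι (R n)) : bar Tᵀ = (bar T)ᵀ := rfl
lemma Homog.bar {deg : ι → ℤ} {deg' : κ → ℤ} {d : ℤ} {T : Matrix κ ι (R n)}
    (h : Homog deg deg' d T) : HomM deg deg' d (bar T) := fun j i h0 => by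
  by_contra hne
  exact h0 ((h j i).constantCoeff_eq_zero (by omega))
lemma bar_kap (a : Adj n) (T : Matrix κ ι (R n)) :
    bar ((demR a).kap T) = fromBlocks (bar T) 0 (bar (T.map (demR a).od)) (bar T) := by
  ext (i | i) (j | j) <;> simp [bar, Dem.kap, constantCoeff_ev, constantCoeff_alpha]
lemma bar_swapJ [DecidableEq ι] : bar (swapJ (R n) ι) = fromBlocks 0 1 1 0 := by
  ext (i | i) (j | j) <;> simp [bar, swapJ, one_apply, apply_ite]
lemma bar_almid [DecidableEq ι] (a : Adj n) : bar ((demR a).almid ι) = fromBlocks 0 0 1 0 := by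
  ext (i | i) (j | j) <;> simp [bar, Dem.almid, one_apply, apply_ite, constantCoeff_alpha]
lemma bar_mu [DecidableEq ι] (a : Adj n) : bar ((demR a).mu ι) = fromCols 1 0 := by
  ext i (j | j) <;> simp [bar, Dem.mu, one_apply, apply_ite, constantCoeff_alpha]
lemma bar_mustar {ι : Type} [DecidableEq ι] (a : Adj n) : bar (mustar a ι) = fromRows 0 1 := by
  ext (i | i) j <;> simp [bar, mustar, one_apply, apply_ite, constantCoeff_alpha]
end bar

/-! ### real linear algebra -/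

lemma sg_add {a b : ℤ} (ha : Even a) (hb : Even b) : sg (a + b) = sg a * sg b := by
  obtain ⟨a, rfl⟩ := ha
  obtain ⟨b, rfl⟩ := hb
  unfold sg
  split_ifs <;> first | omega | norm_num

@[simp] lemma sg_zero : sg 0 = 1 := by simp [sg]

section real
variable {ι κ : Type*} [Fintype ι] [DecidableEq ι] [Fintype κ] [DecidableEq κ]

omit [DecidableEq ι] [Fintype κ] [DecidableEq κ] in
lemma HomM.mulVec {deg : ι → ℤ} {deg' : κ → ℤ} {d e f : ℤ} {T : Matrix κ ι ℝ} {v : ι → ℝ}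
    (hT : HomM deg deg' d T) (hv : HomV deg e v) (hf : e + d = f) :
    HomV deg' f (T *ᵥ v) := fun j h0 => by
  obtain ⟨i, -, hi⟩ := Finset.exists_ne_zero_of_sum_ne_zero h0
  obtain ⟨h1, h2⟩ := mul_ne_zero_iff.1 hi
  rw [hT j i h1, hv i h2, hf]

lemma mul_pow_comm {ψ : Matrix κ ι ℝ} {L : Matrix ι ι ℝ} {L' : Matrix κ κ ℝ}
    (hc : ψ * L = L' * ψ) (k : ℕ) : ψ * L ^ k = L' ^ k * ψ := by
  induction k with
  | zero => simp
  | succ k ih => rw [pow_succ, ← Matrix.mul_assoc, ih, Matrix.mul_assoc, hc, pow_succ,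
      Matrix.mul_assoc]

lemma pow_mulVec_comm {ψ : Matrix κ ι ℝ} {L : Matrix ι ι ℝ} {L' : Matrix κ κ ℝ}
    (hc : ψ * L = L' * ψ) (k : ℕ) (v : ι → ℝ) :
    (L' ^ k) *ᵥ (ψ *ᵥ v) = ψ *ᵥ ((L ^ k) *ᵥ v) := by
  rw [mulVec_mulVec, mulVec_mulVec, mul_pow_comm hc]

lemma form_comp {ψ : Matrix κ ι ℝ} {L : Matrix ι ι ℝ} {L' : Matrix κ κ ℝ} (G' : Matrix κ κ ℝ)
    (hc : ψ * L = L' * ψ) (k : ℕ) (v : ι → ℝ) :
    (ψ *ᵥ v) ⬝ᵥ (G' * L' ^ k) *ᵥ (ψ *ᵥ v) = v ⬝ᵥ (ψᵀ * G' * ψ * L ^ k) *ᵥ v := by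
  rw [mulVec_mulVec, Matrix.mul_assoc G', ← mul_pow_comm hc, Matrix.mul_assoc, Matrix.mul_assoc,
    ← mulVec_mulVec v ψᵀ, dotProduct_mulVec v, vecMul_transpose]

/-- the Hodge-Riemann relations pass to invariant subspaces -/
lemma HR.sub {m : ℤ} {deg : ι → ℤ} {deg' : κ → ℤ} {G' L' : Matrix κ κ ℝ} (h : HR m deg' G' L')
    {L : Matrix ι ι ℝ} {i : Matrix κ ι ℝ} {p : Matrix ι κ ℝ} (hpi : p * i = 1)
    (hi : HomM deg deg' 0 i) (hc : i * L = L' * i) : HR m deg (iᵀ * G' * i) L := by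
  have hinj : ∀ v, i *ᵥ v = 0 → v = 0 := fun v hv => by
    rw [← one_mulVec v, ← hpi, ← mulVec_mulVec, hv, mulVec_zero]
  refine ⟨fun k => ?_, fun k v hv h0 hp => ?_⟩
  · have : i *ᵥ Pi.single k 1 ≠ 0 := fun e => by simpa using congrFun (hinj _ e) k
    obtain ⟨j, hj⟩ := Function.ne_iff.1 this
    have h2 := hi j k (by simpa using hj)
    have := h.1 j
    rwa [h2, add_zero] at this
  · rw [← form_comp G' hc]
    exact h.2 k _ (hi.mulVec hv (by omega)) (fun e => h0 (hinj _ e))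
      (by rw [pow_mulVec_comm hc, hp, mulVec_zero])

/-- the semidefinite form of the Hodge-Riemann relations, with a twisted sign -/
lemma HR.nonneg {m m' : ℤ} {deg : ι → ℤ} {G L : Matrix ι ι ℝ} (h : HR m deg G L) {c : ℝ}
    (hm : Even (m' - m)) (hc : 0 < sg (m' - m) * c) {k : ℕ} {v : ι → ℝ}
    (hv : HomV deg (-(k : ℤ)) v) (hp : (L ^ (k + 1)) *ᵥ v = 0) :
    v = 0 ∨ 0 < sg (m' - k) * (c * (v ⬝ᵥ (G * L ^ k) *ᵥ v)) := by
  by_cases h0 : v = 0
  · exact Or.inl h0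
  right
  obtain ⟨j, hj⟩ := Function.ne_iff.1 h0
  have h1 := h.1 j
  rw [hv j hj] at h1
  have h2 : Even (m - k) := by
    obtain ⟨t, ht⟩ := h1
    exact ⟨-t - k, by omega⟩
  have h3 : m' - k = (m' - m) + (m - k) := by ring
  rw [h3, sg_add hm h2]
  have := mul_pos hc (h.2 k v hv h0 hp)
  linarith
end real

/-! ### the Lefschetz operator -/

/-- a dominant regular weight -/
noncomputable def rho (n : ℕ) : R n := -∑ i : Fin n, (i : ℝ) • MvPolynomial.X i

lemma hm_rho : Hm (rho n) 2 := (Hm.sum _ _ fun i _ => (Hm.X i).smul _).neg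

variable {ι κ : Type} [Fintype ι] [DecidableEq ι] [Fintype κ] [DecidableEq κ]

lemma Obj.Y_rho_mem (B : Obj n ι) : B.Y (rho n) ∈ Hom B B 2 := by
  rw [rho, map_neg, map_sum]
  exact neg_mem (Submodule.sum_mem _ fun i _ => by
    rw [map_smul]; exact Submodule.smul_mem _ _ (B.Y_X_mem i))

lemma od_act_rho (x : Perm (Fin n)) (a : Adj n) :
    (demR a).od (act x (rho n)) = MvPolynomial.C (((x a.1.2 : ℝ) - x a.1.1) / 2) := by
  have h1 : act x (rho n) = -∑ k : Fin n, (x k : ℝ) • MvPolynomial.X k := by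
    rw [rho, map_neg, map_sum, ← Equiv.sum_comp x]
    simp
  have h2 := (demR a).σ_eq (act x (rho n))
  have h3 := (demR a).dec (act x (rho n))
  have h4 : act x (rho n) - act (sr a) (act x (rho n)) =
      MvPolynomial.C ((x a.1.2 : ℝ) - x a.1.1) * alpha a := by
    rw [h1, map_neg, map_sum, neg_sub_neg, ← Finset.sum_sub_distrib,
      Finset.sum_eq_add_of_mem a.1.1 a.1.2 (Finset.mem_univ _) (Finset.mem_univ _) a.ne]
    · simp [sr, alpha, MvPolynomial.smul_eq_C_mul]; ring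
    · rintro k - ⟨h, h'⟩
      simp [sr, swap_apply_of_ne_of_ne h h']
  rw [demR_σ, demR_al] at h2
  rw [demR_al] at h3
  have h5 : (MvPolynomial.C ((x a.1.2 : ℝ) - x a.1.1) : R n) =
      2 * MvPolynomial.C (((x a.1.2 : ℝ) - x a.1.1) / 2) := by
    rw [← map_ofNat MvPolynomial.C 2, ← map_mul]; congr 1; ring
  apply mul_left_cancel₀ (mul_ne_zero (two_ne_zero (α := R n)) (alpha_ne_zero a))
  linear_combination h4 + h2 + h3 + alpha a * h5

lemma gamma_pos {x : Perm (Fin n)} {a : Adj n} (h : len x < len (x * sr a)) :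
    0 < ((x a.1.2 : ℝ) - x a.1.1) / 2 := by
  rcases lt_trichotomy (x a.1.1) (x a.1.2) with h1 | h1 | h1
  · have : ((x a.1.1 : ℕ) : ℝ) < (x a.1.2 : ℕ) := by exact_mod_cast h1
    linarith
  · exact absurd (x.injective h1) a.ne
  · have := len_mul_sr_of_gt x a h1; omega

lemma Form.bar_isUnit {B : Obj n ι} (F : Form B) : IsUnit (bar F.G) :=
  ⟨⟨bar F.G, bar F.Gi, by rw [← bar_mul, F.mul_inv, bar_one],
    by rw [← bar_mul, F.inv_mul, bar_one]⟩, rfl⟩

lemma Form.lef {B : Obj n ι} (F : Form B) {T : Matrix ι ι (R n)} (hT : T ∈ Hom B B 2)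
    (h : F.adj F T = T) : Lef B.deg (bar F.G) (bar T) where
  symm := by rw [← bar_transpose, F.symm]
  unit := F.bar_isUnit
  homG := F.homG.bar
  homL := (Hom.homog hT).bar
  adj := by rw [← bar_transpose, ← bar_mul, ← bar_mul, ← F.G_adj F T, h]

/-- the deformed Lefschetz operator on `θ B` -/
noncomputable def Lz (B : Obj n ι) (a : Adj n) (ζ : ℝ) : Matrix (ι ⊕ ι) (ι ⊕ ι) (R n) :=
  (demR a).kap (B.Y (rho n)) + ζ • (demR a).almid ι

lemma Lz_mem (B : Obj n ι) (a : Adj n) (ζ : ℝ) : Lz B a ζ ∈ Hom (B.θ a) (B.θ a) 2 :=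
  add_mem (Hom.kap B.Y_rho_mem a) (Submodule.smul_mem _ _ (almid_mem B a))

lemma Form.adj_Lz {B : Obj n ι} (F : Form B) (a : Adj n) (ζ : ℝ) :
    (F.θ a).adj (F.θ a) (Lz B a ζ) = Lz B a ζ := by
  rw [Lz, Form.adj_add, Form.adj_smul, Form.adj_almid, Form.adj_kap, Form.adj_Y]

lemma bar_Lz (B : Obj n ι) (a : Adj n) (ζ : ℝ) : bar (Lz B a ζ) =
    fromBlocks (bar (B.Y (rho n))) 0 (bar ((B.Y (rho n)).map (demR a).od) + ζ • 1)
      (bar (B.Y (rho n))) := by
  rw [Lz, bar_add, bar_smul, bar_kap, bar_almid, fromBlocks_smul, fromBlocks_add]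
  simp

lemma Form.bar_θ_G {B : Obj n ι} (F : Form B) (a : Adj n) : bar (F.θ a).G =
    fromBlocks (bar (F.G.map (demR a).od)) (bar F.G) (bar F.G) 0 := by
  rw [Form.θ_G, bar_mul, bar_kap, bar_swapJ, fromBlocks_multiply]
  simp

lemma kap_mul_Lz {B : Obj n ι} {B' : Obj n κ} {d : ℤ} {φ : Matrix κ ι (R n)}
    (h : φ ∈ Hom B B' d) (a : Adj n) (ζ : ℝ) :
    (demR a).kap φ * Lz B a ζ = Lz B' a ζ * (demR a).kap φ := by
  rw [Lz, Lz, Matrix.mul_add, Matrix.add_mul, Matrix.mul_smul, Matrix.smul_mul, almid_kap,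
    ← Dem.kap_mul, Hom.comm h, Dem.kap_mul]

end Pool.Agent.P.MP_c3da96_co
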