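import Pool.Agent.P.MP_c3da96_co.SnCox

namespace Pool.Agent.P.MP_c3da96_co

open Equiv Matrix

theorem sn_sr_lt {N : ℕ} (a : Adj N) {i j : Fin N} (hij : i < j)
    (h : ¬ (i = a.1.1 ∧ j = a.1.2)) : sr a i < sr a j := by
  have ha := a.2
  simp only [sr, swap_apply_def]
  simp only [Fin.ext_iff, Fin.lt_def] at *
  split_ifs <;> omega

theorem sn_strictMono_of_adj {N : ℕ} {α : Type*} [Preorder α] (F : Fin N → α)
    (h : ∀ a : Adj N, F a.1.1 < F a.1.2) : StrictMono F := by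
  cases N with
  | zero => intro i; exact i.elim0
  | succ n => exact Fin.strictMono_iff_lt_succ.2 fun i => h ⟨(i.castSucc, i.succ), by simp⟩

namespace Cal
variable {P K : Type} [LinearOrder P] [Field K] (c : Cal P K) {N : ℕ}

/-- exchange two adjacent times -/
def sw (a : Adj N) (τ : Fin N ≃ P) : Fin N ≃ P := (sr a).trans τ

omit [LinearOrder P] in
theorem sw_apply (a : Adj N) (τ : Fin N ≃ P) (r : Fin N) : sw a τ r = τ (sr a r) := rfl

omit [LinearOrder P] in
theorem sw_symm (a : Adj N) (τ : Fin N ≃ P) (p : P) : (sw a τ).symm p = sr a (τ.symm p) := rfl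

omit [LinearOrder P] in
theorem sw_sw (a : Adj N) (τ : Fin N ≃ P) : sw a (sw a τ) = τ := by
  ext r
  simp [sw_apply, sr]

omit [LinearOrder P] in
theorem sw_braid {a b : Adj N} (h : a.1.2 = b.1.1) (τ : Fin N ≃ P) :
    sw a (sw b (sw a τ)) = sw b (sw a (sw b τ)) := by
  ext r
  exact congrArg τ (DFunLike.congr_fun (sn_sr_braid h) r)

omit [LinearOrder P] in
theorem sw_comm {a b : Adj N} (h : a.1.2 < b.1.1) (τ : Fin N ≃ P) :
    sw b (sw a τ) = sw a (sw b τ) := by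
  ext r
  exact congrArg τ (DFunLike.congr_fun (sn_sr_comm h) r)

/-- the two boxes at the times of `a` are neighbours -/
def HV (a : Adj N) (τ : Fin N ≃ P) : Prop :=
  c.H (τ a.1.1) (τ a.1.2) ∨ c.V (τ a.1.1) (τ a.1.2)

/-- the valid exchange of two adjacent times -/
def swS (a : Adj N) (τ : c.Std N) (h : ¬ c.HV a τ.1) : c.Std N :=
  ⟨sw a τ.1, fun p q hpq => by
    rw [sw_symm, sw_symm]
    refine sn_sr_lt a (τ.2 p q hpq) fun hh => h ?_
    unfold HV
    rw [← hh.1, ← hh.2]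
    simpa using hpq⟩

/-- difference of the contents -/
def dl (a : Adj N) (τ : Fin N ≃ P) : K := c.x (τ a.1.2) - c.x (τ a.1.1)

theorem dl_ne (a : Adj N) (τ : c.Std N) : c.dl a τ.1 ≠ 0 := by
  by_cases h : c.HV a τ.1
  · rcases h with h | h
    · rw [dl, c.xH _ _ h]; exact one_ne_zero
    · rw [dl, c.xV _ _ h]; exact neg_ne_zero.2 one_ne_zero
  · exact (c.a2 N τ.1 τ.2 a h).1

/-- the seminormal operator on all functions -/
noncomputable def op (a : Adj N) (F : (Fin N ≃ P) → K) (τ : Fin N ≃ P) : K :=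
  1 / (c.x (τ a.1.2) - c.x (τ a.1.1)) * F τ + c.b (τ a.1.1) (τ a.1.2) * F (sw a τ)

variable [Fintype (c.Std N)]

theorem S_valid (a : Adj N) (f : c.Std N → K) (τ : c.Std N) (h : ¬ c.HV a τ.1) :
    (c.S a *ᵥ f) τ = 1 / c.dl a τ.1 * f τ + c.b (τ.1 a.1.1) (τ.1 a.1.2) * f (c.swS a τ h) := by
  simp only [mulVec, dotProduct, S, add_mul, Finset.sum_add_distrib]
  congr 1
  · rw [Finset.sum_eq_single τ (fun b _ hb => by rw [if_neg hb, zero_mul]) (by simp), if_pos rfl]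
    rfl
  · rw [Finset.sum_eq_single (c.swS a τ h) (fun b _ hb => by
      have e : ¬ b.1 = (sr a).trans τ.1 := fun e => hb (Subtype.ext e)
      rw [if_neg e, zero_mul]) (by simp)]
    have e : (c.swS a τ h).1 = (sr a).trans τ.1 := rfl
    rw [if_pos e]

theorem S_HV (a : Adj N) (f : c.Std N → K) (τ : c.Std N) (h : c.HV a τ.1) :
    (c.S a *ᵥ f) τ = 1 / c.dl a τ.1 * f τ := by
  simp only [mulVec, dotProduct, S, c.bz _ _ h, ite_self, add_zero]
  rw [Finset.sum_eq_single τ (fun b _ hb => by rw [if_neg hb, zero_mul]) (by simp), if_pos rfl]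
  rfl

theorem S_res (a : Adj N) (F : (Fin N ≃ P) → K) :
    c.S a *ᵥ (fun τ => F τ.1) = fun τ => c.op a F τ.1 := by
  funext τ
  by_cases h : c.HV a τ.1
  · rw [S_HV c a _ τ h, op, c.bz _ _ h, zero_mul, add_zero]; rfl
  · rw [S_valid c a _ τ h]; rfl

theorem ext_res (A B : Matrix (c.Std N) (c.Std N) K)
    (h : ∀ F : (Fin N ≃ P) → K, A *ᵥ (fun τ => F τ.1) = B *ᵥ (fun τ => F τ.1)) : A = B := by
  classical
  ext τ τ'
  have := congrFun (h (fun σ => if σ = τ'.1 then 1 else 0)) τ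
  have e : (fun σ : c.Std N => if σ.1 = τ'.1 then (1 : K) else 0) = Pi.single τ' 1 := by
    funext σ
    rw [Pi.single_apply]
    exact if_congr Subtype.ext_iff.symm rfl rfl
  rw [e] at this
  simpa using this

theorem S_sq [DecidableEq (c.Std N)] (a : Adj N) : c.S a * c.S a = 1 := by
  refine ext_res c _ _ fun F => ?_
  rw [← mulVec_mulVec, S_res, S_res, one_mulVec]
  funext τ
  have h1 : c.x (τ.1 a.1.2) - c.x (τ.1 a.1.1) ≠ 0 := c.dl_ne a τ
  have h2 : c.x (τ.1 a.1.1) - c.x (τ.1 a.1.2) ≠ 0 := fun h => h1 (by linear_combination -h)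
  have h3 := c.bb (τ.1 a.1.1) (τ.1 a.1.2) (sub_ne_zero.1 h2)
  simp only [op, sw_apply, sn_sr_fst, sn_sr_snd, sw_sw]
  have e : c.x (τ.1 a.1.1) - c.x (τ.1 a.1.2) = -(c.x (τ.1 a.1.2) - c.x (τ.1 a.1.1)) := by ring
  rw [e]
  generalize c.x (τ.1 a.1.2) - c.x (τ.1 a.1.1) = u at *
  linear_combination (exp := 1) (F τ.1) * h3

theorem S_comm {a b : Adj N} (h : a.1.2 < b.1.1) : c.S a * c.S b = c.S b * c.S a := by
  refine ext_res c _ _ fun F => ?_
  rw [← mulVec_mulVec, ← mulVec_mulVec, S_res, S_res, S_res, S_res]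
  funext τ
  have a12 := sn_adj_lt a
  have b12 := sn_adj_lt b
  have e1 : sr a b.1.1 = b.1.1 := sn_sr_other a (a12.trans h).ne' h.ne'
  have e2 : sr a b.1.2 = b.1.2 :=
    sn_sr_other a (a12.trans (h.trans b12)).ne' (h.trans b12).ne'
  have e3 : sr b a.1.1 = a.1.1 := sn_sr_other b (a12.trans h).ne (a12.trans (h.trans b12)).ne
  have e4 : sr b a.1.2 = a.1.2 := sn_sr_other b h.ne (h.trans b12).ne
  simp only [op, sw_apply, e1, e2, e3, e4, sw_comm h]
  ring

theorem S_braid {a b : Adj N} (h : a.1.2 = b.1.1) :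
    c.S a * c.S b * c.S a = c.S b * c.S a * c.S b := by
  refine ext_res c _ _ fun F => ?_
  simp only [← mulVec_mulVec, S_res]
  funext τ
  have a12 := sn_adj_lt a
  have b12 := sn_adj_lt b
  have hab : a.1.1 < b.1.1 := h ▸ a12
  have e1 : sr a b.1.1 = a.1.1 := by rw [← h, sn_sr_snd]
  have e2 : sr a b.1.2 = b.1.2 :=
    sn_sr_other a (hab.trans b12).ne' (by rw [h]; exact b12.ne')
  have e3 : sr b a.1.1 = a.1.1 := sn_sr_other b hab.ne (hab.trans b12).ne
  have e4 : sr b a.1.2 = b.1.2 := by rw [h, sn_sr_fst]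
  have e5 : sr a a.1.1 = b.1.1 := by rw [← h, sn_sr_fst]
  have h1 : c.x (τ.1 a.1.2) - c.x (τ.1 a.1.1) ≠ 0 := c.dl_ne a τ
  have h2 : c.x (τ.1 b.1.2) - c.x (τ.1 b.1.1) ≠ 0 := c.dl_ne b τ
  have h3 : c.x (τ.1 a.1.1) ≠ c.x (τ.1 b.1.2) := c.a3 N τ.1 τ.2 _ _ (by
    have := a.2
    have := b.2
    have := congrArg Fin.val h
    omega)
  rw [h] at h1
  have k1 := c.bb (τ.1 a.1.1) (τ.1 b.1.1) (sub_ne_zero.1 h1).symm
  have k2 := c.bb (τ.1 b.1.1) (τ.1 b.1.2) (sub_ne_zero.1 h2).symm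
  simp only [op, sw_apply, h, e1, e2, e3, e5, sn_sr_fst, sn_sr_snd, sw_sw, sw_braid h]
  have f3 : c.x (τ.1 b.1.2) - c.x (τ.1 a.1.1) = (c.x (τ.1 b.1.1) - c.x (τ.1 a.1.1)) +
    (c.x (τ.1 b.1.2) - c.x (τ.1 b.1.1)) := by ring
  have f4 : c.x (τ.1 a.1.1) - c.x (τ.1 b.1.1) = -(c.x (τ.1 b.1.1) - c.x (τ.1 a.1.1)) := by ring
  have f5 : c.x (τ.1 b.1.1) - c.x (τ.1 b.1.2) = -(c.x (τ.1 b.1.2) - c.x (τ.1 b.1.1)) := by ring
  have h4 := sub_ne_zero.2 h3.symm
  rw [f3] at h4
  rw [f3, f4, f5]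
  generalize c.x (τ.1 b.1.1) - c.x (τ.1 a.1.1) = u at *
  generalize c.x (τ.1 b.1.2) - c.x (τ.1 b.1.1) = v at *
  have g1 : 1 / u * (1 / v) = 1 / (u + v) * (1 / u + 1 / v) := by field_simp; ring
  linear_combination (exp := 1) (1 / (u + v) * F τ.1) * (k1 - k2) +
    (F τ.1 * (1 / u - 1 / v) + c.b (τ.1 a.1.1) (τ.1 b.1.1) * F (sw a τ.1) -
      c.b (τ.1 b.1.1) (τ.1 b.1.2) * F (sw b τ.1)) * g1

omit [Fintype (c.Std N)]

open Classical in
/-- the factor of a pair of boxes in the gauge -/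
noncomputable def gam (u v : P) : K :=
  if v < u ∧ c.x u - c.x v ≠ 0 ∧ c.x u - c.x v ≠ 1 ∧ c.x u - c.x v ≠ -1 then
    (1 - 1 / (c.x u - c.x v)) / c.b v u else 1

theorem b_ne {u v : P} (h0 : c.x u - c.x v ≠ 0) (h1 : c.x u - c.x v ≠ 1)
    (h2 : c.x u - c.x v ≠ -1) : c.b v u * c.b u v ≠ 0 := by
  rw [c.bb v u (sub_ne_zero.1 h0).symm]
  generalize c.x u - c.x v = d at *
  intro h
  field_simp at h
  have : (d - 1) * (d + 1) = 0 := by linear_combination h
  rcases mul_eq_zero.1 this with h | h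
  · exact h1 (by linear_combination h)
  · exact h2 (by linear_combination h)

theorem gam_ne (u v : P) : c.gam u v ≠ 0 := by
  unfold gam
  split_ifs with h
  · refine div_ne_zero ?_ (left_ne_zero_of_mul (c.b_ne h.2.1 h.2.2.1 h.2.2.2))
    intro e
    have h0 := h.2.1
    field_simp at e
    exact h.2.2.1 (by linear_combination e)
  · exact one_ne_zero

theorem gam_swap {p q : P} (h0 : c.x q - c.x p ≠ 0) (h1 : c.x q - c.x p ≠ 1)
    (h2 : c.x q - c.x p ≠ -1) :
    c.gam q p * c.b p q = c.gam p q * (1 - 1 / (c.x q - c.x p)) := by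
  have hb := c.b_ne h0 h1 h2
  have hbb := c.bb p q (sub_ne_zero.1 h0).symm
  rcases lt_trichotomy p q with h | h | h
  · rw [gam, gam, if_pos ⟨h, h0, h1, h2⟩, if_neg (fun e => h.not_gt e.1), one_mul,
      div_mul_cancel₀ _ (left_ne_zero_of_mul hb)]
  · exact absurd (by rw [h, sub_self]) h0
  · have e : c.x p - c.x q = -(c.x q - c.x p) := by ring
    rw [gam, gam, if_neg (fun e => h.not_gt e.1), if_pos ⟨h, by rw [e]; exact neg_ne_zero.2 h0,
      by rw [e]; exact fun e => h2 (by linear_combination -e),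
      by rw [e]; exact fun e => h1 (by linear_combination -e)⟩, one_mul, e,
      div_mul_eq_mul_div, eq_div_iff (right_ne_zero_of_mul hb), hbb]
    generalize c.x q - c.x p = d
    ring

/-- the gauge -/
noncomputable def gauge (τ : Fin N ≃ P) : K :=
  ∏ r ∈ Finset.univ.filter (fun r : Fin N × Fin N => r.1 < r.2), c.gam (τ r.1) (τ r.2)

theorem gauge_ne (τ : Fin N ≃ P) : c.gauge τ ≠ 0 :=
  Finset.prod_ne_zero_iff.2 fun _ _ => c.gam_ne _ _

theorem gauge_sw (a : Adj N) (τ : Fin N ≃ P) :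
    c.gauge (sw a τ) * c.gam (τ a.1.1) (τ a.1.2) = c.gauge τ * c.gam (τ a.1.2) (τ a.1.1) := by
  have hm : a.1 ∈ Finset.univ.filter (fun r : Fin N × Fin N => r.1 < r.2) := by
    simpa using sn_adj_lt a
  have hs : ∀ r, sr a (sr a r) = r := fun r => swap_apply_self _ _ _
  have hmap : ∀ r ∈ (Finset.univ.filter (fun r : Fin N × Fin N => r.1 < r.2)).erase a.1,
      (sr a r.1, sr a r.2) ∈
        (Finset.univ.filter (fun r : Fin N × Fin N => r.1 < r.2)).erase a.1 := by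
    intro r hr
    simp only [Finset.mem_erase, Finset.mem_filter, Finset.mem_univ, true_and] at hr ⊢
    refine ⟨fun e => ?_, sn_sr_lt a hr.2 fun e => hr.1 (Prod.ext e.1 e.2)⟩
    have e1 : r.1 = a.1.2 := by
      rw [← hs r.1, show sr a r.1 = a.1.1 from congrArg Prod.fst e, sn_sr_fst]
    have e2 : r.2 = a.1.1 := by
      rw [← hs r.2, show sr a r.2 = a.1.2 from congrArg Prod.snd e, sn_sr_snd]
    have := hr.2
    rw [e1, e2] at this
    exact this.not_gt (sn_adj_lt a)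
  unfold gauge
  rw [← Finset.mul_prod_erase _ _ hm, ← Finset.mul_prod_erase _ _ hm,
    Finset.prod_nbij' (fun r => (sr a r.1, sr a r.2)) (fun r => (sr a r.1, sr a r.2)) hmap hmap
      (fun r _ => by simp [hs]) (fun r _ => by simp [hs])
      (f := fun r => c.gam (sw a τ r.1) (sw a τ r.2))
      (g := fun r => c.gam (τ r.1) (τ r.2)) (fun r _ => rfl)]
  simp only [sw_apply, sn_sr_fst, sn_sr_snd]
  ring

theorem gauge_valid (a : Adj N) (τ : c.Std N) (h : ¬ c.HV a τ.1) :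
    c.b (τ.1 a.1.1) (τ.1 a.1.2) ≠ 0 ∧
      c.gauge (c.swS a τ h).1 * c.b (τ.1 a.1.1) (τ.1 a.1.2) =
        c.gauge τ.1 * (1 - 1 / c.dl a τ.1) := by
  obtain ⟨h0, h1, h2⟩ := c.a2 N τ.1 τ.2 a h
  refine ⟨left_ne_zero_of_mul (c.b_ne h0 h1 h2), ?_⟩
  apply mul_right_cancel₀ (c.gam_ne (τ.1 a.1.1) (τ.1 a.1.2))
  have e1 := c.gauge_sw a τ.1
  have e2 := c.gam_swap h0 h1 h2
  change c.gauge (sw a τ.1) * _ * _ = _ * (1 - 1 / (c.x (τ.1 a.1.2) - c.x (τ.1 a.1.1))) * _
  linear_combination c.b (τ.1 a.1.1) (τ.1 a.1.2) * e1 + c.gauge τ.1 * e2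

/-- increasing inside every block -/
def Srt {k : ℕ} (blk : Fin N → Fin k) (τ : Fin N ≃ P) : Prop :=
  ∀ a : Adj N, blk a.1.1 = blk a.1.2 → τ a.1.1 < τ a.1.2

theorem blk_sr {k : ℕ} {blk : Fin N → Fin k} {a : Adj N} (h : blk a.1.1 = blk a.1.2) (r : Fin N) :
    blk (sr a r) = blk r := sn_mem_young.1 (sn_sr_mem_young h) r

theorem exists_srt [Fintype P] {k : ℕ} (blk : Fin N → Fin k) {α : Type*} (h : c.Std N → α)
    (hh : ∀ (τ : c.Std N) (a : Adj N) (hv : ¬ c.HV a τ.1), blk a.1.1 = blk a.1.2 →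
      h (c.swS a τ hv) = h τ) (τ : c.Std N) :
    ∃ τ' : c.Std N, (∀ p, blk (τ'.1.symm p) = blk (τ.1.symm p)) ∧ Srt blk τ'.1 ∧ h τ' = h τ := by
  let e : Fin N ≃o P := monoEquivOfFin P (by simpa using Fintype.card_congr τ.1.symm)
  induction hl : len (τ.1.trans e.symm.toEquiv) using Nat.strong_induction_on generalizing τ with
  | _ m ih =>
    by_cases hs : Srt blk τ.1
    · exact ⟨τ, fun _ => rfl, hs, rfl⟩
    · simp only [Srt, not_forall, not_lt] at hs
      obtain ⟨a, hb, ha⟩ := hs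
      have ha' : τ.1 a.1.2 < τ.1 a.1.1 :=
        lt_of_le_of_ne ha fun e => (sn_adj_lt a).ne' (τ.1.injective e)
      have hv : ¬ c.HV a τ.1 := fun hv => (c.lt _ _ hv).not_gt ha'
      have := len_mul_sr_of_gt (τ.1.trans e.symm.toEquiv) a (e.symm.strictMono ha')
      obtain ⟨τ', h1, h2, h3⟩ := ih (len (τ.1.trans e.symm.toEquiv * sr a)) (by omega)
        (c.swS a τ hv) rfl
      refine ⟨τ', fun p => (h1 p).trans (blk_sr hb _), h2, h3.trans (hh τ a hv hb)⟩

theorem srt_mono {k : ℕ} {blk : Fin N → Fin k} (hm : Monotone blk) {τ : Fin N ≃ P}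
    (h : Srt blk τ) : StrictMono (fun r => toLex (blk r, τ r)) := by
  refine sn_strictMono_of_adj _ fun a => ?_
  rw [Prod.Lex.toLex_lt_toLex]
  rcases (hm (sn_adj_lt a).le).eq_or_lt with e | e
  · exact Or.inr ⟨e, h a e⟩
  · exact Or.inl e

theorem srt_unique {k : ℕ} {blk : Fin N → Fin k} (hm : Monotone blk) {τ τ' : Fin N ≃ P}
    (h : Srt blk τ) (h' : Srt blk τ') (e : ∀ p, blk (τ.symm p) = blk (τ'.symm p)) : τ = τ' := by
  have := ((srt_mono hm h).range_inj (srt_mono hm h')).1 (by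
    ext z
    constructor
    · rintro ⟨r, rfl⟩
      exact ⟨τ'.symm (τ r), by simp [← e]⟩
    · rintro ⟨r, rfl⟩
      exact ⟨τ.symm (τ' r), by simp [e]⟩)
  ext r
  exact (Prod.ext_iff.1 (toLex.injective (congrFun this r))).2

theorem srt_adj {k : ℕ} {blk : Fin N → Fin k} (hm : Monotone blk) (τ : c.Std N)
    (h : Srt blk τ.1) {p q : P} (hV : c.V p q) (e : blk (τ.1.symm p) = blk (τ.1.symm q)) :
    ∃ a : Adj N, a.1.1 = τ.1.symm p ∧ a.1.2 = τ.1.symm q := by
  have hlt := τ.2 p q (Or.inr hV)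
  by_cases hh : (τ.1.symm q).val = (τ.1.symm p).val + 1
  · exact ⟨⟨(τ.1.symm p, τ.1.symm q), hh⟩, rfl, rfl⟩
  · exfalso
    have hq := (τ.1.symm q).2
    rw [Fin.lt_def] at hlt
    let m : Fin N := ⟨(τ.1.symm p).val + 1, by omega⟩
    have l1 : τ.1.symm p < m := by rw [Fin.lt_def]; simp [m]
    have l2 : m < τ.1.symm q := by rw [Fin.lt_def]; simp only [m]; omega
    have k1 := srt_mono hm h l1
    have k2 := srt_mono hm h l2
    have m1 := hm l1.le
    have m2 := hm l2.le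
    simp only [Prod.Lex.toLex_lt_toLex, apply_symm_apply] at k1 k2
    rw [← e] at m2 k2
    exact (c.cov p q hV).2 (k1.resolve_left m2.not_gt).2 (k2.resolve_left m1.not_gt).2

theorem exists_std [Finite P] {k : ℕ} {blk : Fin N → Fin k} (hm : Monotone blk) (T : P → Fin k)
    (hT : ∀ p q, c.H p q ∨ c.V p q → T p ≤ T q)
    (hc : ∀ i, Nat.card {p // T p = i} = Nat.card {r // blk r = i}) :
    ∃ τ : c.Std N, ∀ p, blk (τ.1.symm p) = T p := by
  obtain ⟨τ0, h0⟩ := sn_exists_equiv T blk hc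
  let F : Fin N → Fin k ×ₗ P := fun r => toLex (blk r, τ0 r)
  have hF := Tuple.monotone_sort F
  have hb : blk ∘ Tuple.sort F = blk ∘ (1 : Perm (Fin N)) :=
    Tuple.unique_monotone (Prod.Lex.monotone_fst_ofLex.comp hF) hm
  refine ⟨⟨(Tuple.sort F).trans τ0, fun p q hpq => ?_⟩, fun p => ?_⟩
  · refine hF.reflect_lt ?_
    simp only [F, Function.comp, symm_trans_apply, apply_symm_apply, ← h0,
      Prod.Lex.toLex_lt_toLex]
    exact (hT p q hpq).eq_or_lt.symm.imp id fun e => ⟨e, c.lt p q hpq⟩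
  · have := congrFun hb ((Tuple.sort F).symm (τ0.symm p))
    simp only [Function.comp, apply_symm_apply, Perm.one_apply, ← h0 (τ0.symm p)] at this
    exact this.symm

/-- semistandard fillings with the content of `blk` -/
def Good {k : ℕ} (blk : Fin N → Fin k) (T : P → Fin k) : Prop :=
  (∀ p q, c.H p q → T p ≤ T q) ∧ (∀ p q, c.V p q → T p < T q) ∧
    ∀ i, Nat.card {p // T p = i} = Nat.card {r // blk r = i}

open Classical in
/-- the invariant vector of a function on semistandard fillings -/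
noncomputable def phi {k : ℕ} (blk : Fin N → Fin k) :
    ({T // c.Good blk T} → K) →ₗ[K] (c.Std N → K) where
  toFun φ τ := c.gauge τ.1 *
    (if h : c.Good blk (fun p => blk (τ.1.symm p)) then φ ⟨_, h⟩ else 0)
  map_add' φ ψ := by
    funext τ
    simp only [Pi.add_apply]
    split_ifs <;> ring
  map_smul' t φ := by
    funext τ
    simp only [Pi.smul_apply, smul_eq_mul, RingHom.id_apply]
    split_ifs <;> ring

theorem phi_pos {k : ℕ} (blk : Fin N → Fin k) (φ : {T // c.Good blk T} → K) (τ : c.Std N)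
    (T : {T // c.Good blk T}) (h : ∀ p, blk (τ.1.symm p) = T.1 p) :
    c.phi blk φ τ = c.gauge τ.1 * φ T := by
  obtain ⟨T, hT⟩ := T
  obtain rfl : (fun p => blk (τ.1.symm p)) = T := funext h
  exact congrArg _ (dif_pos hT)

theorem phi_neg {k : ℕ} (blk : Fin N → Fin k) (φ : {T // c.Good blk T} → K) (τ : c.Std N)
    (h : ¬ c.Good blk (fun p => blk (τ.1.symm p))) : c.phi blk φ τ = 0 :=
  (congrArg _ (dif_neg h)).trans (mul_zero _)

theorem phi_inj [Finite P] {k : ℕ} {blk : Fin N → Fin k} (hm : Monotone blk) :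
    Function.Injective (c.phi blk) := by
  intro φ ψ h
  funext T
  obtain ⟨τ, hτ⟩ := c.exists_std hm T.1
    (fun p q hpq => hpq.elim (T.2.1 p q) fun e => (T.2.2.1 p q e).le) T.2.2.2
  have := congrFun h τ
  rw [c.phi_pos blk φ τ T hτ, c.phi_pos blk ψ τ T hτ] at this
  exact mul_left_cancel₀ (c.gauge_ne _) this

theorem mem_range_phi [Fintype P] [CharZero K] [Fintype (c.Std N)] {k : ℕ} {blk : Fin N → Fin k}
    (hm : Monotone blk) (f : c.Std N → K) : f ∈ LinearMap.range (c.phi blk) ↔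
      ∀ a : Adj N, blk a.1.1 = blk a.1.2 → c.S a *ᵥ f = f := by
  constructor
  · rintro ⟨φ, rfl⟩ a ha
    funext τ
    by_cases hg : c.Good blk (fun p => blk (τ.1.symm p))
    · by_cases hv : c.HV a τ.1
      · rw [c.S_HV a _ τ hv]
        rcases hv with hv | hv
        · rw [dl, c.xH _ _ hv, div_one, one_mul]
        · have := hg.2.1 _ _ hv
          simp only [symm_apply_apply] at this
          exact absurd ha this.ne
      · rw [c.S_valid a _ τ hv, c.phi_pos blk φ τ ⟨_, hg⟩ (fun _ => rfl),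
          c.phi_pos blk φ (c.swS a τ hv) ⟨_, hg⟩ (fun p => blk_sr ha _)]
        linear_combination φ ⟨_, hg⟩ * (c.gauge_valid a τ hv).2
    · by_cases hv : c.HV a τ.1
      · rw [c.S_HV a _ τ hv, c.phi_neg blk φ τ hg, mul_zero]
      · have e : (fun p => blk ((c.swS a τ hv).1.symm p)) = fun p => blk (τ.1.symm p) :=
          funext fun p => blk_sr ha _
        rw [c.S_valid a _ τ hv, c.phi_neg blk φ τ hg, c.phi_neg blk φ _ (e ▸ hg)]
        ring
  · intro hf
    have hh : ∀ (τ : c.Std N) (a : Adj N) (hv : ¬ c.HV a τ.1), blk a.1.1 = blk a.1.2 →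
        f (c.swS a τ hv) / c.gauge (c.swS a τ hv).1 = f τ / c.gauge τ.1 := by
      intro τ a hv ha
      have e1 := congrFun (hf a ha) τ
      rw [c.S_valid a _ τ hv] at e1
      obtain ⟨e2, e3⟩ := c.gauge_valid a τ hv
      rw [div_eq_div_iff (c.gauge_ne _) (c.gauge_ne _)]
      apply mul_left_cancel₀ e2
      linear_combination c.gauge τ.1 * e1 - f τ * e3
    have hex : ∀ T : {T // c.Good blk T}, ∃ τ : c.Std N, ∀ p, blk (τ.1.symm p) = T.1 p :=
      fun T => c.exists_std hm T.1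
        (fun p q hpq => hpq.elim (T.2.1 p q) fun e => (T.2.2.1 p q e).le) T.2.2.2
    choose t ht using hex
    refine ⟨fun T => f (t T) / c.gauge (t T).1, funext fun τ => ?_⟩
    obtain ⟨τ', h1, h2, h3⟩ := c.exists_srt blk (fun τ => f τ / c.gauge τ.1) hh τ
    by_cases hg : c.Good blk (fun p => blk (τ.1.symm p))
    · obtain ⟨τ'', k1, k2, k3⟩ := c.exists_srt blk (fun τ => f τ / c.gauge τ.1) hh (t ⟨_, hg⟩)
      obtain rfl : τ' = τ'' := Subtype.ext (srt_unique hm h2 k2 fun p =>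
        (h1 p).trans ((k1 p).trans (ht ⟨_, hg⟩ p)).symm)
      rw [c.phi_pos blk _ τ ⟨_, hg⟩ (fun _ => rfl), ← k3, h3,
        mul_div_cancel₀ _ (c.gauge_ne _)]
    · rw [c.phi_neg blk _ τ hg]
      have hV : ∃ p q, c.V p q ∧ blk (τ.1.symm p) = blk (τ.1.symm q) := by
        by_contra hn
        refine hg ⟨fun p q e => hm (τ.2 p q (Or.inl e)).le, fun p q e =>
          lt_of_le_of_ne (hm (τ.2 p q (Or.inr e)).le) fun e' => hn ⟨p, q, e, e'⟩,
          sn_card_fiber _ blk τ.1 fun r => by simp⟩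
      obtain ⟨p, q, hV, e⟩ := hV
      rw [← h1, ← h1] at e
      obtain ⟨a, a1, a2⟩ := c.srt_adj hm τ' h2 hV e
      have hV' : c.V (τ'.1 a.1.1) (τ'.1 a.1.2) := by rw [a1, a2]; simpa using hV
      have e1 := congrFun (hf a (by rw [a1, a2, e])) τ'
      rw [c.S_HV a _ τ' (Or.inr hV'), dl, c.xV _ _ hV'] at e1
      have e2 : f τ' = 0 := by linear_combination (-1 / 2 : K) * e1
      have e3 : f τ' / c.gauge τ'.1 = f τ / c.gauge τ.1 := h3
      rw [e2, zero_div] at e3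
      exact ((div_eq_zero_iff.1 e3.symm).resolve_right (c.gauge_ne _)).symm

end Cal

theorem Cal.rep {P K : Type} [Fintype P] [LinearOrder P] [Field K] [CharZero K] (c : Cal P K)
    (N : ℕ) [Fintype (c.Std N)] [DecidableEq (c.Std N)] :
    ∃ ρ : Perm (Fin N) →* Matrix (c.Std N) (c.Std N) K, (∀ a, ρ (sr a) = c.S a) ∧
      ∀ (k : ℕ) (blk : Fin N → Fin k), Monotone blk →
        ∑ σ ∈ young blk, trace (ρ σ) = ((young blk).card * c.kost blk : ℕ) := by
  classical
  obtain ⟨ρ, hρ⟩ := sn_coxeter (fun a : Adj N => c.S a) c.S_sq (fun _ _ => c.S_braid)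
    (fun _ _ => c.S_comm)
  refine ⟨ρ, hρ, fun k blk hm => ?_⟩
  rw [sn_trace_avg ρ ρ.map_mul (young blk) (sn_mem_young.2 fun _ => rfl) sn_young_mul
    (LinearMap.range (c.phi blk)), LinearMap.finrank_range_of_inj (c.phi_inj hm),
    Module.finrank_fintype_fun_eq_card, ← Nat.card_eq_fintype_card]
  · rfl
  · intro v
    rw [c.mem_range_phi hm]
    constructor
    · intro h
      exact sn_young_inv hm ρ v fun a ha => hρ a ▸ h a ha
    · intro h a ha
      exact hρ a ▸ h _ (sn_sr_mem_young ha)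

end Pool.Agent.P.MP_c3da96_co
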