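import Mathlib

namespace Pool.Agent.P.MP_c3da96_co

open Equiv Polynomial

/-- Coxeter length of a permutation: the number of inversions -/
def len {n : ℕ} (w : Perm (Fin n)) : ℕ :=
  (Finset.univ.filter (fun p : Fin n × Fin n => p.1 < p.2 ∧ w p.2 < w p.1)).card

/-- pairs of adjacent positions `(k, k+1)` -/
abbrev Adj (n : ℕ) : Type := {p : Fin n × Fin n // p.2.val = p.1.val + 1}

/-- the simple transposition `(k, k+1)` -/
def sr {n : ℕ} (a : Adj n) : Perm (Fin n) := swap a.1.1 a.1.2

/-- Bruhat order: generated by `x < x t` for transpositions `t` with `len x < len (x t)` -/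
def bruhatLE {n : ℕ} : Perm (Fin n) → Perm (Fin n) → Prop :=
  Relation.ReflTransGen (fun x y => len x < len y ∧ ∃ i j, y = x * swap i j)

/-- `μ(z, y)`: the coefficient of `q ^ ((len y - len z - 1) / 2)` in `P z y` -/
def muCoef {n : ℕ} (P : Perm (Fin n) → Perm (Fin n) → ℤ[X]) (z y : Perm (Fin n)) : ℤ :=
  if len z < len y ∧ Odd (len y - len z) then (P z y).coeff ((len y - len z - 1) / 2) else 0

open Classical in
/-- the right side of the recursion of Kazhdan and Lusztig for `P x w`, for a right descent `s`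
of `w`, and `δ x w` for `w = 1` -/
noncomputable def klStep {n : ℕ} (P : Perm (Fin n) → Perm (Fin n) → ℤ[X])
    (x w : Perm (Fin n)) : ℤ[X] :=
  if h : ∃ a : Adj n, len (w * sr a) < len w then
    (if len (x * sr h.choose) < len x then
        P (x * sr h.choose) (w * sr h.choose) + X * P x (w * sr h.choose)
      else X * P (x * sr h.choose) (w * sr h.choose) + P x (w * sr h.choose)) -
      ∑ z : Perm (Fin n) with len (z * sr h.choose) < len z,
        C (muCoef P z (w * sr h.choose)) * X ^ ((len w - len z) / 2) * P x z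
  else if x = w then 1 else 0

/-- the Kazhdan-Lusztig polynomial `P_{x,w}` -/
noncomputable def KL {n : ℕ} (x w : Perm (Fin n)) : ℤ[X] :=
  klStep^[len w] (fun x w => if x = w then 1 else 0) x w

open Classical in
/-- the Kazhdan-Lusztig immanant -/
noncomputable def klImm {n : ℕ} {A : Type*} [CommRing A] (w : Perm (Fin n))
    (M : Matrix (Fin n) (Fin n) A) : A :=
  ∑ v : Perm (Fin n) with bruhatLE w v, (-1) ^ (len v - len w) *
    (((KL (Fin.revPerm * v) (Fin.revPerm * w)).eval 1 : ℤ) : A) * ∏ i, M i (v i)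

/-- semistandard fillings of a set of boxes `(row, column)` -/
def IsSST {k : ℕ} (θ : Finset (ℤ × ℤ)) (T : θ → Fin k) : Prop :=
  ∀ p q : θ, (q.1 = (p.1.1, p.1.2 + 1) → T p ≤ T q) ∧ (q.1 = (p.1.1 + 1, p.1.2) → T p < T q)

open Classical in
/-- the (skew) Schur polynomial of a set of boxes in `k` variables -/
noncomputable def schurOf (θ : Finset (ℤ × ℤ)) (k : ℕ) : MvPolynomial (Fin k) ℤ :=
  ∑ T : θ → Fin k with IsSST θ T, ∏ p, MvPolynomial.X (T p)

/-- the boxes of a Young diagram -/
def cellsZ (ν : YoungDiagram) : Finset (ℤ × ℤ) :=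
  ν.cells.image (fun c => ((c.1 : ℤ), (c.2 : ℤ)))

/-- Schur positivity of a symmetric function given by its restrictions to `k` variables -/
def SchurPositive (f : (k : ℕ) → MvPolynomial (Fin k) ℤ) : Prop :=
  ∃ c : YoungDiagram →₀ ℕ, ∀ k, f k = c.sum (fun ν m => m • schurOf (cellsZ ν) k)

/-- `r c` is the row of the box of content `c` of an infinite ribbon -/
def IsRibbon (r : ℤ → ℤ) : Prop := ∀ c, r (c + 1) = r c ∨ r (c + 1) = r c - 1

/-- the box of content `c` of the translate `R + (k, k)` -/
def box (r : ℤ → ℤ) (k c : ℤ) : ℤ × ℤ := (r c + k, r c + c + k)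

/-- the piece `[a, b)` of the ribbon -/
noncomputable def piece (r : ℤ → ℤ) (a b : ℤ) : Finset (ℤ × ℤ) := (Finset.Ico a b).image (box r 0)

/-- the ribbon decomposition matrix in `k` variables -/
noncomputable def ribbonMatrix (r : ℤ → ℤ) {l : ℕ} (a b : Fin l → ℤ) (k : ℕ) :
    Matrix (Fin l) (Fin l) (MvPolynomial (Fin k) ℤ) :=
  fun i j => if a j ≤ b i then schurOf (piece r (a j) (b i)) k else 0

/-- `λ / μ` is compatible with the ribbon, and its nonempty intersections with the translates,
listed from inside out, are the pieces `[a i, b i)` of the translates number `κ i` -/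
def IsDecomp (r : ℤ → ℤ) (lam mu : YoungDiagram) {l : ℕ} (κ a b : Fin l → ℤ) : Prop :=
  StrictMono κ ∧ (∀ i, a i < b i) ∧
    ∀ k c, box r k c ∈ cellsZ lam \ cellsZ mu ↔ ∃ i, κ i = k ∧ a i ≤ c ∧ c < b i

end Pool.Agent.P.MP_c3da96_co
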