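import Mathlib

namespace Pool.Agent.P.MP_c3da96_co

open Matrix

/-- a ring with an involution `σ`, free of rank two over the invariants with basis `1, al` -/
structure Dem (S : Type*) [CommRing S] where
  σ : S →+* S
  al : S
  ev : S → S
  od : S → S
  dec : ∀ r, ev r + al * od r = r
  σ_ev : ∀ r, σ (ev r) = ev r
  σ_od : ∀ r, σ (od r) = od r
  σ_al : σ al = -al
  uniq : ∀ p q, σ p = p → σ q = q → p + al * q = 0 → p = 0 ∧ q = 0

namespace Dem

variable {S : Type*} [CommRing S] (D : Dem S)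

lemma ev_od_of {p q r : S} (hp : D.σ p = p) (hq : D.σ q = q) (h : p + D.al * q = r) :
    D.ev r = p ∧ D.od r = q := by
  have := D.uniq (D.ev r - p) (D.od r - q) (by rw [map_sub, D.σ_ev, hp])
    (by rw [map_sub, D.σ_od, hq]) (by linear_combination D.dec r - h)
  exact ⟨sub_eq_zero.1 this.1, sub_eq_zero.1 this.2⟩

lemma σ_eq (r : S) : D.σ r = D.ev r - D.al * D.od r := by
  conv_lhs => rw [← D.dec r]
  rw [map_add, map_mul, D.σ_ev, D.σ_od, D.σ_al]; ring

lemma σ_σ (r : S) : D.σ (D.σ r) = r := by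
  rw [D.σ_eq r, map_sub, map_mul, D.σ_ev, D.σ_od, D.σ_al]
  linear_combination D.dec r

lemma σ_al_sq : D.σ (D.al ^ 2) = D.al ^ 2 := by rw [map_pow, D.σ_al]; ring

lemma ev_od_add (r s : S) : D.ev (r + s) = D.ev r + D.ev s ∧ D.od (r + s) = D.od r + D.od s :=
  D.ev_od_of (by rw [map_add, D.σ_ev, D.σ_ev]) (by rw [map_add, D.σ_od, D.σ_od])
    (by linear_combination D.dec r + D.dec s)

lemma ev_add (r s : S) : D.ev (r + s) = D.ev r + D.ev s := (D.ev_od_add r s).1
lemma od_add (r s : S) : D.od (r + s) = D.od r + D.od s := (D.ev_od_add r s).2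

lemma ev_od_mul (r s : S) : D.ev (r * s) = D.ev r * D.ev s + D.al ^ 2 * D.od r * D.od s ∧
    D.od (r * s) = D.od r * D.ev s + D.ev r * D.od s :=
  D.ev_od_of (by simp only [map_add, map_mul, D.σ_ev, D.σ_od, D.σ_al_sq])
    (by simp only [map_add, map_mul, D.σ_ev, D.σ_od])
    (by linear_combination (D.ev s + D.al * D.od s) * D.dec r + r * D.dec s)

lemma ev_mul (r s : S) : D.ev (r * s) = D.ev r * D.ev s + D.al ^ 2 * D.od r * D.od s :=
  (D.ev_od_mul r s).1
lemma od_mul (r s : S) : D.od (r * s) = D.od r * D.ev s + D.ev r * D.od s := (D.ev_od_mul r s).2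

lemma ev_inv {r : S} (h : D.σ r = r) : D.ev r = r :=
  (D.ev_od_of (q := 0) h (map_zero _) (by ring)).1
lemma od_inv {r : S} (h : D.σ r = r) : D.od r = 0 :=
  (D.ev_od_of (q := 0) h (map_zero _) (by ring)).2

@[simp] lemma ev_zero : D.ev 0 = 0 := D.ev_inv (map_zero _)
@[simp] lemma od_zero : D.od 0 = 0 := D.od_inv (map_zero _)
@[simp] lemma ev_one : D.ev 1 = 1 := D.ev_inv (map_one _)
@[simp] lemma od_one : D.od 1 = 0 := D.od_inv (map_one _)
@[simp] lemma ev_al : D.ev D.al = 0 :=
  (D.ev_od_of (p := 0) (q := 1) (map_zero _) (map_one _) (by ring)).1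
@[simp] lemma od_al : D.od D.al = 1 :=
  (D.ev_od_of (p := 0) (q := 1) (map_zero _) (map_one _) (by ring)).2
@[simp] lemma ev_ev (r : S) : D.ev (D.ev r) = D.ev r := D.ev_inv (D.σ_ev r)
@[simp] lemma od_ev (r : S) : D.od (D.ev r) = 0 := D.od_inv (D.σ_ev r)
@[simp] lemma ev_od (r : S) : D.ev (D.od r) = D.od r := D.ev_inv (D.σ_od r)
@[simp] lemma od_od (r : S) : D.od (D.od r) = 0 := D.od_inv (D.σ_od r)

lemma ev_inv_mul {c : S} (h : D.σ c = c) (r : S) : D.ev (c * r) = c * D.ev r := by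
  rw [D.ev_mul, D.ev_inv h, D.od_inv h]; ring
lemma od_inv_mul {c : S} (h : D.σ c = c) (r : S) : D.od (c * r) = c * D.od r := by
  rw [D.od_mul, D.ev_inv h, D.od_inv h]; ring
lemma ev_al_mul (r : S) : D.ev (D.al * r) = D.al ^ 2 * D.od r := by
  rw [D.ev_mul]; simp
lemma od_al_mul (r : S) : D.od (D.al * r) = D.ev r := by
  rw [D.od_mul]; simp

/-- `ev` as an additive map -/
def evHom : S →+ S := ⟨⟨D.ev, D.ev_zero⟩, D.ev_add⟩
/-- `od` as an additive map -/
def odHom : S →+ S := ⟨⟨D.od, D.od_zero⟩, D.od_add⟩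

lemma ev_neg (r : S) : D.ev (-r) = -D.ev r := map_neg D.evHom r
lemma od_neg (r : S) : D.od (-r) = -D.od r := map_neg D.odHom r
lemma ev_sub (r s : S) : D.ev (r - s) = D.ev r - D.ev s := map_sub D.evHom r s
lemma od_sub (r s : S) : D.od (r - s) = D.od r - D.od s := map_sub D.odHom r s
lemma ev_sum {ι : Type*} (t : Finset ι) (f : ι → S) :
    D.ev (∑ i ∈ t, f i) = ∑ i ∈ t, D.ev (f i) := map_sum D.evHom f t
lemma od_sum {ι : Type*} (t : Finset ι) (f : ι → S) :
    D.od (∑ i ∈ t, f i) = ∑ i ∈ t, D.od (f i) := map_sum D.odHom f t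

variable {l m n : Type*}

/-- the regular representation over the invariants, applied to each entry -/
def kap (T : Matrix m n S) : Matrix (m ⊕ m) (n ⊕ n) S :=
  fromBlocks (T.map D.ev) (T.map fun r => D.al ^ 2 * D.od r) (T.map D.od) (T.map D.ev)

lemma kap_mul [Fintype m] (T : Matrix l m S) (U : Matrix m n S) :
    D.kap (T * U) = D.kap T * D.kap U := by
  unfold kap
  rw [fromBlocks_multiply]
  congr 1 <;> ext i j <;>
    simp only [map_apply, mul_apply, Matrix.add_apply, D.ev_sum, D.od_sum, D.ev_mul, D.od_mul,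
      Finset.mul_sum, ← Finset.sum_add_distrib] <;>
    exact Finset.sum_congr rfl (fun k _ => by ring)

lemma kap_add (T U : Matrix m n S) : D.kap (T + U) = D.kap T + D.kap U := by
  ext (i | i) (j | j) <;> simp [kap, D.ev_add, D.od_add, mul_add]

@[simp] lemma kap_zero : D.kap (0 : Matrix m n S) = 0 := by
  ext (i | i) (j | j) <;> simp [kap]

/-- `kap` as an additive map -/
def kapAdd (m n : Type*) : Matrix m n S →+ Matrix (m ⊕ m) (n ⊕ n) S :=
  ⟨⟨D.kap, D.kap_zero⟩, D.kap_add⟩

lemma kap_sub (T U : Matrix m n S) : D.kap (T - U) = D.kap T - D.kap U :=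
  map_sub (D.kapAdd m n) T U

lemma kap_neg (T : Matrix m n S) : D.kap (-T) = -D.kap T := map_neg (D.kapAdd m n) T

lemma kap_sum {ι : Type*} (t : Finset ι) (f : ι → Matrix m n S) :
    D.kap (∑ i ∈ t, f i) = ∑ i ∈ t, D.kap (f i) := map_sum (D.kapAdd m n) f t

@[simp] lemma kap_one [DecidableEq m] : D.kap (1 : Matrix m m S) = 1 := by
  ext (i | i) (j | j) <;> simp [kap, one_apply] <;> split_ifs <;> simp

lemma kap_smul {c : S} (h : D.σ c = c) (T : Matrix m n S) : D.kap (c • T) = c • D.kap T := by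
  ext (i | i) (j | j) <;> simp [kap, D.ev_inv_mul h, D.od_inv_mul h, mul_left_comm]

/-- `kap` as a ring map -/
def kapHom (m : Type*) [Fintype m] [DecidableEq m] :
    Matrix m m S →+* Matrix (m ⊕ m) (m ⊕ m) S where
  toFun := D.kap
  map_one' := D.kap_one
  map_mul' := D.kap_mul
  map_zero' := D.kap_zero
  map_add' := D.kap_add

end Dem

/-- the matrix exchanging the two copies -/
def swapJ (S : Type*) [CommRing S] (m : Type*) [DecidableEq m] : Matrix (m ⊕ m) (m ⊕ m) S :=
  fromBlocks 0 1 1 0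

lemma swapJ_mul_swapJ (S : Type*) [CommRing S] (m : Type*) [Fintype m] [DecidableEq m] :
    swapJ S m * swapJ S m = 1 := by
  simp [swapJ, fromBlocks_multiply]

lemma swapJ_transpose (S : Type*) [CommRing S] (m : Type*) [DecidableEq m] :
    (swapJ S m)ᵀ = swapJ S m := by
  simp [swapJ, fromBlocks_transpose]

namespace Dem

variable {S : Type*} [CommRing S] (D : Dem S) {l m n : Type*}

lemma kap_transpose [Fintype m] [DecidableEq m] [Fintype n] [DecidableEq n] (T : Matrix m n S) :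
    (D.kap T)ᵀ = swapJ S n * D.kap Tᵀ * swapJ S m := by
  simp only [kap, swapJ, fromBlocks_multiply, fromBlocks_transpose, Matrix.zero_mul,
    Matrix.one_mul, Matrix.mul_zero, Matrix.mul_one, zero_add, add_zero]
  rfl

/-- the multiplication map -/
def mu (m : Type*) [DecidableEq m] : Matrix m (m ⊕ m) S := fromCols 1 (D.al • 1)

lemma mu_kap [Fintype m] [DecidableEq m] [Fintype n] [DecidableEq n] (T : Matrix m n S) :
    D.mu m * D.kap T = T * D.mu n := by
  simp only [mu, kap, fromCols_mul_fromBlocks, mul_fromCols, Matrix.one_mul, Matrix.mul_one,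
    Matrix.smul_mul, Matrix.mul_smul]
  congr 1
  · ext i j
    simpa using D.dec (T i j)
  · ext i j
    simp only [Matrix.add_apply, map_apply, Matrix.smul_apply, smul_eq_mul]
    linear_combination D.al * D.dec (T i j)

/-- multiplication by `al` in the middle -/
def almid (m : Type*) [DecidableEq m] : Matrix (m ⊕ m) (m ⊕ m) S :=
  fromBlocks 0 ((D.al ^ 2) • 1) 1 0

lemma kap_al [DecidableEq m] : D.kap (D.al • (1 : Matrix m m S)) = D.almid m := by
  ext (i | i) (j | j) <;> simp [kap, almid, one_apply] <;> split_ifs <;> simp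

end Dem

end Pool.Agent.P.MP_c3da96_co
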