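import Pool.Agent.P.MP_c3da96_co.Obj

namespace Pool.Agent.P.MP_c3da96_co

open Equiv Matrix

variable {n : ℕ} {ι κ μ : Type} [Fintype ι] [DecidableEq ι] [Fintype κ] [DecidableEq κ]
  [Fintype μ] [DecidableEq μ]

/-- the basis is a flag by standard bimodules, ordered by the level function `r` -/
structure IsFlag (B : Obj n ι) (lab : ι → Perm (Fin n)) (r : Perm (Fin n) → ℕ) : Prop where
  diag : ∀ g i, B.Y g i i = act (lab i) g
  tri : ∀ g j i, B.Y g j i ≠ 0 → j = i ∨ r (lab i) < r (lab j)

/-- the graded character of a flag -/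
noncomputable def ch (deg : ι → ℤ) (lab : ι → Perm (Fin n)) : Hk n := fun x =>
  ∑ i with lab i = x, LaurentPolynomial.T ((len x : ℤ) - deg i)

/-- isomorphic to an object with a flag ordered by length -/
def HasFlag (B : Obj n ι) : Prop :=
  ∃ (κ : Type) (_ : Fintype κ) (_ : DecidableEq κ) (M : Obj n κ) (lab : κ → Perm (Fin n))
    (P : Matrix ι κ (R n)) (Q : Matrix κ ι (R n)),
    IsFlag M lab len ∧ P ∈ Hom M B 0 ∧ Q ∈ Hom B M 0 ∧ Q * P = 1 ∧ P * Q = 1

lemma act_inj {x y : Perm (Fin n)} (h : ∀ g, act x g = act y g) : x = y := by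
  have : x.symm = y.symm := by
    ext k
    have := h (MvPolynomial.X k)
    rw [act_X, act_X] at this
    rw [MvPolynomial.X_injective this]
  simpa using congrArg Equiv.symm this

/-- maps respect flags -/
theorem respect {B : Obj n ι} {B' : Obj n κ} {lab : ι → Perm (Fin n)} {lab' : κ → Perm (Fin n)}
    {r : Perm (Fin n) → ℕ} (h : IsFlag B lab r) (h' : IsFlag B' lab' r) {T : Matrix κ ι (R n)}
    (hT : ∀ g, T * B.Y g = B'.Y g * T) {j : κ} {i : ι} (h0 : T j i ≠ 0) :
    lab i = lab' j ∨ r (lab i) < r (lab' j) := by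
  by_contra hc
  obtain ⟨⟨j0, i0⟩, hm, hmax⟩ := Finset.exists_max_image
    (Finset.univ.filter fun p : κ × ι =>
      T p.1 p.2 ≠ 0 ∧ ¬ (lab p.2 = lab' p.1 ∨ r (lab p.2) < r (lab' p.1)))
    (fun p => (r (lab p.2) : ℤ) - r (lab' p.1)) 
    ⟨(j, i), Finset.mem_filter.2 ⟨Finset.mem_univ _, h0, hc⟩⟩
  simp only [Finset.mem_filter, Finset.mem_univ, true_and, not_or, not_lt] at hm hmax
  obtain ⟨h1, h2, h3⟩ := hm
  apply h2
  apply act_inj
  intro g
  have e := congrFun (congrFun (hT g) j0) i0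
  rw [mul_apply, mul_apply, Finset.sum_eq_single i0, Finset.sum_eq_single j0, h.diag, h'.diag,
    mul_comm] at e
  · exact mul_right_cancel₀ h1 e
  · intro k _ hk
    by_contra hne
    obtain ⟨ha, hb⟩ := mul_ne_zero_iff.1 hne
    rcases h'.tri g _ _ ha with e | e
    · exact hk e.symm
    · have := hmax (k, i0) ⟨hb, fun e' => by dsimp only at e'; rw [e'] at h3; omega,
        by dsimp only; omega⟩
      simp only at this; omega
  · simp
  · intro k _ hk
    by_contra hne
    obtain ⟨ha, hb⟩ := mul_ne_zero_iff.1 hne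
    rcases h.tri g _ _ hb with e | e
    · exact hk e
    · have := hmax (j0, k) ⟨ha, fun e' => by dsimp only at e'; rw [← e'] at h3; omega,
        by dsimp only; omega⟩
      simp only at this; omega
  · simp

lemma U_flag (z : Perm (Fin n)) (r : Perm (Fin n) → ℕ) : IsFlag (U z) (fun _ => z) r :=
  ⟨fun g i => by simp [U_Y], fun _ _ _ _ => Or.inl rfl⟩

omit [DecidableEq ι] in
lemma coeff_ch (deg : ι → ℤ) (lab : ι → Perm (Fin n)) (x : Perm (Fin n)) (e : ℤ) :
    (ch deg lab x).coeff e =
      ((Finset.univ.filter fun i => lab i = x ∧ (len x : ℤ) - deg i = e).card : ℤ) := by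
  unfold ch
  rw [AddMonoidAlgebra.coeff_sum, Finsupp.finsetSum_apply]
  simp only [LaurentPolynomial.T_apply]
  rw [Finset.sum_boole, Finset.filter_filter]

/-! ### dimensions -/

/-- homogeneous polynomials of degree `d` -/
noncomputable def hmSub (n : ℕ) (d : ℤ) : Submodule ℝ (R n) :=
  MvPolynomial.weightedHomogeneousSubmodule ℝ (fun _ : Fin n => (2 : ℤ)) d

/-- the dimension of the homogeneous polynomials of degree `d` -/
noncomputable def dimR (n : ℕ) (d : ℤ) : ℤ := Module.finrank ℝ (hmSub n d)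

/-- the dimension in degree `d` of a graded free module with graded rank `p` -/
noncomputable def evd (n : ℕ) (d : ℤ) (p : LP) : ℤ := p.coeff.sum fun j c => c * dimR n (d - j)

/-- the Hom formula of Soergel for maps into `B'` -/
def HF (B' : Obj n κ) (c' : Hk n) : Prop :=
  ∀ (ι : Type) [Fintype ι] [DecidableEq ι] (M : Obj n ι) (lab : ι → Perm (Fin n)),
    IsFlag M lab len → ∀ d : ℤ,
      (Module.finrank ℝ (Hom M B' d) : ℤ) = evd n d (pair (ch M.deg lab) c')

end Pool.Agent.P.MP_c3da96_co
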