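import Pool.Agent.P.MP_c3da96_co.ThetaFlag
import Pool.Agent.P.MP_c3da96_co.KL

namespace Pool.Agent.P.MP_c3da96_co

open Equiv Matrix

variable {n : ℕ} {ι κ : Type} [Fintype ι] [DecidableEq ι] [Fintype κ] [DecidableEq κ]

instance hf_finite (n : ℕ) (d : ℤ) : Module.Finite ℝ (hmSub n d) := by
  refine Submodule.finiteDimensional_of_le
    (S₂ := MvPolynomial.restrictTotalDegree (Fin n) ℝ d.toNat) fun p hp => ?_
  rw [MvPolynomial.mem_restrictTotalDegree, MvPolynomial.totalDegree, Finset.sup_le_iff]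
  intro m hm
  have := (show Hm p d from hp) (MvPolynomial.mem_support_iff.1 hm)
  rw [weight_two] at this
  change m.degree ≤ _
  omega

instance Hom.finite (B : Obj n ι) (B' : Obj n κ) (d : ℤ) : Module.Finite ℝ (Hom B B' d) := by
  let f : Hom B B' d →ₗ[ℝ] ∀ p : κ × ι, hmSub n (B.deg p.2 + d - B'.deg p.1) :=
    { toFun := fun T p => ⟨T.1 p.1 p.2, T.2.1 p.1 p.2⟩
      map_add' := fun _ _ => rfl
      map_smul' := fun _ _ => rfl }
  refine Module.Finite.of_injective f fun T T' h => Subtype.ext ?_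
  ext1 j i
  exact congrArg Subtype.val (congrFun h (j, i))

theorem evd_add (d : ℤ) (p q : LP) : evd n d (p + q) = evd n d p + evd n d q := by
  unfold evd
  rw [AddMonoidAlgebra.coeff_add, Finsupp.sum_add_index' (by simp) (by intros; ring)]

/-- `evd` as an additive map -/
noncomputable def evdHom (n : ℕ) (d : ℤ) : LP →+ ℤ := AddMonoidHom.mk' (evd n d) (evd_add d)

theorem hf_evd_T (d j : ℤ) : evd n d (LaurentPolynomial.T j) = dimR n (d - j) := by
  unfold evd LaurentPolynomial.T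
  rw [AddMonoidAlgebra.coeff_single, Finsupp.sum_single_index (by simp), one_mul]

theorem hf_dimR_neg {d : ℤ} (hd : d < 0) : dimR n d = 0 := by
  have : hmSub n d = ⊥ := (Submodule.eq_bot_iff _).2 fun p hp => Hm.eq_zero_of_neg hp hd
  rw [dimR, this, finrank_bot, Nat.cast_zero]

theorem hf_dimR_zero : dimR n 0 = 1 := by
  have : hmSub n 0 = ℝ ∙ (1 : R n) := by
    ext p
    rw [Submodule.mem_span_singleton]
    constructor
    · intro hp
      exact ⟨MvPolynomial.constantCoeff p, by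
        rw [MvPolynomial.smul_eq_C_mul, mul_one, ← Hm.eq_C hp]⟩
    · rintro ⟨c, rfl⟩
      exact Hm.one.smul c
  rw [dimR, this, finrank_span_singleton one_ne_zero, Nat.cast_one]

theorem evd_neg_of_inP {d : ℤ} (hd : d < 0) {p : LP} (hp : InP p) : evd n d p = 0 := by
  refine Finset.sum_eq_zero fun j hj => ?_
  have : ¬ j < 0 := fun h => Finsupp.mem_support_iff.1 hj (hp j h)
  change _ * dimR n (d - j) = 0
  rw [hf_dimR_neg (by omega), mul_zero]

theorem evd_zero_of_inP {p : LP} (hp : InP p) : evd n 0 p = p.coeff 0 := by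
  unfold evd
  rw [Finsupp.sum_eq_single 0 _ (by simp), sub_zero, hf_dimR_zero, mul_one]
  intro j hj h0
  have : ¬ j < 0 := fun h => hj (hp j h)
  rw [hf_dimR_neg (by omega), mul_zero]

theorem HF_unit :
    HF (U (1 : Perm (Fin n))) (ch (U (1 : Perm (Fin n))).deg (fun _ => 1)) := by
  intro μ _ _ M lab hM d
  have h0 : len (1 : Perm (Fin n)) = 0 := len_eq_zero.2 rfl
  have hd : ∀ j, (U (1 : Perm (Fin n))).deg j = 0 := fun j => by simp [U, h0]
  have e1 : pair (ch M.deg lab) (ch (U (1 : Perm (Fin n))).deg (fun _ => 1)) =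
      ∑ i : {i // lab i = 1}, LaurentPolynomial.T (-M.deg i) := by
    unfold pair
    rw [Finset.sum_eq_single 1 (fun x _ hx => by simp [ch, Ne.symm hx]) (by simp)]
    simp only [ch, hd, h0]
    rw [Finset.sum_subtype (p := fun i => lab i = 1) (F := inferInstance) _ (by simp)]
    simp
  let f : Hom M (U (1 : Perm (Fin n))) d →ₗ[ℝ] ∀ i : {i // lab i = 1}, hmSub n (d - -M.deg i) :=
    { toFun := fun T i => ⟨T.1 () i.1, (T.2.1 () i.1).cast (by rw [hd]; ring)⟩
      map_add' := fun _ _ => rfl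
      map_smul' := fun _ _ => rfl }
  have hinj : Function.Injective f := by
    rw [injective_iff_map_eq_zero]
    intro T hT
    apply Subtype.ext
    ext1 j i
    by_contra hne
    rcases respect hM (U_flag 1 len) T.2.2 hne with e | e
    · exact hne (congrArg Subtype.val (congrFun hT ⟨i, e⟩))
    · omega
  have hsurj : Function.Surjective f := by
    intro v
    refine ⟨⟨of fun _ i => if h : lab i = 1 then (v ⟨i, h⟩).1 else 0, fun j i => ?_, fun g => ?_⟩,
      funext fun i => Subtype.ext (dif_pos i.2)⟩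
    · rw [of_apply]
      split_ifs with h
      · exact Hm.cast (v ⟨i, h⟩).2 (by rw [hd]; ring)
      · exact Hm.zero _
    · ext1 j i
      rw [U_Y, Matrix.smul_mul, Matrix.one_mul, Matrix.smul_apply, smul_eq_mul, mul_apply,
        Finset.sum_eq_single i _ (by simp), hM.diag, of_apply]
      · split_ifs with h
        · rw [h, mul_comm]
        · simp
      · intro k _ hk
        rw [of_apply]
        split_ifs with h
        · by_contra hne
          rcases hM.tri g k i (right_ne_zero_of_mul hne) with e | e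
          · exact hk e
          · rw [h] at e; omega
        · exact zero_mul _
  rw [e1, (LinearEquiv.ofBijective f ⟨hinj, hsurj⟩).finrank_eq, Module.finrank_pi_fintype,
    Nat.cast_sum]
  exact ((map_sum (evdHom n d) _ _).trans (Finset.sum_congr rfl fun i _ => hf_evd_T d _)).symm

theorem hf_finrank_eq {V W : Type*} [AddCommGroup V] [Module ℝ V] [AddCommGroup W] [Module ℝ W]
    (S : Submodule ℝ V) (S' : Submodule ℝ W) (f : V →ₗ[ℝ] W) (g : W → V)
    (hf : ∀ x ∈ S, f x ∈ S') (hg : ∀ y ∈ S', g y ∈ S) (h1 : ∀ x, g (f x) = x)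
    (h2 : ∀ y, f (g y) = y) : Module.finrank ℝ S = Module.finrank ℝ S' :=
  (LinearEquiv.ofBijective (f.restrict hf)
    ⟨fun x y h => Subtype.ext (by
      rw [← h1 x.1, ← h1 y.1]
      exact congrArg g (congrArg Subtype.val h)),
    fun y => ⟨⟨g y.1, hg _ y.2⟩, Subtype.ext (h2 _)⟩⟩).finrank_eq

/-- the counit of the adjunction -/
noncomputable def hfCo (a : Adj n) (ι : Type) [Fintype ι] [DecidableEq ι] :
    Matrix ι ((ι ⊕ ι) ⊕ (ι ⊕ ι)) (R n) :=
  (demR a).mu ι * (fromCols 0 1 : Matrix (ι ⊕ ι) ((ι ⊕ ι) ⊕ (ι ⊕ ι)) (R n))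

/-- the unit of the adjunction -/
noncomputable def hfUn (a : Adj n) (ι : Type) [Fintype ι] [DecidableEq ι] :
    Matrix ((ι ⊕ ι) ⊕ (ι ⊕ ι)) ι (R n) :=
  (fromRows 1 0 : Matrix ((ι ⊕ ι) ⊕ (ι ⊕ ι)) (ι ⊕ ι) (R n)) * mustar a ι

theorem hf_adj (M : Obj n κ) (B : Obj n ι) (a : Adj n) (d : ℤ) :
    Module.finrank ℝ (Hom M (B.θ a) d) = Module.finrank ℝ (Hom (M.θ a) B d) := by
  have e1 : ∀ T : Matrix (ι ⊕ ι) κ (R n), hfCo a ι * (demR a).kap T =
      of fun j => Sum.elim
        (fun i => (demR a).od (T (.inl j) i) + (demR a).al * (demR a).od (T (.inr j) i))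
        (fun i => (demR a).ev (T (.inl j) i) + (demR a).al * (demR a).ev (T (.inr j) i)) := by
    intro T
    rw [hfCo, Matrix.mul_assoc, Dem.kap, fromCols_mul_fromBlocks, Matrix.zero_mul, Matrix.zero_mul,
      Matrix.one_mul, Matrix.one_mul, zero_add, zero_add]
    ext1 j (i | i) <;> simp [Dem.mu, mul_apply, one_apply]
  have e2 : ∀ T : Matrix ι (κ ⊕ κ) (R n), (demR a).kap T * hfUn a κ =
      of (Sum.elim
        (fun j i => (demR a).al * (demR a).ev (T j (.inl i)) + (demR a).ev (T j (.inr i)))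
        (fun j i => (demR a).al * (demR a).od (T j (.inl i)) + (demR a).od (T j (.inr i)))) := by
    intro T
    rw [hfUn, ← Matrix.mul_assoc, Dem.kap, fromBlocks_mul_fromRows, Matrix.mul_zero, Matrix.mul_zero,
      Matrix.mul_one, Matrix.mul_one, add_zero, add_zero]
    ext1 (j | j) i <;> simp [mustar, mul_apply, one_apply, mul_comm]
  refine hf_finrank_eq _ _
    { toFun := fun T => hfCo a ι * (demR a).kap T
      map_add' := fun T T' => by rw [Dem.kap_add, Matrix.mul_add]
      map_smul' := fun c T => by rw [kap_smul_real, Matrix.mul_smul]; rfl }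
    (fun T => (demR a).kap T * hfUn a κ) (fun T hT => ?_) (fun T hT => ?_)
    (fun T => ?_) (fun T => ?_)
  · exact Hom.mul (Hom.mul (f := 0) (mu_mem B a) (qq_mem B a) (by omega)) (Hom.kap hT a) (by omega)
  · exact Hom.mul (Hom.kap hT a) (Hom.mul (f := 0) (jj_mem M a) (mustar_mem M a) (by omega)) (by omega)
  · change (demR a).kap (hfCo a ι * (demR a).kap T) * hfUn a κ = T
    rw [e2, e1]
    ext1 (j | j) i
    · simp only [of_apply, Sum.elim_inl, Sum.elim_inr, Dem.ev_add, Dem.ev_al_mul, Dem.ev_od,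
        Dem.ev_ev, Dem.od_od, Dem.od_ev]
      linear_combination (demR a).dec (T (.inl j) i)
    · simp only [of_apply, Sum.elim_inl, Sum.elim_inr, Dem.od_add, Dem.od_al_mul, Dem.ev_od,
        Dem.ev_ev, Dem.od_od, Dem.od_ev]
      linear_combination (demR a).dec (T (.inr j) i)
  · change hfCo a ι * (demR a).kap ((demR a).kap T * hfUn a κ) = T
    rw [e1, e2]
    ext1 j (i | i)
    · simp only [of_apply, Sum.elim_inl, Sum.elim_inr, Dem.od_add, Dem.od_al_mul, Dem.ev_od,
        Dem.ev_ev, Dem.od_od, Dem.od_ev]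
      linear_combination (demR a).dec (T j (.inl i))
    · simp only [of_apply, Sum.elim_inl, Sum.elim_inr, Dem.ev_add, Dem.ev_al_mul, Dem.ev_od,
        Dem.ev_ev, Dem.od_od, Dem.od_ev]
      linear_combination (demR a).dec (T j (.inr i))

theorem HF.theta {B : Obj n ι} {c : Hk n} (h : HF B c) (a : Adj n) :
    HF (B.θ a) (mulC a c) := by
  intro μ _ _ M lab hM d
  obtain ⟨M', lab', P, Q, hM', hP, hQ, hQP, hPQ, hch⟩ := theta_flag hM a
  rw [← pair_mulC, ← hch, ← h _ M' lab' hM' d, hf_adj]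
  congr 1
  refine hf_finrank_eq _ _
    { toFun := fun T => T * P
      map_add' := fun T T' => Matrix.add_mul _ _ _
      map_smul' := fun c T => Matrix.smul_mul _ _ _ }
    (fun T => T * Q) (fun T hT => Hom.mul hT hP (by omega)) (fun T hT => Hom.mul hT hQ (by omega))
    (fun T => ?_) (fun T => ?_)
  · change T * P * Q = T
    rw [Matrix.mul_assoc, hPQ, Matrix.mul_one]
  · change T * Q * P = T
    rw [Matrix.mul_assoc, hQP, Matrix.mul_one]

/-- composition with a map of degree zero -/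
noncomputable def hfPost {ν : Type} [Fintype ν] [DecidableEq ν] (N : Obj n ν) (d : ℤ)
    {M : Obj n κ} {B : Obj n ι} {i : Matrix ι κ (R n)} (hi : i ∈ Hom M B 0) :
    Hom N M d →ₗ[ℝ] Hom N B d where
  toFun T := ⟨i * T.1, Hom.mul hi T.2 (by omega)⟩
  map_add' T T' := Subtype.ext (Matrix.mul_add _ _ _)
  map_smul' c T := Subtype.ext (Matrix.mul_smul _ _ _)

theorem hf_trace {ν : Type} [Fintype ν] [DecidableEq ν] (N : Obj n ν) (d : ℤ)
    {M : Obj n κ} {B : Obj n ι} {i : Matrix ι κ (R n)} {p : Matrix κ ι (R n)}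
    (hi : i ∈ Hom M B 0) (hp : p ∈ Hom B M 0) (hpi : p * i = 1) :
    LinearMap.trace ℝ _ (hfPost N d hi ∘ₗ hfPost N d hp) = Module.finrank ℝ (Hom N M d) := by
  rw [LinearMap.trace_comp_comm', ← LinearMap.trace_id]
  congr 1
  ext1 T
  apply Subtype.ext
  change p * (i * T.1) = T.1
  rw [← Matrix.mul_assoc, hpi, Matrix.one_mul]

theorem HF.sub {B : Obj n ι} {c : Hk n} (h : HF B c) {M0 : Obj n κ}
    {i0 : Matrix ι κ (R n)} {p0 : Matrix κ ι (R n)} (hi0 : i0 ∈ Hom M0 B 0)
    (hp0 : p0 ∈ Hom B M0 0) (hpi0 : p0 * i0 = 1)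
    {J : Type} [Fintype J] {μ : J → Type} [∀ t, Fintype (μ t)] [∀ t, DecidableEq (μ t)]
    {M : ∀ t, Obj n (μ t)} {c' : J → Hk n} (hM : ∀ t, HF (M t) (c' t))
    {i : ∀ t, Matrix ι (μ t) (R n)} {p : ∀ t, Matrix (μ t) ι (R n)}
    (hi : ∀ t, i t ∈ Hom (M t) B 0) (hp : ∀ t, p t ∈ Hom B (M t) 0) (hpi : ∀ t, p t * i t = 1)
    (hsum : i0 * p0 + ∑ t, i t * p t = 1) : HF M0 (c - ∑ t, c' t) := by
  intro ν _ _ N lab hN d
  have e : hfPost N d hi0 ∘ₗ hfPost N d hp0 + ∑ t, hfPost N d (hi t) ∘ₗ hfPost N d (hp t) =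
      LinearMap.id := by
    ext1 T
    apply Subtype.ext
    rw [LinearMap.add_apply, LinearMap.sum_apply, Submodule.coe_add, Submodule.coe_sum]
    change i0 * (p0 * T.1) + ∑ t, i t * (p t * T.1) = T.1
    simp only [← Matrix.mul_assoc]
    rw [← Matrix.sum_mul, ← Matrix.add_mul, hsum, Matrix.one_mul]
  have e2 := congrArg (LinearMap.trace ℝ _) e
  rw [map_add, map_sum, hf_trace N d hi0 hp0 hpi0, LinearMap.trace_id,
    Finset.sum_congr rfl fun t _ => hf_trace N d (hi t) (hp t) (hpi t)] at e2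
  have e3 : (Module.finrank ℝ (Hom N M0 d) : ℤ) +
      ∑ t, (Module.finrank ℝ (Hom N (M t) d) : ℤ) = Module.finrank ℝ (Hom N B d) := by
    exact_mod_cast e2
  have e4 : pair (ch N.deg lab) (c - ∑ t, c' t) =
      pair (ch N.deg lab) c - ∑ t, pair (ch N.deg lab) (c' t) := by
    simp only [pair, Pi.sub_apply, Finset.sum_apply, mul_sub, Finset.mul_sum,
      Finset.sum_sub_distrib]
    rw [Finset.sum_comm]
  rw [h ν N lab hN d, Finset.sum_congr rfl fun t _ => hM t ν N lab hN d] at e3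
  rw [e4]
  change _ = evdHom n d _
  rw [map_sub, map_sum]
  exact eq_sub_of_add_eq e3

end Pool.Agent.P.MP_c3da96_co
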