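import Pool.Agent.P.MP_c3da96_co.Bar
import Pool.Agent.P.MP_c3da96_co.HomF

namespace Pool.Agent.P.MP_c3da96_co

open Equiv Matrix

variable {n : ℕ} {ι κ : Type} [Fintype ι] [DecidableEq ι] [Fintype κ] [DecidableEq κ]

/-! ### eigenvectors -/

lemma pair_U (y : Perm (Fin n)) (c : Hk n) : pair (ch (U y).deg fun _ => y) c = c y := by
  unfold pair
  rw [Finset.sum_eq_single y]
  · simp [ch, U]
  · intro x _ hx
    simp [ch, hx.symm]
  · simp

lemma finrank_U {B : Obj n κ} {c : Hk n} (h : HF B c) (y : Perm (Fin n)) (d : ℤ) :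
    (Module.finrank ℝ (Hom (U y) B d) : ℤ) = evd n d (c y) := by
  rw [h Unit (U y) _ (U_flag y len), pair_U]

lemma eq_zero_of_finrank {B : Obj n ι} {B' : Obj n κ} {d : ℤ}
    (h : (Module.finrank ℝ (Hom B B' d) : ℤ) = 0) {v : Matrix κ ι (R n)} (hv : v ∈ Hom B B' d) :
    v = 0 := by
  have : Hom B B' d = ⊥ := Submodule.finrank_eq_zero.1 (by exact_mod_cast h)
  rwa [this, Submodule.mem_bot] at hv

lemma eig_zero {B : Obj n κ} {c : Hk n} (h : HF B c) {y : Perm (Fin n)} (hy : InP (c y)) {d : ℤ}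
    (hd : d < 0) {v : Matrix κ Unit (R n)} (hv : v ∈ Hom (U y) B d) : v = 0 :=
  eq_zero_of_finrank (by rw [finrank_U h, evd_neg_of_inP hd hy]) hv

lemma eig_zero' {B : Obj n κ} {c : Hk n} (h : HF B c) {y : Perm (Fin n)} (hy : InV (c y))
    {v : Matrix κ Unit (R n)} (hv : v ∈ Hom (U y) B 0) : v = 0 :=
  eq_zero_of_finrank (by rw [finrank_U h, evd_zero_of_inP hy.inP, hy 0 le_rfl]) hv

/-- a column as a matrix -/
def colm (T : Matrix κ ι (R n)) (i : ι) : Matrix κ Unit (R n) := fun j _ => T j i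

lemma colm_mem {B : Obj n ι} {lab : ι → Perm (Fin n)} (h : IsFlag B lab len) {B' : Obj n κ}
    {d : ℤ} {f : Matrix κ ι (R n)} (hf : f ∈ Hom B B' d) (i : ι)
    (hi : ∀ k, len (lab i) < len (lab k) → colm f k = 0) :
    colm f i ∈ Hom (U (lab i)) B' (B.deg i + d - len (lab i)) := by
  refine ⟨fun j _ => (hf.1 j i).cast (by simp [U]), fun g => ?_⟩
  ext1 j u
  have e := congrFun (congrFun (hf.2 g) j) i
  rw [mul_apply, Finset.sum_eq_single i, h.diag] at e
  · rw [U_Y, Matrix.mul_smul, Matrix.mul_one, Matrix.smul_apply, smul_eq_mul, mul_comm]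
    exact e
  · intro k _ hk
    by_contra hne
    obtain ⟨ha, hb⟩ := mul_ne_zero_iff.1 hne
    rcases h.tri g _ _ hb with e | e
    · exact hk e
    · exact ha (congrFun (congrFun (hi k e) j) ())
  · simp

lemma len_le_rev (x : Perm (Fin n)) : len x ≤ len (Fin.revPerm : Perm (Fin n)) := by
  have := kl_len_rev x
  have h1 := kl_len_rev (1 : Perm (Fin n))
  rw [mul_one, kl_len_one] at h1
  omega

/-- an eigenvector of minimal degree does not vanish in the reduction -/
lemma bar_ne_zero {B : Obj n κ} {c : Hk n} (h : HF B c) {z : Perm (Fin n)} (hz : InP (c z))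
    (hf : HasFlag (B.tw (Fin.revPerm * z⁻¹))) {v : Matrix κ Unit (R n)} (hv : v ∈ Hom (U z) B 0)
    (h0 : v ≠ 0) : bar v ≠ 0 := by
  obtain ⟨μ, _, _, M, lab, P, Q, hM, hP, hQ, hQP, hPQ⟩ := hf
  set y : Perm (Fin n) := Fin.revPerm * z⁻¹ with hy
  have hyz : y * z = Fin.revPerm := by rw [hy, inv_mul_cancel_right]
  have hU : IsFlag ((U z).tw y) (fun _ => Fin.revPerm) len :=
    ⟨fun g i => by simp [Obj.tw_Y, U_Y, ← hyz, act_mul], fun _ _ _ _ => Or.inl rfl⟩
  have hw : Q * v ∈ Hom ((U z).tw y) M 0 := Hom.mul hQ (Hom.tw hv y) (by omega)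
  have hw0 : Q * v ≠ 0 := fun e => h0 (by
    rw [← Matrix.one_mul v, ← hPQ, Matrix.mul_assoc, e, Matrix.mul_zero])
  obtain ⟨j, hj⟩ : ∃ j, (Q * v) j () ≠ 0 := by
    by_contra hc
    push Not at hc
    exact hw0 (by ext1 j u; exact hc j)
  have hlab : lab j = Fin.revPerm := by
    rcases respect hU hM hw.2 hj with e | e
    · exact e.symm
    · exact absurd (len_le_rev (lab j)) (not_le.2 e)
  have hcol := colm_mem hM hP j (fun k hk => absurd (len_le_rev (lab k)) (by
    rw [hlab] at hk; exact not_le.2 hk))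
  have hcol' : colm P j ∈ Hom (U z) B (M.deg j - len z) := by
    refine ⟨fun k u => (hP.1 k j).cast (by simp [U, Obj.tw]), fun g => ?_⟩
    have := hcol.2 (act y⁻¹ g)
    rw [Obj.tw_Y, act_surj, U_Y, hlab, ← hyz, act_mul, act_surj] at this
    rw [U_Y, this]
  have hne : colm P j ≠ 0 := fun e => by
    have := congrFun (congrFun hQP j) j
    rw [mul_apply, one_apply_eq, Finset.sum_eq_zero] at this
    · exact zero_ne_one this
    · intro k _
      rw [show P k j = 0 from congrFun (congrFun e k) (), mul_zero]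
  have h1 : 0 ≤ M.deg j - len z := by
    by_contra hc
    exact hne (eig_zero h hz (by omega) hcol')
  have h2 := hw.1 j ()
  have h3 := h2.nonneg hj
  have h4 : ((U z).tw y).deg () = len z := rfl
  have h5 : Hm ((Q * v) j ()) 0 := h2.cast (by omega)
  intro e
  apply hj
  rw [h5.eq_C, ← bar_apply, bar_mul, e, Matrix.mul_zero]
  simp

/-! ### good objects -/

/-- an indecomposable Soergel bimodule with its Hodge structure -/
structure Good (x : Perm (Fin n)) where
  ι : Type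
  fin : Fintype ι
  dec : DecidableEq ι
  B : Obj n ι
  lab : ι → Perm (Fin n)
  F : Form B
  flag : IsFlag B lab len
  twf : ∀ y, HasFlag (B.tw y)
  diag : ch B.deg lab x = 1
  low : ∀ y, y ≠ x → InV (ch B.deg lab y)
  zero : ∀ y, y ≠ x → len x ≤ len y → ch B.deg lab y = 0
  hf : HF B (ch B.deg lab)
  hr : HR (len x) B.deg (bar F.G) (bar (B.Y (rho n)))

attribute [instance] Good.fin Good.dec

namespace Good
variable {x : Perm (Fin n)} (g : Good x)

/-- the character -/
noncomputable def C : Hk n := ch g.B.deg g.lab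

lemma inP (y : Perm (Fin n)) : InP (g.C y) := by
  by_cases h : y = x
  · subst h; rw [C, g.diag]; exact kl_inP_one
  · exact (g.low y h).inP

lemma coeff_ne (i : g.ι) : (g.C (g.lab i)).coeff (len (g.lab i) - g.B.deg i) ≠ 0 := by
  rw [C, coeff_ch]
  exact_mod_cast Finset.card_ne_zero.2 ⟨i, by simp⟩

lemma exists_top : ∃ k, g.lab k = x ∧ g.B.deg k = len x ∧
    ∀ i, i ≠ k → len (g.lab i) < len x ∧ g.B.deg i < len (g.lab i) := by
  have h1 := coeff_ch g.B.deg g.lab x 0
  rw [g.diag, kl_coeff_one, if_pos rfl] at h1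
  obtain ⟨k, hk⟩ := Finset.card_eq_one.1 (by exact_mod_cast h1.symm)
  have h2 := hk ▸ Finset.mem_singleton_self k
  simp only [Finset.mem_filter, Finset.mem_univ, true_and] at h2
  refine ⟨k, h2.1, by omega, fun i hi => ?_⟩
  have h3 := g.coeff_ne i
  have hx : g.lab i ≠ x := fun e => by
    rw [e, C, g.diag, kl_coeff_one] at h3
    apply hi
    rw [← Finset.mem_singleton, ← hk]
    simp only [Finset.mem_filter, Finset.mem_univ, true_and]
    exact ⟨e, by by_contra hc; exact h3 (if_neg hc)⟩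
  constructor
  · by_contra hc
    rw [C, g.zero _ hx (by omega)] at h3
    exact h3 rfl
  · by_contra hc
    exact h3 (g.low _ hx _ (by omega))

/-- the top basis vector -/
noncomputable def top : g.ι := g.exists_top.choose
lemma lab_top : g.lab g.top = x := g.exists_top.choose_spec.1
lemma deg_top : g.B.deg g.top = len x := g.exists_top.choose_spec.2.1
lemma len_lt {i : g.ι} (h : i ≠ g.top) : len (g.lab i) < len x :=
  (g.exists_top.choose_spec.2.2 i h).1
lemma deg_lt {i : g.ι} (h : i ≠ g.top) : g.B.deg i < len (g.lab i) :=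
  (g.exists_top.choose_spec.2.2 i h).2
lemma len_le (i : g.ι) : len (g.lab i) ≤ len x := by
  by_cases h : i = g.top
  · rw [h, g.lab_top]
  · exact (g.len_lt h).le
lemma deg_le (i : g.ι) : g.B.deg i ≤ len x := by
  by_cases h : i = g.top
  · rw [h, g.deg_top]
  · have := g.len_lt h
    have := g.deg_lt h
    omega

lemma colm_top {B' : Obj n κ} {d : ℤ} {f : Matrix κ g.ι (R n)} (hf : f ∈ Hom g.B B' d) :
    colm f g.top ∈ Hom (U x) B' d := by
  have := colm_mem g.flag hf g.top (fun k hk => absurd (g.len_le k) (by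
    rw [g.lab_top] at hk; omega))
  rw [g.lab_top, g.deg_top] at this
  exact Hom.cast this (by ring)

lemma eq_zero_of_top {B' : Obj n κ} {c : Hk n} (h : HF B' c) (hc : ∀ y, InP (c y)) {d : ℤ}
    (hd : d ≤ 0) {f : Matrix κ g.ι (R n)} (hf : f ∈ Hom g.B B' d) (h0 : colm f g.top = 0) :
    f = 0 := by
  by_contra hne
  obtain ⟨i, hi, hmax⟩ := Finset.exists_max_image (Finset.univ.filter fun i => colm f i ≠ 0)
    (fun i => len (g.lab i)) (by
      by_contra hc
      rw [Finset.not_nonempty_iff_eq_empty, Finset.filter_eq_empty_iff] at hc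
      apply hne
      ext1 j i
      exact congrFun (congrFun (not_not.1 (hc (Finset.mem_univ i))) j) ())
  simp only [Finset.mem_filter, Finset.mem_univ, true_and] at hi hmax
  have h1 := colm_mem g.flag hf i (fun k hk => by
    by_contra hc
    exact absurd (hmax k hc) (by omega))
  have h2 : i ≠ g.top := fun e => hi (e ▸ h0)
  have := g.deg_lt h2
  exact hi (eig_zero h (hc _) (by omega) h1)

lemma eq_zero_of_neg {B' : Obj n κ} {c : Hk n} (h : HF B' c) (hc : ∀ y, InP (c y)) {d : ℤ}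
    (hd : d < 0) {f : Matrix κ g.ι (R n)} (hf : f ∈ Hom g.B B' d) : f = 0 :=
  g.eq_zero_of_top h hc hd.le hf (eig_zero h (hc x) hd (g.colm_top hf))

lemma eq_zero_of_ne {z : Perm (Fin n)} (g' : Good z) (hne : x ≠ z) {d : ℤ}
    (hd : d ≤ 0) {f : Matrix g'.ι g.ι (R n)} (hf : f ∈ Hom g.B g'.B d) : f = 0 := by
  rcases hd.eq_or_lt with rfl | hd
  · exact g.eq_zero_of_top g'.hf g'.inP le_rfl hf (eig_zero' g'.hf (g'.low x hne) (g.colm_top hf))
  · exact g.eq_zero_of_neg g'.hf g'.inP hd hf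

lemma end_eq {f : Matrix g.ι g.ι (R n)} (hf : f ∈ Hom g.B g.B 0) :
    f = MvPolynomial.constantCoeff (f g.top g.top) • (1 : Matrix g.ι g.ι (R n)) := by
  rw [← sub_eq_zero]
  refine g.eq_zero_of_top g.hf g.inP le_rfl (sub_mem hf (Submodule.smul_mem _ _ Hom.one)) ?_
  ext1 j u
  simp only [colm, Matrix.sub_apply, Matrix.smul_apply, Matrix.zero_apply]
  by_cases hj : j = g.top
  · subst hj
    have : Hm (f g.top g.top) 0 := (hf.1 _ _).cast (by ring)
    rw [one_apply_eq, MvPolynomial.smul_eq_C_mul, mul_one, ← this.eq_C, sub_self]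
  · rw [one_apply_ne hj, smul_zero, sub_zero]
    by_contra h0
    have := g.len_lt hj
    rcases respect g.flag g.flag hf.2 h0 with e | e
    · rw [← e, g.lab_top] at this; omega
    · rw [g.lab_top] at e; omega

lemma lef : Lef g.B.deg (bar g.F.G) (bar (g.B.Y (rho n))) :=
  g.F.lef g.B.Y_rho_mem (g.F.adj_Y _)

/-- the sign of the local intersection forms -/
lemma sign {B' : Obj n κ} (F' : Form B') {c : Hk n} (h : HF B' c) (hc : ∀ y, InP (c y))
    (htw : ∀ y, HasFlag (B'.tw y)) {m : ℤ} (hr : HR m B'.deg (bar F'.G) (bar (B'.Y (rho n))))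
    {f : Matrix κ g.ι (R n)} (hf : f ∈ Hom g.B B' 0) (h0 : f ≠ 0) {β : ℝ}
    (hβ : g.F.adj F' f * f = β • 1) : Even (m - len x) ∧ 0 < sg (m - len x) * β := by
  have hk : HomV g.B.deg (len x : ℕ) (Pi.single g.top 1 : g.ι → ℝ) := fun i hi => by
    by_cases e : i = g.top
    · rw [e, g.deg_top]
    · exact absurd (Pi.single_eq_of_ne e _) hi
  obtain ⟨v, hv, hLv⟩ := HL.surj g.lef g.hr.hl (len x) _ hk
  have hp : (bar (g.B.Y (rho n)) ^ (len x + 1)) *ᵥ v = 0 := by
    rw [pow_succ', ← mulVec_mulVec, hLv]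
    ext j
    by_contra hj
    have := (g.lef.homL.mulVec hk rfl) j hj
    have := g.deg_le j
    omega
  have hv0 : v ≠ 0 := fun e => by
    rw [e, mulVec_zero] at hLv
    simpa using congrFun hLv g.top
  have h1 := g.hr.2 _ v hv hv0 hp
  rw [sub_self, sg_zero, one_mul] at h1
  have hcm : bar f * bar (g.B.Y (rho n)) = bar (B'.Y (rho n)) * bar f := by
    rw [← bar_mul, ← bar_mul, hf.2]
  have hw : HomV B'.deg (-(len x : ℕ)) (bar f *ᵥ v) := hf.1.bar.mulVec hv (by omega)
  have hw0 : bar f *ᵥ v ≠ 0 := fun e => by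
    have h2 := pow_mulVec_comm hcm (len x) v
    rw [e, mulVec_zero, hLv] at h2
    refine bar_ne_zero h (hc x) (htw _) (g.colm_top hf)
      (fun e => h0 (g.eq_zero_of_top h hc le_rfl hf e)) ?_
    ext j u
    show bar f j g.top = 0
    simpa using (congrFun h2 j).symm
  have h2 := hr.2 _ _ hw hw0 (by rw [pow_mulVec_comm hcm, hp, mulVec_zero])
  have h3 : (bar f)ᵀ * bar F'.G * bar f = β • bar g.F.G := by
    rw [← bar_transpose, ← bar_mul, ← bar_mul, ← g.F.G_adj F', Matrix.mul_assoc, hβ,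
      Matrix.mul_smul, Matrix.mul_one, bar_smul]
  rw [form_comp _ hcm, h3, Matrix.smul_mul, smul_mulVec, dotProduct_smul, smul_eq_mul,
    ← mul_assoc] at h2
  refine ⟨?_, (mul_pos_iff_of_pos_right h1).1 h2⟩
  obtain ⟨j, hj⟩ := Function.ne_iff.1 hw0
  obtain ⟨t, ht⟩ := hr.1 j
  rw [hw j hj] at ht
  exact ⟨-t - len x, by omega⟩

end Good

lemma InP.mul {p q : LP} (hp : InP p) (hq : InP q) : InP (p * q) := fun e he => by
  have h1 : InV (LaurentPolynomial.T (-e) * p) := fun d hd => by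
    rw [kl_coeff_T_mul]; exact hp _ (by omega)
  have h2 := kl_coeff_zero_mul h1 hq
  rwa [mul_assoc, kl_coeff_T_mul, zero_sub, neg_neg] at h2

lemma coeff_sum_LP {J : Type*} (s : Finset J) (f : J → LP) (e : ℤ) :
    (∑ t ∈ s, f t).coeff e = ∑ t ∈ s, (f t).coeff e := by
  rw [AddMonoidAlgebra.coeff_sum, Finsupp.finsetSum_apply]

namespace Good
variable {x : Perm (Fin n)} (g : Good x)

lemma finrank_hom {B' : Obj n κ} {c : Hk n} (h : HF B' c) (hc : ∀ y, InP (c y)) :
    (Module.finrank ℝ (Hom g.B B' 0) : ℤ) = (c x).coeff 0 := by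
  rw [h _ g.B g.lab g.flag, evd_zero_of_inP, pair, coeff_sum_LP, Finset.sum_eq_single x, g.diag,
    one_mul]
  · intro y _ hy
    exact kl_coeff_zero_mul (g.low y hy) (hc y)
  · simp
  · intro e he
    rw [pair, coeff_sum_LP]
    exact Finset.sum_eq_zero fun y _ => (g.inP y).mul (hc y) e he

/-- good objects are unique up to isometry -/
lemma unique (g' : Good x) : ∃ f ∈ Hom g.B g'.B 0,
    g.F.adj g'.F f * f = 1 ∧ f * g.F.adj g'.F f = 1 := by
  have h1 := g.finrank_hom g'.hf g'.inP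
  rw [g'.diag, kl_coeff_one, if_pos rfl] at h1
  obtain ⟨⟨f, hf⟩, hf0⟩ := Module.finrank_pos_iff_exists_ne_zero.1
    (show 0 < Module.finrank ℝ (Hom g.B g'.B 0) by omega)
  have h0 : f ≠ 0 := fun e => hf0 (Subtype.ext e)
  have ha := g.F.adj_mem g'.F hf
  obtain ⟨c, hc⟩ : ∃ c : ℝ, g.F.adj g'.F f * f = c • 1 := ⟨_, g.end_eq (Hom.mul ha hf (by omega))⟩
  obtain ⟨c', hc'⟩ : ∃ c : ℝ, f * g.F.adj g'.F f = c • 1 := ⟨_, g'.end_eq (Hom.mul hf ha (by omega))⟩
  have hpos := (g.sign g'.F g'.hf g'.inP g'.twf g'.hr hf h0 hc).2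
  rw [sub_self, sg_zero, one_mul] at hpos
  have hcc : c' = c := by
    have : (c' - c) • f = 0 := by
      rw [sub_smul, sub_eq_zero]
      calc c' • f = f * g.F.adj g'.F f * f := by rw [hc', Matrix.smul_mul, Matrix.one_mul]
        _ = c • f := by rw [Matrix.mul_assoc, hc, Matrix.mul_smul, Matrix.mul_one]
    exact sub_eq_zero.1 ((smul_eq_zero.1 this).resolve_right h0)
  have hs : (√c)⁻¹ * (√c)⁻¹ * c = 1 := by
    rw [← mul_inv, Real.mul_self_sqrt hpos.le, inv_mul_cancel₀ hpos.ne']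
  refine ⟨(√c)⁻¹ • f, Submodule.smul_mem _ _ hf, ?_, ?_⟩
  · rw [Form.adj_smul, Matrix.smul_mul, Matrix.mul_smul, hc, smul_smul, smul_smul, hs, one_smul]
  · rw [Form.adj_smul, Matrix.smul_mul, Matrix.mul_smul, hc', hcc, smul_smul, smul_smul, hs,
      one_smul]

end Good

end Pool.Agent.P.MP_c3da96_co
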