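import Pool.Agent.P.MP_c3da96_co.Poly

namespace Pool.Agent.P.MP_c3da96_co

open Equiv Matrix

/-! ### Hecke module -/

/-- Laurent polynomials in `v` -/
abbrev LP : Type := LaurentPolynomial ℤ
/-- the Hecke module, `h x` is the coefficient of `H_x` -/
abbrev Hk (n : ℕ) : Type := Perm (Fin n) → LP

/-- right multiplication by `C_s = H_s + v` -/
noncomputable def mulC {n : ℕ} (a : Adj n) (h : Hk n) : Hk n := fun x =>
  h (x * sr a) +
    (if len x < len (x * sr a) then LaurentPolynomial.T 1 else LaurentPolynomial.T (-1)) * h x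

/-- the standard pairing -/
noncomputable def pair {n : ℕ} (h h' : Hk n) : LP := ∑ x, h x * h' x

/-- element of `v ℤ[v]` -/
def InV (p : LP) : Prop := ∀ e : ℤ, e ≤ 0 → p.coeff e = 0
/-- element of `ℤ[v]` -/
def InP (p : LP) : Prop := ∀ e : ℤ, e < 0 → p.coeff e = 0
/-- value at `v = 1` -/
noncomputable def at1 (p : LP) : ℤ := p.coeff.sum (fun _ c => c)

/-- the properties of the Kazhdan-Lusztig basis delivered by the categorification -/
structure IsKLB {n : ℕ} (C : Perm (Fin n) → Hk n) : Prop where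
  diag : ∀ w, C w w = 1
  low : ∀ w x, x ≠ w → InV (C w x)
  zero : ∀ w x, x ≠ w → len w ≤ len x → C w x = 0
  step : ∀ w a, len w < len (w * sr a) → C (w * sr a) =
    mulC a (C w) - ∑ z with len z ≤ len w, (mulC a (C w) z).coeff 0 • C z

/-! ### Hodge-Riemann relations for real matrices -/

section hodge
variable {ι κ : Type*}

/-- homogeneous vector of degree `d` -/
def HomV (deg : ι → ℤ) (d : ℤ) (v : ι → ℝ) : Prop := ∀ i, v i ≠ 0 → deg i = d

/-- homogeneous real matrix of degree `d` -/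
def HomM (deg : ι → ℤ) (deg' : κ → ℤ) (d : ℤ) (T : Matrix κ ι ℝ) : Prop :=
  ∀ j i, T j i ≠ 0 → deg' j = deg i + d

/-- the sign `(-1)^(m/2)` for even `m` -/
noncomputable def sg (m : ℤ) : ℝ := if m % 4 = 0 then 1 else -1

/-- degrees on two copies -/
def deg2 (deg : ι → ℤ) : ι ⊕ ι → ℤ := Sum.elim (fun i => deg i - 1) (fun i => deg i + 1)

variable [Fintype ι] [DecidableEq ι]

/-- a graded space with a perfect symmetric form and a self-adjoint operator of degree two -/
structure Lef (deg : ι → ℤ) (G L : Matrix ι ι ℝ) : Prop where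
  symm : Gᵀ = G
  unit : IsUnit G
  homG : HomM deg (fun i => -deg i) 0 G
  homL : HomM deg deg 2 L
  adj : Lᵀ * G = G * L

/-- hard Lefschetz (injective form) -/
def HL (deg : ι → ℤ) (L : Matrix ι ι ℝ) : Prop :=
  ∀ (i : ℕ) (v : ι → ℝ), HomV deg (-(i : ℤ)) v → (L ^ i) *ᵥ v = 0 → v = 0

/-- Hodge-Riemann relations, positive in degree `-n` -/
def HR (n : ℤ) (deg : ι → ℤ) (G L : Matrix ι ι ℝ) : Prop :=
  (∀ i, Even (deg i - n)) ∧
    ∀ (i : ℕ) (v : ι → ℝ), HomV deg (-(i : ℤ)) v → v ≠ 0 → (L ^ (i + 1)) *ᵥ v = 0 →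
      0 < sg (n - i) * (v ⬝ᵥ (G * L ^ i) *ᵥ v)

end hodge

/-! ### calibrated representations of the symmetric group -/

/-- boxes `P` with contents `x`, right neighbours `H`, lower neighbours `V` -/
structure Cal (P K : Type) [LinearOrder P] [Field K] where
  x : P → K
  H : P → P → Prop
  V : P → P → Prop
  b : P → P → K
  xH : ∀ p q, H p q → x q - x p = 1
  xV : ∀ p q, V p q → x q - x p = -1
  lt : ∀ p q, H p q ∨ V p q → p < q
  cov : ∀ p q, V p q → p ⋖ q
  bz : ∀ p q, H p q ∨ V p q → b p q = 0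
  bb : ∀ p q, x p ≠ x q → b p q * b q p = 1 - 1 / (x q - x p) ^ 2
  a2 : ∀ (N : ℕ) (τ : Fin N ≃ P), (∀ p q, H p q ∨ V p q → τ.symm p < τ.symm q) →
    ∀ a : Adj N, ¬ (H (τ a.1.1) (τ a.1.2) ∨ V (τ a.1.1) (τ a.1.2)) →
      x (τ a.1.2) - x (τ a.1.1) ≠ 0 ∧ x (τ a.1.2) - x (τ a.1.1) ≠ 1 ∧
        x (τ a.1.2) - x (τ a.1.1) ≠ -1
  a3 : ∀ (N : ℕ) (τ : Fin N ≃ P), (∀ p q, H p q ∨ V p q → τ.symm p < τ.symm q) →
    ∀ r r' : Fin N, r'.val = r.val + 2 → x (τ r) ≠ x (τ r')

namespace Cal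
variable {P K : Type} [LinearOrder P] [Field K] (c : Cal P K)

/-- standard orderings of the boxes -/
def Std (N : ℕ) : Type :=
  {τ : Fin N ≃ P // ∀ p q, c.H p q ∨ c.V p q → τ.symm p < τ.symm q}

open Classical in
/-- the seminormal matrix of a simple transposition -/
noncomputable def S {N : ℕ} (a : Adj N) : Matrix (c.Std N) (c.Std N) K := fun τ τ' =>
  (if τ' = τ then 1 / (c.x (τ.1 a.1.2) - c.x (τ.1 a.1.1)) else 0) +
    (if τ'.1 = (sr a).trans τ.1 then c.b (τ.1 a.1.1) (τ.1 a.1.2) else 0)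

/-- number of semistandard fillings with the content of `blk` -/
noncomputable def kost {N k : ℕ} (blk : Fin N → Fin k) : ℕ :=
  Nat.card {T : P → Fin k // (∀ p q, c.H p q → T p ≤ T q) ∧ (∀ p q, c.V p q → T p < T q) ∧
    ∀ i, Nat.card {p // T p = i} = Nat.card {r // blk r = i}}

end Cal

/-- number of semistandard fillings of a set of boxes with the content of `blk` -/
noncomputable def kost (θ : Finset (ℤ × ℤ)) {N k : ℕ} (blk : Fin N → Fin k) : ℕ :=
  Nat.card {T : θ → Fin k // IsSST θ T ∧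
    ∀ i, Nat.card {p // T p = i} = Nat.card {r // blk r = i}}

/-- the Young subgroup of a block function -/
def young {N k : ℕ} (blk : Fin N → Fin k) : Finset (Perm (Fin N)) :=
  Finset.univ.filter (fun σ => ∀ r, blk (σ r) = blk r)

/-! ### the package delivered by the Hodge theory of Soergel bimodules -/

/-- the indecomposable Soergel bimodules, without their grading, as matrices -/
structure Pack (n : ℕ) where
  ι : Perm (Fin n) → Type
  fin : ∀ u, Fintype (ι u)
  dec : ∀ u, DecidableEq (ι u)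
  Y : ∀ u, R n →+* Matrix (ι u) (ι u) (R n)
  lab : ∀ u, ι u → Perm (Fin n)
  top : ∀ u, ι u
  tri : ∀ u g j i, Y u g j i ≠ 0 → j = i ∨ len (lab u i) < len (lab u j)
  diag : ∀ u g i, Y u g i i = act (lab u i) g
  count : ∀ u v, (Nat.card {i // lab u i = v} : ℤ) = (KL v u).eval 1
  eps_diag : ∀ u (T : Matrix (ι u) (ι u) (R n)), (∀ g, T * Y u g = Y u g * T) →
    ∀ i, MvPolynomial.constantCoeff (T i i) = MvPolynomial.constantCoeff (T (top u) (top u))
  eps_mul : ∀ u (T T' : Matrix (ι u) (ι u) (R n)), (∀ g, T * Y u g = Y u g * T) →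
    (∀ g, T' * Y u g = Y u g * T') → MvPolynomial.constantCoeff ((T * T') (top u) (top u)) =
      MvPolynomial.constantCoeff (T (top u) (top u)) *
        MvPolynomial.constantCoeff (T' (top u) (top u))
  eps_ne : ∀ u u', u ≠ u' → ∀ (T : Matrix (ι u) (ι u') (R n)) (T' : Matrix (ι u') (ι u) (R n)),
    (∀ g, T * Y u' g = Y u g * T) → (∀ g, T' * Y u g = Y u' g * T') →
      MvPolynomial.constantCoeff ((T * T') (top u) (top u)) = 0
  theta : ∀ u (a : Adj n), ∃ (J : Type) (_ : Fintype J) (u' : J → Perm (Fin n))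
    (i : ∀ j, Matrix (ι u ⊕ ι u) (ι (u' j)) (R n)) (p : ∀ j, Matrix (ι (u' j)) (ι u ⊕ ι u) (R n)),
    (∀ j g, i j * Y (u' j) g = (demR a).kap (Y u g) * i j) ∧
    (∀ j g, p j * (demR a).kap (Y u g) = Y (u' j) g * p j) ∧ ∑ j, i j * p j = 1

attribute [instance] Pack.fin Pack.dec

/-- a lattice of functions that is a retract of a finite sum of indecomposable bimodules -/
def InU {n : ℕ} (Pk : Pack n) {A : Type} [Fintype A] [DecidableEq A] (en : A → Perm (Fin n))
    (M : Submodule (R n) (A → Q n)) : Prop :=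
  ∃ (J : Type) (_ : Fintype J) (_ : DecidableEq J) (u : J → Perm (Fin n))
    (I : Matrix (Σ j, Pk.ι (u j)) A (Q n)) (P : Matrix A (Σ j, Pk.ι (u j)) (Q n)),
    P * I = 1 ∧
    (∀ g, I * diagonal (fun π => algebraMap (R n) (Q n) (act (en π) g)) =
      (blockDiagonal' (fun j => Pk.Y (u j) g)).map (algebraMap (R n) (Q n)) * I) ∧
    (∀ g, P * (blockDiagonal' (fun j => Pk.Y (u j) g)).map (algebraMap (R n) (Q n)) =
      diagonal (fun π => algebraMap (R n) (Q n) (act (en π) g)) * P) ∧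
    (∀ m ∈ M, ∀ k, (I *ᵥ m) k ∈ Set.range (algebraMap (R n) (Q n))) ∧
    (∀ k, (fun π => P π k) ∈ M)

/-- the ring of functions generated by the variables of recorded labels -/
noncomputable def genMod {n : ℕ} {A Γ : Type} (en : A → Perm (Fin n)) (lab : Γ → A → Fin n) :
    Submodule (R n) (A → Q n) :=
  Subalgebra.toSubmodule (Algebra.adjoin (R n) (Set.range fun γ : Γ => fun π : A =>
    algebraMap (R n) (Q n) (MvPolynomial.X ((en π).symm (lab γ π)))))

/-- a staircase condition on an interval of positions -/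
structure Stair (n : ℕ) where
  J : Finset (Fin n)
  conv : ∀ i j k, i ∈ J → k ∈ J → i ≤ j → j ≤ k → j ∈ J
  up : Bool
  Al : Fin n → Fin n → Prop
  mono : ∀ m m' k k', m ∈ J → m' ∈ J → k ∈ J → k' ∈ J → Al m k →
    (if up then m' ≤ m ∧ k ≤ k' else m ≤ m' ∧ k' ≤ k) → Al m' k'

/-- permutations allowed by a staircase -/
def Stair.mem {n : ℕ} (S : Stair n) (σ : Perm (Fin n)) : Prop :=
  (∀ k ∉ S.J, σ k = k) ∧ ∀ k ∈ S.J, S.Al (σ k) k

/-- sequences of arrangements with allowed steps -/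
def Paths {n m : ℕ} (S : Fin m → Stair n) : Type :=
  {w : Fin (m + 1) → Perm (Fin n) //
    w 0 = 1 ∧ ∀ c : Fin m, (S c).mem ((w c.castSucc)⁻¹ * w c.succ)}

end Pool.Agent.P.MP_c3da96_co
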