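import Pool.Agent.P.MP_c3da96_co.Step

namespace Pool.Agent.P.MP_c3da96_co

open Equiv Matrix

variable {n : ℕ} {ι κ : Type} [Fintype ι] [DecidableEq ι] [Fintype κ] [DecidableEq κ]

lemma PosS.conj {B : Obj n ι} {F : Form B} {B0 : Obj n κ} (F0 : Form B0) {m : ℕ}
    {f : Matrix ι κ (R n)} (hf : f ∈ Hom B0 B 0) {T : Matrix ι ι (R n)} (hT : T ∈ PosS B F m) :
    F0.adj F f * T * f ∈ PosS B0 F0 m := by
  induction hT using AddSubmonoid.closure_induction with
  | zero => simp
  | add T T' _ _ h h' => rw [Matrix.mul_add, Matrix.add_mul]; exact add_mem h h'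
  | mem T hT =>
    obtain ⟨z, gz, φ, c, hφ, hz, hm, hc, rfl⟩ := hT
    refine AddSubmonoid.subset_closure ⟨z, gz, φ * f, c, Hom.mul hφ hf (by omega), hz, hm, hc, ?_⟩
    rw [Form.adj_mul _ F]
    simp only [Matrix.mul_smul, Matrix.smul_mul, Matrix.mul_assoc]

omit [Fintype ι] in
lemma kap_smul_one (a : Adj n) (h : R n) : (demR a).kap (h • (1 : Matrix ι ι (R n))) =
    (demR a).ev h • 1 + (demR a).od h • (demR a).almid ι := by
  ext1 (i | i) (j | j) <;> simp [Dem.kap, Dem.almid, one_apply] <;> split_ifs <;> simp [mul_comm]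

namespace Good
variable {x : Perm (Fin n)}

lemma Fac.transfer {g' : Good x} (h : g'.Fac) (g : Good x) : g.Fac := by
  obtain ⟨f, hf, h1, -⟩ := g.unique g'
  have := PosS.conj g.F hf h
  rwa [Matrix.mul_sub, Matrix.sub_mul, Matrix.mul_assoc, ← hf.2, ← Matrix.mul_assoc, h1,
    Matrix.one_mul, Matrix.mul_smul, Matrix.smul_mul, Matrix.mul_one, h1] at this

lemma Thick.transfer {g' : Good x} {a : Adj n} (h : g'.Thick a) (g : Good x) : g.Thick a := by
  obtain ⟨f, hf, h1, -⟩ := g.unique g'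
  obtain ⟨j, hj, hmu⟩ := h
  refine ⟨(demR a).kap (g.F.adj g'.F f) * (j * f),
    Hom.mul (Hom.kap (g.F.adj_mem g'.F hf) a) (Hom.mul hj hf rfl) (by omega), ?_⟩
  rw [← Matrix.mul_assoc, Dem.mu_kap, Matrix.mul_assoc, ← Matrix.mul_assoc _ j, hmu,
    Matrix.one_mul, h1]

lemma C_eq (g g' : Good x) : g.C = g'.C := by
  obtain ⟨f, hf, h1, h2⟩ := g'.unique g
  have := ch_sum (J := Empty) (μ := fun _ => Unit) (M := fun _ => U 1) (lab' := fun _ _ => 1)
    g.flag g'.flag hf (g'.F.adj_mem g.F hf) h1 (fun _ => U_flag 1 len) (i := fun t => t.elim)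
    (p := fun t => t.elim) (fun t => t.elim) (fun t => t.elim) (fun t => t.elim) (by simpa using h2)
  simpa [C] using this

lemma thick_of_retract (g : Good x) {B : Obj n ι} {a : Adj n} {i : Matrix (ι ⊕ ι) g.ι (R n)}
    {p : Matrix g.ι (ι ⊕ ι) (R n)} (hi : i ∈ Hom g.B (B.θ a) 0) (hp : p ∈ Hom (B.θ a) g.B 0)
    (hpi : p * i = 1) : g.Thick a := by
  refine ⟨(demR a).kap p * (fromRows 1 0 * i),
    Hom.mul (Hom.kap hp a) (Hom.mul (jj_mem B a) hi rfl) (by omega), ?_⟩
  rw [← Matrix.mul_assoc, Dem.mu_kap, Matrix.mul_assoc, ← Matrix.mul_assoc _ _ i, Dem.mu,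
    fromCols_mul_fromRows]
  simpa using hpi

lemma fac_step {g : Good x} {a : Adj n} (ha : len x < len (x * sr a)) (hfac : g.Fac)
    (ih : ∀ z, len z < len x → ∀ gz : Good z,
      (len z < len (z * sr a) → gz.Dec a) ∧ (len (z * sr a) < len z → gz.Thick a))
    {g'' : Good (x * sr a)} {i : Matrix (g.ι ⊕ g.ι) g''.ι (R n)} (hi : i ∈ Hom g''.B (g.B.θ a) 0)
    (hpi : g''.F.adj (g.F.θ a) i * i = 1) : g''.Fac := by
  have hlen : len (x * sr a) = len x + 1 := by have := kl_len_cases x a; omega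
  set p := g''.F.adj (g.F.θ a) i with hp
  have key : ∀ T ∈ PosS g.B g.F (len x),
      p * (demR a).kap T * i ∈ PosS g''.B g''.F (len (x * sr a)) := by
    intro T hT
    induction hT using AddSubmonoid.closure_induction with
    | zero => simp
    | add T T' _ _ h h' =>
      rw [Dem.kap_add, Matrix.mul_add, Matrix.add_mul]; exact add_mem h h'
    | mem T hT =>
      obtain ⟨z, gz, φ, c, hφ, hz, hm, hc, rfl⟩ := hT
      have hψ : (demR a).kap φ * i ∈ Hom g''.B (gz.B.θ a) 1 := Hom.mul (Hom.kap hφ a) hi (by omega)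
      have e : p * (demR a).kap (c • (g.F.adj gz.F φ * φ)) * i =
          c • (g''.F.adj (gz.F.θ a) ((demR a).kap φ * i) *
            (1 : Matrix (gz.ι ⊕ gz.ι) (gz.ι ⊕ gz.ι) (R n)) * ((demR a).kap φ * i)) := by
        rw [Form.adj_mul _ (g.F.θ a), Form.adj_kap, kap_smul_real, Dem.kap_mul]
        simp only [Matrix.mul_smul, Matrix.smul_mul, Matrix.mul_assoc, Matrix.one_mul, hp]
      rw [e]
      generalize (demR a).kap φ * i = ψ at hψ
      by_cases hza : len z < len (z * sr a)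
      · have k2 : ∀ T ∈ Dcl (gz.B.θ a) (gz.F.θ a) (len z + 1),
            c • (g''.F.adj (gz.F.θ a) ψ * T * ψ) ∈ PosS g''.B g''.F (len (x * sr a)) := by
          intro T hT
          induction hT using AddSubmonoid.closure_induction with
          | zero => simp
          | add T T' _ _ h h' =>
            rw [Matrix.mul_add, Matrix.add_mul, smul_add]; exact add_mem h h'
          | mem T hT =>
            obtain ⟨u, gu, f, c', hf, hu, hm', hc', rfl⟩ := hT
            have e2 : ((len (x * sr a) : ℕ) : ℤ) - 1 - len u =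
                ((len x : ℤ) - 1 - len z) + (((len z + 1 : ℕ) : ℤ) - len u) := by
              rw [hlen]; push_cast; ring
            refine AddSubmonoid.subset_closure ⟨u, gu, gu.F.adj (gz.F.θ a) f * ψ, c * c',
              Hom.mul (gu.F.adj_mem _ hf) hψ (by omega), by omega, by rw [e2]; exact hm.add hm', ?_, ?_⟩
            · rw [e2, sg_add hm hm']
              have := mul_pos hc hc'
              linarith
            · rw [Form.adj_mul _ (gz.F.θ a), Form.adj_adj]
              simp only [Matrix.mul_smul, Matrix.smul_mul, Matrix.mul_assoc, smul_smul]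
        exact k2 _ ((ih z hz gz).1 hza)
      · obtain ⟨j, hj, -, -, -, h4⟩ := ((ih z hz gz).2 (by
          have := kl_len_cases z a; omega)).spec
        have h0 : gz.F.adj (gz.F.θ a) j * ψ = 0 :=
          g''.eq_zero_of_ne gz (fun e => by rw [← e] at hz; omega) le_rfl
            (Hom.mul (gz.F.adj_mem _ hj) hψ (by omega))
        have h1 : g''.F.adj (gz.F.θ a) ψ * j = 0 := by
          have := congrArg (g''.F.adj gz.F) h0
          rwa [Form.adj_mul _ (gz.F.θ a), Form.adj_adj, Form.adj_zero] at this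
        rw [← h4, Matrix.mul_add, Matrix.add_mul, ← Matrix.mul_assoc, h1]
        simp [Matrix.mul_assoc, h0]
  have h1 := key _ hfac
  have h2 : (((x a.1.2 : ℝ) - x a.1.1) / 2) • (g''.F.adj g.F ((demR a).mu g.ι * i) *
      ((demR a).mu g.ι * i)) ∈ PosS g''.B g''.F (len (x * sr a)) :=
    AddSubmonoid.subset_closure ⟨x, g, _, _, Hom.mul (mu_mem g.B a) hi (by omega), ha, by simp [hlen],
      by simpa [hlen] using gamma_pos ha, rfl⟩
  unfold Fac
  convert add_mem h1 h2 using 1
  have e1 : p * (demR a).kap (g.B.Y (rho n)) * i = g''.B.Y (rho n) := by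
    rw [Matrix.mul_assoc, ← Obj.θ_Y, ← hi.2, ← Matrix.mul_assoc, hpi, Matrix.one_mul]
  rw [Form.adj_mul _ (g.F.θ a), Form.adj_mu, ← hp, Matrix.mul_assoc p (mustar a g.ι),
    ← Matrix.mul_assoc (mustar a g.ι), mustar_mul_mu, Dem.kap_sub, kap_smul_one, od_act_rho,
    act_mul, ← demR_σ, Dem.σ_eq, od_act_rho, smul_eq_C_smul, Matrix.mul_sub, Matrix.sub_mul, e1]
  simp only [Matrix.mul_add, Matrix.add_mul, Matrix.mul_smul, Matrix.smul_mul, Matrix.mul_one,
    Matrix.one_mul, hpi, Matrix.mul_assoc, smul_add, smul_smul, sub_smul, demR_al]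
  rw [mul_comm (alpha a)]
  abel

end Good

/-- the unit object -/
noncomputable def goodOne : Good (1 : Perm (Fin n)) where
  ι := Unit
  fin := inferInstance
  dec := inferInstance
  B := U 1
  lab _ := 1
  F :=
    { G := 1, Gi := 1, symm := transpose_one, mul_inv := Matrix.mul_one _
      homG := fun j i => by simpa [U, kl_len_one] using Hm.one
      homGi := fun j i => by simpa [U, kl_len_one] using Hm.one
      comm := fun g => by simp [U_Y] }
  flag := U_flag 1 len
  twf y := ⟨Unit, inferInstance, inferInstance, (U 1).tw y, fun _ => y, 1, 1,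
    ⟨fun g i => by simp [Obj.tw_Y, U_Y], fun _ _ _ _ => Or.inl rfl⟩, Hom.one, Hom.one,
    Matrix.mul_one _, Matrix.mul_one _⟩
  diag := by simp [ch, U]
  low y hy e _ := by simp [ch, hy.symm]
  zero y hy _ := by simp [ch, hy.symm]
  hf := HF_unit
  hr := by
    refine ⟨fun i => by simp [U], fun i v hv h0 _ => ?_⟩
    have h1 : v () ≠ 0 := fun e => h0 (funext fun _ => e)
    have h2 := hv () h1
    simp only [U, kl_len_one] at h2
    obtain rfl : i = 0 := by omega
    simpa [kl_len_one, dotProduct] using h1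

lemma goodOne_fac : (goodOne (n := n)).Fac := by
  unfold Good.Fac
  have : (goodOne (n := n)).B.Y (rho n) = act 1 (rho n) • 1 := U_Y _ _
  rw [this, sub_self]
  exact zero_mem _

/-- the induction of Elias and Williamson -/
theorem ew_induction (l : ℕ) : ∀ x : Perm (Fin n), len x = l →
    (Nonempty (Good x) ∧ ∀ g : Good x, g.Fac ∧ ∀ a, len (x * sr a) < len x → g.Thick a) ∧
    (∀ (g : Good x) a, len x < len (x * sr a) → ∀ ζ, 0 ≤ ζ → g.HRθ a ζ) ∧
    (∀ (g : Good x) a, len x < len (x * sr a) →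
      g.Dec a ∧ ∃ g'' : Good (x * sr a), g''.Fac ∧ g''.Thick a) := by
  induction l using Nat.strong_induction_on with
  | _ l ih =>
  have h0 : ∀ (x : Perm (Fin n)) a, len x = l → len (x * sr a) < len x →
      ∃ g : Good x, g.Fac ∧ g.Thick a := by
    intro x a hx ha
    obtain ⟨y, rfl⟩ : ∃ y, x = y * sr a := ⟨x * sr a, (mul_sr_sr x a).symm⟩
    rw [mul_sr_sr] at ha
    obtain ⟨⟨⟨g⟩, -⟩, -, h⟩ := ih _ (hx ▸ ha) y rfl
    exact (h g a ha).2
  have hA : ∀ x : Perm (Fin n), len x = l →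
      Nonempty (Good x) ∧ ∀ g : Good x, g.Fac ∧ ∀ a, len (x * sr a) < len x → g.Thick a := by
    intro x hx
    have h1 : ∃ g : Good x, g.Fac := by
      by_cases h : x = 1
      · subst h; exact ⟨goodOne, goodOne_fac⟩
      · obtain ⟨a, ha⟩ := exists_desc h
        obtain ⟨g, hg, -⟩ := h0 x a hx ha
        exact ⟨g, hg⟩
    obtain ⟨g0, hg0⟩ := h1
    refine ⟨⟨g0⟩, fun g => ⟨hg0.transfer g, fun a ha => ?_⟩⟩
    obtain ⟨g1, -, hg1⟩ := h0 x a hx ha
    exact hg1.transfer g
  intro x hx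
  have hB : ∀ (g : Good x) a, len x < len (x * sr a) → ∀ ζ, 0 ≤ ζ → g.HRθ a ζ :=
    fun g a ha ζ hζ => Good.hr_asc ((hA x hx).2 g).1 ha (fun z hz gz =>
      ⟨(ih _ (hx ▸ hz) z rfl).2.1 gz a, (((ih _ (hx ▸ hz) z rfl).1.2 gz).2 a)⟩) hζ
  refine ⟨hA x hx, hB, fun g a ha => ?_⟩
  have hne : ∀ z : {z // len z ≤ len x}, Nonempty (Good z.1) := fun z => by
    rcases z.2.eq_or_lt with h | h
    · exact (hA z.1 (h.trans hx)).1
    · exact (ih _ (h.trans_eq hx) z.1 rfl).1.1
  obtain ⟨g'', i, hi, hpi, hd, -⟩ := g.step_exists ha (hB g a ha 0 le_rfl) fun z => (hne z).some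
  exact ⟨hd, g'', Good.fac_step ha ((hA x hx).2 g).1 (fun z hz gz =>
    ⟨fun h => ((ih _ (hx ▸ hz) z rfl).2.2 gz a h).1, ((ih _ (hx ▸ hz) z rfl).1.2 gz).2 a⟩) hi hpi,
    g''.thick_of_retract hi (g''.F.adj_mem _ hi) hpi⟩

/-- the indecomposable Soergel bimodule -/
noncomputable def BB (x : Perm (Fin n)) : Good x := (ew_induction _ x rfl).1.1.some

theorem isKLB_BB : IsKLB (fun x : Perm (Fin n) => (BB x).C) where
  diag w := (BB w).diag
  low w := (BB w).low
  zero w := (BB w).zero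
  step w a ha := by
    obtain ⟨g'', -, -, -, -, h⟩ := (BB w).step_exists ha
      ((ew_induction _ w rfl).2.1 _ a ha 0 le_rfl) fun z => BB z.1
    rw [(BB (w * sr a)).C_eq g'', h]
    congr 1
    exact (Finset.sum_subtype (Finset.univ.filter fun z => len z ≤ len w) (by simp)
      (fun z => (mulC a (BB w).C z).coeff 0 • (BB z).C)).symm

/-! ### the package -/

/-- homogeneous component of a matrix -/
noncomputable def cmpM (B : Obj n ι) (B' : Obj n κ) (d : ℤ) (T : Matrix κ ι (R n)) :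
    Matrix κ ι (R n) := fun j i => cmp (B.deg i + d - B'.deg j) (T j i)

lemma cmpM_mem {B : Obj n ι} {B' : Obj n κ} {T : Matrix κ ι (R n)}
    (hT : ∀ g, T * B.Y g = B'.Y g * T) (d : ℤ) : cmpM B B' d T ∈ Hom B B' d := by
  refine ⟨fun j i => cmp_hm _ _, comm_of_X _ _ fun k => ?_⟩
  ext1 j i
  have e := congrArg (cmp (B.deg i + d + 2 - B'.deg j))
    (congrFun (congrFun (hT (MvPolynomial.X k)) j) i)
  rw [mul_apply, mul_apply, map_sum, map_sum] at e
  rw [mul_apply, mul_apply]
  convert e using 2 with m _ m _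
  · rw [cmpM, ← cmp_mul_hm (B.Y_X k m i)]
    congr 2; ring
  · rw [cmpM, ← cmp_hm_mul (B'.Y_X k j m)]
    congr 2; ring

lemma cc_cmpM (B : Obj n ι) (B' : Obj n κ) (T : Matrix κ ι (R n)) (j : κ) (i : ι) {d : ℤ}
    (hd : d = B'.deg j - B.deg i) :
    MvPolynomial.constantCoeff (T j i) = MvPolynomial.constantCoeff (cmpM B B' d T j i) := by
  rw [cmpM, show B.deg i + d - B'.deg j = 0 by omega, constantCoeff_cmp_zero]

omit [DecidableEq ι] in
lemma at1_ch (deg : ι → ℤ) (lab : ι → Perm (Fin n)) (v : Perm (Fin n)) :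
    at1 (ch deg lab v) = Nat.card {i // lab i = v} := by
  rw [kl_at1, ch, map_sum, Nat.card_eq_fintype_card, Fintype.card_subtype]
  simp [klE1_T]

lemma theta_BB (u : Perm (Fin n)) (a : Adj n) : ∃ (J : Type) (_ : Fintype J)
    (u' : J → Perm (Fin n)) (i : ∀ j, Matrix ((BB u).ι ⊕ (BB u).ι) (BB (u' j)).ι (R n))
    (p : ∀ j, Matrix (BB (u' j)).ι ((BB u).ι ⊕ (BB u).ι) (R n)),
    (∀ j g, i j * (BB (u' j)).B.Y g = (demR a).kap ((BB u).B.Y g) * i j) ∧
    (∀ j g, p j * (demR a).kap ((BB u).B.Y g) = (BB (u' j)).B.Y g * p j) ∧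
    ∑ j, i j * p j = 1 := by
  by_cases ha : len u < len (u * sr a)
  · have key : ∀ T ∈ Dcl ((BB u).B.θ a) ((BB u).F.θ a) (len u + 1), ∃ (J : Type) (_ : Fintype J)
        (u' : J → Perm (Fin n)) (i : ∀ j, Matrix ((BB u).ι ⊕ (BB u).ι) (BB (u' j)).ι (R n))
        (p : ∀ j, Matrix (BB (u' j)).ι ((BB u).ι ⊕ (BB u).ι) (R n)),
        (∀ j g, i j * (BB (u' j)).B.Y g = (demR a).kap ((BB u).B.Y g) * i j) ∧
        (∀ j g, p j * (demR a).kap ((BB u).B.Y g) = (BB (u' j)).B.Y g * p j) ∧
        ∑ j, i j * p j = T := by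
      intro T hT
      induction hT using AddSubmonoid.closure_induction with
      | zero => exact ⟨Empty, inferInstance, fun t => t.elim, fun t => t.elim, fun t => t.elim,
          fun t => t.elim, fun t => t.elim, by simp⟩
      | add T T' _ _ h h' =>
        obtain ⟨J, _, u1, i1, p1, h1, h2, h3⟩ := h
        obtain ⟨J', _, u2, i2, p2, h1', h2', h3'⟩ := h'
        refine ⟨J ⊕ J', inferInstance, Sum.elim u1 u2,
          fun j => match j with | .inl j => i1 j | .inr j => i2 j,
          fun j => match j with | .inl j => p1 j | .inr j => p2 j, ?_, ?_, ?_⟩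
        · rintro (j | j)
          exacts [h1 j, h1' j]
        · rintro (j | j)
          exacts [h2 j, h2' j]
        · rw [Fintype.sum_sum_type, ← h3, ← h3']
          rfl
      | mem T hT =>
        obtain ⟨z, gz, f, c, hf, -, -, -, rfl⟩ := hT
        obtain ⟨e, he, h1, -⟩ := gz.unique (BB z)
        refine ⟨Unit, inferInstance, fun _ => z, fun _ => f * gz.F.adj (BB z).F e,
          fun _ => c • (e * gz.F.adj ((BB u).F.θ a) f),
          fun _ => (Hom.mul hf (gz.F.adj_mem _ he) rfl).2,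
          fun _ => (Submodule.smul_mem _ c (Hom.mul he (gz.F.adj_mem _ hf) rfl)).2, ?_⟩
        rw [Fintype.sum_unique, Matrix.mul_smul, Matrix.mul_assoc, ← Matrix.mul_assoc _ e, h1,
          Matrix.one_mul]
    exact key _ ((ew_induction _ u rfl).2.2 _ a ha).1
  · obtain ⟨j, hj, -, -, -, h4⟩ := (((ew_induction _ u rfl).1.2 (BB u)).2 a (by
      have := kl_len_cases u a; omega)).spec
    have hjs := (BB u).F.adj_mem ((BB u).F.θ a) hj
    refine ⟨Bool, inferInstance, fun _ => u,
      fun t => if t then j else (demR a).almid _ * j,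
      fun t => if t then (BB u).F.adj ((BB u).F.θ a) j * (demR a).almid _
        else (BB u).F.adj ((BB u).F.θ a) j, ?_, ?_, ?_⟩
    · rintro (_ | _)
      exacts [(Hom.mul (almid_mem _ a) hj rfl).2, hj.2]
    · rintro (_ | _)
      exacts [hjs.2, (Hom.mul hjs (almid_mem _ a) rfl).2]
    · rw [Fintype.sum_bool]; exact h4

/-- the package of indecomposable Soergel bimodules -/
noncomputable def pack (n : ℕ) : Pack n where
  ι u := (BB u).ι
  fin u := (BB u).fin
  dec u := (BB u).dec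
  Y u := (BB u).B.Y.toRingHom
  lab u := (BB u).lab
  top u := (BB u).top
  tri u := (BB u).flag.tri
  diag u := (BB u).flag.diag
  count u v := by rw [← isKLB_BB.at1_eq v u]; exact (at1_ch _ _ _).symm
  eps_diag u T hT i := by
    rw [cc_cmpM (BB u).B (BB u).B T i i (d := 0) (by ring),
      cc_cmpM (BB u).B (BB u).B T (BB u).top (BB u).top (d := 0) (by ring),
      (BB u).end_eq (cmpM_mem hT 0)]
    simp
  eps_mul u T T' _ hT' := by
    rw [mul_apply, map_sum, Finset.sum_eq_single (BB u).top, map_mul]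
    · intro j _ hj
      have h1 := (BB u).deg_lt hj
      have h2 := (BB u).len_lt hj
      have h3 := (BB u).deg_top
      rw [map_mul, cc_cmpM (BB u).B (BB u).B T' j _ rfl,
        (BB u).eq_zero_of_neg (BB u).hf (BB u).inP (by omega) (cmpM_mem hT' _)]
      simp
    · simp
  eps_ne u u' h T T' hT hT' := by
    rw [mul_apply, map_sum]
    refine Finset.sum_eq_zero fun j _ => ?_
    rw [map_mul]
    by_cases hd : (BB u).B.deg (BB u).top - (BB u').B.deg j ≤ 0
    · rw [cc_cmpM (BB u').B (BB u).B T _ j rfl,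
        (BB u').eq_zero_of_ne (BB u) h.symm hd (cmpM_mem hT _)]
      simp
    · rw [cc_cmpM (BB u).B (BB u').B T' j _ rfl,
        (BB u).eq_zero_of_ne (BB u') h (by omega) (cmpM_mem hT' _)]
      simp
  theta := theta_BB

end Pool.Agent.P.MP_c3da96_co
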