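import Pool.Agent.P.MP_c3da96_co.Iface

namespace Pool.Agent.P.MP_c3da96_co

open Equiv Matrix

variable {n : ℕ}

/-! ### homogeneous matrices -/

/-- homogeneous matrix of degree `d` between graded bases -/
def Homog {ι κ : Type*} (deg : ι → ℤ) (deg' : κ → ℤ) (d : ℤ) (T : Matrix κ ι (R n)) : Prop :=
  ∀ j i, Hm (T j i) (deg i + d - deg' j)

namespace Homog
variable {ι κ μ : Type*} {deg : ι → ℤ} {deg' : κ → ℤ} {deg'' : μ → ℤ} {d e : ℤ}
  {T U : Matrix κ ι (R n)}

lemma zero : Homog deg deg' d (0 : Matrix κ ι (R n)) := fun _ _ => Hm.zero _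
lemma add (h : Homog deg deg' d T) (h' : Homog deg deg' d U) : Homog deg deg' d (T + U) :=
  fun j i => (h j i).add (h' j i)
lemma neg (h : Homog deg deg' d T) : Homog deg deg' d (-T) := fun j i => (h j i).neg
lemma sub (h : Homog deg deg' d T) (h' : Homog deg deg' d U) : Homog deg deg' d (T - U) :=
  fun j i => (h j i).sub (h' j i)
lemma smul (c : ℝ) (h : Homog deg deg' d T) : Homog deg deg' d (c • T) :=
  fun j i => (h j i).smul c
lemma cast (h : Homog deg deg' d T) (hd : d = e) : Homog deg deg' e T := hd ▸ h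
lemma smulR {c : R n} (hc : Hm c e) (h : Homog deg deg' d T) : Homog deg deg' (d + e) (c • T) :=
  fun j i => (hc.mul (h j i)).cast (by ring)
lemma one [DecidableEq ι] : Homog deg deg 0 (1 : Matrix ι ι (R n)) := fun j i => by
  by_cases h : j = i
  · subst h; simpa using Hm.one
  · rw [one_apply_ne h]; exact Hm.zero _
lemma mul [Fintype κ] {V : Matrix μ κ (R n)} (hV : Homog deg' deg'' e V)
    (h : Homog deg deg' d T) : Homog deg deg'' (d + e) (V * T) := fun k i => by
  rw [mul_apply]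
  exact Hm.sum _ _ fun j _ => ((hV k j).mul (h j i)).cast (by ring)
lemma transpose (h : Homog deg deg' d T) :
    Homog (fun j => -deg' j) (fun i => -deg i) d Tᵀ :=
  fun i j => (h j i).cast (by ring)
lemma sum {J : Type*} (s : Finset J) (f : J → Matrix κ ι (R n))
    (h : ∀ t ∈ s, Homog deg deg' d (f t)) : Homog deg deg' d (∑ t ∈ s, f t) := fun j i => by
  rw [Matrix.sum_apply]; exact Hm.sum _ _ fun t ht => h t ht j i
lemma kap (a : Adj n) (h : Homog deg deg' d T) :
    Homog (deg2 deg) (deg2 deg') d ((demR a).kap T) := by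
  rintro (j | j) (i | i)
  · exact ((h j i).ev a).cast (by simp [deg2]; ring)
  · have h2 : Hm (alpha a ^ 2) 4 := by
      rw [sq]; exact ((Hm.of_alpha a).mul (Hm.of_alpha a)).cast (by norm_num)
    exact (h2.mul ((h j i).od a)).cast (by simp [deg2]; ring)
  · exact ((h j i).od a).cast (by simp [deg2]; ring)
  · exact ((h j i).ev a).cast (by simp [deg2]; ring)
end Homog

/-! ### objects and morphisms -/

/-- a graded bimodule, free on the right, given by the matrices of the left action -/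
structure Obj (n : ℕ) (ι : Type) [Fintype ι] [DecidableEq ι] where
  deg : ι → ℤ
  Y : R n →ₐ[ℝ] Matrix ι ι (R n)
  Y_X : ∀ k, Homog deg deg 2 (Y (MvPolynomial.X k))

variable {ι κ μ : Type} [Fintype ι] [DecidableEq ι] [Fintype κ] [DecidableEq κ]
  [Fintype μ] [DecidableEq μ]

/-- bimodule maps of degree `d` -/
def Hom (B : Obj n ι) (B' : Obj n κ) (d : ℤ) : Submodule ℝ (Matrix κ ι (R n)) where
  carrier := {T | Homog B.deg B'.deg d T ∧ ∀ g, T * B.Y g = B'.Y g * T}
  add_mem' h h' := ⟨h.1.add h'.1, fun g => by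
    rw [Matrix.add_mul, Matrix.mul_add, h.2, h'.2]⟩
  zero_mem' := ⟨Homog.zero, fun g => by simp⟩
  smul_mem' c _ h := ⟨h.1.smul c, fun g => by
    rw [Matrix.smul_mul, Matrix.mul_smul, h.2]⟩

lemma comm_of_X (Y : R n →ₐ[ℝ] Matrix ι ι (R n)) (Y' : R n →ₐ[ℝ] Matrix κ κ (R n))
    {T : Matrix κ ι (R n)}
    (h : ∀ k, T * Y (MvPolynomial.X k) = Y' (MvPolynomial.X k) * T) (g : R n) :
    T * Y g = Y' g * T := by
  induction g using MvPolynomial.induction_on with
  | C c =>
    rw [← MvPolynomial.algebraMap_eq, Y.commutes, Y'.commutes, Algebra.algebraMap_eq_smul_one,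
      Algebra.algebraMap_eq_smul_one]
    simp
  | add p q hp hq => rw [map_add, map_add, Matrix.mul_add, Matrix.add_mul, hp, hq]
  | mul_X p k hp => rw [map_mul, map_mul, ← Matrix.mul_assoc, hp, Matrix.mul_assoc, h,
      Matrix.mul_assoc]

namespace Hom
variable {B : Obj n ι} {B' : Obj n κ} {B'' : Obj n μ} {d e : ℤ}

lemma mk' {T : Matrix κ ι (R n)} (h : Homog B.deg B'.deg d T)
    (h' : ∀ g, T * B.Y g = B'.Y g * T) : T ∈ Hom B B' d := ⟨h, h'⟩
lemma homog {T : Matrix κ ι (R n)} (h : T ∈ Hom B B' d) : Homog B.deg B'.deg d T := h.1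
lemma comm {T : Matrix κ ι (R n)} (h : T ∈ Hom B B' d) (g : R n) :
    T * B.Y g = B'.Y g * T := h.2 g
lemma cast {T : Matrix κ ι (R n)} (h : T ∈ Hom B B' d) (hd : d = e) : T ∈ Hom B B' e :=
  hd ▸ h
lemma mul {T : Matrix κ ι (R n)} {U : Matrix μ κ (R n)} {f : ℤ}
    (hU : U ∈ Hom B' B'' e) (h : T ∈ Hom B B' d) (hf : d + e = f) :
    U * T ∈ Hom B B'' f :=
  ⟨(hU.1.mul h.1).cast hf, fun g => by
    rw [Matrix.mul_assoc, h.2, ← Matrix.mul_assoc, hU.2, Matrix.mul_assoc]⟩
lemma one : (1 : Matrix ι ι (R n)) ∈ Hom B B 0 := ⟨Homog.one, fun g => by simp⟩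
lemma smulR {c : R n} (hc : Hm c e) {T : Matrix κ ι (R n)} (h : T ∈ Hom B B' d) :
    c • T ∈ Hom B B' (d + e) :=
  ⟨h.1.smulR hc, fun g => by rw [Matrix.smul_mul, Matrix.mul_smul, h.2]⟩
end Hom

lemma Obj.Y_comm (B : Obj n ι) (g h : R n) : B.Y g * B.Y h = B.Y h * B.Y g := by
  rw [← map_mul, mul_comm, map_mul]

lemma Obj.Y_X_mem (B : Obj n ι) (k : Fin n) : B.Y (MvPolynomial.X k) ∈ Hom B B 2 :=
  ⟨B.Y_X k, fun _ => B.Y_comm _ _⟩

/-- the standard bimodule, generated in degree `len z` -/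
noncomputable def U (z : Perm (Fin n)) : Obj n Unit where
  deg _ := len z
  Y := (scalarAlgHom Unit ℝ).comp (act z)
  Y_X k := fun j i => by simpa using Hm.X _

lemma U_Y (z : Perm (Fin n)) (g : R n) : (U z).Y g = act z g • (1 : Matrix Unit Unit (R n)) := by
  ext1 i j; simp [U]

/-- twisting the left action -/
noncomputable def Obj.tw (B : Obj n ι) (y : Perm (Fin n)) : Obj n ι where
  deg := B.deg
  Y := B.Y.comp (act y)
  Y_X k := by simpa using B.Y_X _

lemma Obj.tw_Y (B : Obj n ι) (y : Perm (Fin n)) (g : R n) : (B.tw y).Y g = B.Y (act y g) := rfl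

lemma act_surj (y : Perm (Fin n)) (g : R n) : act y (act y⁻¹ g) = g := by
  rw [← act_mul, inv_mul_cancel, act_one]

lemma Hom.tw {B : Obj n ι} {B' : Obj n κ} {d : ℤ} {T : Matrix κ ι (R n)} (h : T ∈ Hom B B' d)
    (y : Perm (Fin n)) : T ∈ Hom (B.tw y) (B'.tw y) d := ⟨h.1, fun _ => h.2 _⟩

lemma sigma_C (a : Adj n) (c : ℝ) : (demR a).σ (MvPolynomial.C c) = MvPolynomial.C c := act_C _ _

lemma smul_eq_C_smul {ι κ : Type*} (c : ℝ) (T : Matrix ι κ (R n)) :
    c • T = (MvPolynomial.C c : R n) • T := by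
  ext1 i j; simp [MvPolynomial.smul_eq_C_mul]

lemma kap_smul_real (a : Adj n) {ι κ : Type*} (c : ℝ) (T : Matrix ι κ (R n)) :
    (demR a).kap (c • T) = c • (demR a).kap T := by
  rw [smul_eq_C_smul, smul_eq_C_smul, (demR a).kap_smul (sigma_C a c)]

/-- `kap` as a map of real algebras -/
noncomputable def kapAlg (a : Adj n) (ι : Type) [Fintype ι] [DecidableEq ι] :
    Matrix ι ι (R n) →ₐ[ℝ] Matrix (ι ⊕ ι) (ι ⊕ ι) (R n) :=
  AlgHom.mk' ((demR a).kapHom ι) (fun c T => kap_smul_real a c T)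

/-- the functor of tensoring with `B_s` -/
noncomputable def Obj.θ (B : Obj n ι) (a : Adj n) : Obj n (ι ⊕ ι) where
  deg := deg2 B.deg
  Y := (kapAlg a ι).comp B.Y
  Y_X k := (B.Y_X k).kap a

lemma Obj.θ_Y (B : Obj n ι) (a : Adj n) (g : R n) : (B.θ a).Y g = (demR a).kap (B.Y g) := rfl
lemma Obj.θ_deg (B : Obj n ι) (a : Adj n) : (B.θ a).deg = deg2 B.deg := rfl

lemma Obj.tw_θ (B : Obj n ι) (a : Adj n) (y : Perm (Fin n)) : (B.θ a).tw y = (B.tw y).θ a := rfl

lemma Hom.kap {B : Obj n ι} {B' : Obj n κ} {d : ℤ} {T : Matrix κ ι (R n)} (h : T ∈ Hom B B' d)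
    (a : Adj n) : (demR a).kap T ∈ Hom (B.θ a) (B'.θ a) d :=
  ⟨h.1.kap a, fun g => by
    rw [Obj.θ_Y, Obj.θ_Y, ← Dem.kap_mul, h.2, Dem.kap_mul]⟩

/-- transport of structure to a retract -/
noncomputable def Obj.transport (B : Obj n ι)
    (deg' : κ → ℤ) (i : Matrix ι κ (R n)) (p : Matrix κ ι (R n))
    (hi : Homog deg' B.deg 0 i) (hp : Homog B.deg deg' 0 p) (hpi : p * i = 1)
    (hc : ∀ g, i * p * B.Y g = B.Y g * (i * p)) : Obj n κ where
  deg := deg'
  Y :=
    { toFun g := p * B.Y g * i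
      map_one' := by simp [hpi]
      map_mul' g h := by
        have := hc h
        calc p * B.Y (g * h) * i = p * B.Y g * (B.Y h * (i * p)) * i := by
              simp only [map_mul, Matrix.mul_assoc, hpi, Matrix.mul_one]
          _ = _ := by rw [← hc]; simp only [Matrix.mul_assoc]
      map_zero' := by simp
      map_add' g h := by rw [map_add, Matrix.mul_add, Matrix.add_mul]
      commutes' c := by
        rw [B.Y.commutes, Algebra.algebraMap_eq_smul_one, Algebra.algebraMap_eq_smul_one,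
          Matrix.mul_smul, Matrix.smul_mul, Matrix.mul_one, hpi] }
  Y_X k := ((hp.mul (B.Y_X k)).mul hi).cast (by norm_num)

section transport
variable (B : Obj n ι) (deg' : κ → ℤ) (i : Matrix ι κ (R n)) (p : Matrix κ ι (R n))
    (hi : Homog deg' B.deg 0 i) (hp : Homog B.deg deg' 0 p) (hpi : p * i = 1)
    (hc : ∀ g, i * p * B.Y g = B.Y g * (i * p))

lemma Obj.transport_Y (g : R n) : (B.transport deg' i p hi hp hpi hc).Y g = p * B.Y g * i := rfl

lemma Obj.transport_i : i ∈ Hom (B.transport deg' i p hi hp hpi hc) B 0 :=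
  ⟨hi, fun g => by
    rw [Obj.transport_Y, ← Matrix.mul_assoc, ← Matrix.mul_assoc, hc, Matrix.mul_assoc,
      Matrix.mul_assoc, hpi, Matrix.mul_one]⟩

lemma Obj.transport_p : p ∈ Hom B (B.transport deg' i p hi hp hpi hc) 0 :=
  ⟨hp, fun g => by
    rw [Obj.transport_Y, Matrix.mul_assoc, Matrix.mul_assoc, ← hc, ← Matrix.mul_assoc,
      ← Matrix.mul_assoc, hpi, Matrix.one_mul]⟩
end transport

/-! ### the structure maps of `θ` -/

/-- the adjoint of the multiplication map -/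
noncomputable def mustar (a : Adj n) (ι : Type) [DecidableEq ι] : Matrix (ι ⊕ ι) ι (R n) :=
  fromRows (alpha a • 1) 1

lemma mu_mem (B : Obj n ι) (a : Adj n) : (demR a).mu ι ∈ Hom (B.θ a) B 1 := by
  refine ⟨?_, fun g => (demR a).mu_kap _⟩
  rintro j (i | i)
  · exact (Homog.one (deg := B.deg) j i).cast (by simp [Obj.θ_deg, deg2])
  · exact ((Homog.one (deg := B.deg)).smulR (Hm.of_alpha a) j i).cast
      (by simp [Obj.θ_deg, deg2]; ring)

lemma kap_mustar (a : Adj n) (T : Matrix κ ι (R n)) :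
    (demR a).kap T * mustar a ι = mustar a κ * T := by
  simp only [mustar, Dem.kap, fromBlocks_mul_fromRows, fromRows_mul, Matrix.one_mul,
    Matrix.mul_one, Matrix.smul_mul, Matrix.mul_smul]
  congr 1
  · ext1 i j
    simp only [Matrix.add_apply, map_apply, Matrix.smul_apply, smul_eq_mul, demR_al]
    have := (demR a).dec (T i j)
    rw [demR_al] at this
    linear_combination alpha a * this
  · ext1 i j
    simp only [Matrix.add_apply, map_apply, Matrix.smul_apply, smul_eq_mul]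
    have := (demR a).dec (T i j)
    rw [demR_al] at this
    linear_combination this

lemma mustar_mem (B : Obj n ι) (a : Adj n) : mustar a ι ∈ Hom B (B.θ a) 1 := by
  refine ⟨?_, fun g => (kap_mustar a _).symm⟩
  rintro (j | j) i
  · exact ((Homog.one (deg := B.deg)).smulR (Hm.of_alpha a) j i).cast
      (by simp [Obj.θ_deg, deg2]; ring)
  · exact (Homog.one (deg := B.deg) j i).cast (by simp [Obj.θ_deg, deg2])

lemma mustar_mul_mu (a : Adj n) :
    mustar a ι * (demR a).mu ι = (demR a).almid ι + alpha a • 1 := by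
  rw [mustar, Dem.mu, fromRows_mul_fromCols, Dem.almid, ← fromBlocks_one, fromBlocks_smul,
    fromBlocks_add]
  simp [sq, smul_smul]

lemma almid_mem (B : Obj n ι) (a : Adj n) : (demR a).almid ι ∈ Hom (B.θ a) (B.θ a) 2 := by
  rw [← Dem.kap_al]
  exact Hom.kap (Hom.cast (Hom.smulR (Hm.of_alpha a) Hom.one) (by norm_num)) a

lemma almid_kap (a : Adj n) (T : Matrix κ ι (R n)) :
    (demR a).almid κ * (demR a).kap T = (demR a).kap T * (demR a).almid ι := by
  rw [← Dem.kap_al, ← Dem.kap_al, ← Dem.kap_mul, ← Dem.kap_mul]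
  simp

lemma almid_sq (a : Adj n) :
    (demR a).almid ι * (demR a).almid ι = (alpha a ^ 2) • 1 := by
  rw [← Dem.kap_al, ← Dem.kap_mul, Matrix.smul_mul, Matrix.one_mul, smul_smul, ← sq,
    (demR a).kap_smul (demR a).σ_al_sq, Dem.kap_one, demR_al]

lemma kap_kap (a : Adj n) {ι κ : Type*} (T : Matrix κ ι (R n)) :
    (demR a).kap ((demR a).kap T) = fromBlocks ((demR a).kap T) 0 0 ((demR a).kap T) := by
  have h1 : ∀ r, (demR a).ev (alpha a ^ 2 * (demR a).od r) = alpha a ^ 2 * (demR a).od r :=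
    fun r => by rw [← demR_al, (demR a).ev_inv_mul (demR a).σ_al_sq, Dem.ev_od]
  have h2 : ∀ r, (demR a).od (alpha a ^ 2 * (demR a).od r) = 0 :=
    fun r => by rw [← demR_al, (demR a).od_inv_mul (demR a).σ_al_sq, Dem.od_od, mul_zero]
  ext1 ((i | i) | (i | i)) ((j | j) | (j | j)) <;> simp [Dem.kap, h1, h2]

lemma jj_mem (B : Obj n ι) (a : Adj n) :
    (fromRows 1 0 : Matrix ((ι ⊕ ι) ⊕ (ι ⊕ ι)) (ι ⊕ ι) (R n)) ∈
      Hom (B.θ a) ((B.θ a).θ a) (-1) := by
  refine ⟨?_, fun g => ?_⟩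
  · rintro (j | j) i
    · exact (Homog.one (deg := (B.θ a).deg) j i).cast (by simp [Obj.θ_deg, deg2]; ring)
    · exact Hm.zero _
  · rw [Obj.θ_Y (B.θ a), Obj.θ_Y, kap_kap, fromBlocks_mul_fromRows, fromRows_mul]
    simp

lemma qq_mem (B : Obj n ι) (a : Adj n) :
    (fromCols 0 1 : Matrix (ι ⊕ ι) ((ι ⊕ ι) ⊕ (ι ⊕ ι)) (R n)) ∈
      Hom ((B.θ a).θ a) (B.θ a) (-1) := by
  refine ⟨?_, fun g => ?_⟩
  · rintro j (i | i)
    · exact Hm.zero _
    · exact (Homog.one (deg := (B.θ a).deg) j i).cast (by simp [Obj.θ_deg, deg2])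
  · rw [Obj.θ_Y (B.θ a), Obj.θ_Y, kap_kap, fromCols_mul_fromBlocks, mul_fromCols]
    simp

/-! ### forms and adjoints -/

/-- a perfect symmetric invariant form of degree zero -/
structure Form (B : Obj n ι) where
  G : Matrix ι ι (R n)
  Gi : Matrix ι ι (R n)
  symm : Gᵀ = G
  mul_inv : G * Gi = 1
  homG : Homog B.deg (fun i => -B.deg i) 0 G
  homGi : Homog (fun i => -B.deg i) B.deg 0 Gi
  comm : ∀ g, G * B.Y g = (B.Y g)ᵀ * G

namespace Form
variable {B : Obj n ι} {B' : Obj n κ} {B'' : Obj n μ} (F : Form B) (F' : Form B') (F'' : Form B'')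

lemma inv_mul : F.Gi * F.G = 1 := mul_eq_one_comm.1 F.mul_inv

lemma symmi : F.Giᵀ = F.Gi := by
  have h : F.Giᵀ * F.G = 1 := by
    have := congrArg transpose F.mul_inv
    rwa [transpose_mul, F.symm, transpose_one] at this
  calc F.Giᵀ = F.Giᵀ * (F.G * F.Gi) := by rw [F.mul_inv, Matrix.mul_one]
    _ = F.Gi := by rw [← Matrix.mul_assoc, h, Matrix.one_mul]

/-- the adjoint of a map -/
noncomputable def adj (f : Matrix κ ι (R n)) : Matrix ι κ (R n) := F.Gi * fᵀ * F'.G

lemma G_adj (f : Matrix κ ι (R n)) : F.G * F.adj F' f = fᵀ * F'.G := by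
  rw [adj, ← Matrix.mul_assoc, ← Matrix.mul_assoc, F.mul_inv, Matrix.one_mul]

lemma adj_eq_of {f : Matrix κ ι (R n)} {g : Matrix ι κ (R n)} (h : F.G * g = fᵀ * F'.G) :
    F.adj F' f = g := by
  rw [adj, Matrix.mul_assoc, ← h, ← Matrix.mul_assoc, F.inv_mul, Matrix.one_mul]

lemma adj_mul (f : Matrix κ ι (R n)) (f' : Matrix μ κ (R n)) :
    F.adj F'' (f' * f) = F.adj F' f * F'.adj F'' f' := by
  apply adj_eq_of
  rw [← Matrix.mul_assoc, G_adj, Matrix.mul_assoc, G_adj, transpose_mul, Matrix.mul_assoc]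

lemma adj_adj (f : Matrix κ ι (R n)) : F'.adj F (F.adj F' f) = f := by
  apply adj_eq_of
  have := congrArg transpose (F.G_adj F' f)
  rw [transpose_mul, transpose_mul, F.symm, F'.symm, transpose_transpose] at this
  exact this.symm

lemma adj_one : F.adj F 1 = 1 := adj_eq_of _ _ (by simp)
lemma adj_Y (g : R n) : F.adj F (B.Y g) = B.Y g := adj_eq_of _ _ (F.comm g)
lemma adj_add (f f' : Matrix κ ι (R n)) : F.adj F' (f + f') = F.adj F' f + F.adj F' f' := by
  simp [adj, Matrix.mul_add, Matrix.add_mul]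
lemma adj_sub (f f' : Matrix κ ι (R n)) : F.adj F' (f - f') = F.adj F' f - F.adj F' f' := by
  simp [adj, Matrix.mul_sub, Matrix.sub_mul]
lemma adj_smulR (c : R n) (f : Matrix κ ι (R n)) : F.adj F' (c • f) = c • F.adj F' f := by
  simp [adj]
lemma adj_smul (c : ℝ) (f : Matrix κ ι (R n)) : F.adj F' (c • f) = c • F.adj F' f := by
  simp [adj]
lemma adj_zero : F.adj F' 0 = 0 := by simp [adj]
lemma adj_sum {J : Type*} (s : Finset J) (f : J → Matrix κ ι (R n)) :
    F.adj F' (∑ t ∈ s, f t) = ∑ t ∈ s, F.adj F' (f t) := by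
  simp [adj, transpose_sum, Matrix.mul_sum, Matrix.sum_mul]

lemma adj_mem {d : ℤ} {f : Matrix κ ι (R n)} (h : f ∈ Hom B B' d) : F.adj F' f ∈ Hom B' B d := by
  refine ⟨((F.homGi.mul h.1.transpose).mul F'.homG).cast (by ring), fun g => ?_⟩
  rw [← F.adj_Y g, ← F'.adj_Y g, ← adj_mul, ← adj_mul, h.2]

/-- the induced form on `θ B` -/
noncomputable def θ (a : Adj n) : Form (B.θ a) where
  G := swapJ (R n) ι * (demR a).kap F.G
  Gi := (demR a).kap F.Gi * swapJ (R n) ι
  symm := by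
    rw [transpose_mul, Dem.kap_transpose, swapJ_transpose, Matrix.mul_assoc, swapJ_mul_swapJ,
      Matrix.mul_one, F.symm]
  mul_inv := by
    rw [Matrix.mul_assoc, ← Matrix.mul_assoc ((demR a).kap F.G), ← Dem.kap_mul, F.mul_inv,
      Dem.kap_one, Matrix.one_mul, swapJ_mul_swapJ]
  homG := by
    have h : Homog (deg2 fun i => -B.deg i) (fun i => -deg2 B.deg i) 0 (swapJ (R n) ι) := by
      rintro (j | j) (i | i)
      · exact Hm.zero _
      · exact (Homog.one (deg := fun i => -B.deg i) j i).cast (by simp [deg2]; ring)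
      · exact (Homog.one (deg := fun i => -B.deg i) j i).cast (by simp [deg2]; ring)
      · exact Hm.zero _
    exact h.mul (F.homG.kap a)
  homGi := by
    have h : Homog (fun i => -deg2 B.deg i) (deg2 fun i => -B.deg i) 0 (swapJ (R n) ι) := by
      rintro (j | j) (i | i)
      · exact Hm.zero _
      · exact (Homog.one (deg := fun i => -B.deg i) j i).cast (by simp [deg2]; ring)
      · exact (Homog.one (deg := fun i => -B.deg i) j i).cast (by simp [deg2]; ring)
      · exact Hm.zero _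
    exact (F.homGi.kap a).mul h
  comm g := by
    rw [Obj.θ_Y, Dem.kap_transpose, Matrix.mul_assoc, ← Dem.kap_mul, F.comm, Dem.kap_mul]
    simp only [Matrix.mul_assoc]
    rw [← Matrix.mul_assoc (swapJ (R n) ι) (swapJ (R n) ι), swapJ_mul_swapJ, Matrix.one_mul]

lemma θ_G (a : Adj n) : (F.θ a).G = swapJ (R n) ι * (demR a).kap F.G := rfl

lemma adj_kap (a : Adj n) (f : Matrix κ ι (R n)) :
    (F.θ a).adj (F'.θ a) ((demR a).kap f) = (demR a).kap (F.adj F' f) := by
  apply adj_eq_of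
  rw [θ_G, θ_G, Matrix.mul_assoc, ← Dem.kap_mul, G_adj, Dem.kap_mul, Dem.kap_transpose]
  simp only [Matrix.mul_assoc]
  rw [← Matrix.mul_assoc (swapJ (R n) κ) (swapJ (R n) κ), swapJ_mul_swapJ, Matrix.one_mul]

lemma adj_mu (a : Adj n) : (F.θ a).adj F ((demR a).mu ι) = mustar a ι := by
  apply adj_eq_of
  rw [θ_G, Matrix.mul_assoc, kap_mustar, ← Matrix.mul_assoc]
  congr 1
  simp [swapJ, mustar, Dem.mu, fromBlocks_mul_fromRows, transpose_fromCols]

lemma adj_almid (a : Adj n) : (F.θ a).adj (F.θ a) ((demR a).almid ι) = (demR a).almid ι := by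
  rw [← Dem.kap_al, adj_kap, adj_smulR, adj_one]

/-- the form restricted to a self-adjoint retract -/
noncomputable def retract {i : Matrix κ ι (R n)} {p : Matrix ι κ (R n)} (hi : i ∈ Hom B B' 0)
    (hp : p ∈ Hom B' B 0) (hpi : p * i = 1) (he : F'.adj F' (i * p) = i * p) : Form B where
  G := iᵀ * F'.G * i
  Gi := p * F'.Gi * pᵀ
  symm := by rw [transpose_mul, transpose_mul, F'.symm, transpose_transpose, Matrix.mul_assoc]
  mul_inv := by
    have h := F'.G_adj F' (i * p)
    rw [he] at h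
    calc iᵀ * F'.G * i * (p * F'.Gi * pᵀ) = iᵀ * (F'.G * (i * p)) * F'.Gi * pᵀ := by
          simp only [Matrix.mul_assoc]
      _ = (p * (i * p) * i)ᵀ := by
          rw [h, Matrix.mul_assoc iᵀ, Matrix.mul_assoc _ F'.G, F'.mul_inv]
          simp only [transpose_mul, Matrix.mul_assoc, Matrix.mul_one]
      _ = 1 := by rw [← Matrix.mul_assoc, hpi, Matrix.one_mul, hpi, transpose_one]
  homG := ((hi.1.transpose.mul F'.homG).mul hi.1).cast (by ring)
  homGi := ((hp.1.mul F'.homGi).mul hp.1.transpose).cast (by ring)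
  comm g := by
    rw [Matrix.mul_assoc, hi.2, ← Matrix.mul_assoc, Matrix.mul_assoc iᵀ, F'.comm,
      ← Matrix.mul_assoc, ← transpose_mul, ← hi.2, transpose_mul]
    simp only [Matrix.mul_assoc]

lemma adj_retract {i : Matrix κ ι (R n)} {p : Matrix ι κ (R n)} (hi : i ∈ Hom B B' 0)
    (hp : p ∈ Hom B' B 0) (hpi : p * i = 1) (he : F'.adj F' (i * p) = i * p) :
    (F'.retract hi hp hpi he).adj F' i = p := by
  apply adj_eq_of
  have h := F'.G_adj F' (i * p)
  rw [he] at h
  show iᵀ * F'.G * i * p = _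
  rw [Matrix.mul_assoc, Matrix.mul_assoc, h, ← Matrix.mul_assoc, ← transpose_mul,
    Matrix.mul_assoc, hpi, Matrix.mul_one]

end Form

end Pool.Agent.P.MP_c3da96_co
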