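import Pool.Agent.P.MP_c3da96_co.Iface

namespace Pool.Agent.P.MP_c3da96_co

open Equiv

variable {n : ℕ}

theorem kl_swap_cases (i j k : Fin n) :
    (k = i ∧ swap i j k = j) ∨ (k = j ∧ swap i j k = i) ∨ (k ≠ i ∧ k ≠ j ∧ swap i j k = k) := by
  by_cases h1 : k = i
  · exact Or.inl ⟨h1, by rw [h1, swap_apply_left]⟩
  · by_cases h2 : k = j
    · exact Or.inr (Or.inl ⟨h2, by rw [h2, swap_apply_right]⟩)
    · exact Or.inr (Or.inr ⟨h1, h2, swap_apply_of_ne_of_ne h1 h2⟩)

theorem kl_sr_lt (a : Adj n) {i j : Fin n} (hij : i < j) (h : ¬ (i = a.1.1 ∧ j = a.1.2)) :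
    sr a i < sr a j := by
  have ha := a.2
  unfold sr
  rcases kl_swap_cases a.1.1 a.1.2 i with ⟨h1, h2⟩ | ⟨h1, h2⟩ | ⟨h1, h1', h2⟩ <;>
    rcases kl_swap_cases a.1.1 a.1.2 j with ⟨h3, h4⟩ | ⟨h3, h4⟩ | ⟨h3, h3', h4⟩ <;>
    rw [h2, h4] <;> simp only [Fin.lt_def, ne_eq, Fin.ext_iff] at * <;> omega

theorem len_lt_mul_swap (x : Perm (Fin n)) {i j : Fin n} (hij : i < j) (h : x i < x j) :
    len x < len (x * swap i j) := by
  set φ : Fin n × Fin n → Fin n × Fin n := fun p =>
    if swap i j p.1 < swap i j p.2 then (swap i j p.1, swap i j p.2) else p with hφ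
  have hinv : ∀ p : Fin n × Fin n, p.1 < p.2 → φ (φ p) = p := by
    intro p hp
    by_cases h1 : swap i j p.1 < swap i j p.2
    · simp only [hφ, h1, if_true, swap_apply_self, hp]
    · simp only [hφ, h1, if_false]
  have hij' : φ (i, j) = (i, j) := by
    simp only [hφ, swap_apply_left, swap_apply_right, if_neg (not_lt.2 hij.le)]
  unfold len
  have hmem : (i, j) ∈ Finset.univ.filter
      (fun p : Fin n × Fin n => p.1 < p.2 ∧ (x * swap i j) p.2 < (x * swap i j) p.1) := by
    exact Finset.mem_filter.2 ⟨Finset.mem_univ _, hij, by simpa using h⟩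
  rw [← Finset.card_erase_add_one hmem, Nat.lt_succ_iff]
  apply Finset.card_le_card_of_injOn φ
  · intro p hp
    simp only [Finset.coe_filter, Finset.mem_univ, true_and, Set.mem_ofPred_eq] at hp
    simp only [Finset.coe_erase, Finset.coe_filter, Finset.mem_univ, true_and, Set.mem_sdiff,
      Set.mem_ofPred_eq, Set.mem_singleton_iff]
    refine ⟨?_, fun he => ?_⟩
    · by_cases h1 : swap i j p.1 < swap i j p.2
      · simp only [hφ, h1, if_true, Perm.mul_apply, swap_apply_self, hp.2, and_self]
      · simp only [hφ, h1, if_false, Perm.mul_apply]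
        refine ⟨hp.1, ?_⟩
        obtain ⟨hp1, hp2⟩ := hp
        rcases kl_swap_cases i j p.1 with ⟨h2, h3⟩ | ⟨h2, h3⟩ | ⟨h2, h2', h3⟩ <;>
          rcases kl_swap_cases i j p.2 with ⟨h4, h5⟩ | ⟨h4, h5⟩ | ⟨h4, h4', h5⟩ <;>
          rw [h3, h5] at h1 ⊢
        all_goals first
          | exact h
          | exact absurd (h2.trans h4.symm) hp1.ne
          | (rw [h2] at hp2; exact hp2.trans h)
          | (rw [h4] at hp2; exact h.trans hp2)
          | (exfalso; rw [h2] at hp1; exact h1 (hij.trans hp1))
          | (exfalso; rw [h4] at hp1; exact h1 (hp1.trans hij))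
          | exact absurd hp1 h1
          | (exfalso; exact h1 hij)
    · have h2 := hinv p hp.1
      rw [he, hij'] at h2
      rw [← h2] at hp
      exact absurd hp.2 (not_lt.2 h.le)
  · intro p hp q hq hpq
    simp only [Finset.coe_filter, Finset.mem_univ, true_and, Set.mem_ofPred_eq] at hp hq
    rw [← hinv p hp.1, hpq, hinv q hq.1]

theorem kl_len_le (w : Perm (Fin n)) (a : Adj n) : len (w * sr a) ≤ len w + 1 := by
  unfold len
  refine (Finset.card_le_card (Finset.subset_insert_iff.2 (Finset.Subset.refl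
    (Finset.erase _ (a.1.1, a.1.2))))).trans ((Finset.card_insert_le _ _).trans ?_)
  rw [Nat.add_le_add_iff_right]
  apply Finset.card_le_card_of_injOn (fun p : Fin n × Fin n => (sr a p.1, sr a p.2))
  · intro p hp
    obtain ⟨h1, h2⟩ := Finset.mem_erase.1 (Finset.mem_coe.1 hp)
    obtain ⟨h3, h4⟩ := (Finset.mem_filter.1 h2).2
    exact Finset.mem_coe.2 (Finset.mem_filter.2 ⟨Finset.mem_univ _,
      kl_sr_lt a h3 (fun h => h1 (Prod.ext h.1 h.2)), h4⟩)
  · intro p _ q _ hpq
    simp only [Prod.mk.injEq, EmbeddingLike.apply_eq_iff_eq] at hpq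
    exact Prod.ext hpq.1 hpq.2

theorem len_mul_sr_of_lt (w : Perm (Fin n)) (a : Adj n) (h : w a.1.1 < w a.1.2) :
    len (w * sr a) = len w + 1 :=
  le_antisymm (kl_len_le w a) (len_lt_mul_swap w a.lt h)

theorem len_mul_sr_of_gt (w : Perm (Fin n)) (a : Adj n) (h : w a.1.2 < w a.1.1) :
    len (w * sr a) + 1 = len w := by
  have h1 := len_mul_sr_of_lt (w * sr a) a (by simpa [sr] using h)
  rw [mul_sr_sr] at h1
  exact h1.symm

/-- multiplication by a simple transposition changes the length by one -/
theorem kl_len_cases (w : Perm (Fin n)) (a : Adj n) :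
    len (w * sr a) = len w + 1 ∨ len (w * sr a) + 1 = len w := by
  rcases lt_or_gt_of_ne (w.injective.ne a.ne) with h | h
  · exact Or.inl (len_mul_sr_of_lt w a h)
  · exact Or.inr (len_mul_sr_of_gt w a h)

theorem kl_len_one : len (1 : Perm (Fin n)) = 0 := by
  unfold len
  rw [Finset.card_eq_zero, Finset.filter_eq_empty_iff]
  intro p _ hp
  exact absurd hp.2 (not_lt.2 hp.1.le)

theorem exists_desc {w : Perm (Fin n)} (h : w ≠ 1) : ∃ a : Adj n, len (w * sr a) < len w := by
  by_contra hc
  apply h
  have hm : StrictMono w := by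
    rcases n with _ | n
    · exact fun i => i.elim0
    · rw [Fin.strictMono_iff_lt_succ]
      intro i
      have a0 : (i.succ : Fin (n + 1)).val = (i.castSucc : Fin (n + 1)).val + 1 := by simp
      rcases lt_or_gt_of_ne (w.injective.ne (Adj.ne ⟨(i.castSucc, i.succ), a0⟩)) with h1 | h1
      · exact h1
      · have := len_mul_sr_of_gt w ⟨(i.castSucc, i.succ), a0⟩ h1
        exact absurd ⟨⟨(i.castSucc, i.succ), a0⟩, by omega⟩ hc
  ext i
  have := (StrictMono.range_inj hm strictMono_id).1 (by simp [w.surjective.range_eq])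
  simp [this]

theorem len_eq_zero {w : Perm (Fin n)} : len w = 0 ↔ w = 1 := by
  refine ⟨fun h => ?_, fun h => h ▸ kl_len_one⟩
  by_contra hc
  obtain ⟨a, ha⟩ := exists_desc hc
  omega

/-- induction along right descents -/
theorem kl_induction {motive : Perm (Fin n) → Prop} (h1 : motive 1)
    (hs : ∀ w (a : Adj n), len (w * sr a) = len w + 1 → (∀ z, len z ≤ len w → motive z) →
      motive (w * sr a)) (w : Perm (Fin n)) : motive w := by
  induction hl : len w using Nat.strong_induction_on generalizing w with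
  | _ k ih =>
    by_cases hw : w = 1
    · exact hw ▸ h1
    · obtain ⟨a, ha⟩ := exists_desc hw
      have h2 : len (w * sr a * sr a) = len (w * sr a) + 1 := by
        rw [mul_sr_sr]
        rcases kl_len_cases w a with h | h <;> omega
      have := hs (w * sr a) a h2 (fun z hz => ih (len z) (by omega) z rfl)
      rwa [mul_sr_sr] at this

theorem kl_sign (w : Perm (Fin n)) : Perm.sign w = (-1) ^ len w := by
  induction w using kl_induction with
  | h1 => simp [kl_len_one]
  | hs w a h ih =>
    rw [h, Perm.sign_mul, ih w le_rfl, pow_succ, sr, Perm.sign_swap a.ne]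

theorem odd_len_add_swap (x : Perm (Fin n)) {i j : Fin n} (hij : i ≠ j) :
    Odd (len x + len (x * swap i j)) := by
  by_contra hc
  have h1 : ((-1 : ℤˣ)) ^ (len x + len (x * swap i j)) = 1 :=
    Even.neg_one_pow (Nat.not_odd_iff_even.1 hc)
  rw [pow_add, ← kl_sign, ← kl_sign, Perm.sign_mul, Perm.sign_swap hij, ← mul_assoc,
    Int.units_mul_self] at h1
  exact absurd h1 (by decide)

theorem kl_mul_swap_sr (x : Perm (Fin n)) (a : Adj n) (i j : Fin n) :
    x * swap i j * sr a = x * sr a * swap (sr a i) (sr a j) := by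
  rw [swap_apply_apply, sr_inv]
  simp only [← mul_assoc, mul_sr_sr]

theorem eq_mul_sr_of_swap {x y : Perm (Fin n)} {a : Adj n} {i j : Fin n}
    (_hx : len x < len (x * sr a)) (_hy : len (y * sr a) < len y) (hl : len x < len y)
    (h1 : len (y * sr a) < len (x * sr a)) (h : y = x * swap i j) : y = x * sr a := by
  wlog hij : i < j generalizing i j
  · rcases (not_lt.1 hij).lt_or_eq with h2 | h2
    · exact this (by rw [h, swap_comm]) h2
    · rw [h2, swap_self] at h
      exact absurd hl (by rw [h]; exact lt_irrefl _)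
  have hxx : x i < x j := by
    rcases lt_or_gt_of_ne (x.injective.ne hij.ne) with h2 | h2
    · exact h2
    · have := len_lt_mul_swap y hij (by simpa [h] using h2)
      rw [h, mul_assoc, swap_mul_self, mul_one, ← h] at this
      omega
  by_cases hc : i = a.1.1 ∧ j = a.1.2
  · rw [h, hc.1, hc.2, sr]
  · have h2 := len_lt_mul_swap (x * sr a) (kl_sr_lt a hij hc) (by
      simpa [← Perm.mul_apply, mul_assoc] using hxx)
    rw [← kl_mul_swap_sr, ← h] at h2
    omega

theorem kl_len_rev (w : Perm (Fin n)) :
    len (Fin.revPerm * w) + len w = len (Fin.revPerm : Perm (Fin n)) := by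
  classical
  have h1 : len (Fin.revPerm : Perm (Fin n)) =
      (Finset.univ.filter (fun p : Fin n × Fin n => p.1 < p.2)).card := by
    unfold len
    congr 1
    ext p
    simp [Fin.rev_lt_rev]
  rw [h1, ← Finset.card_filter_add_card_filter_not
    (s := Finset.univ.filter (fun p : Fin n × Fin n => p.1 < p.2)) (fun p => w p.2 < w p.1),
    add_comm]
  unfold len
  congr 2
  · rw [Finset.filter_filter]
  · rw [Finset.filter_filter]
    ext p
    simp only [Finset.mem_filter, Finset.mem_univ, true_and, Perm.mul_apply, Fin.revPerm_apply,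
      Fin.rev_lt_rev, not_lt, and_congr_right_iff]
    intro hp
    exact ⟨le_of_lt, fun h => lt_of_le_of_ne h (w.injective.ne hp.ne)⟩

theorem kl_rev_rev (w : Perm (Fin n)) : Fin.revPerm * (Fin.revPerm * w) = w := by
  ext i
  simp

theorem kl_bruhat_len {x y : Perm (Fin n)} (h : bruhatLE x y) : len x ≤ len y := by
  induction h with
  | refl => exact le_rfl
  | tail _ h2 ih => exact ih.trans h2.1.le

theorem kl_bruhat_rev {x y : Perm (Fin n)} (h : bruhatLE x y) :
    bruhatLE (Fin.revPerm * y) (Fin.revPerm * x) := by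
  induction h with
  | refl => exact Relation.ReflTransGen.refl
  | @tail b c _ h2 ih =>
    refine Relation.ReflTransGen.head ⟨?_, ?_⟩ ih
    · have h3 := kl_len_rev b
      have h4 := kl_len_rev c
      have := h2.1
      omega
    · obtain ⟨i, j, h3⟩ := h2.2
      exact ⟨i, j, by rw [h3, mul_assoc, mul_assoc, swap_mul_self, mul_one]⟩

theorem kl_bruhat_sr {x : Perm (Fin n)} {a : Adj n} (h : len x < len (x * sr a)) :
    bruhatLE x (x * sr a) :=
  Relation.ReflTransGen.single ⟨h, a.1.1, a.1.2, rfl⟩

/-- the larger of `x` and `x s` -/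
noncomputable def klMax (a : Adj n) (x : Perm (Fin n)) : Perm (Fin n) :=
  if len x < len (x * sr a) then x * sr a else x

theorem kl_le_max (a : Adj n) (x : Perm (Fin n)) : bruhatLE x (klMax a x) := by
  unfold klMax
  split_ifs with h
  · exact kl_bruhat_sr h
  · exact Relation.ReflTransGen.refl

/-- the lifting property -/
theorem kl_lift (a : Adj n) {x y : Perm (Fin n)} (h : bruhatLE x y) :
    bruhatLE (klMax a x) (klMax a y) := by
  induction h with
  | refl => exact Relation.ReflTransGen.refl
  | @tail b c _ h2 ih =>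
    refine ih.trans ?_
    obtain ⟨hl, i, j, hc⟩ := h2
    by_cases hb : len b < len (b * sr a)
    · have e1 : klMax a b = b * sr a := if_pos hb
      have e2 : c * sr a = b * sr a * swap (sr a i) (sr a j) := by rw [hc, kl_mul_swap_sr]
      rw [e1]
      by_cases hcs : len c < len (c * sr a)
      · have e3 : klMax a c = c * sr a := if_pos hcs
        rw [e3]
        refine Relation.ReflTransGen.single ⟨?_, _, _, e2⟩
        rcases kl_len_cases b a with h3 | h3 <;> rcases kl_len_cases c a with h4 | h4 <;> omega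
      · have e3 : klMax a c = c := if_neg hcs
        have hcs' : len (c * sr a) < len c := by
          rcases kl_len_cases c a with h4 | h4 <;> omega
        rw [e3]
        have hne : i ≠ j := by
          rintro rfl
          rw [swap_self] at hc
          exact absurd hl (by rw [hc]; exact lt_irrefl _)
        have hodd := odd_len_add_swap (b * sr a) ((sr a).injective.ne hne)
        rw [← e2] at hodd
        rcases lt_trichotomy (len (b * sr a)) (len (c * sr a)) with h3 | h3 | h3
        · refine (Relation.ReflTransGen.single ⟨h3, _, _, e2⟩).trans ?_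
          have := kl_bruhat_sr (x := c * sr a) (a := a) (by rwa [mul_sr_sr])
          rwa [mul_sr_sr] at this
        · obtain ⟨k, hk⟩ := hodd
          omega
        · rw [← eq_mul_sr_of_swap hb hcs' hl h3 hc]
    · have e1 : klMax a b = b := if_neg hb
      rw [e1]
      exact Relation.ReflTransGen.head ⟨hl, i, j, hc⟩ (kl_le_max a c)

end Pool.Agent.P.MP_c3da96_co
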