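import Pool.Agent.P.MP_c3da96_co.Defs
import Pool.Agent.P.MP_c3da96_co.Dem

namespace Pool.Agent.P.MP_c3da96_co

open Equiv MvPolynomial

/-- the polynomial ring -/
abbrev R (n : ℕ) : Type := MvPolynomial (Fin n) ℝ
/-- its field of fractions -/
abbrev Q (n : ℕ) : Type := FractionRing (R n)

variable {n : ℕ}

/-- the value at `x` of the left action -/
noncomputable def act (x : Perm (Fin n)) : R n →ₐ[ℝ] R n := rename x.symm

@[simp] lemma act_X (x : Perm (Fin n)) (i : Fin n) : act x (X i) = X (x.symm i) := rename_X _ _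
@[simp] lemma act_C (x : Perm (Fin n)) (c : ℝ) : act x (C c) = C c := rename_C _ _
@[simp] lemma act_one (g : R n) : act 1 g = g := by
  unfold act; exact rename_id_apply g
lemma act_mul (x y : Perm (Fin n)) (g : R n) : act (x * y) g = act y (act x g) := by
  unfold act; rw [rename_rename]; rfl

lemma Adj.lt (a : Adj n) : a.1.1 < a.1.2 := by
  have := a.2; rw [Fin.lt_def]; omega
lemma Adj.ne (a : Adj n) : a.1.1 ≠ a.1.2 := a.lt.ne
@[simp] lemma sr_mul_self (a : Adj n) : sr a * sr a = 1 := swap_mul_self _ _
@[simp] lemma sr_symm (a : Adj n) : (sr a).symm = sr a := symm_swap _ _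
@[simp] lemma sr_inv (a : Adj n) : (sr a)⁻¹ = sr a := swap_inv _ _
@[simp] lemma mul_sr_sr (w : Perm (Fin n)) (a : Adj n) : w * sr a * sr a = w := by
  rw [mul_assoc, sr_mul_self, mul_one]

section dvd
variable {τ : Type*} [DecidableEq τ] {S : Type*} [CommRing S]

lemma X_sub_X_dvd_sub (p q : τ) (f : MvPolynomial τ S) :
    (X p - X q : MvPolynomial τ S) ∣ f - rename (Function.update id p q) f := by
  induction f using MvPolynomial.induction_on with
  | C a => simp
  | add f g hf hg =>
    rw [map_add, add_sub_add_comm]; exact dvd_add hf hg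
  | mul_X f i hf =>
    rw [map_mul, rename_X]
    have h2 : (X p - X q : MvPolynomial τ S) ∣ X i - X (Function.update id p q i) := by
      by_cases h : i = p
      · subst h; simp
      · simp [Function.update_of_ne h]
    have : f * X i - rename (Function.update id p q) f * X (Function.update id p q i) =
        (f - rename (Function.update id p q) f) * X i +
          rename (Function.update id p q) f * (X i - X (Function.update id p q i)) := by ring
    rw [this]
    exact dvd_add (hf.mul_right _) (h2.mul_left _)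

lemma X_sub_X_dvd_of (p q : τ) {f : MvPolynomial τ S}
    (h : rename (Function.update id p q) f = 0) : (X p - X q : MvPolynomial τ S) ∣ f := by
  simpa [h] using X_sub_X_dvd_sub p q f

lemma X_sub_X_dvd_sub_swap (p q : τ) (f : MvPolynomial τ S) :
    (X p - X q : MvPolynomial τ S) ∣ f - rename (swap p q) f := by
  apply X_sub_X_dvd_of
  rw [map_sub, rename_rename]
  have : Function.update id p q ∘ swap p q = Function.update id p q := by
    ext i
    by_cases h : i = p
    · subst h
      by_cases h2 : q = i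
      · subst h2; simp
      · simp [Function.update_of_ne h2]
    · by_cases h' : i = q
      · subst h'; simp [Function.update_of_ne h]
      · simp [swap_apply_of_ne_of_ne h h']
  rw [this, sub_self]

omit [DecidableEq τ] in
lemma X_sub_X_ne_zero [Nontrivial S] {p q : τ} (h : p ≠ q) :
    (X p - X q : MvPolynomial τ S) ≠ 0 :=
  sub_ne_zero.2 (fun e => h (X_injective e))

end dvd

/-- the simple root -/
noncomputable def alpha (a : Adj n) : R n := X a.1.1 - X a.1.2

lemma alpha_ne_zero (a : Adj n) : alpha a ≠ 0 := X_sub_X_ne_zero a.ne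

lemma act_sr_alpha (a : Adj n) : act (sr a) (alpha a) = -alpha a := by
  simp [alpha, sr]

lemma exists_od (a : Adj n) (r : R n) : ∃ q, r - act (sr a) r = 2 * alpha a * q := by
  obtain ⟨q, hq⟩ := X_sub_X_dvd_sub_swap a.1.1 a.1.2 r
  refine ⟨C (1 / 2) * q, ?_⟩
  have h2 : (2 : R n) * C (1 / 2) = 1 := by
    rw [← map_ofNat C 2, ← map_mul]; norm_num
  have : act (sr a) r = rename (swap a.1.1 a.1.2) r := by simp [act, sr]
  rw [this, hq, alpha]
  linear_combination (-((X a.1.1 - X a.1.2) * q)) * h2

lemma act_sr_sr (a : Adj n) (r : R n) : act (sr a) (act (sr a) r) = r := by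
  rw [← act_mul, sr_mul_self, act_one]

/-- the Demazure data on the polynomial ring -/
noncomputable def demR (a : Adj n) : Dem (R n) where
  σ := (act (sr a)).toRingHom
  al := alpha a
  ev r := r - alpha a * (exists_od a r).choose
  od r := (exists_od a r).choose
  dec r := by ring
  σ_ev r := by
    have h := (exists_od a r).choose_spec
    have h' := congrArg (act (sr a)) h
    rw [map_sub, act_sr_sr, map_mul, map_mul, act_sr_alpha, map_ofNat] at h'
    show act (sr a) _ = _
    rw [map_sub, map_mul, act_sr_alpha]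
    apply mul_left_cancel₀ (two_ne_zero (α := R n))
    linear_combination -h + h'
  σ_od r := by
    have h := (exists_od a r).choose_spec
    have h' := congrArg (act (sr a)) h
    rw [map_sub, act_sr_sr, map_mul, map_mul, act_sr_alpha, map_ofNat] at h'
    show act (sr a) _ = _
    apply mul_left_cancel₀ (mul_ne_zero (two_ne_zero (α := R n)) (alpha_ne_zero a))
    linear_combination h + h'
  σ_al := act_sr_alpha a
  uniq p q hp hq h := by
    have h' := congrArg (act (sr a)) h
    change act (sr a) p = p at hp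
    change act (sr a) q = q at hq
    rw [map_add, map_mul, act_sr_alpha, hp, hq, map_zero] at h'
    constructor
    · apply mul_left_cancel₀ (two_ne_zero (α := R n))
      linear_combination h + h'
    · apply mul_left_cancel₀ (mul_ne_zero (two_ne_zero (α := R n)) (alpha_ne_zero a))
      linear_combination h - h'

@[simp] lemma demR_al (a : Adj n) : (demR a).al = alpha a := rfl
@[simp] lemma demR_σ (a : Adj n) (r : R n) : (demR a).σ r = act (sr a) r := rfl

/-- the involution on the field of fractions -/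
noncomputable def sigQ (a : Adj n) : Q n →+* Q n :=
  (IsFractionRing.ringEquivOfRingEquiv (renameEquiv ℝ (sr a)).toRingEquiv : Q n ≃+* Q n)

lemma sigQ_algebraMap (a : Adj n) (r : R n) :
    sigQ a (algebraMap (R n) (Q n) r) = algebraMap (R n) (Q n) (act (sr a) r) := by
  simp [sigQ, act]

lemma sigQ_sigQ (a : Adj n) (r : Q n) : sigQ a (sigQ a r) = r := by
  obtain ⟨x, y, -, rfl⟩ := IsFractionRing.div_surjective (A := R n) r
  simp only [map_div₀, sigQ_algebraMap, act_sr_sr]

lemma alphaQ_ne_zero (a : Adj n) : algebraMap (R n) (Q n) (alpha a) ≠ 0 :=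
  (map_ne_zero_iff _ (IsFractionRing.injective (R n) (Q n))).2 (alpha_ne_zero a)

instance charZero_Q : CharZero (Q n) := algebraRat.charZero _

/-- the Demazure data on the field of fractions -/
noncomputable def demQ (a : Adj n) : Dem (Q n) where
  σ := sigQ a
  al := algebraMap (R n) (Q n) (alpha a)
  ev r := (r + sigQ a r) / 2
  od r := (r - sigQ a r) / (2 * algebraMap (R n) (Q n) (alpha a))
  dec r := by
    have := alphaQ_ne_zero a
    field_simp
    ring
  σ_ev r := by
    rw [map_div₀, map_add, sigQ_sigQ, map_ofNat, add_comm]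
  σ_od r := by
    have := alphaQ_ne_zero a
    rw [map_div₀, map_sub, sigQ_sigQ, map_mul, map_ofNat, sigQ_algebraMap, act_sr_alpha, map_neg]
    field_simp
    ring
  σ_al := by rw [sigQ_algebraMap, act_sr_alpha, map_neg]
  uniq p q hp hq h := by
    have h' := congrArg (sigQ a) h
    rw [map_add, map_mul, sigQ_algebraMap, act_sr_alpha, map_neg, hp, hq, map_zero] at h'
    constructor
    · apply mul_left_cancel₀ (two_ne_zero (α := Q n))
      linear_combination h + h'
    · apply mul_left_cancel₀ (mul_ne_zero (two_ne_zero (α := Q n)) (alphaQ_ne_zero a))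
      linear_combination h - h'

lemma demQ_ev_od (a : Adj n) (r : R n) :
    (demQ a).ev (algebraMap (R n) (Q n) r) = algebraMap (R n) (Q n) ((demR a).ev r) ∧
    (demQ a).od (algebraMap (R n) (Q n) r) = algebraMap (R n) (Q n) ((demR a).od r) := by
  refine (demQ a).ev_od_of ?_ ?_ ?_
  · exact (sigQ_algebraMap a _).trans (congrArg _ ((demR a).σ_ev r))
  · exact (sigQ_algebraMap a _).trans (congrArg _ ((demR a).σ_od r))
  · show _ + algebraMap (R n) (Q n) (alpha a) * _ = _
    rw [← map_mul, ← map_add]
    exact congrArg _ ((demR a).dec r)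

lemma demQ_kap_map (a : Adj n) {ι κ : Type*} (T : Matrix ι κ (R n)) :
    (demQ a).kap (T.map (algebraMap (R n) (Q n))) =
      ((demR a).kap T).map (algebraMap (R n) (Q n)) := by
  ext (i | i) (j | j)
  · exact (demQ_ev_od a _).1
  · show (demQ a).al ^ 2 * (demQ a).od _ = algebraMap (R n) (Q n) (alpha a ^ 2 * _)
    rw [map_mul, map_pow]
    exact congrArg _ (demQ_ev_od a _).2
  · exact (demQ_ev_od a _).2
  · exact (demQ_ev_od a _).1

/-! ### homogeneity, variables have degree two -/

/-- homogeneous of degree `d` -/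
def Hm (p : R n) (d : ℤ) : Prop := IsWeightedHomogeneous (fun _ : Fin n => (2 : ℤ)) p d

/-- homogeneous component of degree `d` -/
noncomputable def cmp (d : ℤ) : R n →ₗ[ℝ] R n :=
  weightedHomogeneousComponent (fun _ : Fin n => (2 : ℤ)) d

lemma weight_two (m : Fin n →₀ ℕ) :
    Finsupp.weight (fun _ : Fin n => (2 : ℤ)) m = 2 * (m.degree : ℤ) := by
  simp [Finsupp.weight_apply, Finsupp.degree, Finsupp.sum, Finset.mul_sum, mul_comm]

namespace Hm
variable {p q : R n} {d e : ℤ}
lemma zero (d : ℤ) : Hm (0 : R n) d := isWeightedHomogeneous_zero _ _ _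
lemma C (c : ℝ) : Hm (C c : R n) 0 := isWeightedHomogeneous_C _ _
lemma one : Hm (1 : R n) 0 := isWeightedHomogeneous_one _ _
lemma X (i : Fin n) : Hm (X i : R n) 2 := isWeightedHomogeneous_X _ _ _
lemma add (hp : Hm p d) (hq : Hm q d) : Hm (p + q) d := IsWeightedHomogeneous.add hp hq
lemma neg (hp : Hm p d) : Hm (-p) d := IsWeightedHomogeneous.neg hp
lemma sub (hp : Hm p d) (hq : Hm q d) : Hm (p - q) d := IsWeightedHomogeneous.sub hp hq
lemma mul (hp : Hm p d) (hq : Hm q e) : Hm (p * q) (d + e) := IsWeightedHomogeneous.mul hp hq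
lemma smul (c : ℝ) (hp : Hm p d) : Hm (c • p) d :=
  (weightedHomogeneousSubmodule ℝ _ d).smul_mem c hp
lemma sum {ι : Type*} (s : Finset ι) (f : ι → R n) (h : ∀ i ∈ s, Hm (f i) d) :
    Hm (∑ i ∈ s, f i) d := IsWeightedHomogeneous.sum s f d h
lemma cast (hp : Hm p d) (h : d = e) : Hm p e := h ▸ hp
lemma of_alpha (a : Adj n) : Hm (alpha a) 2 := (X _).sub (X _)

lemma rename (hp : Hm p d) (x : Fin n ≃ Fin n) : Hm (rename x p) d := by
  intro m hm
  obtain ⟨u, rfl, hu⟩ := coeff_rename_ne_zero _ _ _ hm
  rw [← hp hu, weight_two, weight_two, Finsupp.degree_mapDomain]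

lemma of_act (hp : Hm p d) (x : Perm (Fin n)) : Hm (act x p) d := hp.rename _

lemma eq_zero_of_neg (hp : Hm p d) (h : d < 0) : p = 0 := by
  ext m
  by_contra hm
  have := hp hm
  rw [weight_two] at this
  omega

lemma nonneg (hp : Hm p d) (h : p ≠ 0) : 0 ≤ d := by
  by_contra hd
  exact h (hp.eq_zero_of_neg (by omega))

lemma constantCoeff_eq_zero (hp : Hm p d) (h : d ≠ 0) : constantCoeff p = 0 := by
  by_contra hm
  have := hp (d := 0) hm
  simp at this
  exact h this.symm

lemma eq_C (hp : Hm p 0) : p = MvPolynomial.C (constantCoeff p) := by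
  ext m
  by_cases hm : m = 0
  · subst hm; simp [constantCoeff_eq]
  · rw [coeff_C, if_neg (Ne.symm hm)]
    by_contra h
    have := hp h
    rw [weight_two] at this
    exact hm ((Finsupp.degree_eq_zero_iff m).1 (by omega))

lemma even (hp : Hm p d) (h : p ≠ 0) : Even d := by
  obtain ⟨m, hm⟩ := exists_coeff_ne_zero h
  have := hp hm
  rw [weight_two] at this
  exact ⟨m.degree, by omega⟩

end Hm

lemma cmp_hm (d : ℤ) (p : R n) : Hm (cmp d p) d :=
  weightedHomogeneousComponent_isWeightedHomogeneous _ _

lemma Hm.cmp_same {p : R n} {d : ℤ} (hp : Hm p d) : cmp d p = p :=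
  IsWeightedHomogeneous.weightedHomogeneousComponent_same hp

lemma Hm.cmp_ne {p : R n} {d e : ℤ} (hp : Hm p d) (h : e ≠ d) : cmp e p = 0 :=
  IsWeightedHomogeneous.weightedHomogeneousComponent_ne e hp h

lemma coeff_cmp (d : ℤ) (p : R n) (m : Fin n →₀ ℕ) :
    coeff m (cmp d p) = if 2 * (m.degree : ℤ) = d then coeff m p else 0 := by
  unfold cmp
  rw [coeff_weightedHomogeneousComponent, weight_two]

lemma constantCoeff_cmp_zero (p : R n) : constantCoeff (cmp 0 p) = constantCoeff p := by
  simp [constantCoeff_eq, coeff_cmp]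

lemma cmp_mul_hm {q : R n} {e : ℤ} (hq : Hm q e) (d : ℤ) (p : R n) :
    cmp (d + e) (p * q) = cmp d p * q := by
  induction p using MvPolynomial.induction_on' with
  | monomial u c =>
    have h1 : Hm (monomial u c : R n) (2 * (u.degree : ℤ)) :=
      isWeightedHomogeneous_monomial _ _ _ (weight_two u)
    by_cases h : d = 2 * (u.degree : ℤ)
    · subst h; rw [h1.cmp_same, (h1.mul hq).cmp_same]
    · rw [h1.cmp_ne h, (h1.mul hq).cmp_ne (by omega), zero_mul]
  | add p p' hp hp' => rw [add_mul, map_add, map_add, hp, hp', add_mul]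

lemma cmp_hm_mul {q : R n} {e : ℤ} (hq : Hm q e) (d : ℤ) (p : R n) :
    cmp (d + e) (q * p) = q * cmp d p := by
  rw [mul_comm, cmp_mul_hm hq, mul_comm]

/-- a quotient of homogeneous polynomials is homogeneous -/
lemma Hm.of_mul {p q : R n} {d e : ℤ} (hq : Hm q e) (hq0 : q ≠ 0) (h : Hm (q * p) (d + e)) :
    Hm p d := by
  have h1 := h.cmp_same
  rw [cmp_hm_mul hq] at h1
  rw [← mul_left_cancel₀ hq0 h1]
  exact cmp_hm _ _

lemma Hm.od {p : R n} {d : ℤ} (hp : Hm p d) (a : Adj n) : Hm ((demR a).od p) (d - 2) := by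
  have h2 : Hm (2 * alpha a : R n) 2 := by
    rw [two_mul]; exact (Hm.of_alpha a).add (Hm.of_alpha a)
  refine h2.of_mul (mul_ne_zero two_ne_zero (alpha_ne_zero a)) ?_
  have : 2 * alpha a * (demR a).od p = p - act (sr a) p := (exists_od a p).choose_spec.symm
  rw [this]
  exact (hp.sub (hp.of_act _)).cast (by ring)

lemma Hm.ev {p : R n} {d : ℤ} (hp : Hm p d) (a : Adj n) : Hm ((demR a).ev p) d :=
  hp.sub (((Hm.of_alpha a).mul (hp.od a)).cast (by ring))

lemma constantCoeff_alpha (a : Adj n) : constantCoeff (alpha a) = 0 := by simp [alpha]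

lemma constantCoeff_ev (a : Adj n) (p : R n) :
    constantCoeff ((demR a).ev p) = constantCoeff p := by
  conv_rhs => rw [← (demR a).dec p]
  simp [constantCoeff_alpha]

end Pool.Agent.P.MP_c3da96_co
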