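import Pool.Agent.P.MP_c3da96_co.Flag
import Pool.Agent.P.MP_c3da96_co.Perm

namespace Pool.Agent.P.MP_c3da96_co

open Equiv Matrix

section rz
variable {A : Type*} [CommRing A] {ι κ μ : Type*}

/-- the nonzero entries raise the potential by at least `c` -/
def l2_Rz (φ : ι → ℤ) (ψ : κ → ℤ) (c : ℤ) (T : Matrix κ ι A) : Prop :=
  ∀ j i, T j i ≠ 0 → φ i + c ≤ ψ j

variable {φ : ι → ℤ} {ψ : κ → ℤ} {χ : μ → ℤ} {c c' : ℤ}

lemma l2_Rz.mul [Fintype κ] {V : Matrix μ κ A} {T : Matrix κ ι A} (hV : l2_Rz ψ χ c' V)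
    (hT : l2_Rz φ ψ c T) : l2_Rz φ χ (c + c') (V * T) := fun k i h => by
  rw [mul_apply] at h
  obtain ⟨j, -, hj⟩ := Finset.exists_ne_zero_of_sum_ne_zero h
  have h1 := hV k j (left_ne_zero_of_mul hj)
  have h2 := hT j i (right_ne_zero_of_mul hj)
  omega

lemma l2_Rz.add {T U : Matrix κ ι A} (hT : l2_Rz φ ψ c T) (hU : l2_Rz φ ψ c U) :
    l2_Rz φ ψ c (T + U) := fun j i h => by
  by_cases h1 : T j i = 0
  · exact hU j i (fun h2 => h (by rw [Matrix.add_apply, h1, h2, add_zero]))
  · exact hT j i h1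

lemma l2_Rz.one [DecidableEq ι] : l2_Rz φ φ 0 (1 : Matrix ι ι A) := fun j i h => by
  by_cases e : j = i
  · subst e; omega
  · exact absurd (one_apply_ne e) h

lemma l2_Rz.pow [Fintype ι] [DecidableEq ι] {T : Matrix ι ι A} (hT : l2_Rz φ φ 1 T) (k : ℕ) :
    l2_Rz φ φ k (T ^ k) := by
  induction k with
  | zero => simpa using l2_Rz.one
  | succ k ih =>
    rw [pow_succ']
    simpa using hT.mul ih

lemma l2_Rz.nilp [Fintype ι] [DecidableEq ι] {T : Matrix ι ι A} (hT : l2_Rz φ φ 1 T) :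
    IsNilpotent T := by
  obtain ⟨b, hb⟩ := (Set.finite_range fun p : ι × ι => φ p.1 - φ p.2).bddAbove
  refine ⟨b.toNat + 1, ?_⟩
  ext j i
  by_contra h
  have h1 := hT.pow _ j i h
  have h2 : φ j - φ i ≤ b := hb ⟨(j, i), rfl⟩
  push_cast at h1
  omega

end rz

variable {n : ℕ} {ι κ μ : Type} [Fintype ι] [DecidableEq ι] [Fintype κ] [DecidableEq κ]
  [Fintype μ] [DecidableEq μ]

/-- degree zero and weakly respecting the labels -/
structure l2_W (deg : ι → ℤ) (lab : ι → Perm (Fin n)) (deg' : κ → ℤ) (lab' : κ → Perm (Fin n))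
    (T : Matrix κ ι (R n)) : Prop where
  hm : Homog deg deg' 0 T
  wk : ∀ j i, T j i ≠ 0 → lab i = lab' j ∨ len (lab i) < len (lab' j)

/-- the associated graded matrix -/
noncomputable def l2_gr (deg : ι → ℤ) (lab : ι → Perm (Fin n)) (deg' : κ → ℤ)
    (lab' : κ → Perm (Fin n)) (T : Matrix κ ι (R n)) : Matrix κ ι ℝ := fun j i =>
  if lab i = lab' j ∧ deg i = deg' j then MvPolynomial.constantCoeff (T j i) else 0

section W
variable {deg : ι → ℤ} {lab : ι → Perm (Fin n)} {deg' : κ → ℤ} {lab' : κ → Perm (Fin n)}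
  {deg'' : μ → ℤ} {lab'' : μ → Perm (Fin n)}

lemma l2_W.of_hom {B : Obj n ι} {B' : Obj n κ} (h : IsFlag B lab len) (h' : IsFlag B' lab' len)
    {T : Matrix κ ι (R n)} (hT : T ∈ Hom B B' 0) : l2_W B.deg lab B'.deg lab' T :=
  ⟨hT.1, fun _ _ h0 => respect h h' hT.2 h0⟩

omit [Fintype ι] [DecidableEq ι] [DecidableEq κ] [Fintype μ] [DecidableEq μ] in
lemma l2_W.mul {V : Matrix μ κ (R n)} {T : Matrix κ ι (R n)} (hV : l2_W deg' lab' deg'' lab'' V)
    (hT : l2_W deg lab deg' lab' T) : l2_W deg lab deg'' lab'' (V * T) := by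
  refine ⟨hV.hm.mul hT.hm, fun k i h => ?_⟩
  rw [mul_apply] at h
  obtain ⟨j, -, hj⟩ := Finset.exists_ne_zero_of_sum_ne_zero h
  rcases hV.wk k j (left_ne_zero_of_mul hj) with h1 | h1 <;>
    rcases hT.wk j i (right_ne_zero_of_mul hj) with h2 | h2
  · exact Or.inl (h2.trans h1)
  · exact Or.inr (h1 ▸ h2)
  · exact Or.inr (h2 ▸ h1)
  · exact Or.inr (h2.trans h1)

omit [Fintype ι] [DecidableEq ι] [Fintype κ] [DecidableEq κ] in
lemma l2_W.add {T U : Matrix κ ι (R n)} (hT : l2_W deg lab deg' lab' T)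
    (hU : l2_W deg lab deg' lab' U) : l2_W deg lab deg' lab' (T + U) := by
  refine ⟨hT.hm.add hU.hm, fun j i h => ?_⟩
  by_cases h1 : T j i = 0
  · exact hU.wk j i (fun h2 => h (by rw [Matrix.add_apply, h1, h2, add_zero]))
  · exact hT.wk j i h1

omit [Fintype ι] [DecidableEq ι] [Fintype κ] [DecidableEq κ] in
lemma l2_W.neg {T : Matrix κ ι (R n)} (hT : l2_W deg lab deg' lab' T) :
    l2_W deg lab deg' lab' (-T) :=
  ⟨hT.hm.neg, fun j i h => hT.wk j i (fun h2 => h (by rw [Matrix.neg_apply, h2, neg_zero]))⟩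

omit [Fintype ι] in
lemma l2_W.one : l2_W deg lab deg lab (1 : Matrix ι ι (R n)) := by
  refine ⟨Homog.one, fun j i h => ?_⟩
  by_cases e : j = i
  · subst e; exact Or.inl rfl
  · exact absurd (one_apply_ne e) h

omit [Fintype ι] [DecidableEq ι] [Fintype κ] [DecidableEq κ] in
lemma l2_W.rz {T : Matrix κ ι (R n)} (hT : l2_W deg lab deg' lab' T) :
    l2_Rz (fun i => (len (lab i) : ℤ)) (fun j => (len (lab' j) : ℤ)) 0 T := fun j i h => by
  rcases hT.wk j i h with e | e
  · simp [e]
  · simp only; omega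

omit [Fintype ι] [DecidableEq ι] [Fintype κ] [DecidableEq κ] in
lemma l2_W.rz' {T : Matrix κ ι (R n)} (hT : l2_W deg lab deg' lab' T) :
    l2_Rz (fun i => (len (lab i) : ℤ) - deg i) (fun j => (len (lab' j) : ℤ) - deg' j) 0 T :=
  fun j i h => by
    have h1 := hT.rz j i h
    have h2 := (hT.hm j i).nonneg h
    simp only at h1 ⊢
    omega

omit [Fintype ι] [DecidableEq ι] [Fintype κ] [DecidableEq κ] in
/-- a real matrix that respects the keys -/
lemma l2_W.of_real {a : Matrix κ ι ℝ} (h : ∀ j i, a j i ≠ 0 → lab i = lab' j ∧ deg i = deg' j) :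
    l2_W deg lab deg' lab' (a.map (MvPolynomial.C : ℝ →+* R n)) := by
  refine ⟨fun j i => ?_, fun j i h0 => Or.inl (h j i fun e => h0 (by simp [e])).1⟩
  by_cases e : a j i = 0
  · simp only [map_apply, e, map_zero]; exact Hm.zero _
  · exact (Hm.C _).cast (by rw [(h j i e).2]; ring)

omit [Fintype ι] [DecidableEq ι] [Fintype κ] [DecidableEq κ] in
lemma l2_gr_key {T : Matrix κ ι (R n)} {j : κ} {i : ι} (h : l2_gr deg lab deg' lab' T j i ≠ 0) :
    lab i = lab' j ∧ deg i = deg' j := by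
  by_contra hc
  exact h (if_neg hc)

omit [Fintype ι] [DecidableEq ι] [DecidableEq κ] [Fintype μ] [DecidableEq μ] in
lemma l2_gr_mul {V : Matrix μ κ (R n)} {T : Matrix κ ι (R n)} (hV : l2_W deg' lab' deg'' lab'' V)
    (hT : l2_W deg lab deg' lab' T) :
    l2_gr deg lab deg'' lab'' (V * T) =
      l2_gr deg' lab' deg'' lab'' V * l2_gr deg lab deg' lab' T := by
  ext k i
  rw [mul_apply]
  by_cases hk : lab i = lab'' k ∧ deg i = deg'' k
  · simp only [l2_gr, if_pos hk, mul_apply, map_sum, map_mul]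
    refine Finset.sum_congr rfl fun j _ => ?_
    by_cases h1 : MvPolynomial.constantCoeff (V k j) = 0
    · simp [h1]
    by_cases h2 : MvPolynomial.constantCoeff (T j i) = 0
    · simp [h2]
    have e1 : deg' j + 0 - deg'' k = 0 := by
      by_contra e; exact h1 ((hV.hm k j).constantCoeff_eq_zero e)
    have e2 : deg i + 0 - deg' j = 0 := by
      by_contra e; exact h2 ((hT.hm j i).constantCoeff_eq_zero e)
    have w1 := hV.wk k j (fun e => h1 (by rw [e, map_zero]))
    have w2 := hT.wk j i (fun e => h2 (by rw [e, map_zero]))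
    have l2 : lab i = lab' j := by
      rcases w2 with w2 | w2
      · exact w2
      · rcases w1 with w1 | w1
        · exact hk.1.trans w1.symm
        · rw [hk.1] at w2; omega
    rw [if_pos ⟨l2.symm.trans hk.1, by omega⟩, if_pos ⟨l2, by omega⟩]
  · rw [l2_gr, if_neg hk]
    symm
    refine Finset.sum_eq_zero fun j _ => ?_
    by_contra h
    have h1 := l2_gr_key (left_ne_zero_of_mul h)
    have h2 := l2_gr_key (right_ne_zero_of_mul h)
    exact hk ⟨h2.1.trans h1.1, h2.2.trans h1.2⟩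

omit [Fintype ι] in
lemma l2_gr_one : l2_gr deg lab deg lab (1 : Matrix ι ι (R n)) = 1 := by
  ext j i
  by_cases e : j = i
  · subst e; simp [l2_gr]
  · simp [l2_gr, one_apply_ne e]

omit [Fintype ι] [DecidableEq ι] [Fintype κ] [DecidableEq κ] in
lemma l2_gr_add (T U : Matrix κ ι (R n)) :
    l2_gr deg lab deg' lab' (T + U) = l2_gr deg lab deg' lab' T + l2_gr deg lab deg' lab' U := by
  ext j i
  simp only [l2_gr, Matrix.add_apply, map_add]
  split_ifs <;> simp

omit [Fintype ι] [DecidableEq ι] [Fintype κ] [DecidableEq κ] in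
lemma l2_gr_sum {J : Type*} [Fintype J] (f : J → Matrix κ ι (R n)) :
    l2_gr deg lab deg' lab' (∑ t, f t) = ∑ t, l2_gr deg lab deg' lab' (f t) := by
  ext j i
  simp only [l2_gr, Matrix.sum_apply, map_sum]
  split_ifs <;> simp

end W

/-- the projection to the basis vectors with a given key -/
noncomputable def l2_D (deg : ι → ℤ) (lab : ι → Perm (Fin n)) (x : Perm (Fin n)) (e : ℤ) :
    Matrix ι ι ℝ :=
  diagonal fun i => if lab i = x ∧ (len x : ℤ) - deg i = e then 1 else 0

lemma l2_trace_D (deg : ι → ℤ) (lab : ι → Perm (Fin n)) (x : Perm (Fin n)) (e : ℤ) :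
    (l2_D deg lab x e).trace = (((ch deg lab x).coeff e : ℤ) : ℝ) := by
  rw [coeff_ch, l2_D, trace_diagonal, Finset.sum_boole]
  simp

lemma l2_trace {B : Obj n ι} {lab : ι → Perm (Fin n)} (h : IsFlag B lab len)
    {M : Obj n κ} {lab' : κ → Perm (Fin n)} (h0 : IsFlag M lab' len)
    {i : Matrix ι κ (R n)} {p : Matrix κ ι (R n)} (hi : i ∈ Hom M B 0)
    (hp : p ∈ Hom B M 0) (hpi : p * i = 1) (x : Perm (Fin n)) (e : ℤ) :
    (l2_D B.deg lab x e * l2_gr B.deg lab B.deg lab (i * p)).trace =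
      (((ch M.deg lab' x).coeff e : ℤ) : ℝ) := by
  have wi := l2_W.of_hom h0 h hi
  have wp := l2_W.of_hom h h0 hp
  have hD : l2_D B.deg lab x e * l2_gr M.deg lab' B.deg lab i =
      l2_gr M.deg lab' B.deg lab i * l2_D M.deg lab' x e := by
    ext j t
    rw [l2_D, l2_D, diagonal_mul, mul_diagonal, mul_comm]
    by_cases h1 : l2_gr M.deg lab' B.deg lab i j t = 0
    · simp [h1]
    · obtain ⟨e1, e2⟩ := l2_gr_key h1
      rw [e1, e2]
  rw [l2_gr_mul wi wp, ← Matrix.mul_assoc, hD, Matrix.mul_assoc, trace_mul_comm,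
    Matrix.mul_assoc, ← l2_gr_mul wp wi, hpi, l2_gr_one, Matrix.mul_one, l2_trace_D]

theorem ch_sum {B : Obj n ι} {lab : ι → Perm (Fin n)} (h : IsFlag B lab len)
    {M0 : Obj n κ} {lab0 : κ → Perm (Fin n)} (h0 : IsFlag M0 lab0 len)
    {i0 : Matrix ι κ (R n)} {p0 : Matrix κ ι (R n)} (hi0 : i0 ∈ Hom M0 B 0)
    (hp0 : p0 ∈ Hom B M0 0) (hpi0 : p0 * i0 = 1)
    {J : Type} [Fintype J] {μ : J → Type} [∀ t, Fintype (μ t)] [∀ t, DecidableEq (μ t)]
    {M : ∀ t, Obj n (μ t)} {lab' : ∀ t, μ t → Perm (Fin n)} (hM : ∀ t, IsFlag (M t) (lab' t) len)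
    {i : ∀ t, Matrix ι (μ t) (R n)} {p : ∀ t, Matrix (μ t) ι (R n)}
    (hi : ∀ t, i t ∈ Hom (M t) B 0) (hp : ∀ t, p t ∈ Hom B (M t) 0) (hpi : ∀ t, p t * i t = 1)
    (hsum : i0 * p0 + ∑ t, i t * p t = 1) :
    ch B.deg lab = ch M0.deg lab0 + ∑ t, ch (M t).deg (lab' t) := by
  funext x
  apply AddMonoidAlgebra.coeff_injective
  ext e
  have key := congrArg (fun T => (l2_D B.deg lab x e * l2_gr B.deg lab B.deg lab T).trace) hsum
  simp only [l2_gr_add, l2_gr_sum, l2_gr_one, Matrix.mul_one, Matrix.mul_add, Matrix.mul_sum,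
    trace_add, trace_sum, l2_trace_D] at key
  rw [l2_trace h h0 hi0 hp0 hpi0, Finset.sum_congr rfl
    fun t _ => l2_trace h (hM t) (hi t) (hp t) (hpi t) x e] at key
  rw [Pi.add_apply, Finset.sum_apply, AddMonoidAlgebra.coeff_add, AddMonoidAlgebra.coeff_sum,
    Finsupp.add_apply, Finsupp.finsetSum_apply]
  exact_mod_cast key.symm

omit [DecidableEq ι] in
/-- splitting a real idempotent that respects keys -/
lemma l2_split {K : Type*} (key : ι → K) {e : Matrix ι ι ℝ} (hee : e * e = e)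
    (hk : ∀ j i, e j i ≠ 0 → key i = key j) :
    ∃ (κ : Type) (_ : Fintype κ) (_ : DecidableEq κ) (σ : κ → ι) (a : Matrix ι κ ℝ)
      (b : Matrix κ ι ℝ), (∀ j t, a j t ≠ 0 → key (σ t) = key j) ∧
      (∀ t i, b t i ≠ 0 → key i = key (σ t)) ∧ b * a = 1 ∧ a * b = e := by
  classical
  obtain ⟨κ, σ, hσ, hsp, hli⟩ := exists_linearIndependent' ℝ (fun i : ι => fun j => e j i)
  have : Finite κ := Finite.of_injective σ hσ
  let _ : Fintype κ := Fintype.ofFinite κ
  have hc : ∀ i, ∃ c : κ → ℝ, ∑ t, c t • (fun j => e j (σ t)) = fun j => e j i := fun i => by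
    have : (fun j => e j i) ∈ Submodule.span ℝ
        (Set.range ((fun i : ι => fun j => e j i) ∘ σ)) := by
      rw [hsp]; exact Submodule.subset_span ⟨i, rfl⟩
    exact (Submodule.mem_span_range_iff_exists_fun ℝ).1 this
  choose c hc using hc
  let a : Matrix ι κ ℝ := fun j t => e j (σ t)
  let b : Matrix κ ι ℝ := fun t i => if key i = key (σ t) then c i t else 0
  have hab : a * b = e := by
    ext j i
    rw [mul_apply]
    by_cases hji : key i = key j
    · have := congrFun (hc i) j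
      simp only [Finset.sum_apply, Pi.smul_apply, smul_eq_mul] at this
      rw [← this]
      refine Finset.sum_congr rfl fun t _ => ?_
      by_cases h1 : e j (σ t) = 0
      · simp [a, h1]
      · simp only [a, b]
        rw [if_pos (hji.trans (hk _ _ h1).symm), mul_comm]
    · have h0 : e j i = 0 := by
        by_contra h1; exact hji (hk _ _ h1)
      rw [h0]
      refine Finset.sum_eq_zero fun t _ => ?_
      by_cases h1 : e j (σ t) = 0
      · simp [a, h1]
      · simp only [a, b]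
        rw [if_neg (fun h2 => hji (h2.trans (hk _ _ h1))), mul_zero]
  have hea : e * a = a := by
    ext j t
    have := congrFun (congrFun hee j) (σ t)
    rw [mul_apply] at this ⊢
    exact this
  refine ⟨κ, inferInstance, inferInstance, σ, a, b, fun j t h => hk _ _ h, fun t i h => ?_, ?_,
    hab⟩
  · by_contra h1
    exact h (if_neg h1)
  · have h1 : a * (b * a) = a * (1 : Matrix κ κ ℝ) := by
      rw [← Matrix.mul_assoc, hab, hea, Matrix.mul_one]
    ext s t
    refine Fintype.linearIndependent_iffₛ.1 hli (fun s => (b * a) s t)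
      (fun s => (1 : Matrix κ κ ℝ) s t) ?_ s
    funext j
    have := congrFun (congrFun h1 j) t
    rw [mul_apply, mul_apply] at this
    simp only [Finset.sum_apply, Pi.smul_apply, smul_eq_mul, Function.comp]
    simpa only [a, mul_comm] using this

/-- a retract along maps that weakly respect labels is flagged -/
lemma l2_flag {B : Obj n ι} {lab : ι → Perm (Fin n)} (h : IsFlag B lab len)
    {M : Obj n κ} {lab' : κ → Perm (Fin n)} {i : Matrix ι κ (R n)} {p : Matrix κ ι (R n)}
    (wi : l2_W M.deg lab' B.deg lab i) (wp : l2_W B.deg lab M.deg lab' p) (hpi : p * i = 1)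
    (hY : ∀ g, M.Y g = p * B.Y g * i) : IsFlag M lab' len := by
  have key : ∀ g, l2_Rz (fun t => (len (lab' t) : ℤ)) (fun t => (len (lab' t) : ℤ)) 1
      (M.Y g - diagonal fun t => act (lab' t) g) := by
    intro g
    have h1 : l2_Rz (fun t => (len (lab t) : ℤ)) (fun t => (len (lab t) : ℤ)) 1
        (B.Y g - diagonal fun t => act (lab t) g) := fun j k h0 => by
      by_cases e : j = k
      · subst e
        exact absurd (by rw [Matrix.sub_apply, h.diag, diagonal_apply_eq, sub_self]) h0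
      · rw [Matrix.sub_apply, diagonal_apply_ne _ e, sub_zero] at h0
        rcases h.tri g j k h0 with e' | e'
        · exact absurd e' e
        · simp only; omega
    have h2 : l2_Rz (fun t => (len (lab t) : ℤ)) (fun t => (len (lab' t) : ℤ)) 1
        (p * (diagonal fun t => act (lab t) g) - (diagonal fun t => act (lab' t) g) * p) :=
      fun t j h0 => by
        rw [Matrix.sub_apply, mul_diagonal, diagonal_mul, mul_comm, ← sub_mul] at h0
        rcases wp.wk t j (right_ne_zero_of_mul h0) with e' | e'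
        · exact absurd (by rw [e', sub_self]) (left_ne_zero_of_mul h0)
        · simp only; omega
    have h3 := ((wp.rz.mul h1).add (by simpa using h2)).mul wi.rz
    have e : (p * (B.Y g - diagonal fun t => act (lab t) g) +
        (p * (diagonal fun t => act (lab t) g) - (diagonal fun t => act (lab' t) g) * p)) * i =
        M.Y g - diagonal fun t => act (lab' t) g := by
      rw [Matrix.mul_sub, sub_add_sub_cancel, Matrix.sub_mul, hY, Matrix.mul_assoc _ p, hpi,
        Matrix.mul_one]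
    rw [e] at h3
    simpa using h3
  refine ⟨fun g t => ?_, fun g s t h0 => ?_⟩
  · by_contra hc
    have := key g t t (by rwa [Matrix.sub_apply, diagonal_apply_eq, sub_ne_zero])
    omega
  · by_cases e : s = t
    · exact Or.inl e
    · have := key g s t (by rwa [Matrix.sub_apply, diagonal_apply_ne _ e, sub_zero])
      right
      simp only at this
      omega

/-- the inverse of a unipotent matrix -/
lemma l2_inv {deg : ι → ℤ} {lab : ι → Perm (Fin n)} {N : Matrix ι ι (R n)}
    (hN : l2_W deg lab deg lab N) (hn : IsNilpotent N) :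
    ∃ v, l2_W deg lab deg lab v ∧ (1 - N) * v = 1 := by
  obtain ⟨m, hm⟩ := hn
  refine ⟨∑ k ∈ Finset.range m, N ^ k, ?_, by rw [mul_neg_geom_sum, hm, sub_zero]⟩
  have hp : ∀ k, l2_W deg lab deg lab (N ^ k) := fun k => by
    induction k with
    | zero => simpa using l2_W.one
    | succ k ih => rw [pow_succ]; exact ih.mul hN
  clear hm
  induction m with
  | zero => exact ⟨by simpa using Homog.zero, fun j i h => absurd (by simp) h⟩
  | succ m ih => rw [Finset.sum_range_succ]; exact ih.add (hp m)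

theorem retract_flag {B : Obj n ι} {lab : ι → Perm (Fin n)} (h : IsFlag B lab len)
    {e : Matrix ι ι (R n)} (he : e ∈ Hom B B 0) (hee : e * e = e) :
    ∃ (κ : Type) (_ : Fintype κ) (_ : DecidableEq κ) (M : Obj n κ) (lab' : κ → Perm (Fin n))
      (i : Matrix ι κ (R n)) (p : Matrix κ ι (R n)),
      IsFlag M lab' len ∧ i ∈ Hom M B 0 ∧ p ∈ Hom B M 0 ∧ p * i = 1 ∧ i * p = e := by
  have we := l2_W.of_hom h h he
  have hgg : l2_gr B.deg lab B.deg lab e * l2_gr B.deg lab B.deg lab e =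
      l2_gr B.deg lab B.deg lab e := by rw [← l2_gr_mul we we, hee]
  obtain ⟨κ, _, _, σ, a, b, ha, hb, hba, hab⟩ := l2_split (fun i => (lab i, B.deg i)) hgg
    (fun j i h0 => Prod.ext (l2_gr_key h0).1 (l2_gr_key h0).2)
  set f : Matrix ι ι (R n) := (l2_gr B.deg lab B.deg lab e).map (MvPolynomial.C : ℝ →+* R n)
    with hf
  have wf : l2_W B.deg lab B.deg lab f := l2_W.of_real fun j i h0 => l2_gr_key h0
  have hff : f * f = f := by rw [hf, ← Matrix.map_mul, hgg]
  have wa : l2_W (fun t => B.deg (σ t)) (fun t => lab (σ t)) B.deg lab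
      (a.map (MvPolynomial.C : ℝ →+* R n)) :=
    l2_W.of_real fun j t h0 => Prod.ext_iff.1 (ha j t h0)
  have wb : l2_W B.deg lab (fun t => B.deg (σ t)) (fun t => lab (σ t))
      (b.map (MvPolynomial.C : ℝ →+* R n)) :=
    l2_W.of_real fun t j h0 => Prod.ext_iff.1 (hb t j h0)
  have hs : l2_Rz (fun i => (len (lab i) : ℤ) - B.deg i) (fun i => (len (lab i) : ℤ) - B.deg i) 1
      (e + -f) := fun j i h0 => by
    rw [Matrix.add_apply, Matrix.neg_apply, hf, map_apply, l2_gr] at h0
    split_ifs at h0 with hk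
    · exact absurd (by rw [← ((we.hm j i).cast (by rw [hk.2]; ring)).eq_C, add_neg_cancel]) h0
    · rw [map_zero, neg_zero, add_zero] at h0
      have h2 := (we.hm j i).nonneg h0
      rcases we.wk j i h0 with h1 | h1
      · have : B.deg i ≠ B.deg j := fun h3 => hk ⟨h1, h3⟩
        simp only [h1]
        omega
      · simp only
        omega
  have w1 : l2_W B.deg lab B.deg lab (1 + -f + -f) := (l2_W.one.add wf.neg).add wf.neg
  have wN := (we.add wf.neg).mul w1
  obtain ⟨v, wv, huv⟩ := l2_inv wN (by simpa using hs.mul w1.rz' : l2_Rz _ _ 1 _).nilp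
  set u : Matrix ι ι (R n) := 1 - (e + -f) * (1 + -f + -f) with hu
  have hvu : v * u = 1 := mul_eq_one_comm.1 huv
  have wu : l2_W B.deg lab B.deg lab u := by
    rw [hu, sub_eq_add_neg]; exact l2_W.one.add wN.neg
  have heu : e * u = u * f := by
    have e1 : e * u = e - (e * e + -(e * f)) * (1 + -f + -f) := by rw [hu]; noncomm_ring
    have e2 : u * f = f - (e + -f) * (f + -(f * f) + -(f * f)) := by rw [hu]; noncomm_ring
    have e3 : e - (e + -(e * f)) * (1 + -f + -f) = 3 * (e * f) - 2 * (e * (f * f)) := by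
      noncomm_ring
    have e4 : f - (e + -f) * (f + -f + -f) = f + e * f - f * f := by noncomm_ring
    rw [e1, e2, hee, hff, e3, e4, hff]
    noncomm_ring
  have wi := wu.mul wa
  have wp := wb.mul wv
  have hpi : (b.map (MvPolynomial.C : ℝ →+* R n) * v) * (u * a.map (MvPolynomial.C : ℝ →+* R n)) =
      1 := by
    rw [Matrix.mul_assoc, ← Matrix.mul_assoc v, hvu, Matrix.one_mul, ← Matrix.map_mul, hba,
      Matrix.map_one _ (map_zero _) (map_one _)]
  have hip : (u * a.map (MvPolynomial.C : ℝ →+* R n)) * (b.map (MvPolynomial.C : ℝ →+* R n) * v) =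
      e := by
    rw [Matrix.mul_assoc, ← Matrix.mul_assoc (a.map _), ← Matrix.map_mul, hab, ← hf,
      ← Matrix.mul_assoc, ← heu, Matrix.mul_assoc, huv, Matrix.mul_one]
  have hc : ∀ g, (u * a.map (MvPolynomial.C : ℝ →+* R n)) *
      (b.map (MvPolynomial.C : ℝ →+* R n) * v) * B.Y g = B.Y g *
      ((u * a.map (MvPolynomial.C : ℝ →+* R n)) * (b.map (MvPolynomial.C : ℝ →+* R n) * v)) :=
    fun g => by rw [hip]; exact he.2 g
  exact ⟨κ, inferInstance, inferInstance, B.transport _ _ _ wi.hm wp.hm hpi hc,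
    fun t => lab (σ t), _, _, l2_flag h wi wp hpi fun g => rfl,
    B.transport_i _ _ _ wi.hm wp.hm hpi hc, B.transport_p _ _ _ wi.hm wp.hm hpi hc, hpi, hip⟩

end Pool.Agent.P.MP_c3da96_co
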