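import Pool.Agent.P.MP_c3da96_co.Cal

namespace Pool.Agent.P.MP_c3da96_co

open Equiv Matrix Kronecker

theorem sn_mem_cellsZ {ν : YoungDiagram} {p : ℤ × ℤ} :
    p ∈ cellsZ ν ↔ 0 ≤ p.1 ∧ 0 ≤ p.2 ∧ (p.1.toNat, p.2.toNat) ∈ ν := by
  simp only [cellsZ, Finset.mem_image, YoungDiagram.mem_cells]
  constructor
  · rintro ⟨c, hc, rfl⟩
    simpa using hc
  · rintro ⟨h1, h2, h3⟩
    exact ⟨_, h3, Prod.ext (Int.toNat_of_nonneg h1) (Int.toNat_of_nonneg h2)⟩

theorem sn_lower {ν : YoungDiagram} {p q : ℤ × ℤ} (hq : q ∈ cellsZ ν) (h1 : 0 ≤ p.1)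
    (h2 : 0 ≤ p.2) (h3 : p.1 ≤ q.1) (h4 : p.2 ≤ q.2) : p ∈ cellsZ ν := by
  rw [sn_mem_cellsZ] at hq ⊢
  exact ⟨h1, h2, ν.up_left_mem (Int.toNat_le_toNat h3) (Int.toNat_le_toNat h4) hq.2.2⟩

theorem sn_cellsZ_inj {ν μ : YoungDiagram} (h : cellsZ ν = cellsZ μ) : ν = μ := by
  ext c
  have h1 := sn_mem_cellsZ (ν := ν) (p := ((c.1 : ℤ), (c.2 : ℤ)))
  have h2 := sn_mem_cellsZ (ν := μ) (p := ((c.1 : ℤ), (c.2 : ℤ)))
  rw [h] at h1
  simpa using h1.symm.trans h2

theorem sn_card_cellsZ (ν : YoungDiagram) : (cellsZ ν).card = ν.card :=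
  Finset.card_image_of_injective _ fun a b h => by
    simp only [Prod.mk.injEq, Nat.cast_inj] at h
    exact Prod.ext h.1 h.2

/-- the boxes of a diagram, ordered by columns -/
def Cells (ν : YoungDiagram) : Type := {p // p ∈ cellsZ ν}

noncomputable instance (ν : YoungDiagram) : Fintype (Cells ν) :=
  inferInstanceAs (Fintype {p // p ∈ cellsZ ν})

noncomputable instance (ν : YoungDiagram) : LinearOrder (Cells ν) :=
  LinearOrder.lift' (fun p : Cells ν => toLex (p.1.2, p.1.1)) fun p q h => by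
    have := Prod.ext_iff.1 (toLex.injective h)
    exact Subtype.ext (Prod.ext this.2 this.1)

theorem Cells.lt_iff {ν : YoungDiagram} {p q : Cells ν} :
    p < q ↔ p.1.2 < q.1.2 ∨ p.1.2 = q.1.2 ∧ p.1.1 < q.1.1 :=
  Prod.Lex.toLex_lt_toLex

/-- right neighbours -/
def cH {ν : YoungDiagram} (p q : Cells ν) : Prop := q.1 = (p.1.1, p.1.2 + 1)
/-- lower neighbours -/
def cV {ν : YoungDiagram} (p q : Cells ν) : Prop := q.1 = (p.1.1 + 1, p.1.2)

theorem sn_std_mono {ν : YoungDiagram} {N : ℕ} (τ : Fin N ≃ Cells ν)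
    (hτ : ∀ p q, cH p q ∨ cV p q → τ.symm p < τ.symm q) (p q : Cells ν) (h1 : p.1.1 ≤ q.1.1)
    (h2 : p.1.2 ≤ q.1.2) : τ.symm p ≤ τ.symm q := by
  induction hl : (q.1.1 - p.1.1 + (q.1.2 - p.1.2)).toNat generalizing p with
  | zero =>
    have : p = q := Subtype.ext (Prod.ext (by omega) (by omega))
    rw [this]
  | succ m ih =>
    have hp := sn_mem_cellsZ.1 p.2
    rcases h1.eq_or_lt with e | e
    · let p' : Cells ν := ⟨(p.1.1, p.1.2 + 1), sn_lower q.2 hp.1 (by simp only; omega) h1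
        (by simp only; omega)⟩
      exact (hτ p p' (Or.inl rfl)).le.trans (ih p' h1 (by simp only [p']; omega)
        (by simp only [p']; omega))
    · let p' : Cells ν := ⟨(p.1.1 + 1, p.1.2), sn_lower q.2 (by simp only; omega) hp.2.1
        (by simp only; omega) h2⟩
      exact (hτ p p' (Or.inr rfl)).le.trans (ih p' (by simp only [p']; omega) h2
        (by simp only [p']; omega))

theorem sn_between {ν : YoungDiagram} {N : ℕ} (τ : Fin N ≃ Cells ν)
    (hτ : ∀ p q, cH p q ∨ cV p q → τ.symm p < τ.symm q) (r r' : Fin N) (u : ℤ × ℤ)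
    (h1 : (τ r).1.1 ≤ u.1) (h2 : (τ r).1.2 ≤ u.2) (h3 : u.1 ≤ (τ r').1.1)
    (h4 : u.2 ≤ (τ r').1.2) : ∃ m : Fin N, (τ m).1 = u ∧ r ≤ m ∧ m ≤ r' := by
  have hp := sn_mem_cellsZ.1 (τ r).2
  let p : Cells ν := ⟨u, sn_lower (τ r').2 (hp.1.trans h1) (hp.2.1.trans h2) h3 h4⟩
  refine ⟨τ.symm p, by simp [p], ?_, ?_⟩
  · simpa using sn_std_mono τ hτ (τ r) p h1 h2
  · simpa using sn_std_mono τ hτ p (τ r') h3 h4

theorem sn_a2 {ν : YoungDiagram} {N : ℕ} (τ : Fin N ≃ Cells ν)
    (hτ : ∀ p q, cH p q ∨ cV p q → τ.symm p < τ.symm q) (a : Adj N)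
    (h : ¬ (cH (τ a.1.1) (τ a.1.2) ∨ cV (τ a.1.1) (τ a.1.2))) (d : ℤ)
    (hd : (τ a.1.2).1.2 - (τ a.1.2).1.1 - ((τ a.1.1).1.2 - (τ a.1.1).1.1) = d) :
    d ≠ 0 ∧ d ≠ 1 ∧ d ≠ -1 := by
  have ha := a.2
  simp only [cH, cV, Prod.ext_iff] at h
  have k1 : ¬ ((τ a.1.2).1.1 ≤ (τ a.1.1).1.1 ∧ (τ a.1.2).1.2 ≤ (τ a.1.1).1.2) := fun e => by
    have := sn_std_mono τ hτ _ _ e.1 e.2
    simp only [symm_apply_apply, Fin.le_def] at this
    omega
  have k2 : ∀ u : ℤ × ℤ, (τ a.1.1).1.1 ≤ u.1 → (τ a.1.1).1.2 ≤ u.2 → u.1 ≤ (τ a.1.2).1.1 →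
      u.2 ≤ (τ a.1.2).1.2 → (τ a.1.1).1 = u ∨ (τ a.1.2).1 = u := by
    intro u h1 h2 h3 h4
    obtain ⟨m, e, l1, l2⟩ := sn_between τ hτ _ _ u h1 h2 h3 h4
    rw [Fin.le_def] at l1 l2
    rcases l1.eq_or_lt with l | l
    · exact Or.inl (by rw [← e, Fin.ext l])
    · exact Or.inr (by rw [← e, Fin.ext (show a.1.2.val = m.val by omega)])
  have k3 := k2 ((τ a.1.1).1.1, (τ a.1.1).1.2 + 1)
  have k4 := k2 ((τ a.1.1).1.1 + 1, (τ a.1.1).1.2)
  simp only [Prod.ext_iff] at k3 k4
  omega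

theorem sn_a3 {ν : YoungDiagram} {N : ℕ} (τ : Fin N ≃ Cells ν)
    (hτ : ∀ p q, cH p q ∨ cV p q → τ.symm p < τ.symm q) (r r' : Fin N)
    (h : r'.val = r.val + 2) : (τ r).1.2 - (τ r).1.1 ≠ (τ r').1.2 - (τ r').1.1 := by
  intro hd
  have k1 : ¬ ((τ r').1.1 ≤ (τ r).1.1 ∧ (τ r').1.2 ≤ (τ r).1.2) := fun e => by
    have := sn_std_mono τ hτ _ _ e.1 e.2
    simp only [symm_apply_apply, Fin.le_def] at this
    omega
  obtain ⟨m, e, l1, l2⟩ := sn_between τ hτ r r' ((τ r).1.1, (τ r).1.2 + 1) le_rfl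
    (by simp only; omega) (by simp only; omega) (by simp only; omega)
  obtain ⟨m', e', l1', l2'⟩ := sn_between τ hτ r r' ((τ r).1.1 + 1, (τ r).1.2)
    (by simp only; omega) le_rfl (by simp only; omega) (by simp only; omega)
  have n1 : m.val ≠ r.val := fun x => by
    rw [Fin.ext x, Prod.ext_iff] at e
    simp only at e; omega
  have n2 : m.val ≠ r'.val := fun x => by
    rw [Fin.ext x, Prod.ext_iff] at e
    simp only at e; omega
  have n3 : m'.val ≠ r.val := fun x => by
    rw [Fin.ext x, Prod.ext_iff] at e'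
    simp only at e'; omega
  have n4 : m'.val ≠ r'.val := fun x => by
    rw [Fin.ext x, Prod.ext_iff] at e'
    simp only at e'; omega
  rw [Fin.le_def] at l1 l2 l1' l2'
  rw [Fin.ext (show m.val = m'.val by omega), e', Prod.ext_iff] at e
  simp only at e; omega

/-- the content of a box -/
def ct {ν : YoungDiagram} (p : Cells ν) : ℝ := ((p.1.2 - p.1.1 : ℤ) : ℝ)

theorem ct_H {ν : YoungDiagram} {p q : Cells ν} (h : cH p q) : ct q - ct p = 1 := by
  simp only [ct, show q.1 = _ from h]; push_cast; ring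

theorem ct_V {ν : YoungDiagram} {p q : Cells ν} (h : cV p q) : ct q - ct p = -1 := by
  simp only [ct, show q.1 = _ from h]; push_cast; ring

open Classical in
/-- the calibration data of a Young diagram -/
noncomputable def calY (ν : YoungDiagram) : Cal (Cells ν) ℝ where
  x := ct
  H := cH
  V := cV
  b p q := if cH p q ∨ cV p q then 0 else 1 - 1 / (ct q - ct p)
  xH _ _ := ct_H
  xV _ _ := ct_V
  lt p q h := by
    rw [Cells.lt_iff]
    simp only [cH, cV, Prod.ext_iff] at h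
    omega
  cov p q h := by
    simp only [cV, Prod.ext_iff] at h
    refine ⟨?_, fun u h1 h2 => ?_⟩
    · rw [Cells.lt_iff]; omega
    · rw [Cells.lt_iff] at h1 h2; omega
  bz p q h := if_pos h
  bb p q h := by
    have e : ct p - ct q = -(ct q - ct p) := by ring
    by_cases h1 : cH p q ∨ cV p q
    · rw [if_pos h1, zero_mul]
      rcases h1 with h1 | h1
      · rw [ct_H h1]; norm_num
      · rw [ct_V h1]; norm_num
    · by_cases h2 : cH q p ∨ cV q p
      · rw [if_pos h2, mul_zero, ← neg_sq, ← e]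
        rcases h2 with h2 | h2
        · rw [ct_H h2]; norm_num
        · rw [ct_V h2]; norm_num
      · rw [if_neg h1, if_neg h2, e]
        generalize ct q - ct p = d
        ring
  a2 N τ hτ a h := by
    have := sn_a2 τ hτ a h _ rfl
    simp only [ct]
    exact_mod_cast this
  a3 N τ hτ r r' h := by
    have := sn_a3 τ hτ r r' h
    simp only [ct]
    exact_mod_cast this

theorem kost_calY (ν : YoungDiagram) {N k : ℕ} (blk : Fin N → Fin k) :
    (calY ν).kost blk = kost (cellsZ ν) blk :=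
  Nat.card_congr (Equiv.subtypeEquivRight fun _ =>
    ⟨fun h => ⟨fun p q => ⟨h.1 p q, h.2.1 p q⟩, h.2.2⟩,
      fun h => ⟨fun p q => (h.1 p q).1, fun p q => (h.1 p q).2, h.2⟩⟩)

noncomputable instance (ν : YoungDiagram) (N : ℕ) : Fintype ((calY ν).Std N) := by
  classical exact Subtype.fintype _

noncomputable instance (ν : YoungDiagram) (N : ℕ) : DecidableEq ((calY ν).Std N) :=
  Classical.decEq _

/-- the contents determine the standard tableau -/
theorem sn_ct_det {ν μ : YoungDiagram} {N : ℕ} (τ : (calY ν).Std N) (τ' : (calY μ).Std N)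
    (h : ∀ r, ct (τ.1 r) = ct (τ'.1 r)) (r : Fin N) : (τ.1 r).1 = (τ'.1 r).1 := by
  induction hl : r.val using Nat.strong_induction_on generalizing r with
  | _ m ih =>
    have hc : (τ.1 r).1.2 - (τ.1 r).1.1 = (τ'.1 r).1.2 - (τ'.1 r).1.1 := by
      have := h r
      simp only [ct] at this
      exact_mod_cast this
    have hp := sn_mem_cellsZ.1 (τ.1 r).2
    have hp' := sn_mem_cellsZ.1 (τ'.1 r).2
    rcases le_total (τ.1 r).1.1 (τ'.1 r).1.1 with e | e
    · let p : Cells μ := ⟨(τ.1 r).1, sn_lower (τ'.1 r).2 hp.1 hp.2.1 e (by omega)⟩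
      have l := sn_std_mono τ'.1 τ'.2 p (τ'.1 r) e (by simp only [p]; omega)
      rw [symm_apply_apply] at l
      rcases l.eq_or_lt with l | l
      · rw [← l, apply_symm_apply, l]
      · have := ih _ (by rw [← hl]; exact l) _ rfl
        rw [apply_symm_apply] at this
        exact absurd (τ.1.injective (Subtype.ext this)) l.ne
    · let p : Cells ν := ⟨(τ'.1 r).1, sn_lower (τ.1 r).2 hp'.1 hp'.2.1 e (by omega)⟩
      have l := sn_std_mono τ.1 τ.2 p (τ.1 r) e (by simp only [p]; omega)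
      rw [symm_apply_apply] at l
      rcases l.eq_or_lt with l | l
      · rw [← l, apply_symm_apply, l]
      · have := ih _ (by rw [← hl]; exact l) _ rfl
        rw [apply_symm_apply] at this
        exact absurd (τ'.1.injective (Subtype.ext this.symm)) l.ne

theorem sn_ct_zero {ν : YoungDiagram} {N : ℕ} (τ : (calY ν).Std N) (r : Fin N) (h : r.val = 0) :
    ct (τ.1 r) = 0 := by
  have hp := sn_mem_cellsZ.1 (τ.1 r).2
  let p : Cells ν := ⟨(0, 0), sn_lower (τ.1 r).2 le_rfl le_rfl hp.1 hp.2.1⟩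
  have l := sn_std_mono τ.1 τ.2 p (τ.1 r) hp.1 hp.2.1
  rw [symm_apply_apply, Fin.le_def] at l
  have : τ.1.symm p = r := Fin.ext (by omega)
  rw [← this, apply_symm_apply]
  simp [ct, p]

theorem Cal.S_jm {P K : Type} [LinearOrder P] [Field K] (c : Cal P K) {N : ℕ}
    [Fintype (c.Std N)] [DecidableEq (c.Std N)] (a : Adj N) :
    diagonal (fun τ : c.Std N => c.x (τ.1 a.1.2)) =
      c.S a * (diagonal (fun τ : c.Std N => c.x (τ.1 a.1.1)) * c.S a + 1) := by
  have : c.S a * diagonal (fun τ : c.Std N => c.x (τ.1 a.1.2)) =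
      diagonal (fun τ : c.Std N => c.x (τ.1 a.1.1)) * c.S a + 1 := by
    ext τ τ'
    rw [mul_diagonal, Matrix.add_apply, diagonal_mul, one_apply]
    have h0 : c.x (τ.1 a.1.2) - c.x (τ.1 a.1.1) ≠ 0 := c.dl_ne a τ
    unfold Cal.S
    by_cases h1 : τ' = τ
    · subst h1
      have h2 : ¬ τ'.1 = (sr a).trans τ'.1 := fun e => h0 (by
        have := DFunLike.congr_fun e a.1.1
        rw [trans_apply, sn_sr_fst] at this
        rw [this, sub_self])
      rw [if_pos rfl, if_neg h2, if_pos rfl]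
      field_simp
      ring
    · rw [if_neg h1, if_neg (Ne.symm h1)]
      split_ifs with h2
      · rw [h2, trans_apply, sn_sr_snd]; ring
      · ring
  rw [← this, ← Matrix.mul_assoc, c.S_sq, Matrix.one_mul]

theorem sn_jm_step {I J : Type*} [Fintype I] [DecidableEq I] [Fintype J] [DecidableEq J]
    (S' D' : Matrix J J ℝ) (S D : Matrix I I ℝ) (A : Matrix J I ℝ) (h1 : S' * A = A * S)
    (h2 : D' * A = A * D) : S' * (D' * S' + 1) * A = A * (S * (D * S + 1)) := by
  rw [Matrix.mul_assoc, Matrix.add_mul, Matrix.mul_assoc, h1, ← Matrix.mul_assoc D', h2,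
    ← Matrix.mul_assoc A S, ← h1, Matrix.mul_assoc S', Matrix.mul_add A, Matrix.mul_assoc,
    Matrix.mul_one, Matrix.one_mul]

theorem sn_intertw {ν μ : YoungDiagram} {N : ℕ}
    (A : Matrix ((calY μ).Std N) ((calY ν).Std N) ℝ)
    (hA : ∀ a, (calY μ).S a * A = A * (calY ν).S a) (τ' : (calY μ).Std N) (τ : (calY ν).Std N)
    (h : A τ' τ ≠ 0) (r : Fin N) : (τ.1 r).1 = (τ'.1 r).1 := by
  have key : ∀ r : Fin N, diagonal (fun τ : (calY μ).Std N => (calY μ).x (τ.1 r)) * A =
      A * diagonal (fun τ : (calY ν).Std N => (calY ν).x (τ.1 r)) := by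
    intro r
    induction hl : r.val generalizing r with
    | zero =>
      ext σ' σ
      rw [diagonal_mul, mul_diagonal]
      change ct _ * _ = _ * ct _
      rw [sn_ct_zero σ' r hl, sn_ct_zero σ r hl, mul_comm]
    | succ m ih =>
      have hr := r.2
      let a : Adj N := ⟨(⟨m, by omega⟩, r), hl⟩
      have e1 := (calY μ).S_jm a
      have e2 := (calY ν).S_jm a
      have e3 := ih a.1.1 rfl
      change diagonal (fun τ : (calY μ).Std N => (calY μ).x (τ.1 a.1.2)) * A =
        A * diagonal (fun τ : (calY ν).Std N => (calY ν).x (τ.1 a.1.2))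
      rw [e1, e2]
      exact sn_jm_step _ _ _ _ A (hA a) e3
  refine sn_ct_det τ τ' (fun r => ?_) r
  have := congrFun (congrFun (key r) τ') τ
  rw [diagonal_mul, mul_diagonal, mul_comm] at this
  exact (mul_left_cancel₀ h this).symm

theorem sn_scalar {ν : YoungDiagram} {N : ℕ} (A : Matrix ((calY ν).Std N) ((calY ν).Std N) ℝ)
    (hA : ∀ a, (calY ν).S a * A = A * (calY ν).S a) (τ0 : (calY ν).Std N) :
    A = A τ0 τ0 • (1 : Matrix _ _ ℝ) := by
  have hd : A = diagonal (fun τ => A τ τ) := by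
    ext τ' τ
    by_cases h : τ' = τ
    · rw [h, diagonal_apply_eq]
    · rw [diagonal_apply_ne _ h]
      by_contra h0
      exact h (Subtype.ext (Equiv.ext fun r => Subtype.ext (sn_intertw A hA τ' τ h0 r).symm))
  have hh : ∀ (τ : (calY ν).Std N) (a : Adj N) (hv : ¬ (calY ν).HV a τ.1),
      (fun _ : Fin N => (0 : Fin 1)) a.1.1 = (fun _ : Fin N => (0 : Fin 1)) a.1.2 →
      A ((calY ν).swS a τ hv) ((calY ν).swS a τ hv) = A τ τ := by
    intro τ a hv _
    have e := congrFun (congrFun (hA a) τ) ((calY ν).swS a τ hv)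
    rw [hd, mul_diagonal, diagonal_mul, mul_comm (A τ τ)] at e
    refine mul_left_cancel₀ ?_ e
    have h1 : ¬ (calY ν).swS a τ hv = τ := fun e => (sn_adj_lt a).ne' (τ.1.injective (by
      have := DFunLike.congr_fun (congrArg Subtype.val e) a.1.1
      rw [← this]
      exact congrArg τ.1 (sn_sr_fst a).symm))
    have h2 : ((calY ν).swS a τ hv).1 = (sr a).trans τ.1 := rfl
    unfold Cal.S
    rw [if_neg h1, if_pos h2, zero_add]
    exact ((calY ν).gauge_valid a τ hv).1
  rw [hd, smul_one_eq_diagonal, diagonal_apply_eq]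
  congr 1
  funext τ
  obtain ⟨σ, -, h2, h3⟩ :=
    (calY ν).exists_srt (fun _ : Fin N => (0 : Fin 1)) (fun τ => A τ τ) hh τ
  obtain ⟨σ', -, k2, k3⟩ :=
    (calY ν).exists_srt (fun _ : Fin N => (0 : Fin 1)) (fun τ => A τ τ) hh τ0
  obtain rfl : σ = σ' := Subtype.ext (Cal.srt_unique monotone_const h2 k2 fun _ => rfl)
  exact h3.symm.trans k3

/-- intertwiners, as vectors -/
theorem sn_pair {G I J : Type*} [Group G] [Fintype G] [DecidableEq G] [Fintype I] [DecidableEq I]
    [Fintype J] [DecidableEq J] (φ : G → Matrix J J ℝ) (hφ : ∀ g h, φ (g * h) = φ g * φ h)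
    (ρ : G →* Matrix I I ℝ) (W : Submodule ℝ (I × J → ℝ))
    (hW : ∀ A : Matrix J I ℝ, vec A ∈ W ↔ ∀ g, φ g * A * ρ g⁻¹ = A) :
    ∑ g, trace (ρ g⁻¹) * trace (φ g) = ((Fintype.card G * Module.finrank ℝ W : ℕ) : ℝ) := by
  have := sn_trace_avg (fun g => (ρ g⁻¹)ᵀ ⊗ₖ φ g) (fun g h => by
    rw [_root_.mul_inv_rev, map_mul, transpose_mul, hφ, mul_kronecker_mul]) Finset.univ
    (Finset.mem_univ _) (by simp) W (fun v => by
      obtain ⟨A, rfl⟩ : ∃ A : Matrix J I ℝ, vec A = v := ⟨of fun j i => v (i, j), rfl⟩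
      simp only [hW, kronecker_mulVec_vec, transpose_transpose, vec_inj, Finset.mem_univ,
        true_imp_iff])
  simpa only [trace_kronecker, trace_transpose, Finset.card_univ] using this

theorem sn_pair_nat {G I J : Type*} [Group G] [Fintype G] [DecidableEq G] [Fintype I]
    [DecidableEq I] [Fintype J] [DecidableEq J] (φ : G → Matrix J J ℝ)
    (hφ : ∀ g h, φ (g * h) = φ g * φ h) (ρ : G →* Matrix I I ℝ) :
    ∃ m : ℕ, ∑ g, trace (ρ g⁻¹) * trace (φ g) = (Fintype.card G : ℝ) * m := by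
  let W : Submodule ℝ (I × J → ℝ) :=
    { carrier := {v | ∀ g, φ g * (of fun j i => v (i, j)) * ρ g⁻¹ = of fun j i => v (i, j)}
      add_mem' := fun {u v} hu hv g => by
        change φ g * ((of fun j i => u (i, j)) + of fun j i => v (i, j)) * ρ g⁻¹ =
          (of fun j i => u (i, j)) + of fun j i => v (i, j)
        rw [Matrix.mul_add, Matrix.add_mul, hu g, hv g]
      zero_mem' := fun g => by
        change φ g * 0 * ρ g⁻¹ = 0
        simp
      smul_mem' := fun t u hu g => by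
        change φ g * (t • of fun j i => u (i, j)) * ρ g⁻¹ = t • of fun j i => u (i, j)
        rw [Matrix.mul_smul, Matrix.smul_mul, hu g] }
  exact ⟨_, (sn_pair φ hφ ρ W fun A => Iff.rfl).trans (Nat.cast_mul _ _)⟩

open Classical in
theorem sn_orth {N : ℕ} {ν μ : YoungDiagram} (hν : ν.card = N)
    (ρ : Perm (Fin N) →* Matrix ((calY ν).Std N) ((calY ν).Std N) ℝ)
    (hρ : ∀ a, ρ (sr a) = (calY ν).S a)
    (ρ' : Perm (Fin N) →* Matrix ((calY μ).Std N) ((calY μ).Std N) ℝ)
    (hρ' : ∀ a, ρ' (sr a) = (calY μ).S a) (he : ν = μ → ∀ g, HEq (ρ g) (ρ' g)) :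
    ∑ g, trace (ρ g⁻¹) * trace (ρ' g) =
      (Fintype.card (Perm (Fin N)) : ℝ) * if ν = μ then 1 else 0 := by
  have hS : ∀ A : Matrix ((calY μ).Std N) ((calY ν).Std N) ℝ, (∀ g, ρ' g * A * ρ g⁻¹ = A) →
      ∀ a, (calY μ).S a * A = A * (calY ν).S a := by
    intro A h a
    have := congrArg (· * ρ (sr a)) (h (sr a))
    simp only [Matrix.mul_assoc, ← map_mul, inv_mul_cancel, map_one, Matrix.mul_one] at this
    rwa [hρ, hρ'] at this
  split_ifs with h
  · subst h
    have he' : ∀ g, ρ g = ρ' g := fun g => eq_of_heq (he rfl g)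
    obtain ⟨τ0, -⟩ := (calY ν).exists_std (N := N) (blk := fun _ => (0 : Fin 1)) monotone_const
      (fun _ => 0) (fun _ _ _ => le_rfl) (sn_card_fiber _ _ (Fintype.equivFinOfCardEq
        ((Fintype.card_coe _).trans ((sn_card_cellsZ ν).trans hν))).symm fun _ => rfl)
    have h1 : vec (1 : Matrix ((calY ν).Std N) ((calY ν).Std N) ℝ) ≠ 0 := fun e => by
      simpa [vec] using congrFun e (τ0, τ0)
    rw [sn_pair ρ' ρ'.map_mul ρ (ℝ ∙ vec 1), finrank_span_singleton h1]
    · simp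
    · intro A
      rw [Submodule.mem_span_singleton]
      constructor
      · rintro ⟨t, ht⟩ g
        rw [← vec_smul, vec_inj] at ht
        rw [← ht, Matrix.mul_smul, Matrix.smul_mul, Matrix.mul_one, he', ← map_mul,
          mul_inv_cancel, map_one]
      · intro hA
        exact ⟨A τ0 τ0, by rw [← vec_smul, ← sn_scalar A (hS A hA) τ0]⟩
  · rw [sn_pair ρ' ρ'.map_mul ρ ⊥]
    · simp
    · intro A
      rw [Submodule.mem_bot, vec_eq_zero_iff]
      constructor
      · rintro rfl g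
        simp
      · intro hA
        ext τ' τ
        by_contra h0
        have e := sn_intertw A (hS A hA) τ' τ h0
        refine h (sn_cellsZ_inj (Finset.ext fun p => ⟨fun hp => ?_, fun hp => ?_⟩))
        · have := e (τ.1.symm ⟨p, hp⟩)
          rw [apply_symm_apply] at this
          exact (show p = _ from this) ▸ (τ'.1 _).2
        · have := e (τ'.1.symm ⟨p, hp⟩)
          rw [apply_symm_apply] at this
          exact (show _ = p from this) ▸ (τ.1 _).2

theorem sn_card_cellsOfRowLens (w : List ℕ) : (YoungDiagram.cellsOfRowLens w).card = w.sum := by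
  induction w with
  | nil => rfl
  | cons a w ih =>
    rw [YoungDiagram.cellsOfRowLens, Finset.card_union_of_disjoint, Finset.card_map, ih]
    · simp
    · rw [Finset.disjoint_left]
      rintro ⟨i, j⟩ h1 h2
      simp only [Finset.mem_product, Finset.mem_singleton] at h1
      obtain ⟨⟨i', j'⟩, -, h3⟩ := Finset.mem_map.1 h2
      have := congrArg Prod.fst h3
      simp [h1.1] at this

theorem sn_exists_dia (n : ℕ) : ∃ d : n.Partition → YoungDiagram, Function.Injective d ∧
    ∀ l, (d l).card = n := by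
  refine ⟨fun l => YoungDiagram.ofRowLens (l.parts.sort (· ≥ ·))
    (l.parts.pairwise_sort _).sortedGE, fun l l' h => ?_, fun l => ?_⟩
  · have := congrArg YoungDiagram.rowLens h
    simp only at this
    rw [YoungDiagram.rowLens_ofRowLens_eq_self, YoungDiagram.rowLens_ofRowLens_eq_self] at this
    · apply Nat.Partition.ext
      rw [← Multiset.sort_eq l.parts (· ≥ ·), this, Multiset.sort_eq]
    · exact fun x hx => l'.parts_pos ((Multiset.mem_sort _).1 hx)
    · exact fun x hx => l.parts_pos ((Multiset.mem_sort _).1 hx)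
  · refine (sn_card_cellsOfRowLens _).trans ?_
    rw [← Multiset.sum_coe, Multiset.sort_eq, l.parts_sum]

theorem sn_trace_conj {G J : Type*} [Group G] [Fintype J] (φ : G → Matrix J J ℝ)
    (hφ : ∀ g h, φ (g * h) = φ g * φ h) {g h : G} (e : IsConj g h) :
    trace (φ g) = trace (φ h) := by
  obtain ⟨c, rfl⟩ := isConj_iff.1 e
  rw [hφ (c * g), trace_mul_comm, ← hφ, inv_mul_cancel_left]

/-- orthonormal class functions, as many as classes, span the class functions -/
theorem sn_span {G D : Type*} [Group G] [Fintype G] [Fintype D] [DecidableEq D] (cl : G → D)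
    (χ : D → G → ℝ) (hχ : ∀ l g h, cl g = cl h → χ l g = χ l h)
    (ho : ∀ l l', ∑ g, χ l g⁻¹ * χ l' g = (Fintype.card G : ℝ) * if l = l' then 1 else 0)
    (f : G → ℝ) (hf : ∀ g h, cl g = cl h → f g = f h) (m : D → ℝ)
    (hm : ∀ l, ∑ g, χ l g⁻¹ * f g = (Fintype.card G : ℝ) * m l) : f = ∑ l, m l • χ l := by
  have hG : (Fintype.card G : ℝ) ≠ 0 := Nat.cast_ne_zero.2 Fintype.card_ne_zero
  have coef : ∀ (c : D → ℝ) l, ∑ g, χ l g⁻¹ * (∑ l', c l' • χ l') g =
      (Fintype.card G : ℝ) * c l := by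
    intro c l
    simp only [Finset.sum_apply, Pi.smul_apply, smul_eq_mul, Finset.mul_sum]
    rw [Finset.sum_comm]
    simp only [mul_left_comm _ (c _), ← Finset.mul_sum, ho]
    simp [mul_comm]
  have hli : LinearIndependent ℝ χ := by
    rw [Fintype.linearIndependent_iff]
    intro c hc l
    have := coef c l
    rw [hc] at this
    simpa [hG] using this.symm
  have hcl : ∀ f : G → ℝ, (∀ g h, cl g = cl h → f g = f h) →
      f ∈ LinearMap.range (LinearMap.funLeft ℝ ℝ cl) := by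
    intro f hf
    exact ⟨Function.extend cl f 0, funext fun g =>
      Function.FactorsThrough.extend_apply (fun a b e => hf a b e) 0 g⟩
  have hle : Submodule.span ℝ (Set.range χ) ≤ LinearMap.range (LinearMap.funLeft ℝ ℝ cl) :=
    Submodule.span_le.2 (by rintro _ ⟨l, rfl⟩; exact hcl _ (hχ l))
  have heq := Submodule.eq_of_le_of_finrank_le hle (by
    rw [finrank_span_eq_card hli]
    exact (LinearMap.finrank_range_le _).trans (Module.finrank_fintype_fun_eq_card ℝ).le)
  obtain ⟨c, hc⟩ := (Submodule.mem_span_range_iff_exists_fun ℝ).1 (heq ▸ hcl f hf)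
  have : m = c := funext fun l => mul_left_cancel₀ hG (by rw [← hm, ← coef, hc])
  rw [this, hc]

theorem schur_pos (N : ℕ) (J : Type) [Fintype J] [DecidableEq J]
    (φ : Perm (Fin N) → Matrix J J ℝ) (hφ : ∀ g h, φ (g * h) = φ g * φ h) :
    ∃ m : YoungDiagram →₀ ℕ, (∀ ν ∈ m.support, ν.card = N) ∧
      ∀ (k : ℕ) (blk : Fin N → Fin k), Monotone blk → ∑ σ ∈ young blk, trace (φ σ) =
        ((young blk).card * m.sum (fun ν c => c * kost (cellsZ ν) blk) : ℕ) := by
  classical
  obtain ⟨d, hd, hc⟩ := sn_exists_dia (Fintype.card (Fin N))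
  simp only [Fintype.card_fin] at hc
  choose ρ hρ hk using fun ν => Cal.rep (calY ν) N
  choose m hm using fun l => sn_pair_nat φ hφ (ρ (d l))
  have hf := sn_span Perm.partition (fun l g => trace (ρ (d l) g))
    (fun l g h e => sn_trace_conj _ (ρ (d l)).map_mul (Perm.partition_eq_of_isConj.2 e))
    (fun l l' => by
      rw [sn_orth (hc l) (ρ (d l)) (hρ _) (ρ (d l')) (hρ _) (fun e g => by rw [e])]
      simp only [hd.eq_iff])
    (fun g => trace (φ g))
    (fun g h e => sn_trace_conj _ hφ (Perm.partition_eq_of_isConj.2 e)) (fun l => m l) hm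
  refine ⟨∑ l, Finsupp.single (d l) (m l), fun ν hν => ?_, fun k blk hb => ?_⟩
  · obtain ⟨l, -, hl⟩ := Finset.mem_biUnion.1 (Finsupp.support_finsetSum hν)
    rw [Finset.mem_singleton.1 (Finsupp.support_single_subset hl), hc]
  · rw [← Finsupp.sum_finsetSum_index (by simp) (by intros; ring)]
    simp only [Finsupp.sum_single_index (h := fun ν c => c * kost (cellsZ ν) blk) (zero_mul _)]
    rw [Finset.sum_congr rfl fun σ _ => congrFun hf σ]
    simp only [Finset.sum_apply, Pi.smul_apply, smul_eq_mul]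
    rw [Finset.sum_comm]
    simp only [← Finset.mul_sum, hk _ k blk hb, kost_calY]
    push_cast
    rw [Finset.mul_sum]
    exact Finset.sum_congr rfl fun _ _ => by ring

end Pool.Agent.P.MP_c3da96_co
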