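import Pool.Agent.P.MP_c3da96_co.RibD
import Pool.Agent.P.MP_c3da96_co.Cal
import Pool.Agent.P.MP_c3da96_co.SchurPos

namespace Pool.Agent.P.MP_c3da96_co

open Equiv Matrix

variable {l : ℕ} {r : ℤ → ℤ} {a b : Fin l → ℤ}

lemma rib_young_pos {N k : ℕ} (blk : Fin N → Fin k) : 0 < (young blk).card :=
  Finset.card_pos.2 ⟨1, by simp [young]⟩

lemma rib_kost (Pk : Pack l) (hr : IsRibbon r) (G : Geo r a b) :
    ∃ mu : Perm (Fin l) → YoungDiagram →₀ ℕ, (∀ u, ∀ ν ∈ (mu u).support, ν.card = NB a b) ∧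
      ∀ (k : ℕ) (blk : Fin (NB a b) → Fin k), Monotone blk → ∀ v,
        (((calv hr a b v).kost blk : ℕ) : ℤ) = ∑ u, (KL v u).eval 1 *
          ((mu u).sum (fun ν c => c * kost (cellsZ ν) blk) : ℕ) := by
  classical
  obtain ⟨B, hB⟩ : ∃ B : ℕ, ∀ k, |a k| ≤ B ∧ |b k| ≤ B := by
    refine ⟨∑ k, ((a k).natAbs + (b k).natAbs), fun k => ?_⟩
    have := Finset.single_le_sum (f := fun k => (a k).natAbs + (b k).natAbs)
      (fun _ _ => Nat.zero_le _) (Finset.mem_univ k)
    constructor <;> rw [← Int.natCast_natAbs, Nat.cast_le] <;> omega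
  simp only [abs_le] at hB
  choose ρ hρ hρ' using fun v => (calv hr a b v).rep (NB a b)
  let ρA : Perm (Fin (NB a b)) →* Matrix (Arr hr a b (NB a b)) (Arr hr a b (NB a b)) (Q l) :=
    (blockDiagonal'RingHom (fun v => (calv hr a b v).Std (NB a b)) (Q l)).toMonoidHom.comp
      (MonoidHom.pi ρ)
  have hρA : ∀ g, ρA g = blockDiagonal' fun v => ρ v g := fun _ => rfl
  have hU : InU Pk (fun π : Arr hr a b (NB a b) => π.1) (latMod hr a b (NB a b)) :=
    inU_fibers Pk Arr.word _ (fibMod hr a b) (fun t ht => by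
      convert inU_fib Pk hr G (lo := -B) (m := 2 * B + 1) (fun k => (hB k).1.1)
        (fun k => by have := (hB k).2.2; push_cast; omega) t ht) _ mem_latMod
  obtain ⟨J, _, _, φ, hφ, hφ'⟩ := web_trace Pk hU ρA (fun g π π' h => by
      by_contra hne
      exact h (blockDiagonal'_apply_ne (fun v => ρ v g) π.2 π'.2 hne)) (Den l (2 * B)) (Den_ne l _)
    (lat_all (fun i j => by have := hB i; have := hB j; push_cast; omega) ρA
      (fun s => by rw [hρA]; simp only [hρ]))
  choose mu hmu hmu' using fun u => schur_pos (NB a b) (J u) (φ u) (hφ u)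
  refine ⟨mu, hmu, fun k blk hblk v => ?_⟩
  have h1 := hφ' (young blk) v ((young blk).card * (calv hr a b v).kost blk) (by
    rw [← hρ' v k blk hblk]
    refine Finset.sum_congr rfl fun g _ => ?_
    rw [Finset.sum_filter, Fintype.sum_sigma, Finset.sum_eq_single v (fun u _ h => by simp [h])
      (by simp)]
    simp [hρA, trace])
  simp only [hmu' _ k blk hblk] at h1
  have h2 : ((young blk).card : ℝ) ≠ 0 := by exact_mod_cast (rib_young_pos blk).ne'
  apply Int.cast_injective (α := ℝ)
  apply mul_left_cancel₀ h2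
  push_cast at h1 ⊢
  rw [h1, Finset.mul_sum]
  exact Finset.sum_congr rfl fun u _ => by ring

open Classical in
lemma rib_row (hr : IsRibbon r) (hab : ∀ i, a i < b i) (k : ℕ) (v : Perm (Fin l)) :
    ∏ i, ribbonMatrix r a b k i (v i) = ∑ blk : Fin (NB a b) → Fin k with Monotone blk,
      (calv hr a b v).kost blk • ∏ s, MvPolynomial.X (blk s) := by
  by_cases hv : ∀ j, a j ≤ b (v.symm j)
  · have h1 : ∏ i, ribbonMatrix r a b k i (v i) =
        ∏ j, schurOf (piece r (a j) (b (v.symm j))) k := by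
      refine Fintype.prod_equiv v _ _ fun i => ?_
      have := hv (v i)
      rw [symm_apply_apply] at this ⊢
      exact if_pos this
    rw [h1, rib_prod]
    convert sum_fillings_eq (Bx r a fun j => b (v.symm j)) (NB a b) k
      ((rib_card_valid hab v).2 hv)
      (fun T => (∀ p q, BH p q → T p ≤ T q) ∧ (∀ p q, BV p q → T p < T q)) using 4
    simp only [Cal.kost, and_assoc]
    rfl
  · obtain ⟨j, hj⟩ := not_forall.1 hv
    rw [Finset.prod_eq_zero (Finset.mem_univ (v.symm j)) (by
      rw [apply_symm_apply]; exact if_neg hj)]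
    refine (Finset.sum_eq_zero fun blk _ => ?_).symm
    have : IsEmpty {T : (Bx r a fun j => b (v.symm j)) → Fin k //
        (∀ p q, (calv hr a b v).H p q → T p ≤ T q) ∧ (∀ p q, (calv hr a b v).V p q → T p < T q) ∧
        ∀ i, Nat.card {p // T p = i} = Nat.card {s // blk s = i}} := by
      refine ⟨fun T => hv ((rib_card_valid (r := r) hab v).1 ?_)⟩
      refine Eq.trans ?_ (Fintype.card_fin (NB a b))
      rw [← Fintype.card_congr (Equiv.sigmaFiberEquiv T.1),
        ← Fintype.card_congr (Equiv.sigmaFiberEquiv blk), Fintype.card_sigma, Fintype.card_sigma]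
      exact Finset.sum_congr rfl fun i _ => by
        rw [← Nat.card_eq_fintype_card, ← Nat.card_eq_fintype_card, T.2.2.2 i]
    rw [Cal.kost, Nat.card_of_isEmpty, zero_smul]

open Classical in
lemma rib_schur (ν : YoungDiagram) {N : ℕ} (h : ν.card = N) (k : ℕ) :
    schurOf (cellsZ ν) k = ∑ blk : Fin N → Fin k with Monotone blk,
      kost (cellsZ ν) blk • ∏ s, MvPolynomial.X (blk s) := by
  unfold schurOf kost
  convert sum_fillings_eq (cellsZ ν) N k ?_ (IsSST (cellsZ ν))
  rw [Fintype.card_coe, cellsZ, Finset.card_image_of_injective _ (fun x y e => by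
    simp only [Prod.mk.injEq, Nat.cast_inj] at e; exact Prod.ext e.1 e.2)]
  exact h

open Classical in
theorem ribbon_main {l : ℕ} (Pk : Pack l)
    (hinv : ∀ u w : Perm (Fin l), ∑ v : Perm (Fin l) with bruhatLE w v, (-1) ^ (len v - len w) *
      (KL (Fin.revPerm * v) (Fin.revPerm * w)).eval 1 * (KL v u).eval 1 = if u = w then 1 else 0)
    (r : ℤ → ℤ) (hr : IsRibbon r) (lam mu : YoungDiagram) (κ a b : Fin l → ℤ)
    (hdec : IsDecomp r lam mu κ a b) (w : Perm (Fin l)) :
    SchurPositive (fun k => klImm w (ribbonMatrix r a b k)) := by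
  have G := geo_of_decomp hr hdec
  obtain ⟨m, hm, hk⟩ := rib_kost Pk hr G
  refine ⟨m w, fun k => ?_⟩
  let F : Perm (Fin l) → MvPolynomial (Fin k) ℤ := fun u =>
    (m u).sum fun ν c => c • schurOf (cellsZ ν) k
  have hF : ∀ u, F u = ∑ blk : Fin (NB a b) → Fin k with Monotone blk,
      ((m u).sum fun ν c => c * kost (cellsZ ν) blk) • ∏ s, MvPolynomial.X (blk s) := by
    intro u
    simp only [F, Finsupp.sum, Finset.sum_smul]
    rw [Finset.sum_comm]
    refine Finset.sum_congr rfl fun ν hν => ?_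
    rw [rib_schur ν (hm u ν hν), Finset.smul_sum]
    exact Finset.sum_congr rfl fun blk _ => (mul_smul _ _ _).symm
  have hrow : ∀ v : Perm (Fin l), ∏ i, ribbonMatrix r a b k i (v i) =
      ∑ u, (((KL v u).eval 1 : ℤ) : MvPolynomial (Fin k) ℤ) * F u := by
    intro v
    simp only [hF, Finset.mul_sum]
    rw [rib_row hr G.lt, Finset.sum_comm]
    refine Finset.sum_congr rfl fun blk hblk => ?_
    have := congrArg (Int.cast : ℤ → MvPolynomial (Fin k) ℤ)
      (hk k blk (Finset.mem_filter.1 hblk).2 v)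
    push_cast at this
    simp only [nsmul_eq_mul, ← mul_assoc, ← Finset.sum_mul]
    rw [this]
    push_cast
    rfl
  show klImm w _ = F w
  unfold klImm
  simp only [hrow, Finset.mul_sum]
  rw [Finset.sum_comm, Finset.sum_eq_single w (fun u _ h => ?_) (by simp)]
  · have := congrArg (Int.cast : ℤ → MvPolynomial (Fin k) ℤ) (hinv w w)
    push_cast at this
    simp only [← mul_assoc, ← Finset.sum_mul]
    rw [this]; simp
  · have := congrArg (Int.cast : ℤ → MvPolynomial (Fin k) ℤ) (hinv u w)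
    push_cast at this
    simp only [← mul_assoc, ← Finset.sum_mul]
    rw [this, if_neg h, zero_mul]

end Pool.Agent.P.MP_c3da96_co
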