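import Pool.Agent.P.MP_c3da96_co.Iface

namespace Pool.Agent.P.MP_c3da96_co

open Equiv Matrix

variable {l : ℕ}

/-- boxes of a disjoint union of pieces of the ribbon `r` -/
@[ext] structure Bx (r : ℤ → ℤ) (a e : Fin l → ℤ) where
  j : Fin l
  c : ℤ
  h1 : a j ≤ c
  h2 : c < e j

namespace Bx
variable {r : ℤ → ℤ} {a e : Fin l → ℤ}

/-- the boxes as a sum of intervals -/
def equivIco (r : ℤ → ℤ) (a e : Fin l → ℤ) : Bx r a e ≃ Σ j, Finset.Ico (a j) (e j) where
  toFun p := ⟨p.j, p.c, Finset.mem_Ico.2 ⟨p.h1, p.h2⟩⟩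
  invFun q := ⟨q.1, q.2.1, (Finset.mem_Ico.1 q.2.2).1, (Finset.mem_Ico.1 q.2.2).2⟩
  left_inv _ := rfl
  right_inv _ := rfl

noncomputable instance : Fintype (Bx r a e) := Fintype.ofEquiv _ (equivIco r a e).symm

lemma card_eq : Fintype.card (Bx r a e) = ∑ j, (e j - a j).toNat := by
  rw [Fintype.card_congr (equivIco r a e), Fintype.card_sigma]
  simp

/-- the sorting key -/
def key (p : Bx r a e) : Fin l ×ₗ ℤ ×ₗ ℤ := toLex (p.j, toLex (r p.c + p.c, r p.c))

lemma key_inj : Function.Injective (key : Bx r a e → _) := by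
  intro p q h
  simp only [key, toLex_inj, Prod.mk.injEq] at h
  exact Bx.ext h.1 (by omega)

noncomputable instance : LinearOrder (Bx r a e) := LinearOrder.lift' key key_inj

lemma lt_iff (p q : Bx r a e) : p < q ↔ p.j < q.j ∨ p.j = q.j ∧
    (r p.c + p.c < r q.c + q.c ∨ r p.c + p.c = r q.c + q.c ∧ r p.c < r q.c) := by
  show key p < key q ↔ _
  simp only [key, Prod.Lex.toLex_lt_toLex]

end Bx

/-- a variable in the field of fractions -/
noncomputable def XQ (k : Fin l) : Q l := algebraMap (R l) (Q l) (MvPolynomial.X k)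

lemma rib_lin {m : ℤ} {k k' : Fin l} (h : (m : Q l) + XQ k - XQ k' = 0) : m = 0 ∧ k = k' := by
  have h1 : algebraMap (R l) (Q l) ((m : R l) + MvPolynomial.X k - MvPolynomial.X k') = 0 := by
    rw [map_sub, map_add, map_intCast]; exact h
  rw [map_eq_zero_iff _ (IsFractionRing.injective (R l) (Q l))] at h1
  have h2 := congrArg MvPolynomial.constantCoeff h1
  simp only [map_sub, map_add, map_intCast, MvPolynomial.constantCoeff_X, add_zero, sub_zero,
    map_zero, Int.cast_eq_zero] at h2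
  subst h2
  simp only [Int.cast_zero, zero_add, sub_eq_zero] at h1
  exact ⟨rfl, MvPolynomial.X_injective h1⟩

/-- the sign attached to a pair of contents -/
noncomputable def eps (r : ℤ → ℤ) (c c' : ℤ) : ℤ :=
  if (c' = c + 1 ∧ r c' = r c - 1) ∨ (c = c' + 1 ∧ r c = r c' - 1) then -1 else 1

lemma eps_comm (r : ℤ → ℤ) (c c' : ℤ) : eps r c c' = eps r c' c := by
  unfold eps; simp only [or_comm]

lemma eps_sq (r : ℤ → ℤ) (c c' : ℤ) : (eps r c c' : Q l) ^ 2 = 1 := by
  unfold eps; split_ifs <;> simp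

section cal
variable {r : ℤ → ℤ} {a e : Fin l → ℤ}

/-- the content in the field -/
noncomputable def xv (v : Perm (Fin l)) (p : Bx r a e) : Q l := (p.c : Q l) + XQ (v.symm p.j)

lemma xv_sub (v : Perm (Fin l)) (p q : Bx r a e) :
    xv v q - xv v p = ((q.c - p.c : ℤ) : Q l) + XQ (v.symm q.j) - XQ (v.symm p.j) := by
  unfold xv; push_cast; ring

lemma xv_eq {v : Perm (Fin l)} {p q : Bx r a e} {n : ℤ} (h : xv v q - xv v p = n) :
    q.c = p.c + n ∧ p.j = q.j := by
  have := rib_lin (m := q.c - p.c - n) (k := v.symm q.j) (k' := v.symm p.j)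
    (by rw [xv_sub] at h; push_cast at h ⊢; linear_combination h)
  exact ⟨by omega, (v.symm.injective this.2).symm⟩

/-- right neighbours -/
def BH (p q : Bx r a e) : Prop := p.j = q.j ∧ q.c = p.c + 1 ∧ r q.c = r p.c
/-- lower neighbours -/
def BV (p q : Bx r a e) : Prop := p.j = q.j ∧ p.c = q.c + 1 ∧ r p.c = r q.c - 1

lemma xv_H (v : Perm (Fin l)) {p q : Bx r a e} (h : BH p q) : xv v q - xv v p = 1 := by
  rw [xv_sub, h.1, h.2.1]; simp

lemma xv_V (v : Perm (Fin l)) {p q : Bx r a e} (h : BV p q) : xv v q - xv v p = -1 := by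
  rw [xv_sub, h.1, h.2.1]; simp

/-- the calibrated data of a union of pieces -/
noncomputable def cal (hr : IsRibbon r) (a e : Fin l → ℤ) (v : Perm (Fin l)) :
    Cal (Bx r a e) (Q l) where
  x := xv v
  H := BH
  V := BV
  b p q := 1 - (eps r p.c q.c : Q l) / (xv v q - xv v p)
  xH _ _ := xv_H v
  xV _ _ := xv_V v
  lt p q h := by
    rw [Bx.lt_iff]
    rcases h with ⟨h1, h2, h3⟩ | ⟨h1, h2, h3⟩
    · exact Or.inr ⟨h1, by omega⟩
    · exact Or.inr ⟨h1, by omega⟩
  cov p q h := by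
    obtain ⟨h1, h2, h3⟩ := h
    refine ⟨by rw [Bx.lt_iff]; exact Or.inr ⟨h1, by omega⟩, fun z hz hz' => ?_⟩
    rw [Bx.lt_iff] at hz hz'
    simp only [Fin.lt_def, Fin.ext_iff] at hz hz' h1
    omega
  bz p q h := by
    rcases h with h | h
    · rw [xv_H v h, eps, if_neg (by obtain ⟨-, h2, h3⟩ := h; omega)]; simp
    · rw [xv_V v h, eps, if_pos (Or.inr h.2)]; simp
  bb p q h := by
    have h0 : xv v q - xv v p ≠ 0 := sub_ne_zero.2 h.symm
    have h2 := eps_sq (l := l) r p.c q.c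
    rw [eps_comm r q.c p.c, ← neg_sub (xv v q) (xv v p)]
    generalize xv v q - xv v p = d at h0
    field_simp
    linear_combination -h2
  a2 N τ hτ s hs := by
    have hlt := s.lt
    refine ⟨fun h => ?_, fun h => ?_, fun h => ?_⟩
    · obtain ⟨h1, h2⟩ := xv_eq (n := 0) (by simpa using h)
      exact s.ne (τ.injective (Bx.ext h2 (by omega)))
    · obtain ⟨h1, h2⟩ := xv_eq (n := 1) (by simpa using h)
      rcases hr (τ s.1.1).c with h3 | h3
      · exact hs (Or.inl ⟨h2, h1, by rw [h1, h3]⟩)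
      · have := hτ (τ s.1.2) (τ s.1.1) (Or.inr ⟨h2.symm, h1, by rw [h1, h3]⟩)
        simp only [symm_apply_apply] at this
        exact absurd this hlt.not_gt
    · obtain ⟨h1, h2⟩ := xv_eq (n := -1) (by simpa using h)
      have h1' : (τ s.1.1).c = (τ s.1.2).c + 1 := by omega
      rcases hr (τ s.1.2).c with h3 | h3
      · have := hτ (τ s.1.2) (τ s.1.1) (Or.inl ⟨h2.symm, h1', by rw [h1', h3]⟩)
        simp only [symm_apply_apply] at this
        exact absurd this hlt.not_gt
      · exact hs (Or.inr ⟨h2, h1', by rw [h1', h3]⟩)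
  a3 N τ _ s s' hs h := by
    obtain ⟨h1, h2⟩ := xv_eq (v := v) (p := τ s) (q := τ s') (n := 0) (by simp [h])
    have := τ.injective (Bx.ext h2 (by omega) : τ s = τ s')
    subst this
    omega

end cal

/-! ### products of ribbon Schur polynomials -/

lemma box_inj (r : ℤ → ℤ) (k : ℤ) : Function.Injective (box r k) := by
  intro c c' h
  simp only [box, Prod.mk.injEq] at h
  omega

/-- the boxes as a sum of pieces -/
noncomputable def Bx.equivPiece (r : ℤ → ℤ) (a e : Fin l → ℤ) :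
    Bx r a e ≃ Σ j, piece r (a j) (e j) :=
  Equiv.ofBijective
    (fun p => ⟨p.j, box r 0 p.c, Finset.mem_image_of_mem _ (Finset.mem_Ico.2 ⟨p.h1, p.h2⟩)⟩) (by
      constructor
      · rintro ⟨j, c, h1, h2⟩ ⟨j', c', h1', h2'⟩ h
        obtain ⟨rfl, h⟩ := Sigma.mk.inj_iff.1 h
        have := box_inj r 0 (Subtype.mk.inj (eq_of_heq h))
        subst this
        rfl
      · rintro ⟨j, q, hq⟩
        obtain ⟨c, hc, rfl⟩ := Finset.mem_image.1 hq
        exact ⟨⟨j, c, (Finset.mem_Ico.1 hc).1, (Finset.mem_Ico.1 hc).2⟩, rfl⟩)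

open Classical in
lemma rib_prod (r : ℤ → ℤ) (a e : Fin l → ℤ) (k : ℕ) :
    ∏ j, schurOf (piece r (a j) (e j)) k =
      ∑ T : Bx r a e → Fin k with (∀ p q, BH p q → T p ≤ T q) ∧ (∀ p q, BV p q → T p < T q),
        ∏ p, (MvPolynomial.X (T p) : MvPolynomial (Fin k) ℤ) := by
  unfold schurOf
  rw [Finset.prod_univ_sum]
  symm
  refine Finset.sum_equiv (((Bx.equivPiece r a e).arrowCongr (Equiv.refl (Fin k))).trans
    (Equiv.piCurry fun _ _ => Fin k)) (fun T => ?_) (fun T _ => ?_)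
  · simp only [Finset.mem_filter, Finset.mem_univ, true_and, Fintype.mem_piFinset]
    constructor
    · rintro ⟨hH, hV⟩ j p q
      obtain ⟨p', hp⟩ := (Bx.equivPiece r a e).surjective ⟨j, p⟩
      obtain ⟨q', hq⟩ := (Bx.equivPiece r a e).surjective ⟨j, q⟩
      have e1 : (Bx.equivPiece r a e).symm ⟨j, p⟩ = p' := by rw [← hp, symm_apply_apply]
      have e2 : (Bx.equivPiece r a e).symm ⟨j, q⟩ = q' := by rw [← hq, symm_apply_apply]
      show (_ → T ((Bx.equivPiece r a e).symm ⟨j, p⟩) ≤ T ((Bx.equivPiece r a e).symm ⟨j, q⟩)) ∧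
        (_ → T ((Bx.equivPiece r a e).symm ⟨j, p⟩) < T ((Bx.equivPiece r a e).symm ⟨j, q⟩))
      rw [e1, e2]
      obtain ⟨hj, hp⟩ := Sigma.mk.inj_iff.1 hp
      obtain ⟨hj', hq⟩ := Sigma.mk.inj_iff.1 hq
      have hp' : p.1 = box r 0 p'.c := by
        subst hj; exact (congrArg Subtype.val (eq_of_heq hp)).symm
      have hq' : q.1 = box r 0 q'.c := by
        subst hj'; exact (congrArg Subtype.val (eq_of_heq hq)).symm
      rw [hp', hq']
      simp only [box, Prod.mk.injEq]
      exact ⟨fun h => hH _ _ ⟨hj.trans hj'.symm, by omega, by omega⟩,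
        fun h => hV _ _ ⟨hj.trans hj'.symm, by omega, by omega⟩⟩
    · intro h
      constructor
      · rintro ⟨j, c, h1, h2⟩ ⟨j', c', h1', h2'⟩ ⟨hj, hc, hr⟩
        dsimp only at hj hc hr
        subst hj
        have := (h j ((Bx.equivPiece r a e) ⟨j, c, h1, h2⟩).2
          ((Bx.equivPiece r a e) ⟨j, c', h1', h2'⟩).2).1 (by
            show box r 0 c' = ((box r 0 c).1, (box r 0 c).2 + 1)
            simp only [box, Prod.mk.injEq]; omega)
        change T ((Bx.equivPiece r a e).symm ((Bx.equivPiece r a e) ⟨j, c, h1, h2⟩)) ≤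
          T ((Bx.equivPiece r a e).symm ((Bx.equivPiece r a e) ⟨j, c', h1', h2'⟩)) at this
        simpa using this
      · rintro ⟨j, c, h1, h2⟩ ⟨j', c', h1', h2'⟩ ⟨hj, hc, hr⟩
        dsimp only at hj hc hr
        subst hj
        have := (h j ((Bx.equivPiece r a e) ⟨j, c, h1, h2⟩).2
          ((Bx.equivPiece r a e) ⟨j, c', h1', h2'⟩).2).2 (by
            show box r 0 c' = ((box r 0 c).1 + 1, (box r 0 c).2)
            simp only [box, Prod.mk.injEq]; omega)
        change T ((Bx.equivPiece r a e).symm ((Bx.equivPiece r a e) ⟨j, c, h1, h2⟩)) <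
          T ((Bx.equivPiece r a e).symm ((Bx.equivPiece r a e) ⟨j, c', h1', h2'⟩)) at this
        simpa using this
  · rw [← Fintype.prod_sigma' (fun j q => (MvPolynomial.X
      ((((Bx.equivPiece r a e).arrowCongr (Equiv.refl (Fin k))).trans
        (Equiv.piCurry fun _ _ => Fin k)) T j q) : MvPolynomial (Fin k) ℤ))]
    refine Fintype.prod_equiv (Bx.equivPiece r a e) _ _ (fun p => ?_)
    show _ = MvPolynomial.X (T ((Bx.equivPiece r a e).symm ((Bx.equivPiece r a e) p)))
    rw [symm_apply_apply]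

/-! ### counting boxes -/

/-- the number of boxes -/
def NB (a b : Fin l → ℤ) : ℕ := ∑ i, (b i - a i).toNat

lemma rib_card_valid {r : ℤ → ℤ} {a b : Fin l → ℤ} (hab : ∀ i, a i < b i) (v : Perm (Fin l)) :
    Fintype.card (Bx r a fun j => b (v.symm j)) = NB a b ↔ ∀ j, a j ≤ b (v.symm j) := by
  rw [Bx.card_eq, NB, ← Nat.cast_inj (R := ℤ)]
  push_cast
  have h1 : ∑ i, ((b i - a i).toNat : ℤ) = ∑ j, (b (v.symm j) - a j) := by
    rw [Finset.sum_sub_distrib, Equiv.sum_comp v.symm b, ← Finset.sum_sub_distrib]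
    exact Finset.sum_congr rfl fun i _ => by have := hab i; omega
  rw [h1, eq_comm, Finset.sum_eq_sum_iff_of_le (fun i _ => by omega)]
  exact ⟨fun h j => by have := h j (Finset.mem_univ _); omega, fun h j _ => by
    have := h j; omega⟩

end Pool.Agent.P.MP_c3da96_co
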