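import Pool.Agent.P.MP_c3da96_co.RibA

namespace Pool.Agent.P.MP_c3da96_co

open Equiv Matrix

section generic
variable {P K : Type} [LinearOrder P] [Field K] (c : Cal P K) {N : ℕ}

noncomputable instance rib_finStd [Fintype P] : Fintype (c.Std N) := by
  classical
  unfold Cal.Std
  infer_instance

noncomputable instance rib_decStd : DecidableEq (c.Std N) := Classical.decEq _

lemma rib_swap_std (τ : c.Std N) (s : Adj N)
    (h : ¬ (c.H (τ.1 s.1.1) (τ.1 s.1.2) ∨ c.V (τ.1 s.1.1) (τ.1 s.1.2))) (p q : P)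
    (hpq : c.H p q ∨ c.V p q) : ((sr s).trans τ.1).symm p < ((sr s).trans τ.1).symm q := by
  have h1 := τ.2 p q hpq
  have h2 : ¬ (τ.1.symm p = s.1.1 ∧ τ.1.symm q = s.1.2) := by
    rintro ⟨e1, e2⟩
    apply h
    rw [← e1, ← e2]
    simpa using hpq
  have h3 := s.2
  simp only [symm_trans_apply, sr_symm]
  unfold sr
  generalize τ.1.symm p = x at h1 h2
  generalize τ.1.symm q = y at h1 h2
  simp only [swap_apply_def]
  split_ifs <;> simp only [Fin.lt_def, Fin.ext_iff] at * <;> omega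

variable [Fintype P]

open Classical in
lemma rib_S_mulVec (s : Adj N) (m : c.Std N → K) (τ : c.Std N) :
    (c.S s *ᵥ m) τ = m τ / (c.x (τ.1 s.1.2) - c.x (τ.1 s.1.1)) +
      c.b (τ.1 s.1.1) (τ.1 s.1.2) * ∑ τ' : c.Std N, if τ'.1 = (sr s).trans τ.1 then m τ' else 0 := by
  simp only [mulVec, dotProduct, Cal.S, add_mul, Finset.sum_add_distrib, Finset.mul_sum]
  congr 1
  · rw [Finset.sum_eq_single τ (fun τ' _ h => by simp [h]) (by simp)]
    simp [div_eq_inv_mul]
  · exact Finset.sum_congr rfl fun τ' _ => by split_ifs <;> simp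

open Classical in
lemma rib_sum_swap (m : c.Std N → K) (σ : c.Std N) :
    (∑ τ' : c.Std N, if τ'.1 = σ.1 then m τ' else 0) = m σ := by
  rw [Finset.sum_eq_single σ (fun τ' _ h => if_neg fun e => h (Subtype.ext e)) (by simp)]
  simp

end generic

lemma rib_block_mulVec {ι K : Type} [Fintype ι] [DecidableEq ι] [CommRing K] {κ : ι → Type}
    [∀ i, Fintype (κ i)] (F : ∀ i, Matrix (κ i) (κ i) K) (m : (Σ i, κ i) → K) (i : ι) (x : κ i) :
    (blockDiagonal' F *ᵥ m) ⟨i, x⟩ = (F i *ᵥ fun y => m ⟨i, y⟩) x := by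
  simp only [mulVec, dotProduct, Fintype.sum_sigma]
  rw [Finset.sum_eq_single i (fun j _ h => by
    simp [blockDiagonal'_apply_ne _ _ _ h.symm]) (by simp)]
  simp

lemma rib_dvd_prod {S ι : Type*} [CommRing S] (t : Finset ι) (f : ι → S) (u w : S) :
    u - w ∣ ∏ i ∈ t, (u + f i) - ∏ i ∈ t, (w + f i) := by
  classical
  induction t using Finset.induction_on with
  | empty => simp
  | insert i t hi ih =>
    rw [Finset.prod_insert hi, Finset.prod_insert hi]
    have : (u + f i) * ∏ i ∈ t, (u + f i) - (w + f i) * ∏ i ∈ t, (w + f i) =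
        (u - w) * ∏ i ∈ t, (u + f i) + (w + f i) * (∏ i ∈ t, (u + f i) - ∏ i ∈ t, (w + f i)) := by
      ring
    rw [this]
    exact dvd_add (dvd_mul_right _ _) (ih.mul_left _)

variable {l : ℕ} {r : ℤ → ℤ} (hr : IsRibbon r) (a b : Fin l → ℤ) (N : ℕ)

/-- the calibrated data attached to a permutation -/
noncomputable abbrev calv (v : Perm (Fin l)) : Cal (Bx r a fun j => b (v.symm j)) (Q l) :=
  cal hr a (fun j => b (v.symm j)) v

/-- all standard orderings -/
abbrev Arr : Type := Σ v : Perm (Fin l), (calv hr a b v).Std N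

variable {hr a b N}

/-- the word of contents -/
def Arr.word (π : Arr hr a b N) (s : Fin N) : ℤ := (π.2.1 s).c

/-- recorded labels -/
def Arr.lab (γ : Fin l ⊕ Fin N) (π : Arr hr a b N) : Fin l :=
  Sum.elim id (fun s => (π.2.1 s).j) γ

/-- evaluation of polynomials in the recorded labels -/
noncomputable def Arr.ev (π : Arr hr a b N) :
    MvPolynomial (Fin l ⊕ Fin N) (R l) →ₐ[R l] Q l :=
  MvPolynomial.aeval fun γ => XQ (π.1.symm (Arr.lab γ π))

variable (hr a b) in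
/-- the lattice on a fibre -/
noncomputable def fibMod (t : Fin N → ℤ) :
    Submodule (R l) ({π : Arr hr a b N // π.word = t} → Q l) :=
  genMod (fun π => π.1.1) (fun γ π => Arr.lab γ π.1)

variable (hr a b N) in
/-- the lattice -/
noncomputable def latMod : Submodule (R l) (Arr hr a b N → Q l) :=
  ⨅ t, (fibMod hr a b t).comap (LinearMap.funLeft (R l) (Q l) Subtype.val)

lemma mem_latMod (g : Arr hr a b N → Q l) :
    g ∈ latMod hr a b N ↔ ∀ t, (fun π => g π.1) ∈ fibMod hr a b t := by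
  simp only [latMod, Submodule.mem_iInf, Submodule.mem_comap]
  rfl

lemma mem_latMod' (g : Arr hr a b N → Q l) :
    g ∈ latMod hr a b N ↔ ∀ t, ∃ p, ∀ π : Arr hr a b N, π.word = t → g π = π.ev p := by
  rw [mem_latMod]
  refine forall_congr' fun t => ?_
  rw [fibMod, genMod, Subalgebra.mem_toSubmodule, Algebra.adjoin_range_eq_range_aeval,
    AlgHom.mem_range]
  refine exists_congr fun p => ?_
  have key : ∀ π : {π : Arr hr a b N // π.word = t}, (MvPolynomial.aeval (R := R l)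
      (fun (γ : Fin l ⊕ Fin N) (π : {π : Arr hr a b N // π.word = t}) =>
        algebraMap (R l) (Q l) (MvPolynomial.X (π.1.1.symm (Arr.lab γ π.1)))) p) π = π.1.ev p := by
    intro π
    have := MvPolynomial.comp_aeval_apply (R := R l)
      (f := fun (γ : Fin l ⊕ Fin N) (π : {π : Arr hr a b N // π.word = t}) =>
        algebraMap (R l) (Q l) (MvPolynomial.X (π.1.1.symm (Arr.lab γ π.1))))
      (Pi.evalAlgHom (R l) (fun _ => Q l) π) p
    exact this
  constructor
  · intro h π hπ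
    rw [← key ⟨π, hπ⟩, h]
  · intro h
    funext π
    rw [key, h π.1 π.2]

lemma ev_swap (v : Perm (Fin l)) (τ σ : (calv hr a b v).Std N) (s : Adj N)
    (h : σ.1 = (sr s).trans τ.1) (p : MvPolynomial (Fin l ⊕ Fin N) (R l)) :
    Arr.ev ⟨v, σ⟩ p = Arr.ev ⟨v, τ⟩
      (MvPolynomial.rename (swap (Sum.inr s.1.1) (Sum.inr s.1.2)) p) := by
  unfold Arr.ev
  rw [MvPolynomial.aeval_rename]
  congr 2
  funext γ
  rcases γ with j | x
  · simp [Arr.lab, swap_apply_of_ne_of_ne]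
  · have : (swap (Sum.inr s.1.1) (Sum.inr s.1.2) : Perm (Fin l ⊕ Fin N)) (Sum.inr x) =
        Sum.inr (sr s x) := (Sum.inr_injective.swap_apply _ _ _)
    simp [Arr.lab, this, h]

/-- the common denominator -/
noncomputable def Den (l K : ℕ) : R l :=
  ∏ m ∈ (Finset.Icc (-(K : ℤ)) K).erase 0, ∏ k : Fin l × Fin l,
    ((m : R l) + (MvPolynomial.X k.1 - MvPolynomial.X k.2))

lemma Den_ne (l K : ℕ) : MvPolynomial.constantCoeff (Den l K) ≠ 0 := by
  simp only [Den, map_prod, map_add, map_sub, map_intCast, MvPolynomial.constantCoeff_X]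
  refine Finset.prod_ne_zero_iff.2 fun m hm => Finset.prod_ne_zero_iff.2 fun k _ => ?_
  simpa using (Finset.mem_erase.1 hm).1

lemma Den_div {K : ℕ} {m : ℤ} (hm : m ≠ 0) (hK : |m| ≤ K) (x y : Fin N) :
    ∃ E : MvPolynomial (Fin l ⊕ Fin N) (R l), ∀ π : Arr hr a b N,
      algebraMap (R l) (Q l) (Den l K) =
        ((m : Q l) + XQ (π.1.symm (π.2.1 y).j) - XQ (π.1.symm (π.2.1 x).j)) * π.ev E := by
  obtain ⟨E, hE⟩ := rib_dvd_prod (S := MvPolynomial (Fin l ⊕ Fin N) (R l)) Finset.univ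
    (fun k : Fin l × Fin l => MvPolynomial.X (Sum.inl k.1) - MvPolynomial.X (Sum.inl k.2))
    (m : _) (MvPolynomial.X (Sum.inr x) - MvPolynomial.X (Sum.inr y))
  have hmem : m ∈ (Finset.Icc (-(K : ℤ)) K).erase 0 :=
    Finset.mem_erase.2 ⟨hm, Finset.mem_Icc.2 (abs_le.1 hK)⟩
  refine ⟨E * MvPolynomial.C (∏ m' ∈ ((Finset.Icc (-(K : ℤ)) K).erase 0).erase m,
    ∏ k : Fin l × Fin l, ((m' : R l) + (MvPolynomial.X k.1 - MvPolynomial.X k.2))), fun π => ?_⟩
  rw [Den, ← Finset.mul_prod_erase _ _ hmem, map_mul, map_mul, ← mul_assoc]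
  congr 1
  · have h1 := congrArg π.ev hE
    simp only [map_sub, map_prod, map_add, map_mul, map_intCast, Arr.ev, MvPolynomial.aeval_X,
      Arr.lab, Sum.elim_inl, Sum.elim_inr, id] at h1
    have h0 : ∏ k : Fin l × Fin l, (XQ (π.1.symm (π.2.1 x).j) - XQ (π.1.symm (π.2.1 y).j) +
        (XQ (π.1.symm k.1) - XQ (π.1.symm k.2))) = 0 :=
      Finset.prod_eq_zero (Finset.mem_univ ((π.2.1 y).j, (π.2.1 x).j)) (by simp)
    rw [h0, sub_zero] at h1
    have h2 := Equiv.prod_comp (π.1.symm.prodCongr π.1.symm)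
      (fun k : Fin l × Fin l => (m : Q l) + (XQ k.1 - XQ k.2))
    simp only [prodCongr_apply, Prod.map] at h2
    rw [h2] at h1
    simp only [map_prod, map_add, map_sub, map_intCast]
    rw [show (∏ k : Fin l × Fin l, ((m : Q l) + (algebraMap (R l) (Q l) (MvPolynomial.X k.1) -
      algebraMap (R l) (Q l) (MvPolynomial.X k.2)))) = _ from h1]
    unfold Arr.ev Arr.lab
    congr 1
    ring
  · simp [Arr.ev]

lemma lat_gen {K : ℕ} (hK : ∀ i j, b i - a j ≤ K) (s : Adj N) (m : Arr hr a b N → Q l)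
    (hm : m ∈ latMod hr a b N) :
    Den l K • (blockDiagonal' (fun v => (calv hr a b v).S s) *ᵥ m) ∈ latMod hr a b N := by
  rw [mem_latMod'] at hm ⊢
  intro t
  obtain ⟨p, hp⟩ := hm t
  obtain ⟨p', hp'⟩ := hm (t ∘ sr s)
  have key : ∀ (v : Perm (Fin l)) (τ : (calv hr a b v).Std N), Arr.word ⟨v, τ⟩ = t →
      (blockDiagonal' (fun v => (calv hr a b v).S s) *ᵥ m) ⟨v, τ⟩ =
        Arr.ev ⟨v, τ⟩ p / (xv v (τ.1 s.1.2) - xv v (τ.1 s.1.1)) +
          (1 - (eps r (t s.1.1) (t s.1.2) : Q l) / (xv v (τ.1 s.1.2) - xv v (τ.1 s.1.1))) *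
            Arr.ev ⟨v, τ⟩ (MvPolynomial.rename (swap (Sum.inr s.1.1) (Sum.inr s.1.2)) p') := by
    intro v τ hτ
    rw [rib_block_mulVec, rib_S_mulVec, hp _ hτ]
    congr 1
    have hb : (calv hr a b v).b (τ.1 s.1.1) (τ.1 s.1.2) =
        1 - (eps r (t s.1.1) (t s.1.2) : Q l) / (xv v (τ.1 s.1.2) - xv v (τ.1 s.1.1)) := by
      rw [← hτ]; rfl
    rw [← hb]
    by_cases h : (calv hr a b v).H (τ.1 s.1.1) (τ.1 s.1.2) ∨
        (calv hr a b v).V (τ.1 s.1.1) (τ.1 s.1.2)
    · rw [(calv hr a b v).bz _ _ h, zero_mul, zero_mul]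
    · let σ : (calv hr a b v).Std N := ⟨(sr s).trans τ.1, rib_swap_std _ τ s h⟩
      have := rib_sum_swap (calv hr a b v) (fun y => m ⟨v, y⟩) σ
      rw [← ev_swap v τ σ s rfl, ← hp' ⟨v, σ⟩ (by rw [← hτ]; rfl), ← this]
  have hne : ∀ (v : Perm (Fin l)) (τ : (calv hr a b v).Std N),
      xv v (τ.1 s.1.2) - xv v (τ.1 s.1.1) ≠ 0 := by
    intro v τ h
    obtain ⟨h1, h2⟩ := xv_eq (n := 0) (by simpa using h)
    exact s.ne (τ.1.injective (Bx.ext h2 (by omega)))
  by_cases ht : t s.1.1 = t s.1.2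
  · have htt : t ∘ sr s = t := by
      funext x
      simp only [Function.comp, sr, swap_apply_def]
      split_ifs with h1 h2
      · rw [h1, ht]
      · rw [h2, ht]
      · rfl
    obtain ⟨q, hq⟩ := X_sub_X_dvd_sub_swap (Sum.inr s.1.1 : Fin l ⊕ Fin N) (Sum.inr s.1.2) p'
    refine ⟨MvPolynomial.C (Den l K) *
      (MvPolynomial.rename (swap (Sum.inr s.1.1) (Sum.inr s.1.2)) p' - q), ?_⟩
    rintro ⟨v, τ⟩ hτ
    have h0 := hne v τ
    have h1 := congrArg (Arr.ev ⟨v, τ⟩) hq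
    have h2 : Arr.ev ⟨v, τ⟩ p = Arr.ev ⟨v, τ⟩ p' := by
      rw [← hp _ hτ, ← hp' _ (hτ.trans htt.symm)]
    have h3 : Arr.ev ⟨v, τ⟩ (MvPolynomial.X (Sum.inr s.1.1) - MvPolynomial.X (Sum.inr s.1.2)) =
        -(xv v (τ.1 s.1.2) - xv v (τ.1 s.1.1)) := by
      have e1 : (τ.1 s.1.1).c = (τ.1 s.1.2).c := by
        have := ht; rw [← hτ] at this; exact this
      rw [xv_sub, e1]
      simp [Arr.ev, Arr.lab]
    rw [map_sub, map_mul, h3] at h1
    rw [Pi.smul_apply, key v τ hτ, map_mul, map_sub, h2, Algebra.smul_def, ht, eps,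
      if_neg (by omega)]
    congr 1
    · simp [Arr.ev]
    · field_simp
      push_cast
      linear_combination h1
  · by_cases hex : ∃ π : Arr hr a b N, π.word = t
    · obtain ⟨π₀, h₀⟩ := hex
      have hb : |t s.1.2 - t s.1.1| ≤ K := by
        rw [← h₀, abs_le]
        have e1 := (π₀.2.1 s.1.1).h1
        have e2 := (π₀.2.1 s.1.1).h2
        have e3 := (π₀.2.1 s.1.2).h1
        have e4 := (π₀.2.1 s.1.2).h2
        have e5 := hK (π₀.1.symm (π₀.2.1 s.1.1).j) (π₀.2.1 s.1.2).j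
        have e6 := hK (π₀.1.symm (π₀.2.1 s.1.2).j) (π₀.2.1 s.1.1).j
        unfold Arr.word
        constructor <;> omega
      obtain ⟨E, hE⟩ := Den_div (hr := hr) (a := a) (b := b) (sub_ne_zero.2 (Ne.symm ht)) hb
        s.1.1 s.1.2
      refine ⟨E * p + (MvPolynomial.C (Den l K) -
          ((eps r (t s.1.1) (t s.1.2) : ℤ) : MvPolynomial (Fin l ⊕ Fin N) (R l)) * E) *
        MvPolynomial.rename (swap (Sum.inr s.1.1) (Sum.inr s.1.2)) p', ?_⟩
      rintro ⟨v, τ⟩ hτ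
      have h0 := hne v τ
      have h1 := hE ⟨v, τ⟩
      have h2 : ((t s.1.2 - t s.1.1 : ℤ) : Q l) + XQ (v.symm (τ.1 s.1.2).j) -
          XQ (v.symm (τ.1 s.1.1).j) = xv v (τ.1 s.1.2) - xv v (τ.1 s.1.1) := by
        rw [xv_sub, ← hτ]; rfl
      dsimp only at h1
      rw [h2] at h1
      have h3 : Arr.ev ⟨v, τ⟩ (MvPolynomial.C (Den l K)) = algebraMap (R l) (Q l) (Den l K) := by
        simp [Arr.ev]
      rw [Pi.smul_apply, key v τ hτ, Algebra.smul_def]
      simp only [map_add, map_mul, map_sub, map_intCast, h3]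
      rw [h1]
      field_simp
    · exact ⟨0, fun π hπ => absurd ⟨π, hπ⟩ hex⟩

lemma lat_all {K : ℕ} (hK : ∀ i j, b i - a j ≤ K)
    (ρ : Perm (Fin N) →* Matrix (Arr hr a b N) (Arr hr a b N) (Q l))
    (hρ : ∀ s, ρ (sr s) = blockDiagonal' fun v => (calv hr a b v).S s) (g : Perm (Fin N)) :
    ∃ L : ℕ, ∀ m ∈ latMod hr a b N, Den l K ^ L • (ρ g *ᵥ m) ∈ latMod hr a b N := by
  have h1 : ∃ L : ℕ, ∀ m ∈ latMod hr a b N, Den l K ^ L • (ρ 1 *ᵥ m) ∈ latMod hr a b N :=
    ⟨0, fun m hm => by simpa using hm⟩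
  rcases N with _ | n
  · rw [Subsingleton.elim g 1]; exact h1
  · have hg : g ∈ Submonoid.closure (Set.range fun i : Fin n => swap i.castSucc i.succ) := by
      rw [Equiv.Perm.mclosure_swap_castSucc_succ]; trivial
    induction hg using Submonoid.closure_induction with
    | mem x hx =>
      obtain ⟨i, rfl⟩ := hx
      refine ⟨1, fun m hm => ?_⟩
      have := hρ ⟨(i.castSucc, i.succ), by simp⟩
      rw [sr] at this
      dsimp only at this ⊢
      rw [this, pow_one]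
      exact lat_gen hK _ m hm
    | one => exact h1
    | mul x y _ _ hx hy =>
      obtain ⟨L, hL⟩ := hx
      obtain ⟨L', hL'⟩ := hy
      refine ⟨L + L', fun m hm => ?_⟩
      have := hL _ (hL' m hm)
      rwa [mulVec_smul, smul_smul, ← pow_add, mulVec_mulVec, ← map_mul] at this

end Pool.Agent.P.MP_c3da96_co
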