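import Pool.Agent.P.MP_c3da96_co.RibB

namespace Pool.Agent.P.MP_c3da96_co

open Equiv Matrix

variable {l : ℕ} {r : ℤ → ℤ} {a b : Fin l → ℤ} {N : ℕ}

/-- the consequences of compatibility used in the proof -/
structure Geo (r : ℤ → ℤ) (a b : Fin l → ℤ) : Prop where
  lt : ∀ i, a i < b i
  conv : ∀ c i j k, a i ≤ c → c ≤ b i → a k ≤ c → c ≤ b k → i ≤ j → j ≤ k → a j ≤ c ∧ c ≤ b j
  src_up : ∀ m k, r (a m) = r (a m - 1) → a k ≤ a m → a m ≤ b k → m ≤ k
  snk_up : ∀ m k, r (b m) = r (b m - 1) → a k ≤ b m → b m ≤ b k → k ≤ m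
  src_dn : ∀ m k, r (a m) ≠ r (a m - 1) → a k ≤ a m → a m ≤ b k → k ≤ m
  snk_dn : ∀ m k, r (b m) ≠ r (b m - 1) → a k ≤ b m → b m ≤ b k → m ≤ k

lemma rib_mem_cellsZ (ν : YoungDiagram) (p : ℤ × ℤ) :
    p ∈ cellsZ ν ↔ 0 ≤ p.1 ∧ 0 ≤ p.2 ∧ (p.1.toNat, p.2.toNat) ∈ ν := by
  simp only [cellsZ, Finset.mem_image, YoungDiagram.mem_cells]
  constructor
  · rintro ⟨c, hc, rfl⟩
    simpa using hc
  · rintro ⟨h1, h2, h3⟩
    exact ⟨_, h3, by ext <;> simp [h1, h2]⟩

lemma rib_skew_conv {lam mu : YoungDiagram} {p q p' : ℤ × ℤ} (hp : p ∈ cellsZ lam \ cellsZ mu)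
    (hp' : p' ∈ cellsZ lam \ cellsZ mu) (h1 : p.1 ≤ q.1) (h2 : p.2 ≤ q.2) (h3 : q.1 ≤ p'.1)
    (h4 : q.2 ≤ p'.2) : q ∈ cellsZ lam \ cellsZ mu := by
  simp only [Finset.mem_sdiff, rib_mem_cellsZ] at hp hp' ⊢
  refine ⟨⟨by omega, by omega, lam.up_left_mem (by omega) (by omega) hp'.1.2.2⟩, fun h => ?_⟩
  exact hp.2 ⟨hp.1.1, hp.1.2.1, mu.up_left_mem (by omega) (by omega) h.2.2⟩

lemma geo_of_decomp (hr : IsRibbon r) {lam mu : YoungDiagram} {κ : Fin l → ℤ}
    (h : IsDecomp r lam mu κ a b) : Geo r a b := by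
  obtain ⟨hκ, hab, hbox⟩ := h
  have hm : ∀ i c, box r (κ i) c ∈ cellsZ lam \ cellsZ mu ↔ a i ≤ c ∧ c < b i := by
    intro i c
    rw [hbox]
    exact ⟨fun ⟨j, hj, h⟩ => hκ.injective hj ▸ h, fun h => ⟨i, rfl, h⟩⟩
  have sand : ∀ i j k c1 c2 c3, a i ≤ c1 → c1 < b i → a k ≤ c3 → c3 < b k →
      r c1 + κ i ≤ r c2 + κ j → r c1 + c1 + κ i ≤ r c2 + c2 + κ j →
      r c2 + κ j ≤ r c3 + κ k → r c2 + c2 + κ j ≤ r c3 + c3 + κ k → a j ≤ c2 ∧ c2 < b j := by
    intro i j k c1 c2 c3 h1 h2 h3 h4 h5 h6 h7 h8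
    exact (hm j c2).1 (rib_skew_conv ((hm i c1).2 ⟨h1, h2⟩) ((hm k c3).2 ⟨h3, h4⟩) h5 h6 h7 h8)
  have hr' : ∀ c, r c = r (c - 1) ∨ r c = r (c - 1) - 1 := fun c => by simpa using hr (c - 1)
  have pick : ∀ i c, a i ≤ c → c ≤ b i → ∃ c', (c' = c ∨ c' = c - 1) ∧ a i ≤ c' ∧ c' < b i := by
    intro i c h1 h2
    have := hab i
    by_cases h : c < b i
    · exact ⟨c, Or.inl rfl, h1, h⟩
    · exact ⟨c - 1, Or.inr rfl, by omega, by omega⟩
  refine ⟨hab, fun c i j k h1 h2 h3 h4 h5 h6 => ?_, fun m k h h1 h2 => ?_, fun m k h h1 h2 => ?_,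
    fun m k h h1 h2 => ?_, fun m k h h1 h2 => ?_⟩
  · rcases h5.eq_or_lt with rfl | h5
    · exact ⟨h1, h2⟩
    rcases h6.eq_or_lt with rfl | h6
    · exact ⟨h3, h4⟩
    have e1 := hκ h5
    have e2 := hκ h6
    obtain ⟨c1, f1, f2, f3⟩ := pick i c h1 h2
    obtain ⟨c3, g1, g2, g3⟩ := pick k c h3 h4
    have := sand i j k c1 c c3 f2 f3 g2 g3
    have := hr' c
    rcases f1 with rfl | rfl <;> rcases g1 with rfl | rfl <;> omega
  · by_contra hc
    have e1 := hκ (not_le.1 hc)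
    obtain ⟨c1, f1, f2, f3⟩ := pick k _ h1 h2
    have := sand k m m c1 (a m - 1) (a m) f2 f3 le_rfl (hab m)
    rcases f1 with rfl | rfl <;> omega
  · by_contra hc
    have e1 := hκ (not_le.1 hc)
    obtain ⟨c1, f1, f2, f3⟩ := pick k _ h1 h2
    have := hab m
    have := sand m m k (b m - 1) (b m) c1 (by omega) (by omega) f2 f3
    rcases f1 with rfl | rfl <;> omega
  · by_contra hc
    have e1 := hκ (not_le.1 hc)
    obtain ⟨c1, f1, f2, f3⟩ := pick k _ h1 h2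
    have := sand m m k (a m) (a m - 1) c1 le_rfl (hab m) f2 f3
    have := hr' (a m)
    rcases f1 with rfl | rfl <;> omega
  · by_contra hc
    have e1 := hκ (not_le.1 hc)
    obtain ⟨c1, f1, f2, f3⟩ := pick k _ h1 h2
    have := hab m
    have := sand k m m c1 (b m) (b m - 1) f2 f3 (by omega) (by omega)
    have := hr' (b m)
    rcases f1 with rfl | rfl <;> omega

/-- the increasing matching of times and positions for a word -/
structure Pos (a b : Fin l → ℤ) (t : Fin N → ℤ) where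
  pos : Fin N → Fin l
  mem : ∀ s, a (pos s) ≤ t s ∧ t s < b (pos s)
  lt : ∀ s s', t s = t s' → (s < s' ↔ pos s < pos s')
  surj : ∀ c k, a k ≤ c → c < b k → ∃ s, t s = c ∧ pos s = k

lemma Pos.le {t : Fin N → ℤ} (Z : Pos a b t) {s s' : Fin N} (h : t s = t s') :
    s ≤ s' ↔ Z.pos s ≤ Z.pos s' := by
  rw [← not_lt, ← not_lt, Z.lt s' s h.symm]

lemma Pos.inj {t : Fin N → ℤ} (Z : Pos a b t) {s s' : Fin N} (h : t s = t s')
    (h' : Z.pos s = Z.pos s') : s = s' :=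
  le_antisymm ((Z.le h).2 h'.le) ((Z.le h.symm).2 h'.ge)

lemma Arr.valid {hr : IsRibbon r} (hab : ∀ i, a i < b i) (π : Arr hr a b (NB a b)) (j : Fin l) :
    a j ≤ b (π.1.symm j) :=
  (rib_card_valid (r := r) hab π.1).1 (by rw [← Fintype.card_congr π.2.1, Fintype.card_fin]) j

lemma exists_pos {hr : IsRibbon r} (hab : ∀ i, a i < b i) (π : Arr hr a b (NB a b)) :
    Nonempty (Pos a b π.word) := by
  have hv := π.valid hab
  have hc : ∀ c, Fintype.card {s // π.word s = c} = Fintype.card {k // a k ≤ c ∧ c < b k} := by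
    intro c
    have e1 : {s // π.word s = c} ≃ {j // a j ≤ c ∧ c < b (π.1.symm j)} :=
      { toFun := fun s => ⟨(π.2.1 s.1).j, (π.2.1 s.1).h1.trans_eq s.2,
          s.2.symm.trans_lt (π.2.1 s.1).h2⟩
        invFun := fun j => ⟨π.2.1.symm ⟨j.1, c, j.2.1, j.2.2⟩, by simp [Arr.word]⟩
        left_inv := fun s => Subtype.ext (by
          obtain ⟨s, rfl⟩ := s
          exact π.2.1.symm_apply_apply s)
        right_inv := fun j => Subtype.ext (by simp) }
    rw [Fintype.card_congr e1, Fintype.card_subtype, Fintype.card_subtype, Finset.card_filter,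
      Finset.card_filter, ← Nat.cast_inj (R := ℤ)]
    push_cast
    have h1 : ∀ e : Fin l → ℤ, (∀ j, a j ≤ e j) → ∑ j, (if a j ≤ c ∧ c < e j then (1 : ℤ) else 0) =
        ∑ j, (if a j ≤ c then (1 : ℤ) else 0) - ∑ j, (if e j ≤ c then (1 : ℤ) else 0) := by
      intro e he
      rw [← Finset.sum_sub_distrib]
      refine Finset.sum_congr rfl fun j _ => ?_
      have := he j
      split_ifs <;> omega
    rw [h1 _ hv, h1 b fun j => (hab j).le,
      Equiv.sum_comp π.1.symm fun j => if b j ≤ c then (1 : ℤ) else 0]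
  let iso : ∀ c, {s // π.word s = c} ≃o {k // a k ≤ c ∧ c < b k} := fun c =>
    (Fintype.orderIsoFinOfCardEq _ rfl).symm.trans (Fintype.orderIsoFinOfCardEq _ (hc c).symm)
  have hi : ∀ s c (h : π.word s = c), (iso (π.word s) ⟨s, rfl⟩).1 = (iso c ⟨s, h⟩).1 := by
    intro s c h; subst h; rfl
  refine ⟨⟨fun s => (iso (π.word s) ⟨s, rfl⟩).1, fun s => (iso (π.word s) ⟨s, rfl⟩).2,
    fun s s' h => ?_, fun c k h1 h2 => ?_⟩⟩
  · rw [hi s _ h]
    exact ((iso (π.word s')).lt_iff_lt (x := ⟨s, h⟩) (y := ⟨s', rfl⟩)).symm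
  · refine ⟨((iso c).symm ⟨k, h1, h2⟩).1, ((iso c).symm ⟨k, h1, h2⟩).2, ?_⟩
    rw [hi _ c ((iso c).symm ⟨k, h1, h2⟩).2]
    simp

/-- the staircase of the line between contents `c - 1` and `c` -/
def stair (G : Geo r a b) {t : Fin N → ℤ} (Z : Pos a b t) (c : ℤ) : Stair l where
  J := Finset.univ.filter fun k => a k ≤ c ∧ c ≤ b k
  conv i j k hi hk h1 h2 := by
    simp only [Finset.mem_filter, Finset.mem_univ, true_and] at hi hk ⊢
    exact G.conv c i j k hi.1 hi.2 hk.1 hk.2 h1 h2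
  up := decide (r c = r (c - 1))
  Al m k := ∀ s s', t s = c - 1 → Z.pos s = m → t s' = c → Z.pos s' = k →
    if r c = r (c - 1) then s < s' else s' < s
  mono m m' k k' hm hm' hk hk' hA hle s s' h1 h2 h3 h4 := by
    simp only [Finset.mem_filter, Finset.mem_univ, true_and, decide_eq_true_eq] at hm hm' hk hk' hle
    have e1 := Z.mem s
    have e2 := Z.mem s'
    rw [h1, h2] at e1
    rw [h3, h4] at e2
    have f1 : a m ≤ c - 1 := by
      by_contra hc
      have hc' : a m = c := by omega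
      split_ifs at hle with h
      · have := le_antisymm hle.1 (G.src_up m m' (hc' ▸ h) (by omega) (by omega))
        subst this; omega
      · have := le_antisymm hle.1 (G.src_dn m m' (hc' ▸ h) (by omega) (by omega))
        subst this; omega
    have f2 : c < b k := by
      by_contra hc
      have hc' : b k = c := by omega
      split_ifs at hle with h
      · have := le_antisymm hle.2 (G.snk_up k k' (hc' ▸ h) (by omega) (by omega))
        subst this; omega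
      · have := le_antisymm hle.2 (G.snk_dn k k' (hc' ▸ h) (by omega) (by omega))
        subst this; omega
    obtain ⟨u, hu1, hu2⟩ := Z.surj (c - 1) m f1 (by omega)
    obtain ⟨u', hu1', hu2'⟩ := Z.surj c k hk.1 f2
    have := hA u u' hu1 hu2 hu1' hu2'
    split_ifs at hle this ⊢ with h
    · have g1 : s ≤ u := (Z.le (h1.trans hu1.symm)).2 (by rw [h2, hu2]; exact hle.1)
      have g2 : u' ≤ s' := (Z.le (hu1'.trans h3.symm)).2 (by rw [h4, hu2']; exact hle.2)
      exact g1.trans_lt (this.trans_le g2)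
    · have g1 : u ≤ s := (Z.le (hu1.trans h1.symm)).2 (by rw [h2, hu2]; exact hle.1)
      have g2 : s' ≤ u' := (Z.le (h3.trans hu1'.symm)).2 (by rw [h4, hu2']; exact hle.2)
      exact g2.trans_lt (this.trans_le g1)

end Pool.Agent.P.MP_c3da96_co
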