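import Pool.Agent.P.MP_c3da96_co.WebBase

namespace Pool.Agent.P.MP_c3da96_co

open Equiv Matrix

set_option linter.unusedSectionVars false

variable {n : ℕ}

section tri
variable {κ K : Type} [Fintype κ] [DecidableEq κ] [Field K] (h : κ → ℕ)

/-- triangular matrices for a height function -/
def web_Tri (N : Matrix κ κ K) : Prop := ∀ j i, N j i ≠ 0 → j = i ∨ h i < h j

lemma web_Tri.mul {N N' : Matrix κ κ K} (h1 : web_Tri h N) (h2 : web_Tri h N') :
    web_Tri h (N * N') ∧ ∀ i, (N * N') i i = N i i * N' i i := by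
  constructor
  · intro j i hji
    rw [Matrix.mul_apply] at hji
    obtain ⟨k, -, hk⟩ := Finset.exists_ne_zero_of_sum_ne_zero hji
    rcases h1 j k (left_ne_zero_of_mul hk) with e | e <;>
      rcases h2 k i (right_ne_zero_of_mul hk) with e' | e'
    · exact Or.inl (e.trans e')
    · exact Or.inr (e ▸ e')
    · exact Or.inr (e' ▸ e)
    · exact Or.inr (e'.trans e)
  · intro i
    rw [Matrix.mul_apply, Finset.sum_eq_single i]
    · intro k _ hk
      by_contra hne
      rcases h1 i k (left_ne_zero_of_mul hne) with e | e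
      · exact hk e.symm
      · rcases h2 k i (right_ne_zero_of_mul hne) with e' | e'
        · exact hk e'
        · omega
    · simp

lemma web_Tri.prod {Y : Matrix κ κ K} (hY : web_Tri h Y) (l : List K) :
    web_Tri h (l.map (fun c => Y - c • (1 : Matrix κ κ K))).prod ∧
      ∀ i, (l.map (fun c => Y - c • (1 : Matrix κ κ K))).prod i i =
        (l.map (fun c => Y i i - c)).prod := by
  induction l with
  | nil =>
    refine ⟨fun j i hji => Or.inl ?_, fun i => by simp⟩
    by_contra e
    simp [one_apply_ne e] at hji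
  | cons c l ih =>
    have h1 : web_Tri h (Y - c • (1 : Matrix κ κ K)) := by
      intro j i hji
      by_cases e : j = i
      · exact Or.inl e
      · exact hY j i (by simpa [one_apply_ne e] using hji)
    obtain ⟨h2, h3⟩ := h1.mul h ih.1
    refine ⟨by simpa using h2, fun i => ?_⟩
    rw [List.map_cons, List.prod_cons, h3, ih.2]
    simp

variable {L : Type} (lab : κ → L) (ht : L → ℕ) {d : L → K}

lemma web_respect (hd : Function.Injective d) {Y T : Matrix κ κ K}
    (hY : web_Tri (fun i => ht (lab i)) Y) (hdiag : ∀ i, Y i i = d (lab i)) (hT : T * Y = Y * T)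
    (j i : κ) (hji : T j i ≠ 0) : lab i = lab j ∨ ht (lab i) < ht (lab j) := by
  classical
  by_contra hcon
  let V : Finset (κ × κ) := Finset.univ.filter
    (fun p => T p.1 p.2 ≠ 0 ∧ ¬ (lab p.2 = lab p.1 ∨ ht (lab p.2) < ht (lab p.1)))
  obtain ⟨⟨j, i⟩, hp, hmax⟩ := V.exists_max_image (fun p => (ht (lab p.2) : ℤ) - ht (lab p.1))
    ⟨(j, i), by simp only [V, Finset.mem_filter, Finset.mem_univ, true_and]; exact ⟨hji, hcon⟩⟩
  simp only [V, Finset.mem_filter, Finset.mem_univ, true_and, not_or, not_lt, Prod.forall,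
    and_imp] at hp hmax
  obtain ⟨h1, h2, h3⟩ := hp
  have e := congrFun (congrFun hT j) i
  rw [Matrix.mul_apply, Matrix.mul_apply, Finset.sum_eq_single i, Finset.sum_eq_single j,
    hdiag, hdiag] at e
  · rw [mul_comm] at e
    exact h2 (hd (mul_right_cancel₀ h1 e))
  · intro k _ hk
    by_contra hne
    rcases hY j k (left_ne_zero_of_mul hne) with e' | e'
    · exact hk e'.symm
    · dsimp only at e'
      have := hmax k i (right_ne_zero_of_mul hne) (fun e'' => by rw [e''] at h3; omega)
        (by omega)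
      omega
  · simp
  · intro k _ hk
    by_contra hne
    rcases hY k i (right_ne_zero_of_mul hne) with e' | e'
    · exact hk e'
    · dsimp only at e'
      have := hmax j k (left_ne_zero_of_mul hne) (fun e'' => by rw [e''] at e'; omega)
        (by omega)
      omega
  · simp

lemma web_trace_part [Fintype L] [DecidableEq L] (hd : Function.Injective d)
    {A : Type} [Fintype A] [DecidableEq A] (en : A → L) {Y : Matrix κ κ K}
    (hY : web_Tri (fun i => ht (lab i)) Y) (hdiag : ∀ i, Y i i = d (lab i))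
    (I : Matrix κ A K) (P : Matrix A κ K) (hPI : P * I = 1)
    (hI : I * diagonal (fun π => d (en π)) = Y * I) (f : Matrix A A K)
    (hT : I * f * P * Y = Y * (I * f * P)) (v : L) :
    ∑ π with en π = v, f π π = ∑ k with lab k = v, (I * f * P) k k := by
  let l : List K := ((Finset.univ.erase v).toList).map d
  have hl : ∀ x : L, (l.map (fun c => d x - c)).prod =
      if x = v then (l.map (fun c => d v - c)).prod else 0 := by
    intro x
    split_ifs with hx
    · rw [hx]
    · apply List.prod_eq_zero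
      simp only [l, List.map_map, List.mem_map, Finset.mem_toList]
      exact ⟨x, by simp [hx], by simp⟩
  have hc : (l.map (fun c => d v - c)).prod ≠ 0 := by
    intro h0
    rw [List.prod_eq_zero_iff] at h0
    simp only [l, List.map_map, List.mem_map, Finset.mem_toList, Function.comp] at h0
    obtain ⟨x, hx, h0⟩ := h0
    exact (Finset.mem_erase.1 hx).1 (hd (sub_eq_zero.1 h0)).symm
  have hNI : ∀ l : List K, (l.map (fun c => Y - c • (1 : Matrix κ κ K))).prod * I =
      I * diagonal (fun π => (l.map (fun c => d (en π) - c)).prod) := by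
    intro l
    induction l with
    | nil => simp
    | cons c l ih =>
      rw [List.map_cons, List.prod_cons, Matrix.mul_assoc, ih, ← Matrix.mul_assoc, Matrix.sub_mul,
        ← hI, Matrix.smul_mul, Matrix.one_mul]
      ext k π
      simp [mul_diagonal]
      ring
  obtain ⟨h1, h2⟩ := hY.prod _ l
  set N := (l.map (fun c => Y - c • (1 : Matrix κ κ K))).prod with hN
  set c := (l.map (fun c => d v - c)).prod with hc'
  have e1 : trace (N * (I * f * P)) = c * ∑ k with lab k = v, (I * f * P) k k := by
    rw [trace, Finset.mul_sum, Finset.sum_filter]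
    refine Finset.sum_congr rfl (fun k _ => ?_)
    rw [diag_apply, Matrix.mul_apply, Finset.sum_eq_single k, h2, hdiag, hl]
    · split_ifs <;> simp
    · intro k' _ hk
      by_contra hne
      rcases h1 k k' (left_ne_zero_of_mul hne) with e | e
      · exact hk e.symm
      · dsimp only at e
        rcases web_respect lab ht hd hY hdiag hT k' k (right_ne_zero_of_mul hne) with e' | e'
        · rw [e'] at e; exact lt_irrefl _ e
        · omega
    · simp
  have e2 : trace (N * (I * f * P)) = c * ∑ π with en π = v, f π π := by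
    rw [← Matrix.mul_assoc, trace_mul_comm, ← Matrix.mul_assoc N, hNI, ← Matrix.mul_assoc,
      ← Matrix.mul_assoc, hPI, Matrix.one_mul, trace, Finset.mul_sum, Finset.sum_filter]
    refine Finset.sum_congr rfl (fun π _ => ?_)
    rw [diag_apply, diagonal_mul, hl]
    split_ifs <;> simp
  exact mul_left_cancel₀ hc (e2.symm.trans e1)

end tri

/-- a linear form separating the permutations -/
lemma web_exists_sep : ∃ g : R n, Function.Injective
    (fun x : Perm (Fin n) => algebraMap (R n) (Q n) (act x g)) := by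
  refine ⟨∑ i : Fin n, MvPolynomial.C ((i : ℕ) : ℝ) * MvPolynomial.X i, fun x y hxy => ?_⟩
  have h := web_inj hxy
  have key : ∀ (z : Perm (Fin n)) (j : Fin n), MvPolynomial.coeff (Finsupp.single j 1)
      (act z (∑ i : Fin n, MvPolynomial.C ((i : ℕ) : ℝ) * MvPolynomial.X i)) = ((z j : ℕ) : ℝ) := by
    intro z j
    simp only [map_sum, map_mul, act_C, act_X, MvPolynomial.coeff_sum, MvPolynomial.coeff_C_mul,
      MvPolynomial.coeff_X]
    rw [Finset.sum_eq_single (z j)]
    · simp
    · intro i _ hi
      rw [if_neg, mul_zero]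
      intro e
      have := Finsupp.single_left_injective one_ne_zero e
      exact hi (by rw [← this]; simp)
    · simp
  ext j
  have := key x j
  rw [h, key] at this
  exact_mod_cast this.symm

/-- the value at the origin of a fraction with denominator a power of `D` -/
def web_Val (D : R n) (q : Q n) (c : ℝ) : Prop :=
  ∃ (L : ℕ) (r : R n), algebraMap (R n) (Q n) r = algebraMap (R n) (Q n) D ^ L * q ∧
    MvPolynomial.constantCoeff r = MvPolynomial.constantCoeff D ^ L * c

section val
variable {D : R n}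

lemma web_Val.unique (hD : MvPolynomial.constantCoeff D ≠ 0) {q : Q n} {c c' : ℝ}
    (h : web_Val D q c) (h' : web_Val D q c') : c = c' := by
  obtain ⟨L, r, h1, h2⟩ := h
  obtain ⟨L', r', h1', h2'⟩ := h'
  have : D ^ L' * r = D ^ L * r' := by
    apply web_inj
    rw [map_mul, map_mul, map_pow, map_pow, h1, h1']
    ring
  have := congrArg MvPolynomial.constantCoeff this
  rw [map_mul, map_mul, map_pow, map_pow, h2, h2'] at this
  apply mul_left_cancel₀ (mul_ne_zero (pow_ne_zero L hD) (pow_ne_zero L' hD))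
  linear_combination this

lemma web_Val.add {q q' : Q n} {c c' : ℝ} (h : web_Val D q c) (h' : web_Val D q' c') :
    web_Val D (q + q') (c + c') := by
  obtain ⟨L, r, h1, h2⟩ := h
  obtain ⟨L', r', h1', h2'⟩ := h'
  refine ⟨L + L', D ^ L' * r + D ^ L * r', ?_, ?_⟩
  · rw [map_add, map_mul, map_mul, map_pow, map_pow, h1, h1']; ring
  · rw [map_add, map_mul, map_mul, map_pow, map_pow, h2, h2']; ring

lemma web_Val.natCast (c : ℕ) : web_Val D (c : Q n) (c : ℝ) := ⟨0, c, by simp, by simp⟩

lemma web_Val.sum {ι : Type*} (s : Finset ι) {q : ι → Q n} {c : ι → ℝ}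
    (h : ∀ i ∈ s, web_Val D (q i) (c i)) : web_Val D (∑ i ∈ s, q i) (∑ i ∈ s, c i) := by
  classical
  induction s using Finset.induction_on with
  | empty => simpa using web_Val.natCast (D := D) 0
  | insert a s ha ih =>
    rw [Finset.sum_insert ha, Finset.sum_insert ha]
    exact (h a (Finset.mem_insert_self _ _)).add
      (ih (fun i hi => h i (Finset.mem_insert_of_mem hi)))

end val

variable (Pk : Pack n)

lemma web_eps {u1 u2 u3 : Perm (Fin n)} (h13 : u1 = u3) (T : Matrix (Pk.ι u1) (Pk.ι u2) (R n))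
    (T' : Matrix (Pk.ι u2) (Pk.ι u3) (R n)) (hT : ∀ g, T * Pk.Y u2 g = Pk.Y u1 g * T)
    (hT' : ∀ g, T' * Pk.Y u3 g = Pk.Y u2 g * T') :
    MvPolynomial.constantCoeff ((T * T') (Pk.top u1) (Pk.top u3)) =
      if u2 = u1 then MvPolynomial.constantCoeff (T (Pk.top u1) (Pk.top u2)) *
        MvPolynomial.constantCoeff (T' (Pk.top u2) (Pk.top u3)) else 0 := by
  subst h13
  split_ifs with h
  · subst h
    exact Pk.eps_mul _ T T' hT hT'
  · exact Pk.eps_ne _ _ (Ne.symm h) T T' hT hT'

theorem web_trace {A : Type} [Fintype A] [DecidableEq A] {en : A → Perm (Fin n)}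
    {M : Submodule (R n) (A → Q n)} (hU : InU Pk en M) {G : Type} [Monoid G]
    (ρ : G →* Matrix A A (Q n)) (hblock : ∀ g π π', ρ g π π' ≠ 0 → en π = en π')
    (D : R n) (hD : MvPolynomial.constantCoeff D ≠ 0)
    (hlat : ∀ g, ∃ L : ℕ, ∀ m ∈ M, D ^ L • (ρ g *ᵥ m) ∈ M) :
    ∃ (J : Perm (Fin n) → Type) (_ : ∀ u, Fintype (J u)) (_ : ∀ u, DecidableEq (J u))
      (φ : ∀ u, G → Matrix (J u) (J u) ℝ), (∀ u g h, φ u (g * h) = φ u g * φ u h) ∧
      ∀ (S : Finset G) (v : Perm (Fin n)) (c : ℕ),
        ∑ g ∈ S, ∑ π with en π = v, ρ g π π = (c : Q n) →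
        (c : ℝ) = ∑ u, (((KL v u).eval 1 : ℤ) : ℝ) * ∑ g ∈ S, trace (φ u g) := by
  classical
  obtain ⟨J, i1, i2, u, I, P, h1, h2, h3, h4, h5⟩ := hU
  choose L hL using hlat
  obtain ⟨W, hW⟩ : ∃ W : G → Matrix (Σ j, Pk.ι (u j)) (Σ j, Pk.ι (u j)) (Q n),
      ∀ g, W g = I * ρ g * P := ⟨_, fun _ => rfl⟩
  have hint : ∀ g k k', ∃ r : R n,
      algebraMap (R n) (Q n) r = algebraMap (R n) (Q n) D ^ L g * W g k k' := by
    intro g k k'
    obtain ⟨r, hr⟩ := h4 _ (hL g _ (h5 k')) k
    refine ⟨r, ?_⟩
    rw [hr, ← algebraMap_smul (Q n), mulVec_smul, mulVec_mulVec, map_pow, hW]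
    simp only [Pi.smul_apply, smul_eq_mul, mulVec, dotProduct]
    rw [Matrix.mul_apply]
  choose T hT using hint
  set Y : R n → Matrix (Σ j, Pk.ι (u j)) (Σ j, Pk.ι (u j)) (R n) :=
    fun g => blockDiagonal' (fun j => Pk.Y (u j) g) with hY
  have hcomm : ∀ g r, W g * (Y r).map (algebraMap (R n) (Q n)) =
      (Y r).map (algebraMap (R n) (Q n)) * W g := by
    intro g r
    have e : ρ g * diagonal (fun π => algebraMap (R n) (Q n) (act (en π) r)) =
        diagonal (fun π => algebraMap (R n) (Q n) (act (en π) r)) * ρ g := by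
      ext π π'
      rw [mul_diagonal, diagonal_mul]
      by_cases h0 : ρ g π π' = 0
      · simp [h0]
      · rw [hblock g π π' h0, mul_comm]
    rw [hW, Matrix.mul_assoc, h3, ← Matrix.mul_assoc, Matrix.mul_assoc I, e, ← Matrix.mul_assoc, h2,
      Matrix.mul_assoc, Matrix.mul_assoc, Matrix.mul_assoc]
  let B : G → ∀ j j' : J, Matrix (Pk.ι (u j)) (Pk.ι (u j')) (R n) :=
    fun g j j' => Matrix.of fun x y => T g ⟨j, x⟩ ⟨j', y⟩
  have hB : ∀ g j j' r, B g j j' * Pk.Y (u j') r = Pk.Y (u j) r * B g j j' := by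
    intro g j j' r
    ext1 x y
    apply web_inj
    have := congrFun (congrFun (hcomm g r) ⟨j, x⟩) ⟨j', y⟩
    rw [Matrix.mul_apply, Matrix.mul_apply, Fintype.sum_sigma, Fintype.sum_sigma,
      Finset.sum_eq_single j', Finset.sum_eq_single j] at this
    · simp only [hY, map_apply, blockDiagonal'_apply_eq] at this
      simp only [Matrix.mul_apply, B, of_apply, map_sum, map_mul, hT]
      simp only [mul_assoc, ← Finset.mul_sum]
      rw [this, Finset.mul_sum]
      exact Finset.sum_congr rfl (fun z _ => by ring)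
    · intro j'' _ hj
      simp [hY, blockDiagonal'_apply_ne _ _ _ (Ne.symm hj)]
    · simp
    · intro j'' _ hj
      simp [hY, blockDiagonal'_apply_ne _ _ _ hj]
    · simp
  let ε : G → J → J → ℝ := fun g j j' =>
    MvPolynomial.constantCoeff (B g j j' (Pk.top _) (Pk.top _)) / MvPolynomial.constantCoeff D ^ L g
  have hval : ∀ g j j', web_Val D (W g ⟨j, Pk.top _⟩ ⟨j', Pk.top _⟩) (ε g j j') := by
    intro g j j'
    refine ⟨L g, _, hT g _ _, ?_⟩
    have := pow_ne_zero (L g) hD
    simp only [ε, B, of_apply]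
    field_simp
  refine ⟨fun w => {j // u j = w}, inferInstance, inferInstance,
    fun w g => Matrix.of fun j j' => ε g j.1 j'.1, fun w g h => ?_, fun S v c hc => ?_⟩
  · ext ⟨j, hj⟩ ⟨j', hj'⟩
    refine (hval (g * h) j j').unique hD ?_
    have e : W (g * h) = W g * W h := by
      rw [hW, hW, hW, map_mul]
      simp only [Matrix.mul_assoc]
      rw [← Matrix.mul_assoc P, h1, Matrix.one_mul]
    have e2 : (∑ k : {j // u j = w}, ε g j k.1 * ε h k.1 j') =
        ∑ k : J, if u k = u j then ε g j k * ε h k j' else 0 := by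
      rw [← Finset.sum_filter, hj]
      exact (Finset.sum_subtype (Finset.univ.filter (fun k => u k = w)) (by simp)
        (fun k => ε g j k * ε h k j')).symm
    rw [e, Matrix.mul_apply, Matrix.mul_apply, Fintype.sum_sigma]
    simp only [of_apply]
    rw [e2]
    refine web_Val.sum _ (fun k _ => ⟨L g + L h, (B g j k * B h k j') (Pk.top _) (Pk.top _), ?_, ?_⟩)
    · simp only [Matrix.mul_apply, B, of_apply, map_sum, map_mul, hT, Finset.mul_sum]
      exact Finset.sum_congr rfl (fun z _ => by ring)
    · rw [web_eps Pk (hj.trans hj'.symm) _ _ (hB g j k) (hB h k j')]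
      have := pow_ne_zero (L g) hD
      have := pow_ne_zero (L h) hD
      split_ifs
      · simp only [ε]
        field_simp
        ring
      · simp
  · obtain ⟨g0, hg0⟩ := web_exists_sep (n := n)
    have htri : web_Tri (fun k : Σ j, Pk.ι (u j) => len (Pk.lab _ k.2))
        ((Y g0).map (algebraMap (R n) (Q n))) := by
      rintro ⟨j, x⟩ ⟨j', y⟩ hne
      by_cases hj : j = j'
      · subst hj
        simp only [hY, map_apply, blockDiagonal'_apply_eq] at hne
        rcases Pk.tri _ g0 x y (fun e => hne (by rw [e, map_zero])) with e | e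
        · exact Or.inl (by rw [e])
        · exact Or.inr e
      · simp [hY, blockDiagonal'_apply_ne _ _ _ hj] at hne
    have hpart : ∀ g, ∑ π with en π = v, ρ g π π =
        ∑ k : Σ j, Pk.ι (u j) with Pk.lab _ k.2 = v, W g k k := fun g => by
      rw [hW]
      exact web_trace_part (fun k : Σ j, Pk.ι (u j) => Pk.lab _ k.2) len hg0 en htri
        (fun ⟨j, x⟩ => by simp [hY, Pk.diag]) I P h1 (h2 g0) (ρ g) (hW g ▸ hcomm g g0) v
    have hv : web_Val D (∑ g ∈ S, ∑ π with en π = v, ρ g π π)
        (∑ g ∈ S, ∑ k : Σ j, Pk.ι (u j) with Pk.lab _ k.2 = v, ε g k.1 k.1) := by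
      refine web_Val.sum _ (fun g _ => ?_)
      rw [hpart]
      refine web_Val.sum _ (fun k _ => ⟨L g, _, hT g k k, ?_⟩)
      have := Pk.eps_diag _ (B g k.1 k.1) (hB g k.1 k.1) k.2
      have h0 := pow_ne_zero (L g) hD
      simp only [ε]
      rw [← this]
      simp only [B, of_apply]
      field_simp
    rw [hc] at hv
    rw [(web_Val.natCast c).unique hD hv]
    simp only [Finset.mul_sum]
    conv_rhs => rw [Finset.sum_comm]
    refine Finset.sum_congr rfl (fun g _ => ?_)
    rw [Finset.sum_filter, Fintype.sum_sigma, ← Finset.sum_fiberwise Finset.univ u]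
    refine Finset.sum_congr rfl (fun w _ => ?_)
    rw [trace, Finset.mul_sum, Finset.sum_subtype (Finset.univ.filter (fun k => u k = w))
      (p := fun k => u k = w) (by simp)]
    refine Finset.sum_congr rfl (fun j _ => ?_)
    obtain ⟨j, rfl⟩ := j
    rw [← Pk.count, ← Finset.sum_filter]
    dsimp only
    rw [Finset.sum_const, Nat.card_eq_fintype_card, Fintype.card_subtype]
    simp

end Pool.Agent.P.MP_c3da96_co
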