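import Pool.Agent.P.MP_c3da96_co.RibC
import Pool.Agent.P.MP_c3da96_co.Web

namespace Pool.Agent.P.MP_c3da96_co

open Equiv Matrix

variable {l : ℕ} {r : ℤ → ℤ} {a b : Fin l → ℤ} {N : ℕ}

/-- the index of a column -/
def idx (lo : ℤ) (m : ℕ) (c : ℤ) : Fin (m + 1) := ⟨min (c - lo + 1).toNat m, by omega⟩

lemma idx_col (lo : ℤ) {m : ℕ} (γ : Fin (m + 1)) : idx lo m (lo - 1 + γ) = γ := by
  have := γ.2
  ext; simp only [idx]; omega

section paths
variable {G : Geo r a b} {t : Fin N → ℤ} {Z : Pos a b t} {lo : ℤ} {m : ℕ}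

variable (G Z lo m) in
/-- the paths attached to a word -/
abbrev RP : Type := Paths fun i : Fin m => stair G Z (lo + i)

/-- the arrangement at a column -/
def RP.W (w : RP G Z lo m) (c : ℤ) : Perm (Fin l) := w.1 (idx lo m c)

/-- the final arrangement -/
def RP.v (w : RP G Z lo m) : Perm (Fin l) := w.1 (Fin.last m)

lemma RP.step (w : RP G Z lo m) {c : ℤ} (h1 : lo ≤ c) (h2 : c ≤ lo - 1 + m) :
    (stair G Z c).mem ((w.W (c - 1))⁻¹ * w.W c) := by
  have := w.2.2 ⟨(c - lo).toNat, by omega⟩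
  have e1 : lo + ((c - lo).toNat : ℕ) = c := by omega
  have e2 : idx lo m (c - 1) = (⟨(c - lo).toNat, by omega⟩ : Fin m).castSucc := by
    ext; simp only [idx, Fin.castSucc_mk]; omega
  have e3 : idx lo m c = (⟨(c - lo).toNat, by omega⟩ : Fin m).succ := by
    ext; simp only [idx, Fin.succ_mk]; omega
  unfold RP.W
  rw [e2, e3]
  simpa only [e1] using this

lemma RP.fix (w : RP G Z lo m) {c : ℤ} (h1 : lo ≤ c) (h2 : c ≤ lo - 1 + m) {k : Fin l}
    (hk : ¬ (a k ≤ c ∧ c ≤ b k)) : w.W c k = w.W (c - 1) k := by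
  have := (w.step h1 h2).1 k (by simpa [stair] using hk)
  rwa [Perm.mul_apply, Perm.inv_eq_iff_eq] at this

variable (hlo : ∀ k, lo ≤ a k) (hhi : ∀ k, b k ≤ lo - 1 + m)
include hlo hhi

lemma RP.pre (w : RP G Z lo m) {c : ℤ} {k : Fin l} (h : c < a k) : w.W c k = k := by
  have h0 : ∀ c, c ≤ lo - 1 → w.W c k = k := by
    intro c hc
    have : idx lo m c = 0 := by ext; simp only [idx, Fin.val_zero]; omega
    rw [RP.W, this, w.2.1]; rfl
  by_cases hc : c ≤ lo - 1
  · exact h0 c hc
  · have hc' : lo - 1 ≤ c := by omega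
    clear hc
    induction c, hc' using Int.leInduction with
    | base => exact h0 _ le_rfl
    | succ c hc ih =>
      have := G.lt k
      have := hhi k
      rw [w.fix (by omega) (by omega) (by omega), add_sub_cancel_right, ih (by omega)]

lemma RP.post (w : RP G Z lo m) {c : ℤ} {k : Fin l} (h : b k ≤ c) : w.W c k = w.v k := by
  have h0 : ∀ c, lo - 1 + m ≤ c → w.W c k = w.v k := by
    intro c hc
    have : idx lo m c = Fin.last m := by ext; simp only [idx, Fin.val_last]; omega
    rw [RP.W, this]; rfl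
  by_cases hc : lo - 1 + m ≤ c
  · exact h0 c hc
  · have hc' : c ≤ lo - 1 + m := by omega
    clear hc
    induction c, hc' using Int.leInductionDown with
    | base => exact h0 _ le_rfl
    | pred c hc ih =>
      have := G.lt k
      have := hlo k
      rw [← w.fix (by omega) hc (by omega), ih (by omega)]

lemma RP.act (w : RP G Z lo m) {c : ℤ} {k : Fin l} :
    (a (w.W c k) ≤ c ∧ c < b (w.v.symm (w.W c k))) ↔ a k ≤ c ∧ c < b k := by
  constructor
  · rintro ⟨h1, h2⟩
    constructor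
    · by_contra h
      rw [w.pre hlo hhi (not_le.1 h)] at h1
      exact h h1
    · by_contra h
      rw [w.post hlo hhi (not_lt.1 h), symm_apply_apply] at h2
      exact h h2
  · rintro ⟨h1, h2⟩
    constructor
    · by_contra h
      have := (w.W c).injective (w.pre hlo hhi (not_le.1 h))
      rw [this] at h
      exact h h1
    · by_contra h
      have := w.post hlo hhi (not_lt.1 h)
      rw [apply_symm_apply] at this
      rw [(w.W c).injective this] at h
      exact h h2

/-- the ordering of boxes attached to a path -/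
noncomputable def RP.ord (w : RP G Z lo m) : Fin N ≃ Bx r a fun j => b (w.v.symm j) :=
  Equiv.ofBijective (fun s => ⟨w.W (t s) (Z.pos s), t s, ((w.act hlo hhi).2 (Z.mem s)).1,
    ((w.act hlo hhi).2 (Z.mem s)).2⟩) (by
      constructor
      · intro s s' h
        have h1 : t s = t s' := congrArg Bx.c h
        have h2 : w.W (t s) (Z.pos s) = w.W (t s') (Z.pos s') := congrArg Bx.j h
        rw [h1] at h2
        exact Z.inj h1 ((w.W _).injective h2)
      · intro p
        have := (w.act hlo hhi (c := p.c) (k := (w.W p.c).symm p.j)).1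
          (by rw [apply_symm_apply]; exact ⟨p.h1, p.h2⟩)
        obtain ⟨s, h1, h2⟩ := Z.surj _ _ this.1 this.2
        exact ⟨s, Bx.ext (by simp [h1, h2]) h1⟩)

lemma RP.ord_j (w : RP G Z lo m) (s : Fin N) : (w.ord hlo hhi s).j = w.W (t s) (Z.pos s) := rfl
lemma RP.ord_c (w : RP G Z lo m) (s : Fin N) : (w.ord hlo hhi s).c = t s := rfl

lemma RP.al (w : RP G Z lo m) {s s' : Fin N} (h1 : t s' = t s + 1)
    (h2 : w.W (t s) (Z.pos s) = w.W (t s') (Z.pos s')) :
    if r (t s') = r (t s) then s < s' else s' < s := by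
  have e1 := Z.mem s'
  have e2 := hlo (Z.pos s')
  have e3 := hhi (Z.pos s')
  have := (w.step (c := t s') (by omega) (by omega)).2 (Z.pos s')
    (by simp only [stair, Finset.mem_filter, Finset.mem_univ, true_and]; omega) s s' (by omega)
    (by rw [Perm.mul_apply, ← h2, h1, add_sub_cancel_right]; simp) rfl rfl
  rwa [show t s' - 1 = t s by omega] at this

variable (hr : IsRibbon r)

/-- the standard ordering attached to a path -/
noncomputable def RP.toArr (w : RP G Z lo m) : {π : Arr hr a b N // π.word = t} :=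
  ⟨⟨w.v, w.ord hlo hhi, by
    intro p q h
    obtain ⟨s, rfl⟩ := (w.ord hlo hhi).surjective p
    obtain ⟨s', rfl⟩ := (w.ord hlo hhi).surjective q
    simp only [symm_apply_apply]
    rcases h with ⟨h1, h2, h3⟩ | ⟨h1, h2, h3⟩
    · simp only [RP.ord_j, RP.ord_c] at h1 h2 h3
      have := w.al hlo hhi h2 h1
      rwa [if_pos h3] at this
    · simp only [RP.ord_j, RP.ord_c] at h1 h2 h3
      have := w.al hlo hhi h2 h1.symm
      rwa [if_neg (by omega)] at this⟩, rfl⟩

omit hlo hhi in
lemma Arr.ext' {π π' : Arr hr a b N} (h1 : π.1 = π'.1) (h2 : ∀ s, (π.2.1 s).j = (π'.2.1 s).j)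
    (h3 : π.word = π'.word) : π = π' := by
  obtain ⟨v, τ⟩ := π
  obtain ⟨v', τ'⟩ := π'
  dsimp only at h1
  subst h1
  congr 1
  exact Subtype.ext (Equiv.ext fun s => Bx.ext (h2 s) (congrFun h3 s))

lemma RP.toArr_inj : Function.Injective (RP.toArr (G := G) (Z := Z) hlo hhi hr) := by
  intro w w' h
  have h1 : w.v = w'.v := congrArg (fun π => π.1.1) h
  have h2 : ∀ s, w.W (t s) (Z.pos s) = w'.W (t s) (Z.pos s) := fun s =>
    congrArg (fun π => (π.1.2.1 s).j) h
  refine Subtype.ext (funext fun γ => Equiv.ext fun k => ?_)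
  rw [← idx_col lo γ]
  change w.W _ k = w'.W _ k
  by_cases e1 : lo - 1 + γ < a k
  · rw [w.pre hlo hhi e1, w'.pre hlo hhi e1]
  by_cases e2 : b k ≤ lo - 1 + γ
  · rw [w.post hlo hhi e2, w'.post hlo hhi e2, h1]
  obtain ⟨s, e3, e4⟩ := Z.surj _ k (not_lt.1 e1) (not_le.1 e2)
  rw [← e3, ← e4, h2]

lemma RP.toArr_surj (hv : ∀ (π : Arr hr a b N) j, a j ≤ b (π.1.symm j)) :
    Function.Surjective (RP.toArr (G := G) (Z := Z) hlo hhi hr) := by
  classical
  rintro ⟨⟨v, τ⟩, hτ⟩
  have hc : ∀ s, (τ.1 s).c = t s := congrFun hτ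
  have hv' : ∀ j, a j ≤ b (v.symm j) := hv ⟨v, τ⟩
  let f : ℤ → Fin l → Fin l := fun c k =>
    if h : ∃ s, t s = c ∧ Z.pos s = k then (τ.1 h.choose).j else if c < a k then k else v k
  have f1 : ∀ s, f (t s) (Z.pos s) = (τ.1 s).j := by
    intro s
    have h : ∃ s', t s' = t s ∧ Z.pos s' = Z.pos s := ⟨s, rfl, rfl⟩
    simp only [f, dif_pos h, Z.inj h.choose_spec.1 h.choose_spec.2]
  have f2 : ∀ c k, c < a k → f c k = k := by
    intro c k h
    have : ¬ ∃ s, t s = c ∧ Z.pos s = k := by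
      rintro ⟨s, rfl, rfl⟩
      exact absurd (Z.mem s).1 h.not_ge
    simp only [f, dif_neg this, if_pos h]
  have f3 : ∀ c k, b k ≤ c → f c k = v k := by
    intro c k h
    have : ¬ ∃ s, t s = c ∧ Z.pos s = k := by
      rintro ⟨s, rfl, rfl⟩
      exact absurd (Z.mem s).2 h.not_gt
    have h' : ¬ c < a k := by have := G.lt k; omega
    simp only [f, dif_neg this, if_neg h']
  have tri : ∀ c k, c < a k ∧ f c k = k ∨ b k ≤ c ∧ f c k = v k ∨
      ∃ s, t s = c ∧ Z.pos s = k ∧ f c k = (τ.1 s).j ∧ a (f c k) ≤ c ∧ c < b (v.symm (f c k)) := by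
    intro c k
    by_cases e1 : c < a k
    · exact Or.inl ⟨e1, f2 c k e1⟩
    by_cases e2 : b k ≤ c
    · exact Or.inr (Or.inl ⟨e2, f3 c k e2⟩)
    obtain ⟨s, rfl, rfl⟩ := Z.surj _ k (not_lt.1 e1) (not_le.1 e2)
    refine Or.inr (Or.inr ⟨s, rfl, rfl, f1 s, ?_⟩)
    rw [f1, ← hc]
    exact ⟨(τ.1 s).h1, (τ.1 s).h2⟩
  have finj : ∀ c, Function.Injective (f c) := by
    intro c k k' h
    have g1 := hv' (v k)
    have g2 := hv' (v k')
    rw [symm_apply_apply] at g1 g2
    rcases tri c k with ⟨e1, e2⟩ | ⟨e1, e2⟩ | ⟨s, e1, e2, e3, e4, e5⟩ <;>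
      rcases tri c k' with ⟨e1', e2'⟩ | ⟨e1', e2'⟩ | ⟨s', e1', e2', e3', e4', e5'⟩
    · rw [← e2, h, e2']
    · rw [← e2', ← h, e2] at g2; omega
    · rw [← h, e2] at e4'; omega
    · rw [← e2, h, e2'] at g1; omega
    · exact v.injective (by rw [← e2, h, e2'])
    · rw [← h, e2, symm_apply_apply] at e5'; omega
    · rw [h, e2'] at e4; omega
    · rw [h, e2', symm_apply_apply] at e5; omega
    · have : s = s' := τ.1.injective (Bx.ext (by rw [← e3, h, e3']) (by rw [hc, hc, e1, e1']))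
      rw [← e2, this, e2']
  let W : ℤ → Perm (Fin l) := fun c =>
    Equiv.ofBijective (f c) (Finite.injective_iff_bijective.1 (finj c))
  have hW : ∀ c k, W c k = f c k := fun _ _ => rfl
  let w : RP G Z lo m := ⟨fun γ => W (lo - 1 + γ), by
    constructor
    · ext k
      have := hlo k
      rw [hW, f2 _ _ (by simp only [Fin.val_zero]; omega)]; rfl
    · intro i
      have e1 : lo - 1 + (i.castSucc : ℕ) = lo + i - 1 := by simp only [Fin.val_castSucc]; omega
      have e2 : lo - 1 + (i.succ : ℕ) = lo + i := by simp only [Fin.val_succ]; omega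
      dsimp only
      rw [e1, e2]
      generalize lo + i = c
      constructor
      · intro k hk
        simp only [stair, Finset.mem_filter, Finset.mem_univ, true_and] at hk
        rw [Perm.mul_apply, Perm.inv_eq_iff_eq, hW, hW]
        by_cases e : c < a k
        · rw [f2 _ _ e, f2 _ _ (by omega)]
        · rw [f3 _ _ (by omega), f3 _ _ (by omega)]
      · intro k _ s s' h1 h2 h3 h4
        have g : (τ.1 s).j = (τ.1 s').j := by
          rw [← f1, ← f1, h1, h2, h3, h4, ← hW, ← hW]; simp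
        split_ifs with h
        · simpa using τ.2 (τ.1 s) (τ.1 s')
            (Or.inl ⟨g, by rw [hc, hc]; omega, by rw [hc, hc, h1, h3, h]⟩)
        · have := hr (c - 1)
          rw [sub_add_cancel] at this
          simpa using τ.2 (τ.1 s') (τ.1 s)
            (Or.inr ⟨g.symm, by rw [hc, hc]; omega, by rw [hc, hc, h1, h3]; omega⟩)⟩
  refine ⟨w, Subtype.ext (Arr.ext' hr ?_ (fun s => ?_) hτ.symm)⟩
  · ext k
    exact congrArg _ (f3 _ k (hhi k))
  · have e1 := Z.mem s
    have e2 := hlo (Z.pos s)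
    have e3 := hhi (Z.pos s)
    show f (lo - 1 + (idx lo m (t s) : ℕ)) (Z.pos s) = (τ.1 s).j
    rw [← f1]
    congr 1
    simp only [idx]; omega

end paths

lemma rib_pull {A B S F : Type} [CommRing S] [CommRing F] [Algebra S F] (g : A → B)
    {s : Set (A → F)} {s' : Set (B → F)} (h : ∀ f ∈ s', f ∘ g ∈ Algebra.adjoin S s) {f : B → F}
    (hf : f ∈ Algebra.adjoin S s') : f ∘ g ∈ Algebra.adjoin S s := by
  induction hf using Algebra.adjoin_induction with
  | mem x hx => exact h x hx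
  | algebraMap x => exact Subalgebra.algebraMap_mem _ x
  | add x y _ _ hx hy => exact add_mem hx hy
  | mul x y _ _ hx hy => exact mul_mem hx hy

open Classical in
lemma inU_fib (Pk : Pack l) (hr : IsRibbon r) (G : Geo r a b) {lo : ℤ} {m : ℕ}
    (hlo : ∀ k, lo ≤ a k) (hhi : ∀ k, b k ≤ lo - 1 + m) (t : Fin (NB a b) → ℤ)
    (ht : ∃ π : Arr hr a b (NB a b), π.word = t) :
    InU Pk (fun π : {π : Arr hr a b (NB a b) // π.word = t} => π.1.1) (fibMod hr a b t) := by
  obtain ⟨π₀, rfl⟩ := ht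
  obtain ⟨Z⟩ := exists_pos G.lt π₀
  let e : RP G Z lo m ≃ _ := Equiv.ofBijective _
    ⟨RP.toArr_inj hlo hhi hr, RP.toArr_surj hlo hhi hr fun π => π.valid G.lt⟩
  let _ : Fintype (RP G Z lo m) := Fintype.ofEquiv _ e.symm
  refine inU_equiv Pk e (fun _ => rfl) (fun f => ?_) (inU_paths Pk _)
  simp only [fibMod, genMod, Subalgebra.mem_toSubmodule]
  constructor
  · refine rib_pull e ?_
    rintro _ ⟨γ, rfl⟩
    refine Algebra.subset_adjoin ?_
    rcases γ with j | s
    · refine ⟨(0, j), funext fun w => ?_⟩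
      dsimp only
      rw [w.2.1]; rfl
    · exact ⟨(idx lo m (π₀.word s), Z.pos s), rfl⟩
  · intro hf
    have := rib_pull (s := Set.range fun (γ : Fin l ⊕ Fin (NB a b))
      (π : {π : Arr hr a b (NB a b) // π.word = π₀.word}) =>
        algebraMap (R l) (Q l) (MvPolynomial.X (π.1.1.symm (Arr.lab γ π.1)))) e.symm ?_ hf
    · simpa [Function.comp_def] using this
    rintro _ ⟨⟨γ, k⟩, rfl⟩
    have hW : ∀ w : RP G Z lo m, w.1 γ = w.W (lo - 1 + γ) := fun w => by rw [RP.W, idx_col]
    by_cases e1 : lo - 1 + γ < a k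
    · refine Algebra.subset_adjoin ⟨Sum.inl k, funext fun π => ?_⟩
      obtain ⟨w, rfl⟩ := e.surjective π
      simp only [Function.comp, symm_apply_apply, hW, w.pre hlo hhi e1]
      rfl
    by_cases e2 : b k ≤ lo - 1 + γ
    · convert Subalgebra.algebraMap_mem _ (MvPolynomial.X k : R l)
      funext π
      obtain ⟨w, rfl⟩ := e.surjective π
      simp only [Function.comp, symm_apply_apply, hW, w.post hlo hhi e2, RP.v]
      rfl
    obtain ⟨s, e3, e4⟩ := Z.surj _ k (not_lt.1 e1) (not_le.1 e2)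
    refine Algebra.subset_adjoin ⟨Sum.inr s, funext fun π => ?_⟩
    obtain ⟨w, rfl⟩ := e.surjective π
    simp only [Function.comp, symm_apply_apply, hW, ← e3, ← e4]
    rfl

end Pool.Agent.P.MP_c3da96_co
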