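import Pool.Agent.P.MP_c3da96_co.Perm

namespace Pool.Agent.P.MP_c3da96_co

open Equiv Matrix

variable {N : ℕ}

theorem sn_adj_lt (a : Adj N) : a.1.1 < a.1.2 := by
  have := a.2
  rw [Fin.lt_def]; omega

theorem sn_adj_ext {a b : Adj N} (h : a.1.1 = b.1.1) : a = b := by
  have ha := a.2
  have hb := b.2
  apply Subtype.ext
  apply Prod.ext h
  apply Fin.ext
  rw [ha, hb, h]

theorem sn_sr_sr (a : Adj N) : sr a * sr a = 1 := swap_mul_self _ _

theorem sn_sr_fst (a : Adj N) : sr a a.1.1 = a.1.2 := swap_apply_left _ _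
theorem sn_sr_snd (a : Adj N) : sr a a.1.2 = a.1.1 := swap_apply_right _ _
theorem sn_sr_other (a : Adj N) {r : Fin N} (h1 : r ≠ a.1.1) (h2 : r ≠ a.1.2) : sr a r = r :=
  swap_apply_of_ne_of_ne h1 h2

theorem sn_exists_desc {w : Perm (Fin N)} (h : w ≠ 1) : ∃ a : Adj N, w a.1.2 < w a.1.1 := by
  obtain ⟨a, ha⟩ := exists_desc h
  refine ⟨a, ?_⟩
  rcases lt_trichotomy (w a.1.2) (w a.1.1) with h1 | h1 | h1
  · exact h1
  · exact absurd (w.injective h1) (sn_adj_lt a).ne'
  · have := len_mul_sr_of_lt w a h1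
    omega

/-- induction on descents -/
theorem sn_desc_induction {p : Perm (Fin N) → Prop} (h1 : p 1)
    (hs : ∀ w (a : Adj N), w a.1.2 < w a.1.1 → p (w * sr a) → p w) (w : Perm (Fin N)) : p w := by
  induction hl : len w using Nat.strong_induction_on generalizing w with
  | _ m ih =>
    by_cases hw : w = 1
    · exact hw ▸ h1
    · obtain ⟨a, ha⟩ := sn_exists_desc hw
      have := len_mul_sr_of_gt w a ha
      exact hs w a ha (ih _ (by omega) _ rfl)

theorem sn_sr_braid {a b : Adj N} (h : a.1.2 = b.1.1) :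
    sr a * sr b * sr a = sr b * sr a * sr b := by
  have ha := sn_adj_lt a
  have hb := sn_adj_lt b
  unfold sr
  rw [← h] at hb ⊢
  have h1 : a.1.1 ≠ a.1.2 := ha.ne
  have h2 : a.1.2 ≠ b.1.2 := hb.ne
  have h3 : a.1.1 ≠ b.1.2 := (ha.trans hb).ne
  ext r
  simp only [Perm.mul_apply, swap_apply_def]
  split_ifs <;> simp_all

theorem sn_sr_comm {a b : Adj N} (h : a.1.2 < b.1.1) : sr a * sr b = sr b * sr a := by
  have ha := sn_adj_lt a
  have hb := sn_adj_lt b
  unfold sr
  have h1 : a.1.1 ≠ a.1.2 := ha.ne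
  have h2 : a.1.2 ≠ b.1.2 := (h.trans hb).ne
  have h3 : a.1.1 ≠ b.1.2 := (ha.trans (h.trans hb)).ne
  have h4 : a.1.1 ≠ b.1.1 := (ha.trans h).ne
  have h5 : a.1.2 ≠ b.1.1 := h.ne
  have h6 : b.1.1 ≠ b.1.2 := hb.ne
  ext r
  simp only [Perm.mul_apply, swap_apply_def]
  split_ifs <;> simp_all

section cox
variable {M : Type*} [Monoid M] (g : Adj N → M)

open Classical in
/-- the product of the generators along a chosen reduced word -/
noncomputable def snWord (w : Perm (Fin N)) : M :=
  if h : ∃ a : Adj N, w a.1.2 < w a.1.1 then snWord (w * sr h.choose) * g h.choose else 1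
termination_by len w
decreasing_by
  have := len_mul_sr_of_gt w _ h.choose_spec
  omega

theorem snWord_one : snWord g 1 = 1 := by
  rw [snWord, dif_neg]
  rintro ⟨a, ha⟩
  exact absurd ha (not_lt.2 (sn_adj_lt a).le)

theorem snWord_desc (hb : ∀ a b : Adj N, a.1.2 = b.1.1 → g a * g b * g a = g b * g a * g b)
    (hc : ∀ a b : Adj N, a.1.2 < b.1.1 → g a * g b = g b * g a) (w : Perm (Fin N)) (a : Adj N)
    (ha : w a.1.2 < w a.1.1) : snWord g w = snWord g (w * sr a) * g a := by
  induction hl : len w using Nat.strong_induction_on generalizing w a with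
  | _ m ih =>
    have ih' : ∀ w' : Perm (Fin N), len w' < len w → ∀ c : Adj N, w' c.1.2 < w' c.1.1 →
        snWord g w' = snWord g (w' * sr c) * g c :=
      fun w' h c hc => ih _ (hl ▸ h) w' c hc rfl
    have key : ∀ a b : Adj N, w a.1.2 < w a.1.1 → w b.1.2 < w b.1.1 → a.1.1 < b.1.1 →
        snWord g (w * sr a) * g a = snWord g (w * sr b) * g b := by
      intro a b ha hb' hab
      have la := len_mul_sr_of_gt w a ha
      have lb := len_mul_sr_of_gt w b hb'
      have a12 := sn_adj_lt a
      have b12 := sn_adj_lt b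
      have hle : a.1.2 ≤ b.1.1 := by
        have := a.2
        rw [Fin.lt_def] at hab
        rw [Fin.le_def]; omega
      rcases hle.eq_or_lt with h | h
      · have e1 : sr a b.1.1 = a.1.1 := by rw [← h, sn_sr_snd]
        have e2 : sr a b.1.2 = b.1.2 :=
          sn_sr_other a (hab.trans b12).ne' (by rw [h]; exact b12.ne')
        have e3 : sr b a.1.1 = a.1.1 := sn_sr_other b hab.ne (hab.trans b12).ne
        have e4 : sr b a.1.2 = b.1.2 := by rw [h, sn_sr_fst]
        have e5 : sr b b.1.2 = a.1.2 := by rw [h, sn_sr_snd]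
        have d1 : (w * sr a) b.1.2 < (w * sr a) b.1.1 := by
          simp only [Perm.mul_apply, e1, e2]
          exact hb'.trans (h ▸ ha)
        have d2 : (w * sr a * sr b) a.1.2 < (w * sr a * sr b) a.1.1 := by
          simp only [Perm.mul_apply, e2, e3, e4, sn_sr_fst]
          exact h ▸ hb'
        have d3 : (w * sr b) a.1.2 < (w * sr b) a.1.1 := by
          simp only [Perm.mul_apply, e3, e4]
          exact hb'.trans (h ▸ ha)
        have d4 : (w * sr b * sr a) b.1.2 < (w * sr b * sr a) b.1.1 := by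
          simp only [Perm.mul_apply, e1, e2, e3, e5]
          exact ha
        have l1 := len_mul_sr_of_gt _ b d1
        have l3 := len_mul_sr_of_gt _ a d3
        rw [ih' _ (by omega) b d1, ih' _ (by omega) a d2, ih' _ (by omega) a d3,
          ih' _ (by omega) b d4]
        have e : w * sr a * sr b * sr a = w * sr b * sr a * sr b := by
          have := sn_sr_braid h
          simp only [mul_assoc] at this ⊢
          rw [this]
        have := hb a b h
        rw [e]
        simp only [mul_assoc] at this ⊢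
        rw [this]
      · have e1 : sr a b.1.1 = b.1.1 := sn_sr_other a hab.ne' h.ne'
        have e2 : sr a b.1.2 = b.1.2 := sn_sr_other a (hab.trans b12).ne' (h.trans b12).ne'
        have e3 : sr b a.1.1 = a.1.1 := sn_sr_other b hab.ne (hab.trans b12).ne
        have e4 : sr b a.1.2 = a.1.2 := sn_sr_other b h.ne (h.trans b12).ne
        have d1 : (w * sr a) b.1.2 < (w * sr a) b.1.1 := by
          simp only [Perm.mul_apply, e1, e2]; exact hb'
        have d3 : (w * sr b) a.1.2 < (w * sr b) a.1.1 := by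
          simp only [Perm.mul_apply, e3, e4]; exact ha
        rw [ih' _ (by omega) b d1, ih' _ (by omega) a d3]
        have e : w * sr a * sr b = w * sr b * sr a := by
          rw [mul_assoc, sn_sr_comm h, mul_assoc]
        rw [e, mul_assoc _ (g b), mul_assoc _ (g a), hc a b h]
    have hex : ∃ a : Adj N, w a.1.2 < w a.1.1 := ⟨a, ha⟩
    rw [snWord, dif_pos hex]
    rcases lt_trichotomy hex.choose.1.1 a.1.1 with h | h | h
    · exact key _ _ hex.choose_spec ha h
    · rw [sn_adj_ext h]
    · exact (key _ _ ha hex.choose_spec h).symm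

/-- the Coxeter presentation of the symmetric group -/
theorem sn_coxeter (hs : ∀ a, g a * g a = 1)
    (hb : ∀ a b : Adj N, a.1.2 = b.1.1 → g a * g b * g a = g b * g a * g b)
    (hc : ∀ a b : Adj N, a.1.2 < b.1.1 → g a * g b = g b * g a) :
    ∃ ρ : Perm (Fin N) →* M, ∀ a, ρ (sr a) = g a := by
  have step : ∀ w (a : Adj N), snWord g (w * sr a) = snWord g w * g a := by
    intro w a
    rcases lt_trichotomy (w a.1.2) (w a.1.1) with h1 | h1 | h1
    · rw [snWord_desc g hb hc w a h1, mul_assoc, hs, mul_one]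
    · exact absurd (w.injective h1) (sn_adj_lt a).ne'
    · rw [snWord_desc g hb hc (w * sr a) a
        (by simpa only [Perm.mul_apply, sn_sr_fst, sn_sr_snd] using h1), mul_assoc w, sn_sr_sr,
        mul_one]
  refine ⟨⟨⟨snWord g, snWord_one g⟩, fun u v => ?_⟩, fun a => ?_⟩
  · induction v using sn_desc_induction with
    | h1 => simp [snWord_one]
    | hs w a ha ih =>
      have e : w = w * sr a * sr a := by rw [mul_assoc, sn_sr_sr, mul_one]
      change snWord g (u * w) = snWord g u * snWord g w
      change snWord g (u * (w * sr a)) = snWord g u * snWord g (w * sr a) at ih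
      rw [e, ← mul_assoc, step, ih, step (w * sr a), mul_assoc]
  · change snWord g (sr a) = g a
    have := step 1 a
    rwa [one_mul, snWord_one, one_mul] at this

end cox

/-- trace of the averaging operator -/
theorem sn_trace_avg {G I K : Type*} [Group G] [DecidableEq G] [Fintype I] [DecidableEq I]
    [Field K] [CharZero K] (ψ : G → Matrix I I K) (hψ : ∀ g h, ψ (g * h) = ψ g * ψ h)
    (Y : Finset G) (h1 : 1 ∈ Y) (hY : ∀ g ∈ Y, ∀ h, g * h ∈ Y ↔ h ∈ Y) (W : Submodule K (I → K))
    (hW : ∀ v, v ∈ W ↔ ∀ g ∈ Y, ψ g *ᵥ v = v) :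
    ∑ g ∈ Y, trace (ψ g) = ((Y.card * Module.finrank K W : ℕ) : K) := by
  have hc : (Y.card : K) ≠ 0 := Nat.cast_ne_zero.2 (Finset.card_ne_zero.2 ⟨1, h1⟩)
  have hp : LinearMap.IsProj W (toLin' ((Y.card : K)⁻¹ • ∑ g ∈ Y, ψ g)) := by
    constructor
    · intro v
      rw [hW]
      intro g hg
      rw [toLin'_apply, mulVec_mulVec, Matrix.mul_smul, Finset.mul_sum]
      congr 2
      refine Finset.sum_nbij' (fun h => g * h) (fun h => g⁻¹ * h) ?_ ?_ ?_ ?_ ?_
      · intro h hh; exact (hY g hg h).2 hh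
      · intro h hh; exact (hY g hg _).1 (by simpa using hh)
      · intro h _; simp
      · intro h _; simp
      · intro h _; exact (hψ g h).symm
    · intro v hv
      rw [toLin'_apply, smul_mulVec, sum_mulVec, Finset.sum_congr rfl ((hW v).1 hv),
        Finset.sum_const, ← Nat.cast_smul_eq_nsmul K, smul_smul, inv_mul_cancel₀ hc, one_smul]
  have := hp.trace
  rw [trace_toLin'_eq, trace_smul, trace_sum, smul_eq_mul] at this
  rw [Nat.cast_mul, ← this, ← mul_assoc, mul_inv_cancel₀ hc, one_mul]

theorem sn_mem_young {k : ℕ} {blk : Fin N → Fin k} {σ : Perm (Fin N)} :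
    σ ∈ young blk ↔ ∀ r, blk (σ r) = blk r := by simp [young]

theorem sn_young_mul {k : ℕ} {blk : Fin N → Fin k} (g : Perm (Fin N)) (hg : g ∈ young blk)
    (h : Perm (Fin N)) : g * h ∈ young blk ↔ h ∈ young blk := by
  simp only [sn_mem_young, Perm.mul_apply] at hg ⊢
  simp only [hg]

theorem sn_sr_mem_young {k : ℕ} {blk : Fin N → Fin k} {a : Adj N} (h : blk a.1.1 = blk a.1.2) :
    sr a ∈ young blk := by
  rw [sn_mem_young]
  intro r
  by_cases h1 : r = a.1.1
  · rw [h1, sn_sr_fst, h]
  · by_cases h2 : r = a.1.2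
    · rw [h2, sn_sr_snd, h]
    · rw [sn_sr_other a h1 h2]

theorem sn_young_inv {k : ℕ} {blk : Fin N → Fin k} (hm : Monotone blk) {I K : Type*} [Fintype I]
    [DecidableEq I] [Field K] (ρ : Perm (Fin N) →* Matrix I I K) (v : I → K)
    (hv : ∀ a : Adj N, blk a.1.1 = blk a.1.2 → ρ (sr a) *ᵥ v = v) (σ : Perm (Fin N))
    (hσ : σ ∈ young blk) : ρ σ *ᵥ v = v := by
  induction σ using sn_desc_induction with
  | h1 => simp
  | hs w a ha ih =>
    have hb : blk a.1.1 = blk a.1.2 := by
      refine le_antisymm (hm (sn_adj_lt a).le) ?_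
      have := hm ha.le
      rwa [sn_mem_young.1 hσ, sn_mem_young.1 hσ] at this
    have e : w = w * sr a * sr a := by rw [mul_assoc, sn_sr_sr, mul_one]
    rw [e, map_mul, ← mulVec_mulVec, hv a hb]
    exact ih ((sn_young_mul w hσ _).2 (sn_sr_mem_young hb))

/-- fillings with the fibre sizes of `blk` come from bijections -/
theorem sn_exists_equiv {P : Type} [Finite P] {k : ℕ} (T : P → Fin k) (blk : Fin N → Fin k)
    (h : ∀ i, Nat.card {p // T p = i} = Nat.card {r // blk r = i}) :
    ∃ τ : Fin N ≃ P, ∀ r, T (τ r) = blk r := by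
  have e : ∀ i, {r // blk r = i} ≃ {p // T p = i} := fun i =>
    (Finite.card_eq.1 (h i).symm).some
  exact ⟨ofFiberEquiv e, ofFiberEquiv_map e⟩

theorem sn_card_fiber {P : Type} {k : ℕ} (T : P → Fin k) (blk : Fin N → Fin k) (τ : Fin N ≃ P)
    (h : ∀ r, T (τ r) = blk r) (i : Fin k) :
    Nat.card {p // T p = i} = Nat.card {r // blk r = i} :=
  (Nat.card_congr (τ.subtypeEquiv (fun r => by rw [h]))).symm

open Classical in
/-- generic form: `good` fillings of any finite type `P` with `N` elements -/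
theorem sum_fillings_eq (P : Type) [Fintype P] [DecidableEq P] (N k : ℕ)
    (hN : Fintype.card P = N) (good : (P → Fin k) → Prop) :
    ∑ T : P → Fin k with good T, ∏ p, (MvPolynomial.X (T p) : MvPolynomial (Fin k) ℤ) =
      ∑ blk : Fin N → Fin k with Monotone blk,
        Nat.card {T : P → Fin k // good T ∧
          ∀ i, Nat.card {p // T p = i} = Nat.card {r // blk r = i}} •
          ∏ r, MvPolynomial.X (blk r) := by
  have e : Fin N ≃ P := (Fintype.equivFinOfCardEq hN).symm
  let bo : (P → Fin k) → Fin N → Fin k := fun T => (T ∘ e) ∘ Tuple.sort (T ∘ e)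
  have hbo : ∀ T (blk : Fin N → Fin k), Monotone blk → (bo T = blk ↔
      ∀ i, Nat.card {p // T p = i} = Nat.card {r // blk r = i}) := by
    intro T blk hm
    constructor
    · intro h
      exact sn_card_fiber T blk ((Tuple.sort (T ∘ e)).trans e) (fun r => congrFun h r)
    · intro h
      obtain ⟨τ, hτ⟩ := sn_exists_equiv T blk h
      have e1 : blk = (T ∘ e) ∘ (τ.trans e.symm : Perm (Fin N)) := by
        ext r; simp [hτ]
      rw [e1] at hm ⊢
      exact Tuple.unique_monotone (Tuple.monotone_sort _) hm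
  rw [← Finset.sum_fiberwise_of_maps_to (s := Finset.univ.filter good)
    (t := Finset.univ.filter (fun blk : Fin N → Fin k => Monotone blk)) (g := bo)
    (fun T _ => by simpa using Tuple.monotone_sort (T ∘ e))]
  refine Finset.sum_congr rfl fun blk hb => ?_
  have hm : Monotone blk := by simpa using hb
  rw [Finset.sum_congr rfl (g := fun _ => ∏ r, MvPolynomial.X (blk r)), Finset.sum_const]
  · congr 1
    rw [Nat.card_eq_fintype_card, Fintype.card_subtype, Finset.filter_filter]
    congr 1
    ext T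
    simp [hbo T blk hm]
  · intro T hT
    have hT' : bo T = blk := (Finset.mem_filter.1 hT).2
    rw [← hT']
    exact (Equiv.prod_comp ((Tuple.sort (T ∘ e)).trans e)
      (fun p => (MvPolynomial.X (T p) : MvPolynomial (Fin k) ℤ))).symm

end Pool.Agent.P.MP_c3da96_co
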