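import Pool.Agent.P.MP_c3da96_co.Flag
import Pool.Agent.P.MP_c3da96_co.Perm

namespace Pool.Agent.P.MP_c3da96_co

open Equiv Matrix

variable {n : ℕ} {ι κ μ : Type} [Fintype ι] [DecidableEq ι] [Fintype κ] [DecidableEq κ]
  [Fintype μ] [DecidableEq μ]

/-- isomorphic objects -/
def l1_Iso (M : Obj n κ) (B : Obj n ι) : Prop :=
  ∃ (P : Matrix ι κ (R n)) (Q : Matrix κ ι (R n)),
    P ∈ Hom M B 0 ∧ Q ∈ Hom B M 0 ∧ Q * P = 1 ∧ P * Q = 1

lemma l1_Iso.trans {M : Obj n μ} {B' : Obj n κ} {B : Obj n ι} (h : l1_Iso M B')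
    (h' : l1_Iso B' B) : l1_Iso M B := by
  obtain ⟨P, Q, hP, hQ, h1, h2⟩ := h
  obtain ⟨P', Q', hP', hQ', h1', h2'⟩ := h'
  refine ⟨P' * P, Q * Q', Hom.mul hP' hP (by omega), Hom.mul hQ hQ' (by omega), ?_, ?_⟩
  · rw [Matrix.mul_assoc, ← Matrix.mul_assoc Q', h1', Matrix.one_mul, h1]
  · rw [Matrix.mul_assoc, ← Matrix.mul_assoc P, h2, Matrix.one_mul, h2']

lemma l1_Iso.theta {M : Obj n κ} {B : Obj n ι} (h : l1_Iso M B) (a : Adj n) :
    l1_Iso (M.θ a) (B.θ a) := by
  obtain ⟨P, Q, hP, hQ, h1, h2⟩ := h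
  refine ⟨_, _, Hom.kap hP a, Hom.kap hQ a, ?_, ?_⟩
  · rw [← Dem.kap_mul, h1, Dem.kap_one]
  · rw [← Dem.kap_mul, h2, Dem.kap_one]

lemma l1_conj (B : Obj n ι) (deg' : κ → ℤ) (P : Matrix ι κ (R n)) (Q : Matrix κ ι (R n))
    (hP : Homog deg' B.deg 0 P) (hQ : Homog B.deg deg' 0 Q) (h1 : Q * P = 1) (h2 : P * Q = 1) :
    ∃ M : Obj n κ, M.deg = deg' ∧ (∀ g, M.Y g = Q * B.Y g * P) ∧ l1_Iso M B := by
  have hc : ∀ g, P * Q * B.Y g = B.Y g * (P * Q) := fun g => by
    rw [h2, Matrix.one_mul, Matrix.mul_one]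
  exact ⟨B.transport deg' P Q hP hQ h1 hc, rfl, fun _ => rfl, P, Q,
    B.transport_i deg' P Q hP hQ h1 hc, B.transport_p deg' P Q hP hQ h1 hc, h1, h2⟩

/-- diagonal plus strictly raising -/
def l1_Tri (ρ : ι → ℕ) (T : Matrix ι ι (R n)) : Prop :=
  ∀ j i, T j i ≠ 0 → j = i ∨ ρ i < ρ j

/-- raising by at least `c` -/
def l1_Rel (ρ : ι → ℕ) (c : ℕ) (T : Matrix ι ι (R n)) : Prop :=
  ∀ j i, T j i ≠ 0 → ρ i + c ≤ ρ j

omit [DecidableEq ι] in
lemma l1_mul_ne {T T' : Matrix ι ι (R n)} {j i : ι} (h : (T * T') j i ≠ 0) :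
    ∃ k, T j k ≠ 0 ∧ T' k i ≠ 0 := by
  rw [mul_apply] at h
  obtain ⟨k, -, hk⟩ := Finset.exists_ne_zero_of_sum_ne_zero h
  exact ⟨k, mul_ne_zero_iff.1 hk⟩

omit [DecidableEq ι] in
lemma l1_Tri.mul {ρ : ι → ℕ} {T T' : Matrix ι ι (R n)} (h : l1_Tri ρ T) (h' : l1_Tri ρ T') :
    l1_Tri ρ (T * T') := fun j i hji => by
  obtain ⟨k, h1, h2⟩ := l1_mul_ne hji
  rcases h _ _ h1 with e | e <;> rcases h' _ _ h2 with e' | e'
  · exact Or.inl (e.trans e')
  · exact Or.inr (e ▸ e')
  · exact Or.inr (e' ▸ e)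
  · exact Or.inr (e'.trans e)

omit [DecidableEq ι] in
lemma l1_Rel.mul {ρ : ι → ℕ} {c d : ℕ} {T T' : Matrix ι ι (R n)} (h : l1_Rel ρ c T)
    (h' : l1_Rel ρ d T') : l1_Rel ρ (c + d) (T * T') := fun j i hji => by
  obtain ⟨k, h1, h2⟩ := l1_mul_ne hji
  have := h _ _ h1
  have := h' _ _ h2
  omega

omit [Fintype ι] in
lemma l1_Rel.one (ρ : ι → ℕ) : l1_Rel ρ 0 (1 : Matrix ι ι (R n)) := fun j i h => by
  by_cases e : j = i
  · rw [e]; exact le_rfl
  · exact absurd (one_apply_ne e) h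

omit [Fintype ι] [DecidableEq ι] in
lemma l1_Rel.add {ρ : ι → ℕ} {c : ℕ} {T T' : Matrix ι ι (R n)} (h : l1_Rel ρ c T)
    (h' : l1_Rel ρ c T') : l1_Rel ρ c (T + T') := fun j i hji => by
  by_cases e : T j i = 0
  · exact h' j i (fun e' => hji (by rw [Matrix.add_apply, e, e', add_zero]))
  · exact h j i e

omit [Fintype ι] [DecidableEq ι] in
lemma l1_Rel.neg {ρ : ι → ℕ} {c : ℕ} {T : Matrix ι ι (R n)} (h : l1_Rel ρ c T) :
    l1_Rel ρ c (-T) := fun j i hji => h j i (fun e => hji (by rw [Matrix.neg_apply, e, neg_zero]))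

omit [Fintype ι] [DecidableEq ι] in
lemma l1_Rel.smul {ρ : ι → ℕ} {c : ℕ} {T : Matrix ι ι (R n)} (h : l1_Rel ρ c T) (x : R n) :
    l1_Rel ρ c (x • T) := fun j i hji =>
  h j i (fun e => hji (by rw [Matrix.smul_apply, e, smul_zero]))

omit [Fintype ι] [DecidableEq ι] in
lemma l1_Rel.map {ρ : ι → ℕ} {c : ℕ} {T : Matrix ι ι (R n)} (h : l1_Rel ρ c T) {f : R n → R n}
    (hf : f 0 = 0) : l1_Rel ρ c (T.map f) := fun j i hji =>
  h j i (fun e => hji (by rw [map_apply, e, hf]))

omit [Fintype ι] [DecidableEq ι] in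
lemma l1_Rel.zero (ρ : ι → ℕ) (c : ℕ) : l1_Rel ρ c (0 : Matrix ι ι (R n)) :=
  fun _ _ h => absurd rfl h

omit [Fintype ι] [DecidableEq ι] in
lemma l1_Rel.blocks {ρ : ι → ℕ} {c : ℕ} {T1 T2 T3 T4 : Matrix ι ι (R n)} (h1 : l1_Rel ρ c T1)
    (h2 : l1_Rel ρ c T2) (h3 : l1_Rel ρ c T3) (h4 : l1_Rel ρ c T4) :
    l1_Rel (Sum.elim ρ ρ) c (fromBlocks T1 T2 T3 T4) := by
  rintro (j | j) (i | i) h
  · exact h1 j i h
  · exact h2 j i h
  · exact h3 j i h
  · exact h4 j i h

lemma l1_Rel.pow {ρ : ι → ℕ} {T : Matrix ι ι (R n)} (h : l1_Rel ρ 1 T) (k : ℕ) :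
    l1_Rel ρ k (T ^ k) := by
  induction k with
  | zero => rw [pow_zero]; exact l1_Rel.one ρ
  | succ k ih => rw [pow_succ]; exact ih.mul h

lemma l1_Rel.nil {ρ : ι → ℕ} {T : Matrix ι ι (R n)} (h : l1_Rel ρ 1 T) :
    T ^ (Finset.univ.sup ρ + 1) = 0 := by
  ext1 j i
  by_contra hne
  have h1 := h.pow _ j i hne
  have h2 : ρ j ≤ Finset.univ.sup ρ := Finset.le_sup (Finset.mem_univ j)
  omega

omit [DecidableEq ι] in
lemma l1_Tri.diag {ρ : ι → ℕ} {T T' : Matrix ι ι (R n)} (h : l1_Tri ρ T) (h' : l1_Tri ρ T')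
    (i : ι) : (T * T') i i = T i i * T' i i := by
  rw [mul_apply, Finset.sum_eq_single i]
  · intro k _ hk
    by_contra hne
    obtain ⟨h1, h2⟩ := mul_ne_zero_iff.1 hne
    rcases h _ _ h1 with e | e
    · exact hk e.symm
    · rcases h' _ _ h2 with e' | e'
      · exact hk e'
      · omega
  · simp

omit [DecidableEq ι] in
/-- the gap lemma -/
lemma l1_Tri.gap {ρ : ι → ℕ} {T T' : Matrix ι ι (R n)} (h : l1_Tri ρ T) (h' : l1_Tri ρ T')
    {j i : ι} (hg : ρ j = ρ i + 1) : (T * T') j i = T j j * T' j i + T j i * T' i i := by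
  have hne : j ≠ i := fun e => by rw [e] at hg; omega
  rw [mul_apply, Finset.sum_eq_add_of_mem j i (Finset.mem_univ _) (Finset.mem_univ _) hne]
  intro k _ hk
  by_contra hne
  obtain ⟨h1, h2⟩ := mul_ne_zero_iff.1 hne
  rcases h _ _ h1 with e | e
  · exact hk.1 e.symm
  · rcases h' _ _ h2 with e' | e'
    · exact hk.2 e'
    · omega

/-- homogeneous triangular matrices -/
def l1_sub (deg : ι → ℤ) (ρ : ι → ℕ) : Subring (Matrix ι ι (R n)) where
  carrier := {T | Homog deg deg 0 T ∧ l1_Tri ρ T}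
  mul_mem' h h' := ⟨(h.1.mul h'.1).cast (by norm_num), h.2.mul h'.2⟩
  one_mem' := ⟨Homog.one, fun j i h => Or.inl (by by_contra e; exact h (one_apply_ne e))⟩
  add_mem' {T T'} h h' := ⟨h.1.add h'.1, fun j i hji => by
    by_cases e : T j i = 0
    · exact h'.2 j i (fun e' => hji (by rw [Matrix.add_apply, e, e', add_zero]))
    · exact h.2 j i e⟩
  zero_mem' := ⟨Homog.zero, fun _ _ h => absurd rfl h⟩
  neg_mem' {T} h := ⟨h.1.neg, fun j i hji =>
    h.2 j i (fun e => hji (by rw [Matrix.neg_apply, e, neg_zero]))⟩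

lemma l1_inv {deg : ι → ℤ} {ρ : ι → ℕ} {N : Matrix ι ι (R n)} (hN : Homog deg deg 0 N)
    (h : l1_Rel ρ 1 N) : ∃ Q : Matrix ι ι (R n), Homog deg deg 0 Q ∧ l1_Tri ρ Q ∧
      Q * (1 + N) = 1 ∧ (1 + N) * Q = 1 := by
  have hm : N ∈ l1_sub deg ρ := ⟨hN, fun j i hji => Or.inr (h j i hji)⟩
  have hnil : IsNilpotent (⟨N, hm⟩ : l1_sub (n := n) deg ρ) :=
    ⟨Finset.univ.sup ρ + 1, Subtype.ext (by simpa using h.nil)⟩
  obtain ⟨u, hu⟩ := hnil.isUnit_one_add
  refine ⟨(u⁻¹ : (l1_sub (n := n) deg ρ)ˣ).val.val, (u⁻¹).val.2.1, (u⁻¹).val.2.2, ?_, ?_⟩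
  · have := congrArg Subtype.val u.inv_mul
    rw [hu] at this
    simpa using this
  · have := congrArg Subtype.val u.mul_inv
    rw [hu] at this
    simpa using this

lemma l1_flag_tri {B : Obj n ι} {lab : ι → Perm (Fin n)} {r : Perm (Fin n) → ℕ}
    (h : IsFlag B lab r) (g : R n) : l1_Tri (fun i => r (lab i)) (B.Y g) := h.tri g

lemma l1_cross {B : Obj n ι} {lab : ι → Perm (Fin n)} {r : Perm (Fin n) → ℕ}
    (h : IsFlag B lab r) {j i : ι} (hg : r (lab j) = r (lab i) + 1) (g g' : R n) :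
    (act (lab i) g' - act (lab j) g') * B.Y g j i =
      (act (lab i) g - act (lab j) g) * B.Y g' j i := by
  have e := congrFun (congrFun (B.Y_comm g g') j) i
  rw [(l1_flag_tri h g).gap (l1_flag_tri h g') hg, (l1_flag_tri h g').gap (l1_flag_tri h g) hg,
    h.diag, h.diag, h.diag, h.diag] at e
  linear_combination e

lemma l1_not_swap {u : Perm (Fin n)} {p : Fin n} (hp : u p ≠ p) (hu : u ≠ swap p (u p)) :
    ∃ p', Function.update id p (u p) p' ≠ Function.update id p (u p) (u p') := by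
  by_contra hc
  push Not at hc
  apply hu
  have h2 : u (u p) = p := by
    by_contra h3
    have := hc (u p)
    rw [Function.update_of_ne hp, Function.update_of_ne h3] at this
    exact hp (u.injective this.symm)
  ext1 z
  by_cases h1 : z = p
  · rw [h1, swap_apply_left]
  · by_cases h3 : z = u p
    · rw [h3, swap_apply_right, h2]
    · rw [swap_apply_of_ne_of_ne h1 h3]
      have h4 : u z ≠ p := fun e => h3 (u.injective (e.trans h2.symm))
      have := hc z
      rw [Function.update_of_ne h1, Function.update_of_ne h4] at this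
      exact this.symm

lemma l1_exN {B : Obj n ι} {lab : ι → Perm (Fin n)} {r : Perm (Fin n) → ℕ}
    (h : IsFlag B lab r) {j i : ι} (hg : r (lab j) = r (lab i) + 1)
    (hs : ¬ ∃ p q, p ≠ q ∧ lab j = lab i * swap p q) :
    ∃ N : R n, Hm N (B.deg i + 0 - B.deg j) ∧
      ∀ g, B.Y g j i = (act (lab i) g - act (lab j) g) * N := by
  set u := (lab j)⁻¹ * lab i with hu
  have hX : ∀ p, act (lab i) (MvPolynomial.X (lab i p)) - act (lab j) (MvPolynomial.X (lab i p)) =
      MvPolynomial.X p - MvPolynomial.X (u p) := fun p => by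
    rw [act_X, act_X, symm_apply_apply]; rfl
  obtain ⟨p, hp⟩ : ∃ p, u p ≠ p := by
    by_contra hc
    push Not at hc
    have h1 : u = 1 := Equiv.ext hc
    rw [hu, inv_mul_eq_one] at h1
    rw [h1] at hg
    omega
  obtain ⟨p', hp'⟩ := l1_not_swap hp (fun e => hs ⟨p, u p, hp.symm, by
    rw [← swap_inv, ← e, hu]; group⟩)
  have hL : (MvPolynomial.X p - MvPolynomial.X (u p) : R n) ≠ 0 := X_sub_X_ne_zero hp.symm
  have hdvd : (MvPolynomial.X p - MvPolynomial.X (u p) : R n) ∣
      B.Y (MvPolynomial.X (lab i p)) j i := by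
    apply X_sub_X_dvd_of
    have e := congrArg (MvPolynomial.rename (Function.update id p (u p)))
      (l1_cross h hg (MvPolynomial.X (lab i p')) (MvPolynomial.X (lab i p)))
    rw [hX, hX, map_mul, map_mul, map_sub, map_sub, MvPolynomial.rename_X, MvPolynomial.rename_X,
      MvPolynomial.rename_X, MvPolynomial.rename_X, Function.update_self,
      Function.update_of_ne hp, id, sub_self, zero_mul] at e
    exact (mul_eq_zero.1 e.symm).resolve_left (X_sub_X_ne_zero hp')
  obtain ⟨N, hN⟩ := hdvd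
  refine ⟨N, Hm.of_mul ((Hm.X p).sub (Hm.X (u p))) hL ?_, fun g => ?_⟩
  · rw [← hN]; exact (B.Y_X _ j i).cast (by ring)
  · have e := l1_cross h hg g (MvPolynomial.X (lab i p))
    rw [hX, hN] at e
    apply mul_left_cancel₀ hL
    linear_combination e

/-- entries between adjacent levels only occur along transpositions -/
def l1_Clean (B : Obj n ι) (lab : ι → Perm (Fin n)) (r : Perm (Fin n) → ℕ) : Prop :=
  ∀ g j i, r (lab j) = r (lab i) + 1 → B.Y g j i ≠ 0 → ∃ p q, p ≠ q ∧ lab j = lab i * swap p q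

/-- the clean lemma -/
theorem l1_clean {B : Obj n ι} {lab : ι → Perm (Fin n)} {r : Perm (Fin n) → ℕ}
    (h : IsFlag B lab r) : ∃ M : Obj n ι, M.deg = B.deg ∧ IsFlag M lab r ∧ l1_Clean M lab r ∧
      l1_Iso M B := by
  classical
  have hex : ∀ j i, ∃ N : R n, Hm N (B.deg i + 0 - B.deg j) ∧
      (N ≠ 0 → r (lab i) + 1 ≤ r (lab j)) ∧
      (r (lab j) = r (lab i) + 1 → (¬ ∃ p q, p ≠ q ∧ lab j = lab i * swap p q) →
        ∀ g, B.Y g j i = (act (lab i) g - act (lab j) g) * N) := by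
    intro j i
    by_cases hc : r (lab j) = r (lab i) + 1 ∧ ¬ ∃ p q, p ≠ q ∧ lab j = lab i * swap p q
    · obtain ⟨N, h1, h2⟩ := l1_exN h hc.1 hc.2
      exact ⟨N, h1, fun _ => hc.1.ge, fun _ _ => h2⟩
    · exact ⟨0, Hm.zero _, fun e => absurd rfl e, fun h1 h2 => absurd ⟨h1, h2⟩ hc⟩
  choose N hN1 hN2 hN3 using hex
  have hH : Homog B.deg B.deg 0 (Matrix.of N) := hN1
  have hR : l1_Rel (fun i => r (lab i)) 1 (Matrix.of N) := hN2
  obtain ⟨Q, hQ, hQt, h1, h2⟩ := l1_inv hH hR
  have hPt : l1_Tri (fun i => r (lab i)) (1 + Matrix.of N) :=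
    ((l1_sub B.deg _).add_mem (l1_sub B.deg _).one_mem
      ⟨hH, fun j i hji => Or.inr (hR j i hji)⟩).2
  have hPd : ∀ i, (1 + Matrix.of N) i i = 1 := fun i => by
    have : N i i = 0 := by
      by_contra e
      have := hN2 i i e
      omega
    simp [this]
  have hQd : ∀ i, Q i i = 1 := fun i => by
    have := congrFun (congrFun h1 i) i
    rwa [hQt.diag hPt, hPd, mul_one, one_apply_eq] at this
  obtain ⟨M, hd, hY, hI⟩ := l1_conj B B.deg (1 + Matrix.of N) Q (Homog.one.add hH) hQ h1 h2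
  have hT : ∀ g, l1_Tri (fun i => r (lab i)) (M.Y g) := fun g => by
    rw [hY]; exact (hQt.mul (l1_flag_tri h g)).mul hPt
  have hD : ∀ g i, M.Y g i i = act (lab i) g := fun g i => by
    rw [hY, (hQt.mul (l1_flag_tri h g)).diag hPt, hQt.diag (l1_flag_tri h g), hQd, hPd, h.diag,
      one_mul, mul_one]
  refine ⟨M, hd, ⟨hD, hT⟩, fun g j i hg hne => ?_, hI⟩
  by_contra hs
  apply hne
  have e : (1 + Matrix.of N) * M.Y g = B.Y g * (1 + Matrix.of N) := by
    rw [hY, ← Matrix.mul_assoc, ← Matrix.mul_assoc, h2, Matrix.one_mul]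
  have e2 := congrFun (congrFun e j) i
  have hji : j ≠ i := fun e => by rw [e] at hg; omega
  rw [hPt.gap (hT g) hg, (l1_flag_tri h g).gap hPt hg, hPd, hPd, hD, h.diag, hN3 j i hg hs g,
    Matrix.add_apply, one_apply_ne hji, of_apply] at e2
  linear_combination e2

/-! ### the theta step -/

/-- the shorter of `x` and `x s` -/
noncomputable def l1_mn (a : Adj n) (x : Perm (Fin n)) : Perm (Fin n) :=
  if len x < len (x * sr a) then x else x * sr a

lemma l1_mn_asc {a : Adj n} {x : Perm (Fin n)} (h : len x < len (x * sr a)) : l1_mn a x = x :=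
  if_pos h

lemma l1_mn_desc {a : Adj n} {x : Perm (Fin n)} (h : ¬ len x < len (x * sr a)) :
    l1_mn a x = x * sr a := if_neg h

lemma l1_len_mn (a : Adj n) (x : Perm (Fin n)) :
    len (l1_mn a x * sr a) = len (l1_mn a x) + 1 := by
  by_cases h : len x < len (x * sr a)
  · rw [l1_mn_asc h]; rcases kl_len_cases x a with e | e <;> omega
  · rw [l1_mn_desc h, mul_sr_sr]; rcases kl_len_cases x a with e | e <;> omega

lemma l1_mn_sr (a : Adj n) (x : Perm (Fin n)) : l1_mn a (x * sr a) = l1_mn a x := by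
  by_cases h : len x < len (x * sr a)
  · rw [l1_mn_asc h, l1_mn_desc (by rw [mul_sr_sr]; omega), mul_sr_sr]
  · rw [l1_mn_desc h, l1_mn_asc (by
      rw [mul_sr_sr]; rcases kl_len_cases x a with e | e <;> omega)]

lemma l1_mn_mn (a : Adj n) (x : Perm (Fin n)) : l1_mn a (l1_mn a x) = l1_mn a x :=
  l1_mn_asc (by rw [l1_len_mn]; omega)

lemma l1_len_cases (a : Adj n) (x : Perm (Fin n)) :
    (len x < len (x * sr a) ∧ len x = len (l1_mn a x)) ∨
      (¬ len x < len (x * sr a) ∧ len x = len (l1_mn a x) + 1) := by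
  by_cases h : len x < len (x * sr a)
  · exact Or.inl ⟨h, by rw [l1_mn_asc h]⟩
  · refine Or.inr ⟨h, ?_⟩
    rw [l1_mn_desc h]; rcases kl_len_cases x a with e | e <;> omega

lemma l1_entry {B : Obj n ι} {lab : ι → Perm (Fin n)} (h : IsFlag B lab len)
    (hc : l1_Clean B lab len) (a : Adj n) {g : R n} {j i : ι} (hne : B.Y g j i ≠ 0) (hji : j ≠ i) :
    len (l1_mn a (lab i)) < len (l1_mn a (lab j)) ∨
      (len (lab i) < len (lab i * sr a) ∧ lab j = lab i * sr a) := by
  have h1 := (h.tri g j i hne).resolve_left hji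
  by_cases h2 : len (l1_mn a (lab i)) < len (l1_mn a (lab j))
  · exact Or.inl h2
  · right
    rcases l1_len_cases a (lab i) with ⟨e1, e2⟩ | ⟨e1, e2⟩ <;>
      rcases l1_len_cases a (lab j) with ⟨e3, e4⟩ | ⟨e3, e4⟩
    · omega
    · obtain ⟨p, q, -, hpq⟩ := hc g j i (by omega) hne
      have e5 : len (lab j * sr a) + 1 = len (lab j) := by
        rcases kl_len_cases (lab j) a with e | e <;> omega
      exact ⟨e1, eq_mul_sr_of_swap e1 (by omega) h1 (by omega) hpq⟩
    · omega
    · omega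

/-- supported on (descent row, ascent column) -/
def l1_Sup (asc : ι → Prop) (T : Matrix ι ι (R n)) : Prop := ∀ j i, T j i ≠ 0 → ¬ asc j ∧ asc i

omit [DecidableEq ι] in
lemma l1_Sup.mul {asc : ι → Prop} {T T' : Matrix ι ι (R n)} (h : l1_Sup asc T)
    (h' : l1_Sup asc T') : T * T' = 0 := by
  ext1 j i
  by_contra hne
  obtain ⟨k, h1, h2⟩ := l1_mul_ne hne
  exact (h' _ _ h2).1 (h _ _ h1).2

lemma l1_Sup.anti {asc : ι → Prop} [DecidablePred asc] {T : Matrix ι ι (R n)}
    (h : l1_Sup asc T) : diagonal (fun i => if asc i then (1 : R n) else -1) * T +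
      T * diagonal (fun i => if asc i then (1 : R n) else -1) = 0 := by
  ext1 j i
  rw [Matrix.add_apply, diagonal_mul, mul_diagonal, Matrix.zero_apply]
  by_cases e : T j i = 0
  · rw [e]; simp
  · rw [if_neg (h j i e).1, if_pos (h j i e).2]; ring

omit [Fintype ι] [DecidableEq ι] in
lemma l1_Sup.map {asc : ι → Prop} {T : Matrix ι ι (R n)} (h : l1_Sup asc T) {f : R n → R n}
    (hf : f 0 = 0) : l1_Sup asc (T.map f) := fun j i hji =>
  h j i (fun e => hji (by rw [map_apply, e, hf]))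

lemma l1_alg {e o E O : Matrix ι ι (R n)} (al : R n) (ho : o * o = 1) (he : e * e = 0)
    (hoe : o * e + e * o = 0) (h1 : E * e = e * E) (h2 : E * o = o * E) (h3 : O * e = e * O)
    (h4 : O * o = o * O) :
    (fromBlocks E 0 0 E + fromBlocks e (al ^ 2 • o) o e * fromBlocks O 0 0 O) *
      fromBlocks 1 (e - al • 1) 0 o =
      fromBlocks 1 (e - al • 1) 0 o * fromBlocks (E + al • O) 0 O (E - al • O) := by
  have he' : ∀ X : Matrix ι ι (R n), e * (e * X) = 0 := fun X => by
    rw [← Matrix.mul_assoc, he, Matrix.zero_mul]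
  have ho' : ∀ X : Matrix ι ι (R n), o * (o * X) = X := fun X => by
    rw [← Matrix.mul_assoc, ho, Matrix.one_mul]
  have hoe' : ∀ X : Matrix ι ι (R n), o * (e * X) = -(e * (o * X)) := fun X => by
    rw [← Matrix.mul_assoc, ← Matrix.mul_assoc, eq_neg_of_add_eq_zero_left hoe, Matrix.neg_mul]
  rw [fromBlocks_multiply, fromBlocks_add, fromBlocks_multiply, fromBlocks_multiply]
  congr 1 <;>
    simp only [Matrix.mul_add, Matrix.add_mul, Matrix.mul_sub, Matrix.sub_mul, Matrix.smul_mul,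
      Matrix.mul_smul, Matrix.mul_assoc, Matrix.mul_one, Matrix.one_mul, Matrix.mul_zero,
      Matrix.zero_mul, h1, h2, h3, h4, he', ho', hoe'] <;> module

omit [Fintype ι] in
lemma l1_kap_diag (a : Adj n) {d : ι → R n} (hd : ∀ i, (demR a).σ (d i) = d i) :
    (demR a).kap (diagonal d) = fromBlocks (diagonal d) 0 0 (diagonal d) := by
  have h1 : ∀ j i, (demR a).σ (diagonal d j i) = diagonal d j i := fun j i => by
    rw [diagonal_apply]
    split_ifs
    · exact hd _
    · exact map_zero _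
  ext1 (j | j) (i | i)
  · exact (demR a).ev_inv (h1 j i)
  · show (demR a).al ^ 2 * (demR a).od _ = 0
    rw [(demR a).od_inv (h1 j i), mul_zero]
  · exact (demR a).od_inv (h1 j i)
  · exact (demR a).ev_inv (h1 j i)

lemma l1_comm_diag {β : Type} {m : ι → β} {T : Matrix ι ι (R n)}
    (h : ∀ j i, T j i ≠ 0 → m j = m i) (f : β → R n) :
    diagonal (fun i => f (m i)) * T = T * diagonal (fun i => f (m i)) := by
  ext1 j i
  rw [diagonal_mul, mul_diagonal]
  by_cases e : T j i = 0
  · rw [e, mul_zero, zero_mul]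
  · rw [h j i e, mul_comm]

omit [DecidableEq ι] in
lemma l1_ch (a : Adj n) (deg : ι → ℤ) (lab : ι → Perm (Fin n)) :
    ch (deg2 deg) (Sum.elim (fun i => l1_mn a (lab i)) (fun i => l1_mn a (lab i) * sr a)) =
      mulC a (ch deg lab) := by
  funext x
  simp only [ch, mulC, Finset.sum_filter, Fintype.sum_sum_type, Finset.mul_sum,
    ← Finset.sum_add_distrib, Sum.elim_inl, Sum.elim_inr, deg2]
  refine Finset.sum_congr rfl fun i _ => ?_
  have hne : ∀ y : Perm (Fin n), y * sr a ≠ y := fun y e => by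
    have := kl_len_cases y a
    rw [e] at this
    omega
  have hiff : ∀ y z : Perm (Fin n), y * sr a = z ↔ y = z * sr a := fun y z =>
    ⟨fun e => by rw [← e, mul_sr_sr], fun e => by rw [e, mul_sr_sr]⟩
  by_cases h1 : lab i = x
  · subst h1
    rw [if_neg (hne _).symm, if_pos rfl, zero_add]
    by_cases h : len (lab i) < len (lab i * sr a)
    · rw [l1_mn_asc h, if_pos rfl, if_neg (hne _), if_pos h, add_zero, ← LaurentPolynomial.T_add]
      congr 1; ring
    · rw [l1_mn_desc h, mul_sr_sr, if_pos rfl, if_neg (hne _), if_neg h, zero_add,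
        ← LaurentPolynomial.T_add]
      congr 1; ring
  · rw [if_neg h1, mul_zero, add_zero]
    by_cases h2 : lab i = x * sr a
    · rw [if_pos h2, h2, l1_mn_sr]
      by_cases h : len x < len (x * sr a)
      · rw [l1_mn_asc h, if_pos rfl, if_neg (hne _), add_zero]
        congr 1
        rcases kl_len_cases x a with e | e <;> omega
      · rw [l1_mn_desc h, mul_sr_sr, if_pos rfl, if_neg (hne _), zero_add]
        congr 1
        rcases kl_len_cases x a with e | e <;> omega
    · rw [if_neg h2]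
      by_cases h : len (lab i) < len (lab i * sr a)
      · rw [l1_mn_asc h, if_neg h1, if_neg (fun e => h2 ((hiff _ _).1 e)), add_zero]
      · rw [l1_mn_desc h, mul_sr_sr, if_neg h1, if_neg (fun e => h2 ((hiff _ _).1 e)), add_zero]

theorem l1_step {B : Obj n ι} {lab : ι → Perm (Fin n)} (h : IsFlag B lab len)
    (hc : l1_Clean B lab len) (a : Adj n) :
    ∃ M : Obj n (ι ⊕ ι), M.deg = deg2 B.deg ∧
      IsFlag M (Sum.elim (fun i => l1_mn a (lab i)) (fun i => l1_mn a (lab i) * sr a))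
        (fun x => len (l1_mn a x) + len x) ∧ l1_Iso M (B.θ a) := by
  classical
  obtain ⟨N, hN⟩ : ∃ N : Matrix ι ι (R n), ∀ j i, N j i =
      if len (lab i) < len (lab i * sr a) ∧ lab j = lab i * sr a then
        B.Y (act (lab i)⁻¹ (alpha a)) j i else 0 := ⟨Matrix.of _, fun _ _ => rfl⟩
  have hN0 : ∀ j i, N j i ≠ 0 → len (lab i) < len (lab i * sr a) ∧ lab j = lab i * sr a :=
    fun j i hne => by
      by_contra e
      exact hne (by rw [hN, if_neg e])
  have hsup : l1_Sup (fun i => len (lab i) < len (lab i * sr a)) N := fun j i hne => by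
    obtain ⟨e1, e2⟩ := hN0 j i hne
    refine ⟨?_, e1⟩
    show ¬ len (lab j) < len (lab j * sr a)
    rw [e2, mul_sr_sr]
    omega
  have hm : ∀ j i, N j i ≠ 0 → l1_mn a (lab j) = l1_mn a (lab i) := fun j i hne => by
    rw [(hN0 j i hne).2, l1_mn_sr]
  have hNH : Homog B.deg B.deg 2 N := fun j i => by
    rw [hN]
    split_ifs
    · rw [alpha, map_sub, act_X, act_X, map_sub]
      exact ((B.Y_X _).sub (B.Y_X _)) j i
    · exact Hm.zero _
  set ρ : ι → ℕ := fun i => len (l1_mn a (lab i)) with hρ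
  set ε : Matrix ι ι (R n) :=
    diagonal (fun i => if len (lab i) < len (lab i * sr a) then (1 : R n) else -1) with hε
  set e : Matrix ι ι (R n) := N.map (demR a).ev with he
  set o' : Matrix ι ι (R n) := N.map (demR a).od with ho'
  have hse := hsup.map (demR a).ev_zero
  have hso := hsup.map (demR a).od_zero
  have hεε : ε * ε = 1 := by
    rw [hε, diagonal_mul_diagonal, ← diagonal_one]
    congr 1
    funext i
    split_ifs <;> ring
  have hoo : (ε + o') * (ε + o') = 1 := by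
    rw [Matrix.add_mul, Matrix.mul_add, Matrix.mul_add, hεε, hso.mul hso, add_zero, add_assoc,
      hso.anti, add_zero]
  have hee : e * e = 0 := hse.mul hse
  have hoe : (ε + o') * e + e * (ε + o') = 0 := by
    rw [Matrix.add_mul, Matrix.mul_add, hso.mul hse, hse.mul hso, add_zero, add_zero, hse.anti]
  have hεσ : ∀ j i, (demR a).σ (ε j i) = ε j i := fun j i => by
    rw [hε, diagonal_apply]
    split_ifs <;> simp
  have hkA : (demR a).kap (alpha a • ε + N) =
      fromBlocks e (alpha a ^ 2 • (ε + o')) (ε + o') e := by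
    have e1 : ∀ j i, (demR a).ev ((alpha a • ε + N) j i) = e j i := fun j i => by
      rw [Matrix.add_apply, Matrix.smul_apply, smul_eq_mul, Dem.ev_add, ← demR_al,
        Dem.ev_al_mul, (demR a).od_inv (hεσ j i), mul_zero, zero_add, he, map_apply]
    have e2 : ∀ j i, (demR a).od ((alpha a • ε + N) j i) = (ε + o') j i := fun j i => by
      rw [Matrix.add_apply, Matrix.smul_apply, smul_eq_mul, Dem.od_add, ← demR_al,
        Dem.od_al_mul, (demR a).ev_inv (hεσ j i), Matrix.add_apply, ho', map_apply]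
    ext1 (j | j) (i | i)
    · exact e1 j i
    · show (demR a).al ^ 2 * (demR a).od _ = alpha a ^ 2 * (ε + o') j i
      rw [e2, demR_al]
    · exact e2 j i
    · exact e1 j i
  have hme : ∀ j i, e j i ≠ 0 → l1_mn a (lab j) = l1_mn a (lab i) := fun j i hne =>
    hm j i (fun e0 => hne (by rw [he, map_apply, e0, Dem.ev_zero]))
  have hmo : ∀ j i, (ε + o') j i ≠ 0 → l1_mn a (lab j) = l1_mn a (lab i) := fun j i hne => by
    by_cases hji : j = i
    · rw [hji]
    · refine hm j i (fun e0 => hne ?_)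
      rw [Matrix.add_apply, hε, diagonal_apply_ne _ hji, ho', map_apply, e0, Dem.od_zero, add_zero]
  have hre : l1_Rel ρ 0 e := fun j i hne => by
    simp only [hρ, hme j i hne]; exact le_rfl
  have hro : l1_Rel ρ 0 (ε + o') := fun j i hne => by
    simp only [hρ, hmo j i hne]; exact le_rfl
  have hrx : l1_Rel ρ 0 (e - alpha a • 1) := by
    rw [sub_eq_add_neg]; exact hre.add ((l1_Rel.one ρ).smul _).neg
  have hHe : Homog B.deg B.deg 2 (e - alpha a • 1) :=
    Homog.sub (fun j i => (hNH j i).ev a)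
      ((Homog.one.smulR (Hm.of_alpha a)).cast (by norm_num))
  have hHo : Homog B.deg B.deg 0 (ε + o') := by
    refine Homog.add (fun j i => ?_) (fun j i => ((hNH j i).od a).cast (by ring))
    rw [hε, diagonal_apply]
    split_ifs with h1 h2
    · subst h1; exact Hm.one.cast (by ring)
    · subst h1; exact Hm.one.neg.cast (by ring)
    · exact Hm.zero _
  have hblock : ∀ {X Z : Matrix ι ι (R n)}, Homog B.deg B.deg 2 X → Homog B.deg B.deg 0 Z →
      Homog (deg2 B.deg) (deg2 B.deg) 0 (fromBlocks 1 X 0 Z) := by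
    intro X Z hX hZ
    rintro (j | j) (i | i)
    · exact (Homog.one (deg := B.deg) j i).cast (by simp [deg2])
    · exact (hX j i).cast (by simp [deg2]; ring)
    · exact Hm.zero _
    · exact (hZ j i).cast (by simp [deg2])
  have hQP : fromBlocks 1 (-((e - alpha a • 1) * (ε + o'))) 0 (ε + o') *
      fromBlocks (1 : Matrix ι ι (R n)) (e - alpha a • 1) 0 (ε + o') = 1 := by
    rw [fromBlocks_multiply, Matrix.neg_mul, Matrix.neg_mul, Matrix.mul_assoc _ _ (ε + o'), hoo]
    simp
  obtain ⟨M, hd, hY, hI⟩ := l1_conj (B.θ a) (deg2 B.deg) _ _ (hblock hHe hHo)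
    (hblock ((hHe.mul hHo).cast (by norm_num)).neg hHo) hQP (mul_eq_one_comm.1 hQP)
  refine ⟨M, hd, ?_, hI⟩
  have key : ∀ g, ∃ S : Matrix (ι ⊕ ι) (ι ⊕ ι) (R n), l1_Rel (Sum.elim ρ ρ) 1 S ∧
      M.Y g = fromBlocks (diagonal fun i => act (l1_mn a (lab i)) g) 0
        (diagonal fun i => (demR a).od (act (l1_mn a (lab i)) g))
        (diagonal fun i => act (l1_mn a (lab i) * sr a) g) + S := by
    intro g
    set E : Matrix ι ι (R n) := diagonal fun i => (demR a).ev (act (l1_mn a (lab i)) g) with hE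
    set O : Matrix ι ι (R n) := diagonal fun i => (demR a).od (act (l1_mn a (lab i)) g) with hO
    have hEp : E + alpha a • O = diagonal fun i => act (l1_mn a (lab i)) g := by
      rw [hE, hO, ← diagonal_smul, diagonal_add]
      congr 1
      funext i
      exact (demR a).dec _
    have hEm : E - alpha a • O = diagonal fun i => act (l1_mn a (lab i) * sr a) g := by
      rw [hE, hO, ← diagonal_smul, diagonal_sub]
      congr 1
      funext i
      rw [act_mul]
      exact ((demR a).σ_eq _).symm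
    have hS : l1_Rel ρ 1 (B.Y g - (E + (alpha a • ε + N) * O)) := by
      intro j i hne
      rw [Matrix.sub_apply, Matrix.add_apply, hO, mul_diagonal, Matrix.add_apply,
        Matrix.smul_apply, smul_eq_mul, hE, hε] at hne
      by_cases hji : j = i
      · subst hji
        exfalso
        apply hne
        have h0 : N j j = 0 := by
          by_contra e0
          exact (hsup j j e0).1 (hsup j j e0).2
        rw [diagonal_apply_eq, diagonal_apply_eq, h0, h.diag]
        by_cases h1 : len (lab j) < len (lab j * sr a)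
        · rw [if_pos h1, l1_mn_asc h1]
          have := (demR a).dec (act (lab j) g)
          rw [demR_al] at this
          linear_combination -this
        · rw [if_neg h1]
          have e1 : lab j = l1_mn a (lab j) * sr a := by rw [l1_mn_desc h1, mul_sr_sr]
          have := (demR a).σ_eq (act (l1_mn a (lab j)) g)
          rw [demR_al, demR_σ, ← act_mul, ← e1] at this
          linear_combination this
      · rw [diagonal_apply_ne _ hji, diagonal_apply_ne _ hji, mul_zero, zero_add, zero_add,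
          hN] at hne
        by_cases h1 : len (lab i) < len (lab i * sr a) ∧ lab j = lab i * sr a
        · exfalso
          apply hne
          have hg : len (lab j) = len (lab i) + 1 := by
            rw [h1.2]; rcases kl_len_cases (lab i) a with e | e <;> omega
          have e1 := l1_cross h hg g (act (lab i)⁻¹ (alpha a))
          have e2 := (demR a).σ_eq (act (lab i) g)
          have e3 := (demR a).dec (act (lab i) g)
          rw [h1.2, act_mul, act_mul, act_surj, act_sr_alpha] at e1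
          rw [demR_al, demR_σ] at e2
          rw [demR_al] at e3
          rw [if_pos h1, l1_mn_asc h1.1]
          apply mul_left_cancel₀ (mul_ne_zero (two_ne_zero (α := R n)) (alpha_ne_zero a))
          linear_combination e1 - B.Y (act (lab i)⁻¹ (alpha a)) j i * e2 -
            B.Y (act (lab i)⁻¹ (alpha a)) j i * e3
        · rw [if_neg h1, zero_mul, sub_zero] at hne
          exact (l1_entry h hc a hne hji).resolve_right h1
    have hK : l1_Rel (Sum.elim ρ ρ) 1 ((demR a).kap (B.Y g - (E + (alpha a • ε + N) * O))) :=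
      l1_Rel.blocks (hS.map (demR a).ev_zero) (hS.map (by simp)) (hS.map (demR a).od_zero)
        (hS.map (demR a).ev_zero)
    refine ⟨_, ((l1_Rel.blocks (l1_Rel.one ρ) (hrx.mul hro).neg (l1_Rel.zero ρ 0) hro).mul hK).mul
      (l1_Rel.blocks (l1_Rel.one ρ) hrx (l1_Rel.zero ρ 0) hro), ?_⟩
    have hal := l1_alg (E := E) (O := O) (alpha a) hoo hee hoe
      (l1_comm_diag hme fun x => (demR a).ev (act x g))
      (l1_comm_diag hmo fun x => (demR a).ev (act x g))
      (l1_comm_diag hme fun x => (demR a).od (act x g))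
      (l1_comm_diag hmo fun x => (demR a).od (act x g))
    have hkE : (demR a).kap E = fromBlocks E 0 0 E := l1_kap_diag a (fun i => (demR a).σ_ev _)
    have hkO : (demR a).kap O = fromBlocks O 0 0 O := l1_kap_diag a (fun i => (demR a).σ_od _)
    rw [hEp, hEm] at hal
    rw [hY, Obj.θ_Y, Dem.kap_sub, Dem.kap_add, Dem.kap_mul, hkA, hkE, hkO]
    generalize fromBlocks (1 : Matrix ι ι (R n)) (-((e - alpha a • 1) * (ε + o'))) 0 (ε + o') = Q0 at hQP ⊢
    rw [Matrix.mul_sub, Matrix.sub_mul, Matrix.mul_assoc Q0 (_ + _), hal, ← Matrix.mul_assoc, hQP,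
      Matrix.one_mul]
    abel
  refine ⟨fun g I => ?_, fun g J I hne => ?_⟩
  · obtain ⟨S, hS, hM⟩ := key g
    have h0 : S I I = 0 := by
      by_contra e0
      have := hS I I e0
      omega
    rw [hM, Matrix.add_apply, h0, add_zero]
    rcases I with i | i <;> simp
  · obtain ⟨S, hS, hM⟩ := key g
    by_cases h0 : S J I = 0
    · rw [hM, Matrix.add_apply, h0, add_zero] at hne
      rcases J with j | j <;> rcases I with i | i
      · left
        by_contra e0
        rw [fromBlocks_apply₁₁] at hne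
        exact hne (diagonal_apply_ne _ (fun e1 => e0 (by rw [e1])))
      · exact absurd rfl hne
      · right
        rw [fromBlocks_apply₂₁] at hne
        have : j = i := by
          by_contra e0
          exact hne (diagonal_apply_ne _ e0)
        subst this
        simp only [Sum.elim_inl, Sum.elim_inr, l1_mn_sr, l1_len_mn]
        omega
      · left
        by_contra e0
        rw [fromBlocks_apply₂₂] at hne
        exact hne (diagonal_apply_ne _ (fun e1 => e0 (by rw [e1])))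
    · right
      have := hS J I h0
      rcases J with j | j <;> rcases I with i | i <;>
        simp only [Sum.elim_inl, Sum.elim_inr, l1_mn_sr, l1_len_mn, l1_mn_mn, hρ] at this ⊢ <;>
        omega

theorem theta_flag {B : Obj n ι} {lab : ι → Perm (Fin n)} (h : IsFlag B lab len) (a : Adj n) :
    ∃ (M : Obj n (ι ⊕ ι)) (lab' : ι ⊕ ι → Perm (Fin n)) (P Q : Matrix (ι ⊕ ι) (ι ⊕ ι) (R n)),
      IsFlag M lab' len ∧ P ∈ Hom M (B.θ a) 0 ∧ Q ∈ Hom (B.θ a) M 0 ∧ Q * P = 1 ∧ P * Q = 1 ∧
      ch M.deg lab' = mulC a (ch B.deg lab) := by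
  obtain ⟨B1, hd1, hf1, hc1, hI1⟩ := l1_clean h
  obtain ⟨M1, hd2, hf2, hI2⟩ := l1_step hf1 hc1 a
  obtain ⟨M, hd3, hf3, hc3, hI3⟩ := l1_clean hf2
  obtain ⟨P, Q, hP, hQ, h1, h2⟩ := (hI3.trans hI2).trans (hI1.theta a)
  refine ⟨M, _, P, Q, ⟨hf3.diag, fun g J I hne => ?_⟩, hP, hQ, h1, h2, by
    rw [hd3, hd2, hd1, l1_ch]⟩
  refine (hf3.tri g J I hne).imp_right fun hlt => ?_
  have hpar := fun hg => hc3 g J I hg hne
  generalize Sum.elim (fun i => l1_mn a (lab i)) (fun i => l1_mn a (lab i) * sr a) I = x at *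
  generalize Sum.elim (fun i => l1_mn a (lab i)) (fun i => l1_mn a (lab i) * sr a) J = y at *
  by_contra hle
  dsimp only at hlt hpar
  have e1 := l1_len_cases a x
  have e2 := l1_len_cases a y
  obtain ⟨p, q, hpq, e3⟩ := hpar (by omega)
  have e4 := odd_len_add_swap x hpq
  rw [← e3] at e4
  obtain ⟨k, hk⟩ := e4
  omega

end Pool.Agent.P.MP_c3da96_co
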