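import Pool.Agent.P.MP_c3da96_co.Thick
import Pool.Agent.P.MP_c3da96_co.Retract
import Pool.Agent.P.MP_c3da96_co.ThetaFlag

namespace Pool.Agent.P.MP_c3da96_co

open Equiv Matrix

variable {n : ℕ} {ι κ : Type} [Fintype ι] [DecidableEq ι] [Fintype κ] [DecidableEq κ]

lemma HasFlag.θ {B : Obj n ι} (h : HasFlag B) (a : Adj n) : HasFlag (B.θ a) := by
  obtain ⟨μ, _, _, M, lab, P, Q, hM, hP, hQ, hQP, hPQ⟩ := h
  obtain ⟨M', lab', P', Q', hM', hP', hQ', hQP', hPQ', -⟩ := theta_flag hM a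
  refine ⟨_, _, _, M', lab', (demR a).kap P * P', Q' * (demR a).kap Q, hM',
    Hom.mul (Hom.kap hP a) hP' (by omega), Hom.mul hQ' (Hom.kap hQ a) (by omega), ?_, ?_⟩
  · rw [Matrix.mul_assoc, ← Matrix.mul_assoc _ _ P', ← Dem.kap_mul, hQP, Dem.kap_one,
      Matrix.one_mul, hQP']
  · rw [Matrix.mul_assoc, ← Matrix.mul_assoc P', hPQ', Matrix.one_mul, ← Dem.kap_mul, hPQ,
      Dem.kap_one]

lemma HasFlag.retract {B : Obj n ι} (h : HasFlag B) {N : Obj n κ} {i : Matrix ι κ (R n)}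
    {p : Matrix κ ι (R n)} (hi : i ∈ Hom N B 0) (hp : p ∈ Hom B N 0) (hpi : p * i = 1) :
    HasFlag N := by
  obtain ⟨μ, _, _, M, lab, P, Q, hM, hP, hQ, hQP, hPQ⟩ := h
  have h1 : p * P * (Q * i) = 1 := by
    rw [Matrix.mul_assoc, ← Matrix.mul_assoc P, hPQ, Matrix.one_mul, hpi]
  obtain ⟨ν, _, _, M', lab', i', p', hM', hi', hp', hpi', hip'⟩ := retract_flag hM
    (e := Q * i * (p * P)) (Hom.mul (Hom.mul hQ hi rfl) (Hom.mul hp hP rfl) (by omega)) (by
      rw [Matrix.mul_assoc, ← Matrix.mul_assoc (p * P), h1, Matrix.one_mul])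
  refine ⟨_, _, _, M', lab', p * P * i', p' * (Q * i), hM', Hom.mul (Hom.mul hp hP rfl) hi' (by omega),
    Hom.mul hp' (Hom.mul hQ hi rfl) (by omega), ?_, ?_⟩
  · rw [Matrix.mul_assoc, ← Matrix.mul_assoc (Q * i), ← hip', Matrix.mul_assoc, hpi',
      Matrix.mul_one, hpi']
  · rw [Matrix.mul_assoc, ← Matrix.mul_assoc i', hip', Matrix.mul_assoc (Q * i), h1,
      Matrix.mul_one, h1]

namespace Good
variable {x : Perm (Fin n)} (g : Good x)

lemma exists_orth {B' : Obj n κ} (F' : Form B') :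
    ∃ f : Fin (Module.finrank ℝ (Hom g.B B' 0)) → Matrix κ g.ι (R n),
      (∀ k, f k ∈ Hom g.B B' 0) ∧ (∀ k, f k ≠ 0) ∧
      ∀ k k', k ≠ k' → g.F.adj F' (f k) * f k' = 0 := by
  let β : LinearMap.BilinForm ℝ (Hom g.B B' 0) := LinearMap.mk₂ ℝ
    (fun f f' => bar (g.F.adj F' f.1 * f'.1) g.top g.top)
    (fun f₁ f₂ f' => by simp [Form.adj_add, Matrix.add_mul, bar_add])
    (fun c f f' => by simp [Form.adj_smul, bar_smul])
    (fun f₁ f₂ f' => by simp [Matrix.mul_add, bar_add])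
    (fun c f f' => by simp [bar_smul])
  have hβ : ∀ f f' : Hom g.B B' 0, g.F.adj F' f.1 * f'.1 = β f f' • 1 := fun f f' =>
    g.end_eq (Hom.mul (g.F.adj_mem F' f.2) f'.2 (by omega))
  have hs : LinearMap.IsSymm β := ⟨fun f f' => by
    have h := congrArg (g.F.adj g.F) (hβ f f')
    rw [Form.adj_mul _ F', Form.adj_adj, Form.adj_smul, Form.adj_one, hβ] at h
    have := congrFun (congrFun (congrArg bar h) g.top) g.top
    simpa [bar_smul] using this.symm⟩
  obtain ⟨v, hv⟩ := LinearMap.BilinForm.exists_orthogonal_basis hs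
  refine ⟨fun k => (v k).1, fun k => (v k).2, fun k e => v.ne_zero k (Subtype.ext e),
    fun k k' h => ?_⟩
  rw [hβ, LinearMap.isOrthoᵢ_def.1 hv k k' h, zero_smul]

lemma mulC_inP {a : Adj n} (ha : len x < len (x * sr a)) (y : Perm (Fin n)) :
    InP (mulC a g.C y) := fun e he => by
  unfold mulC
  rw [AddMonoidAlgebra.coeff_add, Finsupp.add_apply, g.inP _ e he, zero_add]
  split_ifs with h
  · rw [kl_coeff_T_mul]; exact g.inP _ _ (by omega)
  · rw [kl_coeff_T_mul]; exact g.low y (fun e => h (e ▸ ha)) _ (by omega)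

lemma hecke_step {a : Adj n} (ha : len x < len (x * sr a))
    (gz : ∀ z : {z // len z ≤ len x}, Good z.1) {c : Hk n}
    (hc : c = mulC a g.C - ∑ z, (mulC a g.C z.1).coeff 0 • (gz z).C) :
    c (x * sr a) = 1 ∧ (∀ y, y ≠ x * sr a → InV (c y)) ∧
      ∀ y, y ≠ x * sr a → len (x * sr a) ≤ len y → c y = 0 := by
  have h1 : ∀ y, len x < len y → c y = g.C (y * sr a) := fun y hy => by
    have hyx : y ≠ x := fun e => by rw [e] at hy; omega
    rw [hc, Pi.sub_apply, Finset.sum_apply, Finset.sum_eq_zero, sub_zero, mulC,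
      show g.C y = 0 from g.zero y hyx hy.le, mul_zero, add_zero]
    intro z _
    have := z.2
    rw [Pi.smul_apply, show (gz z).C y = 0 from (gz z).zero y (fun e => by rw [e] at hy; omega)
      (by omega), smul_zero]
  have h2 : ∀ y, y ≠ x * sr a → len x < len y → c y = 0 := fun y hy hl => by
    rw [h1 y hl]
    have := kl_len_cases y a
    exact g.zero _ (fun e => hy (by rw [← e, mul_sr_sr])) (by omega)
  refine ⟨by rw [h1 _ ha, mul_sr_sr]; exact g.diag, fun y hy e he => ?_,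
    fun y hy hl => h2 y hy (by omega)⟩
  by_cases hl : len x < len y
  · rw [h2 y hy hl]; rfl
  rw [hc, Pi.sub_apply, Finset.sum_apply, AddMonoidAlgebra.coeff_sub, Finsupp.sub_apply,
    coeff_sum_LP, Finset.sum_eq_single ⟨y, by omega⟩]
  · rw [Pi.smul_apply, show (gz ⟨y, by omega⟩).C y = 1 from (gz ⟨y, by omega⟩).diag,
      AddMonoidAlgebra.coeff_smul, Finsupp.smul_apply, kl_coeff_one]
    rcases he.eq_or_lt with rfl | he
    · simp
    · rw [g.mulC_inP ha y e he, if_neg he.ne]; simp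
  · intro z _ hz
    rw [Pi.smul_apply, AddMonoidAlgebra.coeff_smul, Finsupp.smul_apply,
      show ((gz z).C y).coeff e = 0 from (gz z).low y (fun e => hz (Subtype.ext e.symm)) e he,
      smul_zero]
  · simp

/-- the new good object, as the orthogonal complement of the smaller summands -/
lemma step_exists {a : Adj n} (ha : len x < len (x * sr a)) (hr : g.HRθ a 0)
    (gz : ∀ z : {z // len z ≤ len x}, Good z.1) :
    ∃ (g'' : Good (x * sr a)) (i : Matrix (g.ι ⊕ g.ι) g''.ι (R n)),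
      i ∈ Hom g''.B (g.B.θ a) 0 ∧ g''.F.adj (g.F.θ a) i * i = 1 ∧ g.Dec a ∧
      g''.C = mulC a g.C - ∑ z, (mulC a g.C z.1).coeff 0 • (gz z).C := by
  classical
  have hlen : len (x * sr a) = len x + 1 := by have := kl_len_cases x a; omega
  set B' := g.B.θ a with hB'
  set F' := g.F.θ a with hF'
  have hf' : HF B' (mulC a g.C) := g.hf.theta a
  have htw : ∀ y, HasFlag (B'.tw y) := fun y => (g.twf y).θ a
  have hr' : HR (len x + 1) B'.deg (bar F'.G) (bar (B'.Y (rho n))) := by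
    unfold HRθ at hr
    rwa [Lz, zero_smul, add_zero] at hr
  choose f0 hf0 hne0 horth0 using fun z => (gz z).exists_orth F'
  let J := Σ z : {z // len z ≤ len x}, Fin (Module.finrank ℝ (Hom (gz z).B B' 0))
  let f : ∀ t : J, Matrix (g.ι ⊕ g.ι) (gz t.1).ι (R n) := fun t => f0 t.1 t.2
  let fs : ∀ t : J, Matrix (gz t.1).ι (g.ι ⊕ g.ι) (R n) := fun t => (gz t.1).F.adj F' (f t)
  have hf : ∀ t, f t ∈ Hom (gz t.1).B B' 0 := fun t => hf0 _ _
  have hfs : ∀ t, fs t ∈ Hom B' (gz t.1).B 0 := fun t => Form.adj_mem _ _ (hf t)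
  have horth : ∀ t t', t ≠ t' → fs t * f t' = 0 := by
    rintro ⟨z, k⟩ ⟨z', k'⟩ h
    by_cases hz : z = z'
    · subst hz
      exact horth0 z k k' (fun e => h (by rw [e]))
    · exact (gz z').eq_zero_of_ne (gz z) (fun e => hz (Subtype.ext e.symm)) le_rfl
        (Hom.mul (hfs ⟨z, k⟩) (hf ⟨z', k'⟩) (by omega))
  obtain ⟨β, hβ⟩ : ∃ β : J → ℝ, ∀ t, fs t * f t = β t • 1 :=
    ⟨_, fun t => (gz t.1).end_eq (Hom.mul (hfs t) (hf t) (by omega))⟩
  have hsg := fun t => (gz t.1).sign F' hf' (g.mulC_inP ha) htw hr' (hf t) (hne0 _ _) (hβ t)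
  have hβ0 : ∀ t, β t ≠ 0 := fun t e => by simpa [e] using (hsg t).2
  let p : ∀ t : J, Matrix (gz t.1).ι (g.ι ⊕ g.ι) (R n) := fun t => (β t)⁻¹ • fs t
  have hp : ∀ t, p t ∈ Hom B' (gz t.1).B 0 := fun t => Submodule.smul_mem _ _ (hfs t)
  have hpf : ∀ t, p t * f t = 1 := fun t => by
    rw [Matrix.smul_mul, hβ, smul_smul, inv_mul_cancel₀ (hβ0 t), one_smul]
  have hpf' : ∀ t t', t ≠ t' → p t * f t' = 0 := fun t t' h => by
    rw [Matrix.smul_mul, horth t t' h, smul_zero]
  set S := ∑ t, f t * p t with hS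
  have hSm : S ∈ Hom B' B' 0 := Submodule.sum_mem _ fun t _ => Hom.mul (hf t) (hp t) (by omega)
  have hSS : S * S = S := by
    rw [hS, Finset.sum_mul]
    refine Finset.sum_congr rfl fun t _ => ?_
    rw [Finset.mul_sum, Finset.sum_eq_single t]
    · rw [Matrix.mul_assoc, ← Matrix.mul_assoc (p t), hpf, Matrix.one_mul]
    · intro t' _ h
      rw [Matrix.mul_assoc, ← Matrix.mul_assoc (p t), hpf' t t' h.symm, Matrix.zero_mul,
        Matrix.mul_zero]
    · simp
  have hSa : F'.adj F' S = S := by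
    rw [hS, Form.adj_sum]
    refine Finset.sum_congr rfl fun t _ => ?_
    rw [Form.adj_mul _ (gz t.1).F, Form.adj_smul, Form.adj_adj, Matrix.smul_mul, Matrix.mul_smul]
  obtain ⟨M, lab, P, Q, hM, hP, hQ, hQP, hPQ, hch⟩ := theta_flag g.flag a
  obtain ⟨ν, _, _, M'', lab'', i', p', hM'', hi', hp', hpi', hip'⟩ := retract_flag hM
    (e := Q * (1 - S) * P) (Hom.mul (Hom.mul hQ (sub_mem Hom.one hSm) rfl) hP (by omega)) (by
      have : (1 - S) * (1 - S) = 1 - S := by
        rw [mul_sub, sub_mul, sub_mul, hSS]; simp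
      calc Q * (1 - S) * P * (Q * (1 - S) * P) = Q * ((1 - S) * (P * Q) * (1 - S)) * P := by
            simp only [Matrix.mul_assoc]
        _ = _ := by rw [hPQ, Matrix.mul_one, this])
  have hi : P * i' ∈ Hom M'' B' 0 := Hom.mul hP hi' (by omega)
  have hp0 : p' * Q ∈ Hom B' M'' 0 := Hom.mul hp' hQ (by omega)
  have hpi : p' * Q * (P * i') = 1 := by
    rw [Matrix.mul_assoc, ← Matrix.mul_assoc Q, hQP, Matrix.one_mul, hpi']
  have hip : P * i' * (p' * Q) = 1 - S := by
    calc P * i' * (p' * Q) = P * (i' * p') * Q := by simp only [Matrix.mul_assoc]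
      _ = (P * Q) * (1 - S) * (P * Q) := by rw [hip']; simp only [Matrix.mul_assoc]
      _ = _ := by rw [hPQ, Matrix.one_mul, Matrix.mul_one]
  have he : F'.adj F' (P * i' * (p' * Q)) = P * i' * (p' * Q) := by
    rw [hip, Form.adj_sub, Form.adj_one, hSa]
  have hsum : P * i' * (p' * Q) + ∑ t, f t * p t = 1 := by rw [hip, ← hS, sub_add_cancel]
  have hJ : ∑ t : J, (gz t.1).C = ∑ z, (mulC a g.C z.1).coeff 0 • (gz z).C := by
    rw [Fintype.sum_sigma]
    refine Finset.sum_congr rfl fun z _ => ?_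
    rw [← (gz z).finrank_hom hf' (g.mulC_inP ha)]
    simp
  have hch'' : ch M''.deg lab'' = mulC a g.C - ∑ z, (mulC a g.C z.1).coeff 0 • (gz z).C := by
    have := ch_sum hM hM'' hi' hp' hpi' (fun t : J => (gz t.1).flag)
      (i := fun t => Q * f t) (p := fun t => p t * P) (fun t => Hom.mul hQ (hf t) (by omega))
      (fun t => Hom.mul (hp t) hP (by omega)) (fun t => by
        rw [Matrix.mul_assoc, ← Matrix.mul_assoc P, hPQ, Matrix.one_mul, hpf]) (by
        have : ∑ t, Q * f t * (p t * P) = Q * S * P := by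
          rw [hS, Matrix.mul_sum, Matrix.sum_mul]
          simp only [Matrix.mul_assoc]
        rw [this, hip', ← Matrix.add_mul, ← Matrix.mul_add, sub_add_cancel, Matrix.mul_one, hQP])
    rw [← hJ, eq_sub_iff_add_eq]
    exact this.symm.trans hch
  obtain ⟨h1, h2, h3⟩ := g.hecke_step ha gz hch''
  let F'' := F'.retract hi hp0 hpi he
  have hadj : F''.adj F' (P * i') = p' * Q := F'.adj_retract hi hp0 hpi he
  let g'' : Good (x * sr a) :=
    { ι := ν, fin := inferInstance, dec := inferInstance, B := M'', lab := lab'', F := F''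
      flag := hM''
      twf := fun y => (htw y).retract (Hom.tw hi y) (Hom.tw hp0 y) hpi
      diag := h1, low := h2, zero := h3
      hf := by
        rw [hch'', ← hJ]
        exact hf'.sub hi hp0 hpi (fun t : J => (gz t.1).hf) hf hp hpf hsum
      hr := by
        have := hr'.sub (L := bar (M''.Y (rho n))) (p := bar (p' * Q))
          (by rw [← bar_mul, hpi, bar_one]) hi.1.bar (by rw [← bar_mul, ← bar_mul, hi.2])
        rw [← bar_transpose, ← bar_mul, ← bar_mul] at this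
        rw [hlen]
        exact this }
  refine ⟨g'', P * i', hi, by rw [← hpi]; exact congrArg (· * (P * i')) hadj, ?_, hch''⟩
  unfold Dec
  rw [← hsum]
  refine add_mem (AddSubmonoid.subset_closure ⟨x * sr a, g'', P * i', 1, hi, hlen.le, ?_, ?_, ?_⟩)
    (sum_mem fun t _ => AddSubmonoid.subset_closure
      ⟨t.1.1, gz t.1, f t, (β t)⁻¹, hf t, t.1.2.trans (Nat.le_succ _), ?_, ?_, ?_⟩)
  · simp [hlen]
  · simp [hlen]
  · rw [one_smul]; exact congrArg (P * i' * ·) hadj.symm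
  · exact_mod_cast (hsg t).1
  · have := (hsg t).2
    have h4 : sg ((len x : ℤ) + 1 - len t.1.1) * (β t)⁻¹ =
        sg ((len x : ℤ) + 1 - len t.1.1) * β t * ((β t)⁻¹ * (β t)⁻¹) := by
      field_simp [hβ0 t]
    push_cast
    rw [h4]
    exact mul_pos this (mul_self_pos.2 (inv_ne_zero (hβ0 t)))
  · rw [Matrix.mul_smul]

end Good

end Pool.Agent.P.MP_c3da96_co
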