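import Pool.Agent.P.MP_c3da96_co.Good

namespace Pool.Agent.P.MP_c3da96_co

open Equiv Matrix

variable {n : ℕ} {ι κ : Type} [Fintype ι] [DecidableEq ι] [Fintype κ] [DecidableEq κ]

/-- sums of squares of maps of degree one to good objects, with the right signs -/
noncomputable def PosS (B : Obj n ι) (F : Form B) (m : ℕ) : AddSubmonoid (Matrix ι ι (R n)) :=
  AddSubmonoid.closure {T | ∃ (z : Perm (Fin n)) (gz : Good z) (φ : Matrix gz.ι ι (R n)) (c : ℝ),
    φ ∈ Hom B gz.B 1 ∧ len z < m ∧ Even ((m : ℤ) - 1 - len z) ∧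
      0 < sg ((m : ℤ) - 1 - len z) * c ∧ T = c • (F.adj gz.F φ * φ)}

/-- sums of orthogonal projections to good objects, with the right signs -/
noncomputable def Dcl (B : Obj n ι) (F : Form B) (m : ℕ) : AddSubmonoid (Matrix ι ι (R n)) :=
  AddSubmonoid.closure {T | ∃ (z : Perm (Fin n)) (gz : Good z) (f : Matrix ι gz.ι (R n)) (c : ℝ),
    f ∈ Hom gz.B B 0 ∧ len z ≤ m ∧ Even ((m : ℤ) - len z) ∧
      0 < sg ((m : ℤ) - len z) * c ∧ T = c • (f * gz.F.adj F f)}

namespace Good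
variable {x : Perm (Fin n)} (g : Good x) (a : Adj n)

/-- the Lefschetz operator factors through smaller good objects -/
def Fac : Prop := g.B.Y (rho n) - act x (rho n) • 1 ∈ PosS g.B g.F (len x)

/-- the multiplication map splits -/
def Thick : Prop := ∃ j ∈ Hom g.B (g.B.θ a) (-1), (demR a).mu g.ι * j = 1

/-- Hodge-Riemann relations for the deformed operator -/
def HRθ (ζ : ℝ) : Prop :=
  HR (len x + 1) (deg2 g.B.deg) (bar (g.F.θ a).G) (bar (Lz g.B a ζ))

/-- `θ B` is an orthogonal sum of good objects -/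
def Dec : Prop := 1 ∈ Dcl (g.B.θ a) (g.F.θ a) (len x + 1)

variable {g a}

lemma Thick.spec (h : g.Thick a) : ∃ j ∈ Hom g.B (g.B.θ a) (-1),
    g.F.adj (g.F.θ a) j * mustar a g.ι = 1 ∧ g.F.adj (g.F.θ a) j * j = 0 ∧
    g.F.adj (g.F.θ a) j * ((demR a).almid g.ι * j) = 1 ∧
    j * (g.F.adj (g.F.θ a) j * (demR a).almid g.ι) +
      (demR a).almid g.ι * j * g.F.adj (g.F.θ a) j = 1 := by
  obtain ⟨j, hj, hmu⟩ := h
  have ha := g.F.adj_mem (g.F.θ a) hj
  have h1 : g.F.adj (g.F.θ a) j * mustar a g.ι = 1 := by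
    rw [← g.F.adj_mu a, ← Form.adj_mul, hmu, Form.adj_one]
  have h2 : g.F.adj (g.F.θ a) j * j = 0 :=
    g.eq_zero_of_neg g.hf g.inP (d := -2) (by norm_num) (Hom.mul ha hj (by omega))
  have h3 : g.F.adj (g.F.θ a) j * ((demR a).almid g.ι * j) = 1 := by
    have : g.F.adj (g.F.θ a) j * (mustar a g.ι * (demR a).mu g.ι) * j = 1 := by
      rw [← Matrix.mul_assoc, h1, Matrix.one_mul, hmu]
    rwa [mustar_mul_mu, Matrix.mul_add, Matrix.add_mul, Matrix.mul_smul, Matrix.smul_mul,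
      Matrix.mul_one, h2, smul_zero, add_zero, Matrix.mul_assoc] at this
  refine ⟨j, hj, h1, h2, h3, ?_⟩
  have h4 : fromRows (g.F.adj (g.F.θ a) j * (demR a).almid g.ι) (g.F.adj (g.F.θ a) j) *
      fromCols j ((demR a).almid g.ι * j) = 1 := by
    rw [fromRows_mul_fromCols, Matrix.mul_assoc, h3, h2, Matrix.mul_assoc,
      ← Matrix.mul_assoc ((demR a).almid g.ι), almid_sq, Matrix.smul_mul, Matrix.mul_smul,
      Matrix.one_mul, h2, smul_zero, fromBlocks_one]
  rwa [mul_eq_one_comm, fromCols_mul_fromRows] at h4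

lemma Thick.hr (h : g.Thick a) {ζ : ℝ} (hζ : 0 < ζ) : g.HRθ a ζ := by
  obtain ⟨j, hj, -, h2, h3, h4⟩ := h.spec
  have ha := g.F.adj_mem (g.F.θ a) hj
  set js := g.F.adj (g.F.θ a) j with hjs
  set al := (demR a).almid g.ι with hal
  have h5 : fromCols j (al * j) * fromRows (js * al) js = 1 := by
    rw [fromCols_mul_fromRows, h4]
  have hA : HomM (deg2 g.B.deg) (deg2 g.B.deg) 0 (bar (fromRows (js * al) js)) := by
    apply Homog.bar
    rintro (k | k) i
    · exact ((Hom.mul ha (almid_mem g.B a) rfl).1 k i).cast (by simp [deg2, Obj.θ_deg]; ring)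
    · exact (ha.1 k i).cast (by simp [deg2, Obj.θ_deg]; ring)
  have hb : ∀ (U V : Matrix g.ι (g.ι ⊕ g.ι) (R n)), bar (fromRows U V) = fromRows (bar U) (bar V) :=
    fun U V => by ext (k | k) i <;> rfl
  have hc : bar (fromRows (js * al) js) * bar (Lz g.B a ζ) =
      fromBlocks (bar (g.B.Y (rho n))) 0 (ζ • 1) (bar (g.B.Y (rho n))) *
        bar (fromRows (js * al) js) := by
    have e1 : js * (demR a).kap (g.B.Y (rho n)) = g.B.Y (rho n) * js := ha.2 _
    have e2 : js * al * Lz g.B a ζ = g.B.Y (rho n) * (js * al) + (ζ • alpha a ^ 2) • js := by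
      rw [Lz, Matrix.mul_add, Matrix.mul_assoc, hal, almid_kap, ← Matrix.mul_assoc, e1,
        Matrix.mul_smul, Matrix.mul_assoc js, almid_sq, Matrix.mul_smul, Matrix.mul_one,
        Matrix.mul_assoc, smul_assoc]
    have e3 : js * Lz g.B a ζ = ζ • (js * al) + g.B.Y (rho n) * js := by
      rw [Lz, Matrix.mul_add, e1, Matrix.mul_smul, add_comm]
    rw [← bar_mul, fromRows_mul, e2, e3, hb, hb, fromBlocks_mul_fromRows, bar_add, bar_add,
      bar_smulR, bar_smul, bar_mul (g.B.Y _), bar_mul (g.B.Y _)]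
    simp [constantCoeff_alpha]
  have key := (HR_tensor g.lef g.hr hζ).sub (p := bar (fromCols j (al * j)))
    (by rw [← bar_mul, h5, bar_one]) hA hc
  have hG : (bar (fromRows (js * al) js))ᵀ * fromBlocks 0 (bar g.F.G) (bar g.F.G) 0 *
      bar (fromRows (js * al) js) = bar (g.F.θ a).G := by
    have e0 : fromBlocks 0 (bar g.F.G) (bar g.F.G) 0 = bar (fromBlocks 0 g.F.G g.F.G 0) := by
      ext (k | k) (i | i) <;> simp [bar]
    have e1 : jsᵀ * g.F.G = (g.F.θ a).G * j := by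
      rw [← Form.G_adj, hjs, Form.adj_adj]
    have e2 : (js * al)ᵀ * g.F.G = (g.F.θ a).G * (al * j) := by
      rw [← Form.G_adj (g.F.θ a), Form.adj_mul _ (g.F.θ a), hjs, Form.adj_adj, hal,
        Form.adj_almid]
    rw [e0, ← bar_transpose, ← bar_mul, ← bar_mul, transpose_fromRows, fromCols_mul_fromBlocks,
      fromCols_mul_fromRows, Matrix.mul_zero, Matrix.mul_zero, zero_add, add_zero, e1, e2,
      Matrix.mul_assoc, Matrix.mul_assoc, ← Matrix.mul_add, h4, Matrix.mul_one]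
  rwa [hG] at key

/-- one term of the weak Lefschetz argument -/
lemma wl_gen {z : Perm (Fin n)} (gz : Good z) {ζ : ℝ} (hζ : 0 ≤ ζ)
    (hasc : len z < len (z * sr a) → gz.HRθ a ζ) (hdesc : len (z * sr a) < len z → gz.Thick a)
    {c : ℝ} (hm : Even ((len x : ℤ) - 1 - len z)) (hc : 0 < sg ((len x : ℤ) - 1 - len z) * c)
    {k : ℕ} {m : gz.ι ⊕ gz.ι → ℝ} (hv : HomV (deg2 gz.B.deg) (-(k : ℤ)) m)
    (hp : (bar (Lz gz.B a ζ) ^ (k + 1)) *ᵥ m = 0) :
    0 < sg ((len x : ℤ) - k) * (c * (m ⬝ᵥ (bar (gz.F.θ a).G * bar (Lz gz.B a ζ) ^ k) *ᵥ m)) ∨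
      (m ⬝ᵥ (bar (gz.F.θ a).G * bar (Lz gz.B a ζ) ^ k) *ᵥ m = 0 ∧
        ∀ w, m = bar (mustar a gz.ι) *ᵥ w → w = 0) := by
  by_cases hH : gz.HRθ a ζ
  · have e : (len x : ℤ) - 1 - len z = len x - (len z + 1) := by ring
    rw [e] at hm hc
    rcases HR.nonneg hH hm hc hv hp with h | h
    · refine Or.inr ⟨by simp [h], fun w hw => ?_⟩
      rw [h, bar_mustar] at hw
      ext i
      simpa using (congrFun hw (Sum.inr i)).symm
    · exact Or.inl h
  right
  have hth : gz.Thick a := hdesc (by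
    by_contra hc
    have := kl_len_cases z a
    exact hH (hasc (by omega)))
  obtain rfl : ζ = 0 := by
    by_contra hc
    exact hH (hth.hr (lt_of_le_of_ne hζ (Ne.symm hc)))
  obtain ⟨j, hj, h1, h2, -, h4⟩ := hth.spec
  have ha := gz.F.adj_mem (gz.F.θ a) hj
  set js := gz.F.adj (gz.F.θ a) j with hjs
  have hL : Lz gz.B a 0 = (gz.B.θ a).Y (rho n) := by rw [Lz, zero_smul, add_zero]; rfl
  rw [hL] at hp ⊢
  have hc1 : bar js * bar ((gz.B.θ a).Y (rho n)) = bar (gz.B.Y (rho n)) * bar js := by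
    rw [← bar_mul, ← bar_mul, ha.2]
  have hc2 : bar j * bar (gz.B.Y (rho n)) = bar ((gz.B.θ a).Y (rho n)) * bar j := by
    rw [← bar_mul, ← bar_mul, hj.2]
  have hn : bar js *ᵥ m = 0 := gz.hr.hl (k + 1) _ (ha.1.bar.mulVec hv (by push_cast; ring))
    (by rw [pow_mulVec_comm hc1, hp, mulVec_zero])
  constructor
  · have hm' : m = bar j *ᵥ (bar (js * (demR a).almid gz.ι) *ᵥ m) := by
      conv_lhs => rw [← one_mulVec m, ← bar_one (n := n), ← h4]
      rw [bar_add, add_mulVec, bar_mul _ js, ← mulVec_mulVec, hn, mulVec_zero, add_zero, bar_mul,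
        ← mulVec_mulVec]
    rw [hm', form_comp _ hc2, ← bar_transpose, ← bar_mul, ← bar_mul, ← Form.G_adj gz.F,
      Matrix.mul_assoc gz.F.G, h2]
    simp
  · intro w hw
    rwa [hw, mulVec_mulVec, ← bar_mul, h1, bar_one, one_mulVec] at hn

/-- hard Lefschetz for `θ B` -/
lemma hl_asc (hfac : g.Fac) (ha : len x < len (x * sr a)) {ζ : ℝ} (hζ : 0 ≤ ζ)
    (ih : ∀ z, len z < len x → ∀ gz : Good z,
      (len z < len (z * sr a) → gz.HRθ a ζ) ∧ (len (z * sr a) < len z → gz.Thick a)) :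
    HL (deg2 g.B.deg) (bar (Lz g.B a ζ)) := by
  intro i b hb hL
  rcases i with _ | k
  · simpa using hL
  set Λ := bar (Lz g.B a ζ) with hΛ
  set q : Matrix (g.ι ⊕ g.ι) (g.ι ⊕ g.ι) (R n) → ℝ := fun T =>
    sg ((len x : ℤ) - k) * (b ⬝ᵥ (bar (g.F.θ a).G * bar T * Λ ^ k) *ᵥ b) with hq
  have qadd : ∀ T T', q (T + T') = q T + q T' := fun T T' => by
    simp only [hq, bar_add, Matrix.add_mul, add_mulVec, dotProduct_add, mul_add]
  have key : ∀ T ∈ PosS g.B g.F (len x), 0 ≤ q ((demR a).kap T) ∧ (q ((demR a).kap T) = 0 →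
      ∀ w, b = bar (mustar a g.ι) *ᵥ w → bar T *ᵥ w = 0) := by
    intro T hT
    induction hT using AddSubmonoid.closure_induction with
    | zero => simp [hq]
    | add T T' _ _ h h' =>
      rw [Dem.kap_add, qadd]
      refine ⟨add_nonneg h.1 h'.1, fun e w hw => ?_⟩
      rw [bar_add, add_mulVec, h.2 (by linarith [h.1, h'.1]) w hw,
        h'.2 (by linarith [h.1, h'.1]) w hw, add_zero]
    | mem T hT =>
      obtain ⟨z, gz, φ, c, hφ, hz, hm, hc, rfl⟩ := hT
      have hcm : bar ((demR a).kap φ) * Λ = bar (Lz gz.B a ζ) * bar ((demR a).kap φ) := by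
        rw [hΛ, ← bar_mul, ← bar_mul, kap_mul_Lz hφ]
      have e : q ((demR a).kap (c • (g.F.adj gz.F φ * φ))) = sg ((len x : ℤ) - k) * (c *
          ((bar ((demR a).kap φ) *ᵥ b) ⬝ᵥ (bar (gz.F.θ a).G * bar (Lz gz.B a ζ) ^ k) *ᵥ
            (bar ((demR a).kap φ) *ᵥ b))) := by
        rw [form_comp _ hcm, ← bar_transpose, ← bar_mul, ← bar_mul, ← Form.G_adj (g.F.θ a),
          Form.adj_kap, Matrix.mul_assoc (g.F.θ a).G, ← Dem.kap_mul, bar_mul]
        simp only [hq, kap_smul_real, bar_smul, Matrix.mul_smul, Matrix.smul_mul, smul_mulVec,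
          dotProduct_smul, smul_eq_mul]
      rw [e]
      rcases wl_gen (x := x) gz hζ (ih z hz gz).1 (ih z hz gz).2 hm hc
        ((Hom.kap hφ a).1.bar.mulVec hb (by push_cast; ring))
        (by rw [pow_mulVec_comm hcm, hL, mulVec_zero]) with h | h
      · exact ⟨h.le, fun e => absurd e h.ne'⟩
      · refine ⟨by rw [h.1]; simp, fun _ w hw => ?_⟩
        have := h.2 (bar φ *ᵥ w) (by
          rw [hw, mulVec_mulVec, mulVec_mulVec, ← bar_mul, ← bar_mul, kap_mustar])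
        rw [bar_smul, bar_mul, smul_mulVec, ← mulVec_mulVec, this, mulVec_zero, smul_zero]
  obtain ⟨k1, k2⟩ := key _ hfac
  set γ := ((x a.1.2 : ℝ) - x a.1.1) / 2 with hγ
  have hγ0 : 0 < γ + ζ := add_pos_of_pos_of_nonneg (gamma_pos ha) hζ
  have hcm : bar ((demR a).mu g.ι) * Λ = bar (g.B.Y (rho n)) * bar ((demR a).mu g.ι) := by
    rw [hΛ, bar_Lz, bar_mu, fromCols_mul_fromBlocks, mul_fromCols]
    simp
  have hcc : MvPolynomial.constantCoeff (act x (rho n)) = 0 :=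
    (hm_rho.of_act x).constantCoeff_eq_zero (by norm_num)
  have e1 : q ((γ + ζ) • (mustar a g.ι * (demR a).mu g.ι)) = sg ((len x : ℤ) - k) * ((γ + ζ) *
      ((bar ((demR a).mu g.ι) *ᵥ b) ⬝ᵥ (bar g.F.G * bar (g.B.Y (rho n)) ^ k) *ᵥ
        (bar ((demR a).mu g.ι) *ᵥ b))) := by
    rw [form_comp _ hcm, ← bar_transpose, ← bar_mul, ← bar_mul, ← Form.G_adj (g.F.θ a),
      Form.adj_mu, Matrix.mul_assoc (g.F.θ a).G, bar_mul]
    simp only [hq, bar_smul, Matrix.mul_smul, Matrix.smul_mul, smul_mulVec,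
      dotProduct_smul, smul_eq_mul]
  have e2 : bar ((demR a).kap (g.B.Y (rho n) - act x (rho n) • 1) +
      (γ + ζ) • (mustar a g.ι * (demR a).mu g.ι)) = Λ := by
    have e3 : bar ((act x (rho n) • (1 : Matrix g.ι g.ι (R n))).map (demR a).od) = γ • 1 := by
      ext i j
      by_cases hij : i = j
      · subst hij; simp [bar, od_act_rho, hγ]
      · simp [bar, one_apply_ne hij]
    rw [bar_add, Dem.kap_sub, bar_sub, bar_smul, mustar_mul_mu, bar_add, bar_smulR,
      constantCoeff_alpha, zero_smul, add_zero, hΛ, Lz, bar_add, bar_smul, bar_kap a (_ • _), e3,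
      bar_smulR, hcc, zero_smul, bar_almid, add_smul]
    have : fromBlocks (0 : Matrix g.ι g.ι ℝ) 0 (γ • (1 : Matrix g.ι g.ι ℝ)) 0 =
        γ • fromBlocks (0 : Matrix g.ι g.ι ℝ) (0 : Matrix g.ι g.ι ℝ) 1 0 := by
      rw [fromBlocks_smul]; simp
    rw [this]; abel
  have e4 : q ((demR a).kap (g.B.Y (rho n) - act x (rho n) • 1)) +
      q ((γ + ζ) • (mustar a g.ι * (demR a).mu g.ι)) = 0 := by
    rw [← qadd]
    simp only [hq]
    rw [e2, Matrix.mul_assoc, ← pow_succ', ← mulVec_mulVec, hL]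
    simp
  rcases HR.nonneg (m' := len x) g.hr (by simp) (by simpa using hγ0)
    ((mu_mem g.B a).1.bar.mulVec hb (f := -(k : ℤ)) (by push_cast; ring))
    (by rw [pow_mulVec_comm hcm, hL, mulVec_zero]) with h | h
  swap
  · rw [← e1] at h; linarith
  have hw : b = bar (mustar a g.ι) *ᵥ (fun i => b (Sum.inr i)) := by
    rw [bar_mu] at h
    rw [bar_mustar]
    ext (i | i)
    · simpa using congrFun h i
    · simp
  have h5 := k2 (by rw [e1, h] at e4; simpa using e4) _ hw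
  rw [bar_sub, bar_smulR, hcc, zero_smul, sub_zero] at h5
  have h6 := g.hr.hl (k + 2) (fun i => b (Sum.inr i)) (fun i hi => by
    have := hb _ hi
    simp only [deg2, Sum.elim_inr] at this
    push_cast at this ⊢
    omega) (by rw [pow_succ, ← mulVec_mulVec, h5, mulVec_zero])
  rw [hw, h6, mulVec_zero]

lemma hr_asc (hfac : g.Fac) (ha : len x < len (x * sr a))
    (ih : ∀ z, len z < len x → ∀ gz : Good z,
      (len z < len (z * sr a) → ∀ ζ, 0 ≤ ζ → gz.HRθ a ζ) ∧ (len (z * sr a) < len z → gz.Thick a))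
    {ζ : ℝ} (hζ : 0 ≤ ζ) : g.HRθ a ζ := by
  unfold HRθ
  rw [Form.bar_θ_G, bar_Lz]
  refine HR_family g.lef g.hr _ _ (fun ζ hζ => ?_) ζ hζ
  rw [← Form.bar_θ_G, ← bar_Lz]
  exact ⟨(g.F.θ a).lef (Lz_mem g.B a ζ) (g.F.adj_Lz a ζ),
    hl_asc hfac ha hζ fun z hz gz => ⟨fun h => (ih z hz gz).1 h ζ hζ, (ih z hz gz).2⟩⟩

end Good

end Pool.Agent.P.MP_c3da96_co
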