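import Pool.Agent.P.MP_c3da96_co.Iface

namespace Pool.Agent.P.MP_c3da96_co

open Equiv Matrix

set_option linter.unusedSectionVars false

variable {n : ℕ}

lemma web_inj : Function.Injective (algebraMap (R n) (Q n)) := IsFractionRing.injective (R n) (Q n)

/-- the diagonal matrix of the left action -/
noncomputable def web_dg {A : Type} [DecidableEq A] (en : A → Perm (Fin n)) (g : R n) :
    Matrix A A (Q n) :=
  diagonal (fun π => algebraMap (R n) (Q n) (act (en π) g))

/-- a lattice of functions is a retract of a matrix module -/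
def web_Ret {κ A : Type} [Fintype κ] [Fintype A] [DecidableEq A]
    (Y : R n → Matrix κ κ (R n)) (en : A → Perm (Fin n)) (M : Submodule (R n) (A → Q n)) : Prop :=
  ∃ (I : Matrix κ A (Q n)) (P : Matrix A κ (Q n)), P * I = 1 ∧
    (∀ g, I * web_dg en g = (Y g).map (algebraMap (R n) (Q n)) * I) ∧
    (∀ g, P * (Y g).map (algebraMap (R n) (Q n)) = web_dg en g * P) ∧
    (∀ m ∈ M, ∀ k, (I *ᵥ m) k ∈ Set.range (algebraMap (R n) (Q n))) ∧
    (∀ k, (fun π => P π k) ∈ M)

/-- a matrix module is a retract of another one -/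
def web_Sub {κ κ' : Type} [Fintype κ] [Fintype κ'] [DecidableEq κ]
    (Y : R n → Matrix κ κ (R n)) (Y' : R n → Matrix κ' κ' (R n)) : Prop :=
  ∃ (i : Matrix κ' κ (R n)) (p : Matrix κ κ' (R n)), p * i = 1 ∧
    (∀ g, i * Y g = Y' g * i) ∧ (∀ g, p * Y' g = Y g * p)

/-- a matrix module is a retract of a sum of indecomposable ones -/
def web_U (Pk : Pack n) {κ : Type} [Fintype κ] [DecidableEq κ]
    (Y : R n → Matrix κ κ (R n)) : Prop :=
  ∃ (J : Type) (_ : Fintype J) (_ : DecidableEq J) (u : J → Perm (Fin n)),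
    web_Sub Y (fun g => blockDiagonal' (fun j => Pk.Y (u j) g))

section sub
variable {κ κ' κ'' : Type} [Fintype κ] [Fintype κ'] [Fintype κ''] [DecidableEq κ]
  [DecidableEq κ'] [DecidableEq κ'']

omit [DecidableEq κ''] in
lemma web_Sub.trans {Y : R n → Matrix κ κ (R n)} {Y' : R n → Matrix κ' κ' (R n)}
    {Y'' : R n → Matrix κ'' κ'' (R n)} (h : web_Sub Y Y') (h' : web_Sub Y' Y'') :
    web_Sub Y Y'' := by
  obtain ⟨i, p, h1, h2, h3⟩ := h
  obtain ⟨i', p', h1', h2', h3'⟩ := h'
  refine ⟨i' * i, p * p', ?_, fun g => ?_, fun g => ?_⟩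
  · rw [Matrix.mul_assoc, ← Matrix.mul_assoc p', h1', Matrix.one_mul, h1]
  · rw [Matrix.mul_assoc, h2, ← Matrix.mul_assoc, h2', Matrix.mul_assoc]
  · rw [Matrix.mul_assoc, h3', ← Matrix.mul_assoc, h3, Matrix.mul_assoc]

lemma web_Sub.of_equiv {Y : R n → Matrix κ κ (R n)} {Y' : R n → Matrix κ' κ' (R n)}
    (e : κ ≃ κ') (h : ∀ g a b, Y' g (e a) (e b) = Y g a b) : web_Sub Y Y' := by
  refine ⟨Matrix.of fun k' k => if k' = e k then 1 else 0,
    Matrix.of fun k k' => if k' = e k then 1 else 0, ?_, fun g => ?_, fun g => ?_⟩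
  · ext a b
    simp [Matrix.mul_apply, one_apply, eq_comm]
  · ext a b
    obtain ⟨a, rfl⟩ := e.surjective a
    simp [Matrix.mul_apply, h]
  · ext a b
    obtain ⟨b, rfl⟩ := e.surjective b
    simp [Matrix.mul_apply, h]

lemma web_Sub.kap {Y : R n → Matrix κ κ (R n)} {Y' : R n → Matrix κ' κ' (R n)}
    (h : web_Sub Y Y') (a : Adj n) :
    web_Sub (fun g => (demR a).kap (Y g)) (fun g => (demR a).kap (Y' g)) := by
  obtain ⟨i, p, h1, h2, h3⟩ := h
  refine ⟨(demR a).kap i, (demR a).kap p, ?_, fun g => ?_, fun g => ?_⟩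
  · rw [← Dem.kap_mul, h1, Dem.kap_one]
  · rw [← Dem.kap_mul, h2, Dem.kap_mul]
  · rw [← Dem.kap_mul, h3, Dem.kap_mul]

end sub

lemma web_Sub.sigma {T : Type} [Fintype T] [DecidableEq T] {κ κ' : T → Type}
    [∀ t, Fintype (κ t)] [∀ t, Fintype (κ' t)] [∀ t, DecidableEq (κ t)]
    {Y : ∀ t, R n → Matrix (κ t) (κ t) (R n)} {Y' : ∀ t, R n → Matrix (κ' t) (κ' t) (R n)}
    (h : ∀ t, web_Sub (Y t) (Y' t)) :
    web_Sub (fun g => blockDiagonal' (fun t => Y t g)) (fun g => blockDiagonal' (fun t => Y' t g)) := by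
  choose i p h1 h2 h3 using h
  refine ⟨blockDiagonal' i, blockDiagonal' p, ?_, fun g => ?_, fun g => ?_⟩
  · rw [← blockDiagonal'_mul]
    simp only [h1]
    exact blockDiagonal'_one
  · rw [← blockDiagonal'_mul, ← blockDiagonal'_mul]
    simp only [h2]
  · rw [← blockDiagonal'_mul, ← blockDiagonal'_mul]
    simp only [h3]

variable (Pk : Pack n)

lemma web_U.of_sub {κ κ' : Type} [Fintype κ] [Fintype κ'] [DecidableEq κ] [DecidableEq κ']
    {Y : R n → Matrix κ κ (R n)} {Y' : R n → Matrix κ' κ' (R n)} (h : web_Sub Y Y')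
    (h' : web_U Pk Y') : web_U Pk Y := by
  obtain ⟨J, i1, i2, u, hu⟩ := h'
  exact ⟨J, i1, i2, u, h.trans hu⟩

lemma web_U_sigma {T : Type} [Fintype T] [DecidableEq T] {κ : T → Type}
    [∀ t, Fintype (κ t)] [∀ t, DecidableEq (κ t)] {Y : ∀ t, R n → Matrix (κ t) (κ t) (R n)}
    (h : ∀ t, web_U Pk (Y t)) : web_U Pk (fun g => blockDiagonal' (fun t => Y t g)) := by
  choose J i1 i2 u hu using h
  refine ⟨Σ t, J t, inferInstance, inferInstance, fun x => u x.1 x.2, ?_⟩
  refine (web_Sub.sigma hu).trans ?_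
  refine web_Sub.of_equiv (Equiv.sigmaAssoc (fun t j => Pk.ι (u t j))).symm ?_
  rintro g ⟨t, j, x⟩ ⟨t', j', x'⟩
  by_cases ht : t = t'
  · subst ht
    by_cases hj : j = j'
    · subst hj
      simp [Equiv.sigmaAssoc]
    · have : (⟨t, j⟩ : Σ t, J t) ≠ ⟨t, j'⟩ := fun e => hj (by simpa using e)
      simp [Equiv.sigmaAssoc, blockDiagonal'_apply_ne _ _ _ this, blockDiagonal'_apply_ne _ _ _ hj]
  · have : (⟨t, j⟩ : Σ t, J t) ≠ ⟨t', j'⟩ := fun e => ht (congrArg Sigma.fst e)
    simp [Equiv.sigmaAssoc, blockDiagonal'_apply_ne _ _ _ this, blockDiagonal'_apply_ne _ _ _ ht]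

lemma web_U_kap_pack (u : Perm (Fin n)) (a : Adj n) :
    web_U Pk (fun g => (demR a).kap (Pk.Y u g)) := by
  classical
  obtain ⟨J, i1, u', i, p, h1, h2, h3⟩ := Pk.theta u a
  refine ⟨J, i1, inferInstance, u', Matrix.of fun x y => p x.1 x.2 y,
    Matrix.of fun y x => i x.1 y x.2, ?_, fun g => ?_, fun g => ?_⟩
  · rw [← h3]
    ext y y'
    simp [Matrix.mul_apply, Fintype.sum_sigma, Matrix.sum_apply]
  · ext ⟨j, x⟩ y
    have := congrFun (congrFun (h2 j g) x) y
    simp only [Matrix.mul_apply] at this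
    simp only [Matrix.mul_apply, of_apply, this, Fintype.sum_sigma]
    rw [Finset.sum_eq_single j]
    · simp
    · intro j' _ hj
      simp [blockDiagonal'_apply_ne _ _ _ (Ne.symm hj)]
    · simp
  · ext y ⟨j, x⟩
    have := congrFun (congrFun (h1 j g) y) x
    simp only [Matrix.mul_apply] at this
    simp only [Matrix.mul_apply, of_apply, ← this, Fintype.sum_sigma]
    rw [Finset.sum_eq_single j]
    · simp
    · intro j' _ hj
      simp [blockDiagonal'_apply_ne _ _ _ hj]
    · simp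

lemma web_U.kap {κ : Type} [Fintype κ] [DecidableEq κ] {Y : R n → Matrix κ κ (R n)}
    (h : web_U Pk Y) (a : Adj n) : web_U Pk (fun g => (demR a).kap (Y g)) := by
  obtain ⟨J, i1, i2, u, hu⟩ := h
  refine web_U.of_sub Pk (hu.kap a) ?_
  refine web_U.of_sub Pk ?_ (web_U_sigma Pk (fun j => web_U_kap_pack Pk (u j) a))
  refine web_Sub.of_equiv (Equiv.sigmaSumDistrib (fun j => Pk.ι (u j)) (fun j => Pk.ι (u j))).symm ?_
  rintro g (⟨j, x⟩ | ⟨j, x⟩) (⟨j', x'⟩ | ⟨j', x'⟩) <;>
  · by_cases hj : j = j'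
    · subst hj
      simp [Dem.kap, Sigma.map]
    · simp [Dem.kap, Sigma.map, blockDiagonal'_apply_ne _ _ _ hj]

section ret
variable {κ κ' A : Type} [Fintype κ] [Fintype κ'] [DecidableEq κ] [Fintype A] [DecidableEq A]

lemma web_col_mul {M : Submodule (R n) (A → Q n)} (P : Matrix A κ (Q n))
    (hP : ∀ k, (fun π => P π k) ∈ M) (p : Matrix κ κ' (R n)) (k' : κ') :
    (fun π => (P * p.map (algebraMap (R n) (Q n))) π k') ∈ M := by
  have : (fun π => (P * p.map (algebraMap (R n) (Q n))) π k') =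
      ∑ k, p k k' • (fun π => P π k) := by
    ext π
    simp [Matrix.mul_apply, Finset.sum_apply, Algebra.smul_def, mul_comm]
  rw [this]
  exact M.sum_mem (fun k _ => M.smul_mem _ (hP k))

lemma web_range_mulVec (i : Matrix κ' κ (R n)) (v : κ → Q n)
    (hv : ∀ k, v k ∈ Set.range (algebraMap (R n) (Q n))) (k' : κ') :
    (i.map (algebraMap (R n) (Q n)) *ᵥ v) k' ∈ Set.range (algebraMap (R n) (Q n)) := by
  choose r hr using hv
  refine ⟨∑ k, i k' k * r k, ?_⟩
  simp [mulVec, dotProduct, hr]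

lemma web_Ret.trans {Y : R n → Matrix κ κ (R n)} {Y' : R n → Matrix κ' κ' (R n)}
    {en : A → Perm (Fin n)} {M : Submodule (R n) (A → Q n)} (h : web_Ret Y en M)
    (h' : web_Sub Y Y') : web_Ret Y' en M := by
  obtain ⟨I, P, h1, h2, h3, h4, h5⟩ := h
  obtain ⟨i, p, g1, g2, g3⟩ := h'
  refine ⟨i.map (algebraMap (R n) (Q n)) * I, P * p.map (algebraMap (R n) (Q n)), ?_,
    fun g => ?_, fun g => ?_, fun m hm k => ?_, web_col_mul P h5 p⟩
  · rw [Matrix.mul_assoc, ← Matrix.mul_assoc (p.map _), ← Matrix.map_mul, g1,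
      Matrix.map_one _ (map_zero _) (map_one _), Matrix.one_mul, h1]
  · rw [Matrix.mul_assoc, h2, ← Matrix.mul_assoc, ← Matrix.map_mul, g2, Matrix.map_mul,
      Matrix.mul_assoc]
  · rw [Matrix.mul_assoc, ← Matrix.map_mul, g3, Matrix.map_mul, ← Matrix.mul_assoc, h3,
      Matrix.mul_assoc]
  · rw [← mulVec_mulVec]
    exact web_range_mulVec i _ (h4 m hm) k

variable {Pk}

lemma web_inU_of {Y : R n → Matrix κ κ (R n)} {en : A → Perm (Fin n)}
    {M : Submodule (R n) (A → Q n)} (hU : web_U Pk Y) (h : web_Ret Y en M) : InU Pk en M := by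
  obtain ⟨J, i1, i2, u, hu⟩ := hU
  obtain ⟨I, P, h1, h2, h3, h4, h5⟩ := h.trans hu
  exact ⟨J, i1, i2, u, I, P, h1, h2, h3, h4, h5⟩

lemma web_of_inU {en : A → Perm (Fin n)} {M : Submodule (R n) (A → Q n)} (h : InU Pk en M) :
    ∃ (κ : Type) (_ : Fintype κ) (_ : DecidableEq κ) (Y : R n → Matrix κ κ (R n)),
      web_U Pk Y ∧ web_Ret Y en M := by
  obtain ⟨J, i1, i2, u, I, P, h1, h2, h3, h4, h5⟩ := h
  exact ⟨_, inferInstance, inferInstance, fun g => blockDiagonal' (fun j => Pk.Y (u j) g),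
    ⟨J, i1, i2, u, web_Sub.of_equiv (Equiv.refl _) (fun _ _ _ => rfl)⟩, I, P, h1, h2, h3, h4, h5⟩

end ret

section calculus
variable {Pk}
variable {A B : Type} [Fintype A] [DecidableEq A] [Fintype B] [DecidableEq B]

/-- the function giving the left action -/
noncomputable def web_lf {A : Type} (en : A → Perm (Fin n)) (g : R n) : A → Q n :=
  fun π => algebraMap (R n) (Q n) (act (en π) g)

lemma web_dg_mulVec (en : A → Perm (Fin n)) (g : R n) (f : A → Q n) :
    web_dg en g *ᵥ f = web_lf en g * f := by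
  ext π
  simp [web_dg, web_lf, mulVec_diagonal]

lemma web_inU_retract {en : A → Perm (Fin n)} {en' : B → Perm (Fin n)}
    {M : Submodule (R n) (A → Q n)} {M' : Submodule (R n) (B → Q n)}
    (i : (B → Q n) →ₗ[Q n] (A → Q n)) (p : (A → Q n) →ₗ[Q n] (B → Q n))
    (hpi : ∀ f, p (i f) = f) (hi : ∀ g f, i (web_lf en' g * f) = web_lf en g * i f)
    (hp : ∀ g f, p (web_lf en g * f) = web_lf en' g * p f)
    (hiM : ∀ f ∈ M', i f ∈ M) (hpM : ∀ f ∈ M, p f ∈ M') (h : InU Pk en M) : InU Pk en' M' := by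
  obtain ⟨κ, i1, i2, Y, hU, I, P, h1, h2, h3, h4, h5⟩ := web_of_inU h
  have e1 : LinearMap.toMatrix' p * LinearMap.toMatrix' i = 1 := by
    rw [← LinearMap.toMatrix'_comp, ← LinearMap.toMatrix'_id]
    congr 1
    exact LinearMap.ext hpi
  have e2 : ∀ g, LinearMap.toMatrix' i * web_dg en' g = web_dg en g * LinearMap.toMatrix' i := by
    intro g
    refine Matrix.ext_iff_mulVec.2 (fun f => ?_)
    rw [← mulVec_mulVec, ← mulVec_mulVec, web_dg_mulVec, web_dg_mulVec,
      LinearMap.toMatrix'_mulVec, LinearMap.toMatrix'_mulVec, hi]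
  have e3 : ∀ g, LinearMap.toMatrix' p * web_dg en g = web_dg en' g * LinearMap.toMatrix' p := by
    intro g
    refine Matrix.ext_iff_mulVec.2 (fun f => ?_)
    rw [← mulVec_mulVec, ← mulVec_mulVec, web_dg_mulVec, web_dg_mulVec,
      LinearMap.toMatrix'_mulVec, LinearMap.toMatrix'_mulVec, hp]
  refine web_inU_of hU ⟨I * LinearMap.toMatrix' i, LinearMap.toMatrix' p * P, ?_, fun g => ?_,
    fun g => ?_, fun m hm k => ?_, fun k => ?_⟩
  · rw [Matrix.mul_assoc, ← Matrix.mul_assoc P, h1, Matrix.one_mul, e1]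
  · rw [Matrix.mul_assoc, e2, ← Matrix.mul_assoc, h2, Matrix.mul_assoc]
  · rw [Matrix.mul_assoc, h3, ← Matrix.mul_assoc, e3, Matrix.mul_assoc]
  · rw [← mulVec_mulVec, LinearMap.toMatrix'_mulVec]
    exact h4 _ (hiM m hm) k
  · have : (fun π => (LinearMap.toMatrix' p * P) π k) = p (fun π => P π k) := by
      rw [← LinearMap.toMatrix'_mulVec]
      ext π
      simp only [Matrix.mul_apply, mulVec, dotProduct]
    rw [this]
    exact hpM _ (h5 k)

theorem inU_equiv (Pk : Pack n) {A B : Type} [Fintype A] [DecidableEq A] [Fintype B]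
    [DecidableEq B]
    (e : A ≃ B) {en : A → Perm (Fin n)} {en' : B → Perm (Fin n)} (hen : ∀ π, en' (e π) = en π)
    {M : Submodule (R n) (A → Q n)} {M' : Submodule (R n) (B → Q n)}
    (hM : ∀ f, f ∈ M' ↔ f ∘ e ∈ M) (h : InU Pk en M) : InU Pk en' M' := by
  refine web_inU_retract (LinearMap.funLeft (Q n) (Q n) e) (LinearMap.funLeft (Q n) (Q n) e.symm)
    (fun f => ?_) (fun g f => ?_) (fun g f => ?_) (fun f hf => (hM f).1 hf) (fun f hf => ?_) h
  · ext π; simp
  · ext π; simp [web_lf, hen]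
  · ext π; simp [web_lf, ← hen]
  · rw [hM]
    convert hf using 1
    ext π; simp

lemma web_inU_sigma {T : Type} [Fintype T] [DecidableEq T] {A : T → Type} [∀ t, Fintype (A t)]
    [∀ t, DecidableEq (A t)] {en : ∀ t, A t → Perm (Fin n)}
    {Mt : ∀ t, Submodule (R n) (A t → Q n)} (h : ∀ t, InU Pk (en t) (Mt t))
    (M : Submodule (R n) ((Σ t, A t) → Q n))
    (hM : ∀ g, g ∈ M ↔ ∀ t, (fun π => g ⟨t, π⟩) ∈ Mt t) :
    InU Pk (fun x : Σ t, A t => en x.1 x.2) M := by
  choose κ i1 i2 Y hU I P h1 h2 h3 h4 h5 using fun t => web_of_inU (h t)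
  have hd : ∀ g, web_dg (fun x : Σ t, A t => en x.1 x.2) g =
      blockDiagonal' (fun t => web_dg (en t) g) := by
    intro g
    simp only [web_dg]
    rw [blockDiagonal'_diagonal]
  refine web_inU_of (web_U_sigma Pk hU) ⟨blockDiagonal' I, blockDiagonal' P, ?_, fun g => ?_,
    fun g => ?_, fun m hm k => ?_, fun k => ?_⟩
  · rw [← blockDiagonal'_mul]
    simp only [h1]
    exact blockDiagonal'_one
  · rw [hd, blockDiagonal'_map _ _ (map_zero _), ← blockDiagonal'_mul, ← blockDiagonal'_mul]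
    simp only [h2]
  · rw [hd, blockDiagonal'_map _ _ (map_zero _), ← blockDiagonal'_mul, ← blockDiagonal'_mul]
    simp only [h3]
  · obtain ⟨t, k⟩ := k
    have := h4 t _ ((hM m).1 hm t) k
    convert this using 1
    simp only [mulVec, dotProduct, Fintype.sum_sigma]
    rw [Finset.sum_eq_single t]
    · simp
    · intro t' _ ht
      simp [blockDiagonal'_apply_ne _ _ _ (Ne.symm ht)]
    · simp
  · obtain ⟨t, k⟩ := k
    rw [hM]
    intro t'
    by_cases ht : t' = t
    · subst ht
      simpa using h5 t' k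
    · simp only [blockDiagonal'_apply_ne _ _ _ ht]
      exact (Mt t').zero_mem

theorem inU_fibers (Pk : Pack n) {A T : Type} [Fintype A] [DecidableEq A] [DecidableEq T]
    (f : A → T)
    (en : A → Perm (Fin n)) (Mt : ∀ t, Submodule (R n) ({π // f π = t} → Q n))
    (h : ∀ t, (∃ π, f π = t) → InU Pk (fun π : {π // f π = t} => en π.1) (Mt t))
    (M : Submodule (R n) (A → Q n)) (hM : ∀ g, g ∈ M ↔ ∀ t, (fun π => g π.1) ∈ Mt t) :
    InU Pk en M := by
  classical
  let T' : Type := {t // ∃ π, f π = t}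
  haveI : Finite T' := Finite.of_surjective (fun π : A => (⟨f π, π, rfl⟩ : T'))
    (fun ⟨t, π, h⟩ => ⟨π, Subtype.ext h⟩)
  letI : Fintype T' := Fintype.ofFinite T'
  let e : (Σ t : T', {π // f π = t.1}) ≃ A :=
    { toFun := fun x => x.2.1
      invFun := fun π => ⟨⟨f π, π, rfl⟩, π, rfl⟩
      left_inv := by
        rintro ⟨⟨t, ht⟩, π, hπ⟩
        dsimp only at hπ
        subst hπ
        rfl
      right_inv := fun π => rfl }
  have h1 := web_inU_sigma (Pk := Pk) (T := T') (A := fun t => {π // f π = t.1})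
    (en := fun t π => en π.1) (Mt := fun t => Mt t.1) (fun t => h t.1 t.2)
    (M.comap (LinearMap.funLeft (R n) (Q n) e.symm)) (fun g => ?_)
  · refine inU_equiv Pk e (fun π => rfl) (fun g => ?_) h1
    rw [Submodule.mem_comap]
    have : LinearMap.funLeft (R n) (Q n) e.symm (g ∘ e) = g := by
      ext π; simp
    rw [this]
  · rw [Submodule.mem_comap, hM]
    constructor
    · intro hg t
      convert hg t.1 using 2 with π
      obtain ⟨t, ht⟩ := t
      obtain ⟨π, hπ⟩ := π
      dsimp only at hπ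
      subst hπ
      rfl
    · intro hg t
      by_cases ht : ∃ π, f π = t
      · convert hg ⟨t, ht⟩ using 2 with π
        obtain ⟨π, rfl⟩ := π
        rfl
      · have : (fun π : {π // f π = t} => LinearMap.funLeft (R n) (Q n) e.symm g π.1) = 0 := by
          ext π
          exact absurd ⟨π.1, π.2⟩ ht
        rw [this]
        exact (Mt t).zero_mem

lemma web_inU_empty [IsEmpty A] (en : A → Perm (Fin n)) (M : Submodule (R n) (A → Q n)) :
    InU Pk en M := by
  refine ⟨Empty, inferInstance, inferInstance, fun j => j.elim, 0, 0, Subsingleton.elim _ _,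
    fun g => ?_, fun g => ?_, fun m _ k => k.1.elim, fun k => k.1.elim⟩
  · ext k; exact k.1.elim
  · ext π; exact isEmptyElim π

lemma web_len_one : len (1 : Perm (Fin n)) = 0 := by
  simp only [len, Finset.card_eq_zero, Finset.filter_eq_empty_iff]
  rintro ⟨i, j⟩ _ ⟨h1, h2⟩
  exact absurd h1 (not_lt.2 (le_of_lt h2))

lemma web_inU_base [Unique A] (en : A → Perm (Fin n)) (hen : ∀ π, en π = 1)
    (M : Submodule (R n) (A → Q n)) (h1 : (1 : A → Q n) ∈ M)
    (hM : ∀ m ∈ M, ∀ π, m π ∈ Set.range (algebraMap (R n) (Q n))) : InU Pk en M := by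
  classical
  have hc : ∀ v, (Nat.card {i // Pk.lab 1 i = v} : ℤ) = if v = 1 then 1 else 0 := by
    intro v
    rw [Pk.count, KL, web_len_one]
    simp only [Function.iterate_zero, id]
    split_ifs <;> simp
  have hl : ∀ i, Pk.lab 1 i = 1 := by
    intro i
    by_contra hi
    have := hc (Pk.lab 1 i)
    rw [if_neg hi] at this
    haveI : Nonempty {j // Pk.lab 1 j = Pk.lab 1 i} := ⟨⟨i, rfl⟩⟩
    have h2 := Nat.card_pos (α := {j // Pk.lab 1 j = Pk.lab 1 i})
    omega
  have hs : ∀ i j : Pk.ι 1, i = j := by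
    intro i j
    have := hc 1
    rw [if_pos rfl] at this
    have h2 : Nat.card {i // Pk.lab 1 i = 1} = 1 := by omega
    haveI := (Nat.card_eq_one_iff_unique.1 h2).1
    exact congrArg Subtype.val (Subsingleton.elim (⟨i, hl i⟩ : {i // Pk.lab 1 i = 1}) ⟨j, hl j⟩)
  letI : Unique (Pk.ι 1) := ⟨⟨Pk.top 1⟩, fun i => hs _ _⟩
  have hY : ∀ g i j, Pk.Y 1 g i j = g := by
    intro g i j
    rw [hs j i, Pk.diag, hl, act_one]
  refine web_inU_of (κ := Pk.ι 1) (Y := fun g => Pk.Y 1 g)
    ⟨Unit, inferInstance, inferInstance, fun _ => 1, ?_⟩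
    ⟨Matrix.of fun _ _ => 1, Matrix.of fun _ _ => 1, ?_, fun g => ?_, fun g => ?_,
      fun m hm k => ?_, fun k => h1⟩
  · refine web_Sub.of_equiv (Equiv.uniqueSigma (fun _ : Unit => Pk.ι 1)).symm ?_
    intro g a b
    simp [Equiv.uniqueSigma]
  · ext a b
    obtain rfl := Subsingleton.elim a b
    simp [Matrix.mul_apply]
  · ext a b
    simp [Matrix.mul_apply, web_dg, hen, hY, Subsingleton.elim b default]
  · ext a b
    simp [Matrix.mul_apply, web_dg, hen, hY, Subsingleton.elim a default]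
  · simpa [mulVec, dotProduct] using hM m hm default

/-- the lattice of the induced module -/
noncomputable def web_thetaM (a : Adj n) (M : Submodule (R n) (A → Q n)) :
    Submodule (R n) (A ⊕ A → Q n) :=
  Submodule.span (R n) {F | ∃ m ∈ M, F = Sum.elim m (fun π => sigQ a (m π))}

lemma web_inU_theta (a : Adj n) {en : A → Perm (Fin n)} {M : Submodule (R n) (A → Q n)}
    (h : InU Pk en M) :
    InU Pk (Sum.elim en (fun π => en π * sr a)) (web_thetaM a M) := by
  obtain ⟨κ, i1, i2, Y, hU, I, P, h1, h2, h3, h4, h5⟩ := web_of_inU h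
  have hal := alphaQ_ne_zero a
  set al := algebraMap (R n) (Q n) (alpha a) with hal'
  let C : Matrix (A ⊕ A) (A ⊕ A) (Q n) := fromBlocks 1 (al • 1) 1 (-(al • 1))
  let C' : Matrix (A ⊕ A) (A ⊕ A) (Q n) :=
    fromBlocks ((1 / 2 : Q n) • 1) ((1 / 2 : Q n) • 1) ((1 / (2 * al)) • 1) (-((1 / (2 * al)) • 1))
  have hCC : C * C' = 1 := by
    simp only [C, C', fromBlocks_multiply, Matrix.mul_neg, smul_smul, neg_neg, Matrix.mul_smul,
      Matrix.mul_one, smul_neg]
    have e : 1 / (2 * al) * al = 1 / 2 := by field_simp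
    rw [← fromBlocks_one]
    congr 1
    · rw [e, ← add_smul]; norm_num
    · rw [e]; simp
    · rw [e]; simp
    · rw [e, ← add_smul]; norm_num
  have hC'C : C' * C = 1 := mul_eq_one_comm.1 hCC
  have hd : ∀ g, C * (demQ a).kap (web_dg en g) =
      web_dg (Sum.elim en (fun π => en π * sr a)) g * C := by
    intro g
    have hs : ∀ π, algebraMap (R n) (Q n) (act (en π * sr a) g) =
        (demQ a).σ (algebraMap (R n) (Q n) (act (en π) g)) := by
      intro π
      rw [act_mul]
      exact (sigQ_algebraMap a _).symm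
    have hal2 : (demQ a).al = al := rfl
    have hdiag : web_dg (Sum.elim en (fun π => en π * sr a)) g =
        fromBlocks (web_dg en g) 0 0 ((web_dg en g).map (demQ a).σ) := by
      ext (i | i) (j | j)
      · simp [web_dg, diagonal_apply]
      · simp [web_dg]
      · simp [web_dg]
      · simp only [web_dg, diagonal_apply, Sum.inr.injEq, Sum.elim_inr, fromBlocks_apply₂₂,
          map_apply, hs]
        split_ifs <;> simp
    rw [hdiag]
    simp only [C, Dem.kap, fromBlocks_multiply, Matrix.one_mul, Matrix.smul_mul, Matrix.mul_neg,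
      Matrix.neg_mul, Matrix.mul_smul, Matrix.mul_one, Matrix.zero_mul, add_zero, zero_add,
      smul_zero, neg_zero]
    congr 1 <;> ext i j <;>
      simp only [Matrix.add_apply, map_apply, Matrix.smul_apply, smul_eq_mul, Matrix.neg_apply,
        hal2]
    · rw [← hal2]; exact (demQ a).dec _
    · rw [← hal2]; linear_combination (demQ a).al * (demQ a).dec (web_dg en g i j)
    · rw [(demQ a).σ_eq, hal2]; ring
    · rw [(demQ a).σ_eq, hal2]; ring
  have hd' : ∀ g, (demQ a).kap (web_dg en g) * C' =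
      C' * web_dg (Sum.elim en (fun π => en π * sr a)) g := by
    intro g
    calc (demQ a).kap (web_dg en g) * C' = C' * (C * (demQ a).kap (web_dg en g)) * C' := by
          rw [← Matrix.mul_assoc, hC'C, Matrix.one_mul]
      _ = _ := by rw [hd, Matrix.mul_assoc, Matrix.mul_assoc, hCC, Matrix.mul_one]
  refine web_inU_of (hU.kap Pk a) ⟨(demQ a).kap I * C', C * (demQ a).kap P, ?_, fun g => ?_,
    fun g => ?_, fun m hm => ?_, fun k => ?_⟩
  · rw [Matrix.mul_assoc, ← Matrix.mul_assoc ((demQ a).kap P), ← Dem.kap_mul, h1, Dem.kap_one,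
      Matrix.one_mul, hCC]
  · rw [Matrix.mul_assoc, ← hd', ← Matrix.mul_assoc, ← Dem.kap_mul, h2, Dem.kap_mul,
      demQ_kap_map, Matrix.mul_assoc]
  · rw [Matrix.mul_assoc, ← demQ_kap_map, ← Dem.kap_mul, h3, Dem.kap_mul, ← Matrix.mul_assoc, hd,
      Matrix.mul_assoc]
  · induction hm using Submodule.span_induction with
    | mem F hF =>
      obtain ⟨m, hm, rfl⟩ := hF
      have e1 : C' *ᵥ Sum.elim m (fun π => sigQ a (m π)) =
          Sum.elim (fun π => (demQ a).ev (m π)) (fun π => (demQ a).od (m π)) := by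
        ext (π | π)
        · simp only [C', fromBlocks_mulVec, Sum.elim_comp_inl, Sum.elim_comp_inr, smul_mulVec,
            one_mulVec, Sum.elim_inl, Pi.add_apply, Pi.smul_apply, smul_eq_mul, demQ]
          ring
        · simp only [C', fromBlocks_mulVec, Sum.elim_comp_inl, Sum.elim_comp_inr, smul_mulVec,
            one_mulVec, Sum.elim_inr, Pi.add_apply, Pi.smul_apply, smul_eq_mul, demQ, neg_mulVec,
            Pi.neg_apply, ← hal']
          ring
      rw [← mulVec_mulVec, e1]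
      rintro (k | k)
      · obtain ⟨r, hr⟩ := h4 m hm k
        refine ⟨(demR a).ev r, ?_⟩
        rw [← (demQ_ev_od a r).1, hr]
        simp only [Dem.kap, mulVec, dotProduct, Dem.ev_sum, Dem.ev_mul, Finset.sum_add_distrib,
          Fintype.sum_sum_type, fromBlocks_apply₁₁, fromBlocks_apply₁₂, map_apply, Sum.elim_inl,
          Sum.elim_inr]
      · obtain ⟨r, hr⟩ := h4 m hm k
        refine ⟨(demR a).od r, ?_⟩
        rw [← (demQ_ev_od a r).2, hr]
        simp only [Dem.kap, mulVec, dotProduct, Dem.od_sum, Dem.od_mul, Finset.sum_add_distrib,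
          Fintype.sum_sum_type, fromBlocks_apply₂₁, fromBlocks_apply₂₂, map_apply, Sum.elim_inl,
          Sum.elim_inr]
    | zero => intro k; exact ⟨0, by simp⟩
    | add F G _ _ hF hG =>
      intro k
      obtain ⟨r, hr⟩ := hF k
      obtain ⟨s, hs⟩ := hG k
      exact ⟨r + s, by rw [map_add, hr, hs, mulVec_add]; rfl⟩
    | smul c F _ hF =>
      intro k
      obtain ⟨r, hr⟩ := hF k
      refine ⟨c * r, ?_⟩
      rw [map_mul, hr, ← algebraMap_smul (Q n) c F, mulVec_smul]
      rfl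
  · have hal2 : (demQ a).al = al := rfl
    have hs : ∀ x, sigQ a x = (demQ a).ev x - al * (demQ a).od x := fun x => (demQ a).σ_eq x
    rcases k with k | k
    · refine Submodule.subset_span ⟨_, h5 k, ?_⟩
      ext (π | π)
      · simp only [C, Dem.kap, fromBlocks_multiply, Matrix.one_mul, Matrix.smul_mul,
          fromBlocks_apply₁₁, Matrix.add_apply, map_apply, Matrix.smul_apply, smul_eq_mul,
          Sum.elim_inl]
        exact (demQ a).dec _
      · simp only [C, Dem.kap, fromBlocks_multiply, Matrix.one_mul, Matrix.smul_mul,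
          fromBlocks_apply₂₁, Matrix.add_apply, map_apply, Matrix.smul_apply, smul_eq_mul,
          Sum.elim_inr, Matrix.neg_mul, Matrix.neg_apply, hs]
        ring
    · refine Submodule.subset_span ⟨_, M.smul_mem (alpha a) (h5 k), ?_⟩
      ext (π | π)
      · simp only [C, Dem.kap, fromBlocks_multiply, Matrix.one_mul, Matrix.smul_mul,
          fromBlocks_apply₁₂, Matrix.add_apply, map_apply, Matrix.smul_apply, smul_eq_mul,
          Sum.elim_inl, Pi.smul_apply, hal2]
        rw [Algebra.smul_def, ← hal']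
        have := (demQ a).dec (P π k)
        rw [hal2] at this
        linear_combination al * this
      · simp only [C, Dem.kap, fromBlocks_multiply, Matrix.one_mul, Matrix.smul_mul,
          fromBlocks_apply₂₂, Matrix.add_apply, map_apply, Matrix.smul_apply, smul_eq_mul,
          Sum.elim_inr, Matrix.neg_mul, Matrix.neg_apply, Pi.smul_apply, hal2]
        have : sigQ a al = -al := (demQ a).σ_al
        rw [Algebra.smul_def, ← hal', map_mul, this, hs]
        ring

end calculus

end Pool.Agent.P.MP_c3da96_co
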