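import Pool.Agent.P.MP_c3da96_co.WebBase

namespace Pool.Agent.P.MP_c3da96_co

open Equiv Matrix

set_option linter.unusedSectionVars false

variable {n : ℕ}

section gen
variable {A B Γ Γ' : Type}

/-- the generator attached to a record -/
noncomputable def web_gen (en : A → Perm (Fin n)) (lab : Γ → A → Fin n) (γ : Γ) : A → Q n :=
  fun π => algebraMap (R n) (Q n) (MvPolynomial.X ((en π).symm (lab γ π)))

lemma web_gen_induction {en : A → Perm (Fin n)} {lab : Γ → A → Fin n} {p : (A → Q n) → Prop}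
    (hgen : ∀ γ, p (web_gen en lab γ)) (hc : ∀ r : R n, p (fun _ => algebraMap (R n) (Q n) r))
    (hadd : ∀ f g, f ∈ genMod en lab → g ∈ genMod en lab → p f → p g → p (f + g))
    (hmul : ∀ f g, f ∈ genMod en lab → g ∈ genMod en lab → p f → p g → p (f * g))
    {f : A → Q n} (hf : f ∈ genMod en lab) : p f := by
  change f ∈ Algebra.adjoin (R n) _ at hf
  induction hf using Algebra.adjoin_induction with
  | mem x hx => obtain ⟨γ, rfl⟩ := hx; exact hgen γ
  | algebraMap r => exact hc r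
  | add x y hx hy h1 h2 => exact hadd x y hx hy h1 h2
  | mul x y hx hy h1 h2 => exact hmul x y hx hy h1 h2

lemma web_gen_mem (en : A → Perm (Fin n)) (lab : Γ → A → Fin n) (γ : Γ) :
    web_gen en lab γ ∈ genMod en lab :=
  Algebra.subset_adjoin (R := R n) ⟨γ, rfl⟩

lemma web_const_mem (en : A → Perm (Fin n)) (lab : Γ → A → Fin n) (r : R n) :
    (fun _ => algebraMap (R n) (Q n) r) ∈ genMod en lab :=
  Subalgebra.algebraMap_mem (Algebra.adjoin (R n) _) r

lemma web_mul_mem {en : A → Perm (Fin n)} {lab : Γ → A → Fin n} {f g : A → Q n}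
    (hf : f ∈ genMod en lab) (hg : g ∈ genMod en lab) : f * g ∈ genMod en lab :=
  Subalgebra.mul_mem (Algebra.adjoin (R n) _) hf hg

lemma web_comp_mem {en : A → Perm (Fin n)} {lab : Γ → A → Fin n} {en' : B → Perm (Fin n)}
    {lab' : Γ' → B → Fin n} (q : A → B) (h : ∀ γ, web_gen en' lab' γ ∘ q ∈ genMod en lab)
    {f : B → Q n} (hf : f ∈ genMod en' lab') : f ∘ q ∈ genMod en lab :=
  web_gen_induction (p := fun f => f ∘ q ∈ genMod en lab) h (fun r => web_const_mem en lab r)
    (fun _ _ _ _ h1 h2 => (genMod en lab).add_mem h1 h2)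
    (fun _ _ _ _ h1 h2 => web_mul_mem h1 h2) hf

lemma web_exists_lift {en : A → Perm (Fin n)} {lab : Γ → A → Fin n} {en' : B → Perm (Fin n)}
    {lab' : Γ' → B → Fin n} (q : A → B)
    (h : ∀ γ, ∃ f ∈ genMod en' lab', f ∘ q = web_gen en lab γ)
    {m : A → Q n} (hm : m ∈ genMod en lab) : ∃ f ∈ genMod en' lab', f ∘ q = m := by
  refine web_gen_induction (p := fun m => ∃ f ∈ genMod en' lab', f ∘ q = m) h
    (fun r => ⟨_, web_const_mem en' lab' r, rfl⟩) ?_ ?_ hm
  · rintro _ _ - - ⟨f, hf, rfl⟩ ⟨g, hg, rfl⟩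
    exact ⟨f + g, (genMod en' lab').add_mem hf hg, rfl⟩
  · rintro _ _ - - ⟨f, hf, rfl⟩ ⟨g, hg, rfl⟩
    exact ⟨f * g, web_mul_mem hf hg, rfl⟩

variable {Pk : Pack n}

lemma web_inU_gen_equiv [Fintype A] [DecidableEq A] [Fintype B] [DecidableEq B]
    {en : A → Perm (Fin n)} {lab : Γ → A → Fin n} {en' : B → Perm (Fin n)}
    {lab' : Γ' → B → Fin n} (e : A ≃ B) (hen : ∀ π, en' (e π) = en π)
    (h1 : ∀ γ, web_gen en' lab' γ ∘ e ∈ genMod en lab)
    (h2 : ∀ γ, web_gen en lab γ ∘ e.symm ∈ genMod en' lab') (h : InU Pk en (genMod en lab)) :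
    InU Pk en' (genMod en' lab') := by
  refine inU_equiv Pk e hen (fun f => ⟨web_comp_mem e h1, fun hf => ?_⟩) h
  have := web_comp_mem e.symm h2 hf
  convert this using 1
  ext π; simp

lemma web_dd {en : A → Perm (Fin n)} {lab : Γ → A → Fin n} (a : Adj n) (τ : A → A)
    (hen : ∀ ω, en (τ ω) = en ω * sr a) (hlab : ∀ γ ω, lab γ (τ ω) = lab γ ω)
    {f : A → Q n} (hf : f ∈ genMod en lab) :
    (fun ω => sigQ a (f (τ ω))) ∈ genMod en lab ∧
      (fun ω => (f ω - sigQ a (f (τ ω))) / algebraMap (R n) (Q n) (alpha a)) ∈ genMod en lab := by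
  have hal := alphaQ_ne_zero a
  refine web_gen_induction (p := fun f => (fun ω => sigQ a (f (τ ω))) ∈ genMod en lab ∧
    (fun ω => (f ω - sigQ a (f (τ ω))) / algebraMap (R n) (Q n) (alpha a)) ∈ genMod en lab)
    (fun γ => ?_) (fun r => ?_) ?_ ?_ hf
  · have e : ∀ ω, sigQ a (web_gen en lab γ (τ ω)) = web_gen en lab γ ω := by
      intro ω
      simp only [web_gen, sigQ_algebraMap, act_X, hen, hlab, sr_symm]
      congr 2
      rw [← Equiv.Perm.inv_def, _root_.mul_inv_rev, sr_inv, ← Equiv.Perm.mul_apply, ← mul_assoc,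
        sr_mul_self, one_mul, Equiv.Perm.inv_def]
    simp only [e, sub_self, zero_div]
    exact ⟨web_gen_mem en lab γ, (genMod en lab).zero_mem⟩
  · obtain ⟨q, hq⟩ := exists_od a r
    simp only [sigQ_algebraMap, ← map_sub, hq]
    refine ⟨web_const_mem en lab _, ?_⟩
    convert web_const_mem en lab (2 * q) using 2
    simp only [map_mul]
    field_simp
  · rintro f g - - ⟨h1, h2⟩ ⟨h3, h4⟩
    refine ⟨?_, ?_⟩
    · convert (genMod en lab).add_mem h1 h3 using 1
      ext ω; simp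
    · convert (genMod en lab).add_mem h2 h4 using 1
      ext ω
      simp only [Pi.add_apply, map_add]
      ring
  · rintro f g - hg ⟨h1, h2⟩ ⟨h3, h4⟩
    refine ⟨?_, ?_⟩
    · convert web_mul_mem h1 h3 using 1
      ext ω; simp
    · convert (genMod en lab).add_mem (web_mul_mem h2 hg) (web_mul_mem h1 h4) using 1
      ext ω
      simp only [Pi.add_apply, Pi.mul_apply, map_mul]
      ring

lemma web_theta_mem (a : Adj n) {M : Submodule (R n) (A → Q n)} {m : A → Q n} (hm : m ∈ M) :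
    Sum.elim m (fun π => sigQ a (m π)) ∈ web_thetaM a M :=
  Submodule.subset_span ⟨m, hm, rfl⟩

lemma web_move [Fintype A] [DecidableEq A] {en : A → Perm (Fin n)} {lab : Γ → A → Fin n}
    (a : Adj n) (τ : A → A) (hτ : ∀ ω, τ (τ ω) = ω)
    (hen : ∀ ω, en (τ ω) = en ω * sr a) (hlab : ∀ γ ω, lab γ (τ ω) = lab γ ω) (η : Γ)
    (k : Fin n) (hk : k = a.1.1 ∨ k = a.1.2)
    (h : InU Pk (fun ω : {ω // lab η ω ≠ en ω k} => en ω.1)
      (genMod (fun ω : {ω // lab η ω ≠ en ω k} => en ω.1) (fun γ ω => lab γ ω.1))) :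
    InU Pk en (genMod en lab) := by
  classical
  have hal := alphaQ_ne_zero a
  set al := algebraMap (R n) (Q n) (alpha a) with hal'
  obtain ⟨ε, hε, hε'⟩ : ∃ ε : R n, ε * ε = 1 ∧
      (MvPolynomial.X (sr a k) - MvPolynomial.X k : R n) = ε * alpha a := by
    rcases hk with rfl | rfl
    · exact ⟨-1, by ring, by simp [sr, alpha]⟩
    · exact ⟨1, by ring, by simp [sr, alpha]⟩
  let d : A → Q n := fun ω => web_gen en lab η ω - algebraMap (R n) (Q n) (MvPolynomial.X k)
  have hdM : d ∈ genMod en lab :=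
    (genMod en lab).sub_mem (web_gen_mem en lab η) (web_const_mem en lab _)
  have hd0 : ∀ ω, ¬ lab η ω ≠ en ω k → d ω = 0 := by
    intro ω hω
    simp only [d, web_gen, not_not.1 hω, symm_apply_apply, sub_self]
  have hsd : ∀ ω, d ω - sigQ a (d (τ ω)) = algebraMap (R n) (Q n) ε * al := by
    intro ω
    have e : sigQ a (web_gen en lab η (τ ω)) = web_gen en lab η ω := by
      simp only [web_gen, sigQ_algebraMap, act_X, hen, hlab, sr_symm]
      congr 2
      rw [← Equiv.Perm.inv_def, _root_.mul_inv_rev, sr_inv, ← Equiv.Perm.mul_apply, ← mul_assoc,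
        sr_mul_self, one_mul, Equiv.Perm.inv_def]
    simp only [d, map_sub, e, sigQ_algebraMap, act_X, sr_symm]
    rw [hal', ← map_mul, ← hε', map_sub]
    ring
  have hεQ : algebraMap (R n) (Q n) ε * algebraMap (R n) (Q n) ε = 1 := by
    rw [← map_mul, hε, map_one]
  let i : (A → Q n) →ₗ[Q n] ({ω // lab η ω ≠ en ω k} ⊕ {ω // lab η ω ≠ en ω k} → Q n) :=
    LinearMap.funLeft (Q n) (Q n) (Sum.elim (fun ω => ω.1) (fun ω => τ ω.1))
  let p : ({ω // lab η ω ≠ en ω k} ⊕ {ω // lab η ω ≠ en ω k} → Q n) →ₗ[Q n] (A → Q n) :=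
    { toFun := fun F ω => algebraMap (R n) (Q n) ε / al *
        ((if h : lab η ω ≠ en ω k then d ω * F (Sum.inl ⟨ω, h⟩) else 0) -
          (if h : lab η (τ ω) ≠ en (τ ω) k then sigQ a (d (τ ω)) * F (Sum.inr ⟨τ ω, h⟩) else 0))
      map_add' := fun F G => by
        ext ω
        simp only [Pi.add_apply]
        split_ifs <;> ring
      map_smul' := fun c F => by
        ext ω
        simp only [Pi.smul_apply, smul_eq_mul, RingHom.id_apply]
        split_ifs <;> ring }
  have hp : ∀ (F : {ω // lab η ω ≠ en ω k} ⊕ {ω // lab η ω ≠ en ω k} → Q n) (f g : A → Q n),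
      (∀ ω, F (Sum.inl ω) = f ω.1) → (∀ ω, F (Sum.inr ω) = g ω.1) → ∀ ω,
      p F ω = algebraMap (R n) (Q n) ε / al * (d ω * f ω - sigQ a (d (τ ω)) * g (τ ω)) := by
    intro F f g h1 h2 ω
    simp only [p, LinearMap.coe_mk, AddHom.coe_mk, h1, h2]
    congr 2
    · split_ifs with hω
      · rfl
      · rw [hd0 ω hω, zero_mul]
    · split_ifs with hω
      · rfl
      · rw [hd0 _ hω, map_zero, zero_mul]
  refine web_inU_retract i p (fun f => ?_) (fun g f => ?_) (fun g F => ?_) (fun f hf => ?_)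
    (fun F hF => ?_) (web_inU_theta a h)
  · ext ω
    rw [hp _ f (fun ω => f (τ ω)) (fun _ => rfl) (fun _ => rfl), hτ, ← sub_mul, hsd]
    field_simp
    rw [pow_two, hεQ, one_mul]
  · ext (ω | ω) <;> simp [i, web_lf, hen]
  · ext ω
    simp only [p, LinearMap.coe_mk, AddHom.coe_mk, Pi.mul_apply, web_lf, Sum.elim_inl,
      Sum.elim_inr, hen, mul_sr_sr]
    split_ifs <;> ring
  · obtain ⟨h1, h2⟩ := web_dd a τ hen hlab hf
    have hres : ∀ g ∈ genMod en lab, (fun ω : {ω // lab η ω ≠ en ω k} => g ω.1) ∈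
        genMod (fun ω : {ω // lab η ω ≠ en ω k} => en ω.1) (fun γ ω => lab γ ω.1) :=
      fun g hg => web_comp_mem Subtype.val (fun γ => web_gen_mem _ _ γ) hg
    have h3 := (genMod en lab).smul_mem (MvPolynomial.C (1 / 2 : ℝ)) ((genMod en lab).add_mem hf h1)
    have h4 := (genMod en lab).smul_mem (MvPolynomial.C (1 / 2 : ℝ)) h2
    have hhalf : algebraMap (R n) (Q n) (MvPolynomial.C (1 / 2 : ℝ)) = 1 / 2 := by
      have h2 : (2 : R n) * MvPolynomial.C (1 / 2 : ℝ) = 1 := by
        rw [← map_ofNat MvPolynomial.C 2, ← map_mul]; norm_num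
      have := congrArg (algebraMap (R n) (Q n)) h2
      rw [map_mul, map_one, map_ofNat] at this
      field_simp
      linear_combination this
    have hs : sigQ a al = -al := (demQ a).σ_al
    have hm := Submodule.add_mem _ (web_theta_mem a (hres _ h3))
      (Submodule.smul_mem _ (alpha a) (web_theta_mem a (hres _ h4)))
    convert hm using 1
    ext (ω | ω)
    · simp only [i, LinearMap.funLeft_apply, Sum.elim_inl, Pi.add_apply, Pi.smul_apply]
      simp only [Algebra.smul_def, hhalf, ← hal']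
      field_simp
      ring
    · simp only [i, LinearMap.funLeft_apply, Sum.elim_inr, Pi.add_apply, Pi.smul_apply]
      simp only [Algebra.smul_def, hhalf, ← hal', map_mul, map_add, map_sub, map_div₀,
        sigQ_sigQ, hs, map_one, map_ofNat]
      field_simp
      ring
  · induction hF using Submodule.span_induction with
    | mem F hF =>
      obtain ⟨m, hm, rfl⟩ := hF
      obtain ⟨f, hf, rfl⟩ := web_exists_lift (en' := en) (lab' := lab) Subtype.val
        (fun γ => ⟨_, web_gen_mem en lab γ, rfl⟩) hm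
      have := (genMod en lab).smul_mem ε (web_dd a τ hen hlab (web_mul_mem hdM hf)).2
      convert this using 1
      ext ω
      rw [hp _ f (fun ω => sigQ a (f ω)) (fun _ => rfl) (fun _ => rfl)]
      simp only [Pi.smul_apply, Algebra.smul_def, Pi.mul_apply, map_mul, ← hal']
      ring
    | zero => rw [map_zero]; exact (genMod en lab).zero_mem
    | add F G _ _ hF hG => rw [map_add]; exact (genMod en lab).add_mem hF hG
    | smul c F _ hF =>
      rw [← algebraMap_smul (Q n) c F, map_smul, algebraMap_smul]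
      exact (genMod en lab).smul_mem c hF

end gen

open Classical in
/-- the number of allowed pairs -/
noncomputable def web_cnt (S : Stair n) : ℕ :=
  (Finset.univ.filter (fun p : Fin n × Fin n => p.1 ∈ S.J ∧ p.2 ∈ S.J ∧ S.Al p.1 p.2)).card

lemma web_mem_J {S : Stair n} {σ : Perm (Fin n)} (h : S.mem σ) {k : Fin n} (hk : k ∈ S.J) :
    σ k ∈ S.J := by
  by_contra hc
  have := σ.injective (h.1 _ hc)
  exact hc (by rw [this]; exact hk)

lemma web_corner (S : Stair n) : (∀ σ, ¬ S.mem σ) ∨ (∀ σ, S.mem σ ↔ σ = 1) ∨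
    ∃ (a : Adj n) (k m : Fin n) (S' : Stair n), (k = a.1.1 ∨ k = a.1.2) ∧
      web_cnt S' < web_cnt S ∧ (∀ σ, S.mem σ → S.mem (σ * sr a)) ∧
      ∀ σ, S'.mem σ ↔ S.mem σ ∧ σ k ≠ m := by
  classical
  obtain ⟨o, ho⟩ : ∃ o : Fin n → ℤ, ∀ k, o k = if S.up then (k : ℤ) else -(k : ℤ) :=
    ⟨_, fun _ => rfl⟩
  have hle : ∀ m m' k k' : Fin n, (if S.up then m' ≤ m ∧ k ≤ k' else m ≤ m' ∧ k' ≤ k) ↔
      o m' ≤ o m ∧ o k ≤ o k' := by
    intro m m' k k'
    simp only [ho, Fin.le_def]
    split_ifs <;> omega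
  have hinj : ∀ k k', o k = o k' → k = k' := by
    intro k k' h
    simp only [ho] at h
    apply Fin.ext
    split_ifs at h <;> omega
  have hmono : ∀ m m' k k', m ∈ S.J → m' ∈ S.J → k ∈ S.J → k' ∈ S.J → S.Al m k → o m' ≤ o m →
      o k ≤ o k' → S.Al m' k' := fun m m' k k' h1 h2 h3 h4 h5 h6 h7 =>
    S.mono m m' k k' h1 h2 h3 h4 h5 ((hle _ _ _ _).2 ⟨h6, h7⟩)
  have hconv : ∀ i j k, i ∈ S.J → k ∈ S.J → o i ≤ o j → o j ≤ o k → j ∈ S.J := by
    intro i j k hi hk h1 h2
    simp only [ho] at h1 h2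
    split_ifs at h1 h2
    · exact S.conv i j k hi hk (by rw [Fin.le_def]; omega) (by rw [Fin.le_def]; omega)
    · exact S.conv k j i hk hi (by rw [Fin.le_def]; omega) (by rw [Fin.le_def]; omega)
  have hsucc : ∀ k m, o k < o m → ∃ (k' : Fin n) (a : Adj n), o k' = o k + 1 ∧
      sr a = swap k k' ∧ (k = a.1.1 ∨ k = a.1.2) := by
    intro k m h
    have hm := m.2
    have hk := k.2
    simp only [ho] at h ⊢
    split_ifs at h ⊢
    · exact ⟨⟨k + 1, by omega⟩, ⟨(k, ⟨k + 1, by omega⟩), rfl⟩, by simp, rfl, Or.inl rfl⟩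
    · refine ⟨⟨k - 1, by omega⟩, ⟨(⟨k - 1, by omega⟩, k), by simp only; omega⟩, ?_,
        swap_comm _ _, Or.inr rfl⟩
      simp only
      omega
  by_cases hdiag : ∀ k ∈ S.J, S.Al k k
  swap
  · left
    push Not at hdiag
    obtain ⟨k, hk, hk'⟩ := hdiag
    intro σ hσ
    have h1 : (S.J.filter (fun c => o c ≤ o k)).card ≤ (S.J.filter (fun c => o c < o k)).card := by
      refine Finset.card_le_card_of_injOn σ (fun c hc => ?_) σ.injective.injOn
      simp only [Finset.coe_filter, Set.mem_ofPred_eq] at hc ⊢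
      refine ⟨web_mem_J hσ hc.1, ?_⟩
      by_contra hlt
      exact hk' (hmono _ _ _ _ (web_mem_J hσ hc.1) hk hc.1 hk (hσ.2 c hc.1) (by omega) hc.2)
    have h2 : (S.J.filter (fun c => o c < o k)).card < (S.J.filter (fun c => o c ≤ o k)).card := by
      apply Finset.card_lt_card
      refine ⟨fun c hc => ?_, fun hsub => ?_⟩
      · simp only [Finset.mem_filter] at hc ⊢
        exact ⟨hc.1, hc.2.le⟩
      · have := hsub (Finset.mem_filter.2 ⟨hk, le_rfl⟩)
        simp at this
    omega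
  right
  by_cases hoff : ∃ k ∈ S.J, ∃ m ∈ S.J, o k < o m ∧ S.Al m k
  swap
  · left
    push Not at hoff
    refine fun σ => ⟨fun hσ => ?_, ?_⟩
    · have h1 : ∀ k ∈ Finset.univ, o (σ k) ≤ o k := by
        intro k _
        by_cases hk : k ∈ S.J
        · by_contra hlt
          exact hoff k hk _ (web_mem_J hσ hk) (by omega) (hσ.2 k hk)
        · rw [hσ.1 k hk]
      have h2 := (Finset.sum_eq_sum_iff_of_le h1).1 (Equiv.sum_comp σ o)
      ext k
      rw [hinj _ _ (h2 k (Finset.mem_univ _))]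
      rfl
    · rintro rfl
      exact ⟨fun _ _ => rfl, hdiag⟩
  right
  obtain ⟨k, hk, hkmax⟩ := (S.J.filter (fun k => ∃ m ∈ S.J, o k < o m ∧ S.Al m k)).exists_max_image
    o (by obtain ⟨k, h1, h2⟩ := hoff; exact ⟨k, Finset.mem_filter.2 ⟨h1, h2⟩⟩)
  obtain ⟨hkJ, m1, hm1, hlt, hAl⟩ := Finset.mem_filter.1 hk
  obtain ⟨m, -, hm, -, -⟩ := hsucc k m1 hlt
  have hmJ : m ∈ S.J := hconv k m m1 hkJ hm1 (by omega) (by omega)
  have hmk : S.Al m k := hmono _ _ _ _ hm1 hmJ hkJ hkJ hAl (by omega) le_rfl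
  have htop : ∀ m' ∈ S.J, ∀ c ∈ S.J, o c ≤ o m → S.Al m' c → o m' ≤ o m := by
    intro m' hm' c hc h1 h2
    by_contra h3
    have := hkmax m (Finset.mem_filter.2
      ⟨hmJ, m', hm', by omega, hmono _ _ _ _ hm' hm' hc hmJ h2 le_rfl h1⟩)
    omega
  obtain ⟨k0, hk0, hk0min⟩ := (S.J.filter (fun c => S.Al m c)).exists_min_image o
    ⟨k, Finset.mem_filter.2 ⟨hkJ, hmk⟩⟩
  obtain ⟨hk0J, hk0A⟩ := Finset.mem_filter.1 hk0
  have hk0k := hk0min k (Finset.mem_filter.2 ⟨hkJ, hmk⟩)
  obtain ⟨k1, a, hk1, ha, hka⟩ := hsucc k0 m (by omega)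
  have hk1J : k1 ∈ S.J := hconv k0 k1 m hk0J hmJ (by omega) (by omega)
  refine ⟨a, k0, m, ⟨S.J, S.conv, S.up, fun m' c => S.Al m' c ∧ ¬ (m' = m ∧ c = k0), ?_⟩, hka,
    ?_, fun σ hσ => ⟨fun c hc => ?_, fun c hc => ?_⟩, fun σ => ⟨fun hσ => ?_, fun hσ => ?_⟩⟩
  · rintro m2 m3 k2 k3 h1 h2 h3 h4 ⟨h5, h6⟩ h7
    refine ⟨S.mono _ _ _ _ h1 h2 h3 h4 h5 h7, ?_⟩
    rintro ⟨rfl, rfl⟩
    obtain ⟨h8, h9⟩ := (hle _ _ _ _).1 h7
    have h10 := hk0min k2 (Finset.mem_filter.2 ⟨h3, hmono _ _ _ _ h1 h2 h3 h3 h5 h8 le_rfl⟩)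
    have h11 := htop m2 h1 k2 h3 (by omega) h5
    exact h6 ⟨hinj _ _ (by omega), hinj _ _ (by omega)⟩
  · apply Finset.card_lt_card
    refine ⟨fun p hp => ?_, fun hsub => ?_⟩
    · simp only [Finset.mem_filter, Finset.mem_univ, true_and] at hp ⊢
      exact ⟨hp.1, hp.2.1, hp.2.2.1⟩
    · have := Finset.mem_of_subset (a := (m, k0)) hsub
        (Finset.mem_filter.2 ⟨Finset.mem_univ _, hmJ, hk0J, hk0A⟩)
      simp at this
  · have e0 : c ≠ k0 := fun e => hc (e ▸ hk0J)
    have e1 : c ≠ k1 := fun e => hc (e ▸ hk1J)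
    rw [Equiv.Perm.mul_apply, ha, swap_apply_of_ne_of_ne e0 e1, hσ.1 c hc]
  · rw [Equiv.Perm.mul_apply, ha]
    by_cases h0 : c = k0
    · subst h0
      rw [swap_apply_left]
      exact hmono _ _ _ _ hmJ (web_mem_J hσ hk1J) hc hc hk0A
        (htop _ (web_mem_J hσ hk1J) k1 hk1J (by omega) (hσ.2 k1 hk1J)) le_rfl
    · by_cases h1 : c = k1
      · subst h1
        rw [swap_apply_right]
        exact hmono _ _ _ _ (web_mem_J hσ hk0J) (web_mem_J hσ hk0J) hk0J hc (hσ.2 k0 hk0J) le_rfl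
          (by omega)
      · rw [swap_apply_of_ne_of_ne h0 h1]
        exact hσ.2 c hc
  · exact ⟨⟨hσ.1, fun c hc => (hσ.2 c hc).1⟩, fun e => (hσ.2 k0 hk0J).2 ⟨e, rfl⟩⟩
  · refine ⟨hσ.1.1, fun c hc => ⟨hσ.1.2 c hc, ?_⟩⟩
    rintro ⟨e, rfl⟩
    exact hσ.2 e

variable {Pk : Pack n}

lemma web_line {A Γ : Type} [Fintype A] [DecidableEq A] {en : A → Perm (Fin n)}
    {lab : Γ → A → Fin n} (hrec : ∀ k, ∃ γ, ∀ π, lab γ π = en π k)
    (h : InU Pk en (genMod en lab)) (S : Stair n)
    [Fintype {x : A × Perm (Fin n) // S.mem x.2}] :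
    InU Pk (fun x : {x : A × Perm (Fin n) // S.mem x.2} => en x.1.1 * x.1.2)
      (genMod (fun x : {x : A × Perm (Fin n) // S.mem x.2} => en x.1.1 * x.1.2)
        (fun γ x => lab γ x.1.1)) := by
  classical
  induction hN : web_cnt S using Nat.strong_induction_on generalizing S with
  | _ N ih =>
  rcases web_corner S with h1 | h1 | ⟨a, k, m, S', hk, hlt, hcl, hS'⟩
  · haveI : IsEmpty {x : A × Perm (Fin n) // S.mem x.2} := ⟨fun x => h1 _ x.2⟩
    exact web_inU_empty _ _
  · let e : A ≃ {x : A × Perm (Fin n) // S.mem x.2} :=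
      { toFun := fun π => ⟨(π, 1), (h1 1).2 rfl⟩
        invFun := fun x => x.1.1
        left_inv := fun π => rfl
        right_inv := fun x => Subtype.ext (Prod.ext rfl ((h1 _).1 x.2).symm) }
    refine web_inU_gen_equiv e (fun π => mul_one _) (fun γ => ?_) (fun γ => ?_) h
    · refine (congrArg (· ∈ genMod en lab) ?_).mpr (web_gen_mem en lab γ)
      ext π
      simp [web_gen, e]
    · refine (congrArg (· ∈ genMod _ _) ?_).mpr (web_gen_mem _ _ γ)
      ext x
      have := (h1 _).1 x.2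
      simp [web_gen, e, this]
  · obtain ⟨η, hη⟩ := hrec m
    refine web_move a (fun x => ⟨(x.1.1, x.1.2 * sr a), hcl _ x.2⟩) (fun x => ?_) (fun x => ?_)
      (fun γ x => rfl) η k hk ?_
    · exact Subtype.ext (Prod.ext rfl (mul_sr_sr _ _))
    · exact (mul_assoc _ _ _).symm
    · have h2 := ih _ (hN ▸ hlt) S' rfl
      let e : {x : A × Perm (Fin n) // S'.mem x.2} ≃ {x : {x : A × Perm (Fin n) // S.mem x.2} //
          lab η x.1.1 ≠ (en x.1.1 * x.1.2) k} :=
        { toFun := fun x => ⟨⟨x.1, ((hS' _).1 x.2).1⟩, by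
            rw [hη, Equiv.Perm.mul_apply]
            exact fun e => ((hS' _).1 x.2).2 ((en x.1.1).injective e).symm⟩
          invFun := fun x => ⟨x.1.1, (hS' _).2 ⟨x.1.2, fun e => x.2 (by
            rw [hη, Equiv.Perm.mul_apply, e])⟩⟩
          left_inv := fun x => rfl
          right_inv := fun x => rfl }
      exact web_inU_gen_equiv e (fun π => rfl) (fun γ => web_gen_mem _ _ γ)
        (fun γ => web_gen_mem _ _ γ) h2

theorem inU_paths (Pk : Pack n) {m : ℕ} (S : Fin m → Stair n) [Fintype (Paths S)]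
    [DecidableEq (Paths S)] :
    InU Pk (fun w : Paths S => w.1 (Fin.last m))
      (genMod (fun w : Paths S => w.1 (Fin.last m))
        (fun (γ : Fin (m + 1) × Fin n) (w : Paths S) => w.1 γ.1 γ.2)) := by
  classical
  induction m with
  | zero =>
    have h1 : ∀ w : Paths S, w.1 (Fin.last 0) = 1 := fun w => w.2.1
    letI : Unique (Paths S) :=
      ⟨⟨⟨fun _ => 1, rfl, fun c => c.elim0⟩⟩, fun w => Subtype.ext (funext fun c => by
        obtain rfl : c = 0 := Subsingleton.elim (α := Fin 1) _ _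
        exact w.2.1)⟩
    refine web_inU_base _ h1 _ ?_ (fun f hf => ?_)
    · convert web_const_mem _ _ 1 using 1
      ext w; simp
    · exact web_gen_induction (p := fun f => ∀ π, f π ∈ Set.range (algebraMap (R n) (Q n)))
        (fun γ π => ⟨_, rfl⟩) (fun r π => ⟨r, rfl⟩)
        (fun f g _ _ h1 h2 π => by
          obtain ⟨r, hr⟩ := h1 π
          obtain ⟨s, hs⟩ := h2 π
          exact ⟨r + s, by rw [map_add, hr, hs]; rfl⟩)
        (fun f g _ _ h1 h2 π => by
          obtain ⟨r, hr⟩ := h1 π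
          obtain ⟨s, hs⟩ := h2 π
          exact ⟨r * s, by rw [map_mul, hr, hs]; rfl⟩) hf
  | succ m ih =>
    haveI : Finite (Paths (fun c : Fin m => S c.castSucc)) := by
      unfold Paths; infer_instance
    letI : Fintype (Paths (fun c : Fin m => S c.castSucc)) := Fintype.ofFinite _
    have h1 := web_line (fun k => ⟨(Fin.last m, k), fun π => rfl⟩)
      (ih (fun c : Fin m => S c.castSucc)) (S (Fin.last m))
    let e : {x : Paths (fun c : Fin m => S c.castSucc) × Perm (Fin n) //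
        (S (Fin.last m)).mem x.2} ≃ Paths S :=
      { toFun := fun x => ⟨Fin.snoc (α := fun _ => Perm (Fin n)) x.1.1.1
            (x.1.1.1 (Fin.last m) * x.1.2), by
          refine ⟨?_, fun c => ?_⟩
          · exact (Fin.snoc_castSucc (α := fun _ => Perm (Fin n)) _ _ (0 : Fin (m + 1))).trans
              x.1.1.2.1
          · induction c using Fin.lastCases with
            | last =>
              rw [Fin.succ_last, Fin.snoc_last, Fin.snoc_castSucc, inv_mul_cancel_left]
              exact x.2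
            | cast c =>
              rw [Fin.succ_castSucc, Fin.snoc_castSucc, Fin.snoc_castSucc]
              exact x.1.1.2.2 c⟩
        invFun := fun w => ⟨(⟨fun c => w.1 c.castSucc, w.2.1, fun c => w.2.2 c.castSucc⟩,
          (w.1 (Fin.last m).castSucc)⁻¹ * w.1 (Fin.last (m + 1))), w.2.2 (Fin.last m)⟩
        left_inv := fun x => by
          refine Subtype.ext (Prod.ext (Subtype.ext (funext fun c => ?_)) ?_)
          · simp
          · simp
        right_inv := fun w => by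
          refine Subtype.ext (funext fun c => ?_)
          induction c using Fin.lastCases with
          | last => simp
          | cast c => simp }
    refine web_inU_gen_equiv e (fun x => ?_) (fun γ => ?_) (fun γ => ?_) h1
    · simp [e]
    · obtain ⟨c, k⟩ := γ
      induction c using Fin.lastCases with
      | last =>
        convert web_const_mem _ _ (MvPolynomial.X k) using 1
        ext x
        simp only [web_gen, Function.comp, symm_apply_apply]
      | cast c =>
        convert web_gen_mem _ _ (c, k) using 1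
        ext x
        simp [web_gen, e]
    · convert web_gen_mem _ _ (γ.1.castSucc, γ.2) using 1
      ext w
      simp [web_gen, e]

end Pool.Agent.P.MP_c3da96_co
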